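import Pool.Agent.Kim.Base

/-!
# The base given by a plane curve of degree six

`F` is a form of degree `6` in three variables. The points of the base are the (vectors of
coordinates of the) points `c` of the curve `F = 0` with `G(c) ≠ 0`. The end is the point `δ`.
-/

set_option autoImplicit false

noncomputable section

namespace Pool.Agent.Kim

open Pool.Agent.ZCyc Pool.Agent.TInf Polynomial
open Pool.Agent.VFP (Om tt)

universe u

variable {k : Type u} [Field k] {r : ℕ}

theorem at_mv {ι : Type*} {v : Place k (Om k)} {S : ι → Om k} {s : ι → k}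
    (hs : ∀ j, v.At (S j) (s j)) (A : MvPolynomial ι k) :
    v.At (MvPolynomial.aeval S A) (MvPolynomial.aeval s A) := by
  induction A using MvPolynomial.induction_on with
  | C a =>
    rw [MvPolynomial.aeval_C, MvPolynomial.aeval_C]
    exact Place.at_const a
  | add p q hp hq =>
    rw [map_add, map_add]
    exact hp.add hq
  | mul_X p i hp =>
    rw [map_mul, map_mul, MvPolynomial.aeval_X, MvPolynomial.aeval_X]
    exact hp.mul (hs i)

theorem aeval_const {ι : Type*} (s : ι → k) (A : MvPolynomial ι k) :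
    MvPolynomial.aeval (fun a => algebraMap k (Om k) (s a)) A =
      algebraMap k (Om k) (MvPolynomial.aeval s A) :=
  MvPolynomial.aeval_algebraMap_apply _ _ _

/-- the curve `F = 0` is nonsingular -/
def NonSing (F : MvPolynomial (Fin 3) k) : Prop :=
  ∀ x : Fin 3 → k, (∀ i, MvPolynomial.aeval x (MvPolynomial.pderiv i F) = 0) → x = 0

/-- the points of the curve with `G ≠ 0` -/
abbrev CPt (F G : MvPolynomial (Fin 3) k) (K : Type*) [Field K] [Algebra k K] : Type _ :=
  {c : Fin 3 → K // MvPolynomial.aeval c F = 0 ∧ MvPolynomial.aeval c G ≠ 0}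

/-- The base: the curve `F = 0`, the open subset `G ≠ 0`, the coefficients `α i`, `B i`, and the
end `δ`. -/
def baseC (F G : MvPolynomial (Fin 3) k) (α B : Fin r → MvPolynomial (Fin 3) k)
    (δ : Fin 3 → k) : Base k r where
  P0 := CPt F G k
  P1 := CPt F G (Om k)
  a0 i c := MvPolynomial.aeval c.1 (α i)
  b0 i c := MvPolynomial.aeval c.1 (B i)
  a1 i c := MvPolynomial.aeval c.1 (α i)
  b1 i c := MvPolynomial.aeval c.1 (B i)
  cst c := ⟨fun a => algebraMap k (Om k) (c.1 a), by
    rw [aeval_const, c.2.1, map_zero], by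
    rw [aeval_const]
    exact (_root_.map_ne_zero _).2 c.2.2⟩
  To v S s := ∀ a, v.At (S.1 a) (s.1 a)
  End v S := ∃ l : Om k, ∀ a, v.At (l * S.1 a) (δ a)
  a1_cst i s := aeval_const _ _
  b1_cst i s := aeval_const _ _
  to_cst v s a := Place.at_const _
  to_a h i := at_mv h _
  to_b h i := at_mv h _

/-- TARGET of the curve part (Part I): the families exist. `N` is the number of points,
`∑ 6 e_i = 2 n'`; Riemann's inequality gives `N - 10` free parameters. -/
def FamCurve (k : Type u) [Field k] : Prop :=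
  ∀ {r : ℕ} (F G : MvPolynomial (Fin 3) k) (α B : Fin r → MvPolynomial (Fin 3) k)
    (δ : Fin 3 → k) (e : Fin r → ℕ) (n N : ℕ), F.IsHomogeneous 6 → NonSing F → 0 < r →
    (∀ i, 0 < e i) → (∀ i, (α i).IsHomogeneous (2 * e i)) →
    (∀ i, (B i).IsHomogeneous (3 * e i)) → ∑ i, 6 * e i = 2 * n → n + 10 ≤ N →
    δ ≠ 0 → MvPolynomial.aeval δ F = 0 →
    (∃ i, MvPolynomial.aeval δ (B i) ^ 2 = 4 * MvPolynomial.aeval δ (α i) ^ 3) →
    (baseC F G α B δ).Fam N

end Pool.Agent.Kim
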