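import Pool.Agent.Kim.Base
import Pool.Agent.KFam.Zero

/-!
# The class of a general tuple is zero if the tuple has sufficiently many deformations

`Kim.Base.kf` converts the base to the form in `Pool.Agent.KFam`, where the family is constructed.
-/

set_option autoImplicit false

noncomputable section

namespace Pool.Agent.Kim

open Pool.Agent.ZCyc Pool.Agent.TInf Polynomial
open Pool.Agent.VFP (Om tt)

universe u

variable {k : Type u} [Field k] {r n : ℕ}

/-- the same base -/
def Base.kf (Z : Base k r) : KFam.Base k r where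
  P := Z.P0
  Q := Z.P1
  al := Z.a0
  be := Z.b0
  alQ := Z.a1
  beQ := Z.b1
  At := Z.To
  Bad v S _ := Z.End v S
  cst := Z.cst
  at_al _ _ _ h i := Z.to_a h i
  at_be _ _ _ h i := Z.to_b h i
  cst_at := Z.to_cst
  cst_al s i := Z.a1_cst i s
  cst_be s i := Z.b1_cst i s

variable {Z : Base k r} {W : Type*} [AddCommGroup W] [Module ℚ W]

/-- the same system -/
def BSys.kf (Y : BSys Z n W) : KFam.SysB Z.kf n W where
  F := Y.F
  Val := Y.Val
  perm := Y.perm
  odd := Y.odd
  inf := Y.inf
  off := Y.off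
  fin := Y.fin
  pole := Y.pole
  sing v S P hP _ j h := Y.sing v S P hP j h
  bridge := Y.bridge

theorem GenB.kf {s : Fin n → Z.P0} (h : GenB Z s) : Z.kf.Gen s :=
  ⟨h.nd, fun i => Or.inl (h.ds i)⟩

/-- The class is zero for all points of the curves over a general tuple with deformations with
sufficiently many parameters. -/
theorem zero_of_curve [IsAlgClosed k] [CharZero k] (Y : BSys Z n W) {d : Fin r → ℕ} {n₀ : ℕ}
    (hd : ∑ i, d i = 2 * n₀) (hn₀ : 0 < n₀) (hn : 0 < n) {s : Fin n → Z.P0} (hs : GenB Z s)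
    (F : KFam.CurveFam Z.kf d s) (hρ : n₀ ≤ F.ρ) (p : Fin r → Fin n → EPt k) : Y.F s p = 0 :=
  Y.kf.zero_gen hd hn₀ hn hs.kf F hρ p

end Pool.Agent.Kim
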