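import Pool.Agent.Kim.Core2

/-!
# General tangent points, and the main theorem for all nonsingular sextics
-/

set_option autoImplicit false

noncomputable section

namespace Pool.Agent.Kim

open Pool.Agent.ZCyc Pool.Agent.VFP Pool.Agent.TInf

universe u

variable {k : Type u} [Field k] {F α B : MvPolynomial (Fin 3) k} {e δ : Fin 3 → k} {n : ℕ}

private theorem core3_smul {A : MvPolynomial (Fin 3) k} {m : ℕ} (hA : A.IsHomogeneous m)
    (o : Fin 3 → k) (l : k) :
    MvPolynomial.aeval (l • o) A = l ^ m * MvPolynomial.aeval o A := by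
  rw [MvPolynomial.aeval_def, MvPolynomial.aeval_def, MvPolynomial.eval₂_eq,
    MvPolynomial.eval₂_eq, Finset.mul_sum]
  refine Finset.sum_congr rfl fun d hd => ?_
  have hdeg : ∑ i ∈ d.support, d i = m := by
    have := hA (MvPolynomial.mem_support_iff.1 hd)
    rw [Finsupp.weight_apply, Finsupp.sum] at this
    simpa using this
  simp only [Pi.smul_apply, smul_eq_mul, mul_pow, Finset.prod_mul_distrib,
    Finset.prod_pow_eq_pow_sum, hdeg]
  ring

private theorem core3_aeval_lf (v q : Fin 3 → k) :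
    MvPolynomial.aeval q (lf v) = ∑ i, v i * q i := by
  simp only [lf, map_sum, map_mul, MvPolynomial.aeval_C, MvPolynomial.aeval_X,
    Algebra.algebraMap_self, RingHom.id_apply]

private theorem core3_lf_ne {v : Fin 3 → k} (hv : v ≠ 0) : lf v ≠ 0 := by
  obtain ⟨j, hj⟩ := Function.ne_iff.1 hv
  intro h0
  have h1 := core3_aeval_lf v (Pi.single j 1)
  rw [h0, map_zero, Finset.sum_eq_single j (fun i _ hi => by
    rw [Pi.single_eq_of_ne hi, mul_zero]) (fun h => absurd (Finset.mem_univ j) h),
    Pi.single_eq_same, mul_one] at h1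
  exact hj h1.symm

private theorem core3_lf_hom (v : Fin 3 → k) : (lf v).IsHomogeneous 1 :=
  MvPolynomial.IsHomogeneous.sum _ _ _ fun _ _ => MvPolynomial.isHomogeneous_C_mul_X _ _

private theorem core3_not_dvd {G : MvPolynomial (Fin 3) k}
    (hδF : MvPolynomial.aeval δ F = 0) (h : MvPolynomial.aeval δ G ≠ 0) : ¬ F ∣ G := by
  rintro ⟨q, rfl⟩
  apply h
  rw [map_mul, hδF, zero_mul]

/-- the coefficients of a linear form -/
private def core3_v (L : (Fin 3 → k) →ₗ[k] k) (i : Fin 3) : k := L (Pi.single i 1)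

private theorem core3_aeval_v (L : (Fin 3 → k) →ₗ[k] k) (x : Fin 3 → k) :
    MvPolynomial.aeval x (lf (core3_v L)) = L x := by
  rw [core3_aeval_lf]
  have h1 := LinearMap.pi_apply_eq_sum_univ L x
  rw [h1]
  refine Finset.sum_congr rfl fun i _ => ?_
  rw [smul_eq_mul, mul_comm, core3_v]
  congr 2
  funext j
  by_cases hij : j = i
  · subst hij
    simp
  · simp [hij, Ne.symm hij]

private theorem core3_v_ne {L : (Fin 3 → k) →ₗ[k] k} {x : Fin 3 → k} (h : L x ≠ 0) :
    core3_v L ≠ 0 := by
  intro h0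
  apply h
  rw [← core3_aeval_v, h0, core3_aeval_lf]
  simp

/-- `exists_phi` for all families: the factors which are zero on the curve are left out. -/
theorem exists_phi₂ [IsAlgClosed k] [CharZero k] (hF : F.IsHomogeneous 6) (hns : NonSing F)
    (hm : MinModel F α B) (he : e ≠ 0)
    {T : Crv.Frame k} {E : Finset k}
    {w : Fin n → Pt k} {c : Fin n → Fin 3 → k} {m : ℕ} (h : Tan₂ F α B e T E m w c) :
    ∃ Φ : MvPolynomial (Fin 3) k, Φ ≠ 0 ∧ ∀ q : Fin 3 → k, MvPolynomial.aeval q Φ ≠ 0 →
      ∃ c' : Fin 3 → k, MvPolynomial.aeval c' F = 0 ∧ ∑ i, grad F c' i * q i = 0 ∧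
        MvPolynomial.aeval c' (Gp F e) ≠ 0 ∧ (¬ F ∣ α → MvPolynomial.aeval c' α ≠ 0) ∧
        (¬ F ∣ B → MvPolynomial.aeval c' B ≠ 0) ∧ T.l c' = 1 ∧ T.m c' ∉ E ∧
        (∀ i : Fin n, (i : ℕ) < m → T.m (c i) ≠ T.m c') ∧
        (¬ Isot F α B → ∀ i : Fin n, (i : ℕ) < m →
          MvPolynomial.aeval (c i) B ^ 2 * MvPolynomial.aeval c' α ^ 3 ≠
            MvPolynomial.aeval c' B ^ 2 * MvPolynomial.aeval (c i) α ^ 3) := by
  classical
  have hP := prime_F hF hns
  -- the factors
  set U : Fin n → MvPolynomial (Fin 3) k := fun i =>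
    MvPolynomial.C (MvPolynomial.aeval (c i) B ^ 2) * α ^ 3 -
      MvPolynomial.C (MvPolynomial.aeval (c i) α ^ 3) * B ^ 2 with hU
  have hUev : ∀ (i : Fin n) (x : Fin 3 → k), MvPolynomial.aeval x (U i) =
      MvPolynomial.aeval (c i) B ^ 2 * MvPolynomial.aeval x α ^ 3 -
        MvPolynomial.aeval (c i) α ^ 3 * MvPolynomial.aeval x B ^ 2 := by
    intro i x
    rw [hU]
    simp only [map_sub, map_mul, map_pow, MvPolynomial.aeval_C, Algebra.algebraMap_self,
      RingHom.id_apply]
  set α' : MvPolynomial (Fin 3) k := if F ∣ α then 1 else α with hα'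
  set B' : MvPolynomial (Fin 3) k := if F ∣ B then 1 else B with hB'
  set S : Finset (Fin n) := if Isot F α B then ∅ else
    Finset.univ.filter fun i => (i : ℕ) < m with hS
  set E' : Finset k := E ∪ (Finset.univ.filter fun i : Fin n => (i : ℕ) < m).image
    fun i => T.m (c i) with hE'
  set M : k → (Fin 3 → k) →ₗ[k] k := fun x => T.m - x • T.l with hM
  have hMev : ∀ x v, M x v = T.m v - x * T.l v := fun x v => rfl
  set g : MvPolynomial (Fin 3) k := Gp F e * α' * B' * lf (core3_v T.l) *
    (∏ x ∈ E', lf (core3_v (M x))) * ∏ i ∈ S, U i with hg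
  have hone : (1 : MvPolynomial (Fin 3) k).IsHomogeneous 0 :=
    MvPolynomial.isHomogeneous_one _ _
  have hα'h : ∃ a, α'.IsHomogeneous a := by
    rw [hα']
    split_ifs
    · exact ⟨0, hone⟩
    · exact ⟨36, hm.homα⟩
  have hB'h : ∃ a, B'.IsHomogeneous a := by
    rw [hB']
    split_ifs
    · exact ⟨0, hone⟩
    · exact ⟨54, hm.homB⟩
  obtain ⟨a₁, ha₁⟩ := hα'h
  obtain ⟨a₂, ha₂⟩ := hB'h
  have hn1 : ¬ F ∣ (1 : MvPolynomial (Fin 3) k) := fun hd => hP.not_unit (isUnit_of_dvd_one hd)
  have hα'n : ¬ F ∣ α' := by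
    rw [hα']
    split_ifs with hd
    · exact hn1
    · exact hd
  have hB'n : ¬ F ∣ B' := by
    rw [hB']
    split_ifs with hd
    · exact hn1
    · exact hd
  have hUhom : ∀ i, (U i).IsHomogeneous 108 := by
    intro i
    refine MvPolynomial.IsHomogeneous.sub ?_ ?_
    · have h1 := (MvPolynomial.isHomogeneous_C (Fin 3) (MvPolynomial.aeval (c i) B ^ 2)).mul
        (hm.homα.pow 3)
      simpa using h1
    · have h1 := (MvPolynomial.isHomogeneous_C (Fin 3) (MvPolynomial.aeval (c i) α ^ 3)).mul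
        (hm.homB.pow 2)
      simpa using h1
  have hDhom : (Dq F e).IsHomogeneous 132 := by
    refine MvPolynomial.IsHomogeneous.sub ?_ ?_
    · have h1 := (MvPolynomial.isHomogeneous_C (Fin 3) (4 : k)).mul
        ((Iq_hom (e := e) hF).pow 3)
      have h2 : (MvPolynomial.C (4 : k) : MvPolynomial (Fin 3) k) = 4 := by
        rw [map_ofNat]
      rw [h2] at h1
      simpa using h1
    · exact (Jq_hom (e := e) hF).pow 2
  have hGhom : (Gp F e).IsHomogeneous (1 + (6 + 4 * 6) + 132) :=
    ((core3_lf_hom e).mul (Fc_hom (e := e) hF 6)).mul hDhom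
  have hghom : g.IsHomogeneous (1 + (6 + 4 * 6) + 132 + a₁ + a₂ + 1 + ∑ x ∈ E', 1 +
      ∑ i ∈ S, 108) :=
    ((((hGhom.mul ha₁).mul ha₂).mul (core3_lf_hom _)).mul
      (MvPolynomial.IsHomogeneous.prod _ _ _ fun x _ => core3_lf_hom _)).mul
      (MvPolynomial.IsHomogeneous.prod _ _ _ fun i _ => hUhom i)
  have hUne : ∀ i ∈ S, ¬ F ∣ U i := by
    intro i hi hd
    rw [hS] at hi
    by_cases hI : Isot F α B
    · rw [if_pos hI] at hi
      exact absurd hi (Finset.notMem_empty i)
    rw [if_neg hI] at hi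
    have him : (i : ℕ) < m := (Finset.mem_filter.1 hi).2
    have hnα : ¬ F ∣ α := fun h1 => hI (Or.inl h1)
    have hnB : ¬ F ∣ B := fun h1 => hI (Or.inr (Or.inl h1))
    have h1 := h.al hnα i him
    have h2 := h.be hnB i him
    refine hI (Or.inr (Or.inr ⟨MvPolynomial.aeval (c i) B ^ 2 / MvPolynomial.aeval (c i) α ^ 3,
      div_ne_zero (pow_ne_zero _ h2) (pow_ne_zero _ h1), ?_⟩))
    have h3 : B ^ 2 - MvPolynomial.C (MvPolynomial.aeval (c i) B ^ 2 /
        MvPolynomial.aeval (c i) α ^ 3) * α ^ 3 =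
        MvPolynomial.C (-(MvPolynomial.aeval (c i) α ^ 3)⁻¹) * U i := by
      have h4 : (MvPolynomial.C (MvPolynomial.aeval (c i) α ^ 3)⁻¹ : MvPolynomial (Fin 3) k) *
          MvPolynomial.C (MvPolynomial.aeval (c i) α ^ 3) = 1 := by
        rw [← map_mul, inv_mul_cancel₀ (pow_ne_zero _ h1), map_one]
      rw [hU]
      change _ = MvPolynomial.C (-(MvPolynomial.aeval (c i) α ^ 3)⁻¹) *
        (MvPolynomial.C (MvPolynomial.aeval (c i) B ^ 2) * α ^ 3 -
          MvPolynomial.C (MvPolynomial.aeval (c i) α ^ 3) * B ^ 2)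
      rw [div_eq_mul_inv, map_mul, map_neg]
      linear_combination (-B ^ 2) * h4
    rw [h3]
    exact Dvd.dvd.mul_left hd _
  have hlne : ¬ F ∣ lf (core3_v T.l) := by
    refine DiscA.not_dvd_lf hF hns (core3_v_ne (x := T.e) ?_)
    rw [T.le]
    exact one_ne_zero
  have hMne : ∀ x, ¬ F ∣ lf (core3_v (M x)) := by
    intro x
    refine DiscA.not_dvd_lf hF hns (core3_v_ne (x := T.a) ?_)
    rw [hMev, T.ma, T.la, mul_zero, sub_zero]
    exact one_ne_zero
  have hgne : ¬ F ∣ g := by
    intro hd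
    rw [hg] at hd
    rcases hP.dvd_or_dvd hd with hd | hd
    · rcases hP.dvd_or_dvd hd with hd | hd
      · rcases hP.dvd_or_dvd hd with hd | hd
        · rcases hP.dvd_or_dvd hd with hd | hd
          · rcases hP.dvd_or_dvd hd with hd | hd
            · unfold Gp at hd
              rcases hP.dvd_or_dvd hd with hd | hd
              · rcases hP.dvd_or_dvd hd with hd | hd
                · exact DiscA.not_dvd_lf hF hns he hd
                · exact F6_ne hF hns he hd
              · exact Dq_ne hF hns he hd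
            · exact hα'n hd
          · exact hB'n hd
        · exact hlne hd
      · obtain ⟨x, -, hd⟩ := (Prime.dvd_finsetProd_iff hP _).1 hd
        exact hMne x hd
    · obtain ⟨i, hi, hd⟩ := (Prime.dvd_finsetProd_iff hP _).1 hd
      exact hUne i hi hd
  obtain ⟨Z, hZ0, hZ⟩ := finite_zeros hF hns hghom hgne
  refine ⟨∏ z ∈ Z, lf (grad F z), ?_, ?_⟩
  · refine Finset.prod_ne_zero_iff.2 fun z hz => core3_lf_ne ?_
    exact grad_ne hns (hZ0 z hz)
  · intro q hq
    obtain ⟨c', hc0, hcF, hct⟩ := exists_tangent hF hns (x := q)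
    have hgrs : ∀ (l : k) (z : Fin 3 → k) (i : Fin 3), grad F (l • z) i = l ^ 5 * grad F z i := by
      intro l z i
      unfold grad
      exact core3_smul (m := 6 - 1) (hF.pderiv (i := i)) z l
    have hgc : MvPolynomial.aeval c' g ≠ 0 := by
      intro h0
      obtain ⟨z, hz, l, hl⟩ := hZ c' hc0 hcF h0
      apply hq
      rw [map_prod]
      refine Finset.prod_eq_zero hz ?_
      rw [core3_aeval_lf]
      have hl0 : l ≠ 0 := by
        rintro rfl
        apply hc0
        rw [hl, zero_smul]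
      have h1 : l ^ 5 * ∑ i, grad F z i * q i = 0 := by
        rw [← hct, Finset.mul_sum]
        refine Finset.sum_congr rfl fun i _ => ?_
        rw [hl, hgrs]
        ring
      exact (mul_eq_zero.1 h1).resolve_left (pow_ne_zero _ hl0)
    rw [hg, map_mul, map_mul, map_mul, map_mul, map_mul, map_prod, map_prod] at hgc
    have h1 := right_ne_zero_of_mul hgc
    have h1' := right_ne_zero_of_mul (left_ne_zero_of_mul hgc)
    have h1'' := left_ne_zero_of_mul (left_ne_zero_of_mul hgc)
    have hl := right_ne_zero_of_mul h1''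
    have h2 := right_ne_zero_of_mul (left_ne_zero_of_mul h1'')
    have h3 := right_ne_zero_of_mul (left_ne_zero_of_mul (left_ne_zero_of_mul h1''))
    have h4 := left_ne_zero_of_mul (left_ne_zero_of_mul (left_ne_zero_of_mul h1''))
    rw [core3_aeval_v] at hl
    set t : k := (T.l c')⁻¹ with ht
    have ht0 : t ≠ 0 := inv_ne_zero hl
    have htl : T.l (t • c') = 1 := by
      rw [map_smul, smul_eq_mul, ht, inv_mul_cancel₀ hl]
    have hmE' : T.m (t • c') ∉ E' := by
      intro h0
      refine (Finset.prod_ne_zero_iff.1 h1') _ h0 ?_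
      rw [core3_aeval_v, hMev, map_smul, smul_eq_mul, ht]
      field_simp
      ring
    refine ⟨t • c', ?_, ?_, ?_, ?_, ?_, htl, ?_, ?_, ?_⟩
    · rw [core3_smul hF, hcF, mul_zero]
    · have h5 : ∑ i, grad F (t • c') i * q i = t ^ 5 * ∑ i, grad F c' i * q i := by
        rw [Finset.mul_sum]
        refine Finset.sum_congr rfl fun i _ => ?_
        rw [hgrs]
        ring
      rw [h5, hct, mul_zero]
    · rw [core3_smul hGhom]
      exact mul_ne_zero (pow_ne_zero _ ht0) h4
    · intro hnα
      rw [core3_smul hm.homα]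
      rw [hα', if_neg hnα] at h3
      exact mul_ne_zero (pow_ne_zero _ ht0) h3
    · intro hnB
      rw [core3_smul hm.homB]
      rw [hB', if_neg hnB] at h2
      exact mul_ne_zero (pow_ne_zero _ ht0) h2
    · intro h0
      exact hmE' (Finset.mem_union_left _ h0)
    · intro i hi h0
      refine hmE' (Finset.mem_union_right _ (Finset.mem_image.2 ⟨i, ?_, h0⟩))
      exact Finset.mem_filter.2 ⟨Finset.mem_univ _, hi⟩
    · intro hI i hi h0
      have hiS : i ∈ S := by
        rw [hS, if_neg hI]
        exact Finset.mem_filter.2 ⟨Finset.mem_univ _, hi⟩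
      refine (Finset.prod_ne_zero_iff.1 h1) i hiS ?_
      rw [core3_smul hm.homα, core3_smul hm.homB] at h0
      rw [hUev]
      have h5 : t ^ 108 * (MvPolynomial.aeval (c i) B ^ 2 * MvPolynomial.aeval c' α ^ 3 -
          MvPolynomial.aeval (c i) α ^ 3 * MvPolynomial.aeval c' B ^ 2) = 0 := by
        linear_combination h0
      exact (mul_eq_zero.1 h5).resolve_left (pow_ne_zero _ ht0)

/-- Move the points `w j` for `j = m, m + 1, …` (`AX_move`, `exists_phi`; for `m = n` this is
`AX_tan`). -/
theorem AX_of_tan₂ [IsAlgClosed k] [CharZero k] (hF : F.IsHomogeneous 6) (hns : NonSing F)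
    (hm : MinModel F α B) (hδ0 : δ ≠ 0) (hδF : MvPolynomial.aeval δ F = 0)
    (hδe : MvPolynomial.aeval δ (lf e) ≠ 0)
    (hδ : MvPolynomial.aeval δ B ^ 2 = 4 * MvPolynomial.aeval δ α ^ 3)
    {T : Crv.Frame k} {E : Finset k} (hE : Excl₂ F α B e δ T E) (hn : 69 ≤ n) {m : ℕ}
    (hmn : m ≤ n) {w : Fin n → Pt k} (hw : ∀ j, OnX F (w j)) {c : Fin n → Fin 3 → k}
    (h : Tan₂ F α B e T E m w c) : AX F w = 0 := by
  classical
  have he : e ≠ 0 := by
    intro h0
    apply hδe
    rw [core3_aeval_lf, h0]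
    simp
  obtain ⟨d, hd⟩ : ∃ d, n = m + d := ⟨n - m, by omega⟩
  induction d generalizing m w c with
  | zero =>
    have hm' : m = n := by omega
    subst hm'
    exact AX_tan₂ hF hns hm hδ0 hδF hδe hδ hE hn hw h
  | succ d ih =>
    obtain ⟨Φ, hΦ, H⟩ := exists_phi₂ hF hns hm he h
    have hF0 : F ≠ 0 := (prime_F hF hns).ne_zero
    have hmlt : m < n := by omega
    refine AX_move hF hF0 hw ⟨m, hmlt⟩ hΦ fun q hq hqy hqΦ => ?_
    obtain ⟨c', h1, h2, h3, h4, h5, h6, h7, h8, h9⟩ := H q.x hqΦ
    have hlt : ∀ j : Fin n, (j : ℕ) < m → j ≠ ⟨m, hmlt⟩ := fun j hj h0 => by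
      rw [h0] at hj
      exact lt_irrefl _ hj
    have hcase : ∀ j : Fin n, (j : ℕ) < m + 1 → (j : ℕ) < m ∨ j = ⟨m, hmlt⟩ := fun j hj => by
      rcases Nat.lt_succ_iff_lt_or_eq.1 hj with h0 | h0
      · exact Or.inl h0
      · exact Or.inr (Fin.ext h0)
    refine ih (m := m + 1) (c := Function.update c ⟨m, hmlt⟩ c') (by omega) (fun j => ?_) ?_
      (by omega)
    · by_cases hj : j = ⟨m, hmlt⟩
      · subst hj
        rw [Function.update_self]
        exact hq
      · rw [Function.update_of_ne hj]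
        exact hw j
    · have hsame : ∀ j : Fin n, (j : ℕ) < m → Function.update c ⟨m, hmlt⟩ c' j = c j :=
        fun j hj => Function.update_of_ne (hlt j hj) _ _
      have hsamew : ∀ j : Fin n, (j : ℕ) < m → Function.update w ⟨m, hmlt⟩ q j = w j :=
        fun j hj => Function.update_of_ne (hlt j hj) _ _
      have hself : Function.update c ⟨m, hmlt⟩ c' ⟨m, hmlt⟩ = c' := Function.update_self _ _ _
      have hselfw : Function.update w ⟨m, hmlt⟩ q ⟨m, hmlt⟩ = q := Function.update_self _ _ _
      constructor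
      · intro j hj
        rcases hcase j hj with h0 | rfl
        · rw [hsamew j h0]
          exact h.y j h0
        · rw [hselfw]
          exact hqy
      · intro j hj
        rcases hcase j hj with h0 | rfl
        · rw [hsame j h0]
          exact h.eq j h0
        · rw [hself]
          exact h1
      · intro j hj
        rcases hcase j hj with h0 | rfl
        · rw [hsame j h0, hsamew j h0]
          exact h.tan j h0
        · rw [hself, hselfw]
          exact h2
      · intro j hj
        rcases hcase j hj with h0 | rfl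
        · rw [hsame j h0]
          exact h.gp j h0
        · rw [hself]
          exact h3
      · intro hnα j hj
        rcases hcase j hj with h0 | rfl
        · rw [hsame j h0]
          exact h.al hnα j h0
        · rw [hself]
          exact h4 hnα
      · intro hnB j hj
        rcases hcase j hj with h0 | rfl
        · rw [hsame j h0]
          exact h.be hnB j h0
        · rw [hself]
          exact h5 hnB
      · intro j hj
        rcases hcase j hj with h0 | rfl
        · rw [hsame j h0]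
          exact h.l j h0
        · rw [hself]
          exact h6
      · intro j hj
        rcases hcase j hj with h0 | rfl
        · rw [hsame j h0]
          exact h.mE j h0
        · rw [hself]
          exact h7
      · intro i j hij hj
        rcases hcase j hj with h0 | rfl
        · rw [hsame j h0, hsame i (hij.trans h0)]
          exact h.inj i j hij h0
        · rw [hself, hsame i hij]
          exact h8 i hij
      · intro hI i j hij hj
        rcases hcase j hj with h0 | rfl
        · rw [hsame j h0, hsame i (hij.trans h0)]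
          exact h.ds hI i j hij h0
        · rw [hself, hsame i hij]
          exact h9 hI i hij

theorem AX_zero₂ [IsAlgClosed k] [CharZero k] (hF : F.IsHomogeneous 6) (hns : NonSing F)
    (hn : 69 ≤ n)
    {w : Fin n → Pt k} (hw : ∀ j, OnX F (w j)) : AX F w = 0 := by
  obtain ⟨α, B, hm⟩ := exists_minModel hF hns
  obtain ⟨δ, hδ0, hδF, hδ'⟩ := exists_zero₂ (f := F) (g := B ^ 2 - 4 * α ^ 3) (b := 108) hF (by
    refine MvPolynomial.IsHomogeneous.sub (hm.homB.pow 2) ?_
    have h1 := (MvPolynomial.isHomogeneous_C (Fin 3) (4 : k)).mul (hm.homα.pow 3)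
    have h2 : (MvPolynomial.C (4 : k) : MvPolynomial (Fin 3) k) = 4 := by
      rw [map_ofNat]
    rw [h2] at h1
    simpa using h1) (by norm_num) (by norm_num)
  have hδ : MvPolynomial.aeval δ B ^ 2 = 4 * MvPolynomial.aeval δ α ^ 3 := by
    rw [map_sub, map_mul, map_pow, map_pow, map_ofNat] at hδ'
    exact sub_eq_zero.1 hδ'
  obtain ⟨e, he⟩ : ∃ e : Fin 3 → k, MvPolynomial.aeval δ (lf e) ≠ 0 := by
    obtain ⟨i, hi⟩ := Function.ne_iff.1 hδ0
    refine ⟨Pi.single i 1, ?_⟩
    have h1 : MvPolynomial.aeval δ (lf (Pi.single i (1 : k))) = δ i := by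
      rw [lf, map_sum, Finset.sum_eq_single i]
      · rw [map_mul, MvPolynomial.aeval_C, MvPolynomial.aeval_X, Pi.single_eq_same]
        simp
      · intro j _ hj
        rw [Pi.single_eq_of_ne hj]
        simp
      · intro h
        exact absurd (Finset.mem_univ i) h
    rw [h1]
    exact hi
  have hF0 : F ≠ 0 := (prime_F hF hns).ne_zero
  obtain ⟨o, ho⟩ : ∃ o : Fin 3 → k, MvPolynomial.eval o F ≠ 0 := by
    by_contra hcon
    push Not at hcon
    exact hF0 (MvPolynomial.funext fun x => by rw [hcon x, map_zero])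
  have hli : LinearIndependent k ![o, δ] := by
    rw [LinearIndependent.pair_iff]
    intro s t hst
    have hs : s = 0 := by
      by_contra hs
      have h1 : o = (-(s⁻¹ * t)) • δ := by
        have h2 : s • o = -(t • δ) := eq_neg_of_add_eq_zero_left hst
        calc o = s⁻¹ • (s • o) := by rw [smul_smul, inv_mul_cancel₀ hs, one_smul]
          _ = (-(s⁻¹ * t)) • δ := by rw [h2, smul_neg, smul_smul, neg_smul]
      apply ho
      have h3 : MvPolynomial.aeval o F = 0 := by
        rw [h1, core3_smul hF, hδF, mul_zero]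
      rw [← MvPolynomial.aeval_eq_eval]
      exact h3
    subst hs
    rw [zero_smul, zero_add] at hst
    exact ⟨rfl, (smul_eq_zero.1 hst).resolve_right hδ0⟩
  obtain ⟨T, hTo, hTδ⟩ := Crv.exists_frame hli
  obtain ⟨E, hE⟩ := exists_excl₂ (e := e) hF hns hm T (by rw [hTo]; exact ho) hδF hTδ
  refine AX_of_tan₂ (c := fun _ => δ) hF hns hm hδ0 hδF he hδ hE hn (Nat.zero_le n) hw ?_
  constructor <;> intros <;> omega

/-- `Λ ^ n CH₀(X)₀ = 0` for all double planes with nonsingular branch curve -/
theorem main₂ [IsAlgClosed k] [CharZero k] (hF : F.IsHomogeneous 6) (hns : NonSing F)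
    (hn : 69 ≤ n) {z : Fin n → Pt k →₀ ℚ} (hz : ∀ i, ∀ p ∈ (z i).support, OnX F p)
    (h0 : ∀ i, ((z i).sum fun _ c => c) = 0) :
    ∑ τ : Equiv.Perm (Fin n), ((Equiv.Perm.sign τ : ℤ) : ℚ) • extProd (z ∘ τ) ∈ ratEq F n :=
  alt_mem hF (fun _ hw => AX_zero₂ hF hns hn hw) hz h0

end Pool.Agent.Kim
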