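import Pool.Agent.Kim.Base

/-!
# The square roots over `Om k`
-/

set_option autoImplicit false

noncomputable section

namespace Pool.Agent.Kim

open Pool.Agent.ZCyc Pool.Agent.TInf Polynomial
open Pool.Agent.VFP (Om tt)

universe u

variable {k : Type u} [Field k] [IsAlgClosed k] [CharZero k] {r n : ℕ} {Z : Base k r}

omit [CharZero k] in
/-- The square roots over `Om k`. -/
theorem exists_betaB {s : Fin n → Z.P0} (hs : GenB Z s) (S : Fin n → Z.P1) (i : Fin r) :
    ∃ β' : Fin n → Om k, (∀ j, β' j ^ 2 = Z.Av i S j ^ 3) ∧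
      ∀ (v : Place k (Om k)) (π : Equiv.Perm (Fin n)), (∀ j, Z.To v (S j) (s (π j))) →
        ∀ β : Fin n → k, (∀ j, v.At (β' j) (β j)) →
          Adm (Z.av i (s ∘ π)) (Z.bv i (s ∘ π)) β := by
  have hsq : ∀ j, ∃ b : Om k, b ^ 2 = Z.Av i S j ^ 3 := fun j =>
    IsAlgClosed.exists_pow_nat_eq _ (by norm_num)
  choose β' hβ' using hsq
  refine ⟨β', hβ', fun v π hS β hβ => ⟨fun j => ?_, Or.inl ?_⟩⟩
  · have h2 : v.At (β' j ^ 2) (β j ^ 2) := (hβ j).pow 2
    rw [hβ' j] at h2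
    exact h2.unique ((Z.to_a (hS j) i).pow 3)
  · intro i' j hij
    exact hs.ds i (π i') (π j) fun h0 => hij (π.injective h0)

end Pool.Agent.Kim
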