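import Pool.Agent.Kim.BPts

/-!
# Values of the families at the end
-/

set_option autoImplicit false

noncomputable section

namespace Pool.Agent.Kim

open Pool.Agent.ZCyc Pool.Agent.TInf Polynomial
open Pool.Agent.VFP (Om tt)

universe u

variable {k : Type u} [Field k] [IsAlgClosed k] [CharZero k] {r n : ℕ} {Z : Base k r}
  {W : Type*} [AddCommGroup W] [Module ℚ W]

/-- If the `S j` are constants, and the class of a member of the family is not zero at `v` then
everything is bounded at `v`: otherwise some `w i j` has a zero or a pole at `v` (if all `w i j` are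
units then the sides are units by `side_unit`, and `st_mem` gives a contradiction). -/
theorem Pts_endB (Y : BSys Z n W) {ζ : k} (hζ : IsPrimitiveRoot ζ 3) (hn : 0 < n)
    {s : Fin n → Z.P0} (hs : ∀ i, NdU (Z.av i s) (Z.bv i s)) {v : Place k (Om k)}
    {M' : Fin r → Mq (Om k)} {P' : Fin r → Om k} {β' : Fin r → Fin n → Om k}
    (hβ : ∀ i j, β' i j ^ 2 = Z.Av i (fun j => Z.cst (s j)) j ^ 3) {i : Fin r}
    (h : ¬ (PIn v (M' i).a ∧ PIn v (M' i).b ∧ PIn v (M' i).c ∧ PIn v (M' i).t ∧
      P' i ∈ v.ring ∧ (P' i)⁻¹ ∈ v.ring)) (a : Fin r → Fin n → ZMod 3) :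
    Y.Val v (fun j => Z.cst (s j))
      (PtsB Z ζ (fun j => Z.cst (s j)) M' P' β' a) 0 := by
  classical
  set S : Fin n → Z.P1 := fun j => Z.cst (s j) with hS
  have hon : On1 Z S (PtsB Z ζ S M' P' β' a) := Pts_onB hζ S M' P' β' a
  have hevA : ∀ (i : Fin r) (j : Fin n), Z.Av i S j = algebraMap k (Om k) (Z.av i s j) :=
    fun i j => Z.a1_cst i (s j)
  have hevB : ∀ (i : Fin r) (j : Fin n), Z.Bv i S j = algebraMap k (Om k) (Z.bv i s j) :=
    fun i j => Z.b1_cst i (s j)
  have hSv : ∀ j, Z.To v (S j) (s j) := fun j => Z.to_cst v _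
  by_cases hT : ∃ Tw : Fin r → (Fin n → Om k) × (Fin n → Om k), ∀ i,
      Rw (Z.Av i S) (Z.Bv i S) (M' i) (P' i) ⟨1, β' i, (Tw i).1⟩ (Tw i).2
  · have hPts : PtsB Z ζ S M' P' β' a = fun i j => epoint (algebraMap k (Om k) ζ)
        (Z.Av i S j) ((⟨1, β' i, (hT.choose i).1⟩ : Cfg (Om k) n).side (Z.Bv i S) j)
        ((hT.choose i).2 j) (a i j) := dif_pos hT
    have hTw := hT.choose_spec i
    rw [hPts] at hon ⊢
    generalize hT.choose = Tw at hTw hon ⊢
    obtain ⟨c, hc⟩ : ∃ c : Cfg (Om k) n, c = ⟨1, β' i, (Tw i).1⟩ := ⟨_, rfl⟩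
    have hcβ : c.β = β' i := by rw [hc]
    rw [← hc] at hTw
    have hw0 : ∀ j, (Tw i).2 j ≠ 0 := by
      intro j h0
      have h1 := hTw.w6 j
      rw [h0] at h1
      obtain ⟨g0, g1, g2⟩ := hTw.good.2 j
      have : (c.side (Z.Bv i S) j).V ≠ 0 :=
        div_ne_zero (mul_ne_zero g1 g2) (mul_ne_zero two_ne_zero g0)
      apply this
      rw [← h1]
      norm_num
    by_cases hz : ∃ j, v.At ((Tw i).2 j) 0 ∨ (Tw i).2 j ∉ v.ring
    · obtain ⟨j, hj⟩ := hz
      refine Y.pole v S _ hon i j (s j) (hSv j) ?_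
      refine epoint_inf hζ.pow_eq_one (α' := Z.av i s j) ?_ ((hs i).hα j) (hw0 j) hj (a i j)
      rw [hevA]
      exact Place.at_const _
    · exfalso
      apply h
      push Not at hz
      have hwm : ∀ j, (Tw i).2 j ∈ v.ring := fun j => (hz j).2
      have hwi : ∀ j, ((Tw i).2 j)⁻¹ ∈ v.ring := by
        intro j
        by_contra hcon
        apply (hz j).1
        rw [Place.at_zero_iff, Place.vanishes_iff_or]
        exact Or.inr hcon
      have hun : ∀ j, (c.side (Z.Bv i S) j).Unit v := by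
        intro j
        have hβm : c.β j ∈ v.ring := by
          have h2 : c.β j ^ 2 ∈ v.ring := by
            rw [hTw.good.1 j, hevA, ← map_pow]
            exact v.const_mem _
          rcases v.ring.mem_or_inv_mem (c.β j) with h3 | h3
          · exact h3
          · by_cases h4 : c.β j = 0
            · rw [h4]
              exact zero_mem _
            · have h5 : c.β j = c.β j ^ 2 * (c.β j)⁻¹ := by field_simp
              rw [h5]
              exact mul_mem h2 h3
        have hBm : -Z.Bv i S j / 2 ∈ v.ring := by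
          have e : -Z.Bv i S j / 2 = algebraMap k (Om k) (-Z.bv i s j / 2) := by
            rw [hevB, map_div₀, map_neg, map_ofNat]
          rw [e]
          exact v.const_mem _
        have hD := Cfg.side_D hTw.good j
        have hD' : (c.side (Z.Bv i S) j).D =
            algebraMap k (Om k) ((Z.bv i s j ^ 2 - 4 * Z.av i s j ^ 3) / 4) := by
          rw [hD, hevB, hevA, map_div₀, map_sub, map_mul, map_pow, map_pow, map_ofNat]
        have hD0 : (Z.bv i s j ^ 2 - 4 * Z.av i s j ^ 3) / 4 ≠ 0 :=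
          div_ne_zero (sub_ne_zero.2 ((hs i).disc j)) (by norm_num)
        refine side_unit v (hTw.good.2 j) (add_mem hBm hβm) (sub_mem hBm hβm) ?_ ?_ ?_ ?_
        · rw [hD']
          exact (_root_.map_ne_zero _).2 hD0
        · rw [hD', ← map_inv₀]
          exact v.const_mem _
        · rw [← hTw.w6 j]
          exact pow_mem (hwm j) 6
        · rw [← hTw.w6 j, ← inv_pow]
          exact pow_mem (hwi j) 6
      obtain ⟨h1, h2, h3, h4⟩ := st_mem v (l := c.sides (Z.Bv i S)) (by
        intro t ht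
        obtain ⟨j, rfl⟩ := Cfg.mem_sides ht
        exact hun j)
      rw [← Cfg.M_eq, hTw.st] at h1 h2 h3 h4
      refine ⟨h1, h2, h3, h4, ?_, ?_⟩
      · rw [← hTw.prod]
        exact prod_mem fun j _ => hwm j
      · rw [← hTw.prod, ← Finset.prod_inv_distrib]
        exact prod_mem fun j _ => hwi j
  · have hPts : PtsB Z ζ S M' P' β' a = fun _ _ => none := dif_neg hT
    rw [hPts] at hon ⊢
    exact Y.pole v S _ hon i ⟨0, hn⟩ (s ⟨0, hn⟩) (hSv _) trivial

end Pool.Agent.Kim
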