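import Pool.Agent.Kim.BMulti

/-!
# The class `Psi` is well defined
-/

set_option autoImplicit false

noncomputable section

namespace Pool.Agent.Kim

open Pool.Agent.ZCyc Pool.Agent.TInf Polynomial
open Pool.Agent.VFP (Om tt)

universe u

variable {k : Type u} [Field k] [IsAlgClosed k] [CharZero k] {r n : ℕ} {Z : Base k r}
  {W : Type*} [AddCommGroup W] [Module ℚ W]

/-- The expression in the definition of `Psi`. -/
private def pEx (Y : BSys Z n W) (ζ : k) (s : Fin n → Z.P0) (c : Fin r → Cfg k n)
    (w : Fin r → Fin n → k) (l : Fin r → ZMod 3) : W :=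
  (∏ i, sgz (c i).ord) • MSl (Y.F s) ζ (fun i => Z.av i s)
      (fun i => (c i).side (Z.bv i s)) w l

private theorem psiEq_step (Y : BSys Z n W) {ζ : k} (hζ : IsPrimitiveRoot ζ 3)
    {s : Fin n → Z.P0} (hs : ∀ i, NdU (Z.av i s) (Z.bv i s)) (i : Fin r) {M : Mq k} {P : k}
    {c : Fin r → Cfg k n} {w : Fin r → Fin n → k} {c' : Cfg k n} {w' : Fin n → k}
    (h : Rz (Z.av i s) (Z.bv i s) M P (c i) (w i))
    (h' : Rz (Z.av i s) (Z.bv i s) M P c' w') (l : Fin r → ZMod 3) :
    pEx Y ζ s (Function.update c i c') (Function.update w i w') l = pEx Y ζ s c w l := by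
  unfold pEx
  have hR : ∏ j ∈ Finset.univ.erase i, sgz (Function.update c i c' j).ord =
      ∏ j ∈ Finset.univ.erase i, sgz (c j).ord := by
    refine Finset.prod_congr rfl fun j hj => ?_
    rw [Function.update_of_ne (Finset.ne_of_mem_erase hj)]
  rw [← Finset.mul_prod_erase Finset.univ _ (Finset.mem_univ i),
    ← Finset.mul_prod_erase Finset.univ (fun j => sgz (c j).ord) (Finset.mem_univ i), hR,
    MSl_eq i, MSl_eq i (Y.F s) ζ (fun i => Z.av i s) (fun i => (c i).side (Z.bv i s)) w l]
  rw [MSo_update i (Y.F s) ζ (fun i => Z.av i s)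
    (fun j => (Function.update c i c' j).side (Z.bv j s)) (fun j => (c j).side (Z.bv j s))
    (Function.update w i w') w l l
    (fun j hj => by rw [Function.update_of_ne hj]) (fun j hj => Function.update_of_ne hj _ _)
    (fun _ _ => rfl)]
  have hf := MSo_class (Y.multi s) i ζ (fun j => (c j).side (Z.bv j s)) w l
  have h1 := Sl_invU hf hζ (hs i) h.good h'.good h.adm h'.adm (h'.st.trans h.st.symm) h.w6
    h'.w6 (h'.prod.trans h.prod.symm) (l i)
  rw [mul_comm, mul_smul, mul_comm, mul_smul]
  congr 1
  rw [Function.update_self, Function.update_self]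
  exact h1

private theorem psiEq_all (Y : BSys Z n W) {ζ : k} (hζ : IsPrimitiveRoot ζ 3)
    {s : Fin n → Z.P0} (hs : ∀ i, NdU (Z.av i s) (Z.bv i s)) {M : Fin r → Mq k}
    {P : Fin r → k} {c c' : Fin r → Cfg k n} {w w' : Fin r → Fin n → k}
    (h : ∀ i, Rz (Z.av i s) (Z.bv i s) (M i) (P i) (c i) (w i))
    (h' : ∀ i, Rz (Z.av i s) (Z.bv i s) (M i) (P i) (c' i) (w' i))
    (l : Fin r → ZMod 3) (T : Finset (Fin r)) :
    pEx Y ζ s (fun i => if i ∈ T then c' i else c i) (fun i => if i ∈ T then w' i else w i) l =
      pEx Y ζ s c w l := by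
  induction T using Finset.induction_on with
  | empty => simp
  | insert q T hq ih =>
    rw [← ih]
    have e1 : (fun i => if i ∈ insert q T then c' i else c i) =
        Function.update (fun i => if i ∈ T then c' i else c i) q (c' q) := by
      funext i
      by_cases hi : i = q
      · subst hi
        rw [Function.update_self, if_pos (Finset.mem_insert_self i T)]
      · rw [Function.update_of_ne hi]
        simp only [Finset.mem_insert, hi, false_or]
    have e2 : (fun i => if i ∈ insert q T then w' i else w i) =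
        Function.update (fun i => if i ∈ T then w' i else w i) q (w' q) := by
      funext i
      by_cases hi : i = q
      · subst hi
        rw [Function.update_self, if_pos (Finset.mem_insert_self i T)]
      · rw [Function.update_of_ne hi]
        simp only [Finset.mem_insert, hi, false_or]
    rw [e1, e2]
    refine psiEq_step Y hζ hs q (M := M q) (P := P q) ?_ (h' q) l
    rw [if_neg hq, if_neg hq]
    exact h q

/-- One can use every realisation of the states and of the products in the definition of `Psi`.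
Let `c₀`, `w₀` be the chosen realisation. Change one index `i` after the other (induction over a
`Finset` of indices `i` where `(c i, w i)` is used instead of `(c₀ i, w₀ i)`): `MSl_eq`,
`MSo_update`, `MSo_class` (with `Y.multi s`) and `Sl_invU`. -/
theorem Psi_eqB (Y : BSys Z n W) {ζ : k} (hζ : IsPrimitiveRoot ζ 3) {s : Fin n → Z.P0}
    (hs : ∀ i, NdU (Z.av i s) (Z.bv i s)) {M : Fin r → Mq k} {P : Fin r → k}
    {c : Fin r → Cfg k n} {w : Fin r → Fin n → k}
    (h : ∀ i, Rz (Z.av i s) (Z.bv i s) (M i) (P i) (c i) (w i)) (l : Fin r → ZMod 3) :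
    PsiB Y ζ s M P l = (∏ i, sgz (c i).ord) • MSl (Y.F s) ζ (fun i => Z.av i s)
      (fun i => (c i).side (Z.bv i s)) w l := by
  have hex : ∃ cw : Fin r → Cfg k n × (Fin n → k),
      ∀ i, Rz (Z.av i s) (Z.bv i s) (M i) (P i) (cw i).1 (cw i).2 :=
    ⟨fun i => (c i, w i), h⟩
  unfold PsiB
  rw [dif_pos hex]
  have h1 := psiEq_all Y hζ hs (fun i => hex.choose_spec i) h l Finset.univ
  simp only [Finset.mem_univ, if_true] at h1
  exact h1.symm

end Pool.Agent.Kim
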