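import Pool.Agent.Kim.BStart
import Pool.Agent.TInf.FamClose
import Pool.Agent.TInf.GGStart
import Pool.Agent.TInf.FamSqrt
import Pool.Agent.Kim.BSym
import Pool.Agent.Kim.BPerm
import Pool.Agent.VFP.Util

/-!
# The value of the family at the start
-/

set_option autoImplicit false

noncomputable section

namespace Pool.Agent.Kim

open Pool.Agent.ZCyc Pool.Agent.TInf Polynomial
open Pool.Agent.VFP (Om tt)

universe u

variable {k : Type u} [Field k] [IsAlgClosed k] [CharZero k] {r n : ℕ} {Z : Base k r}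
  {W : Type*} [AddCommGroup W] [Module ℚ W]

omit [IsAlgClosed k] [CharZero k] in
private theorem ndu_perm {i : Fin r} {s : Fin n → Z.P0} (h : NdU (Z.av i s) (Z.bv i s))
    (π : Equiv.Perm (Fin n)) : NdU (Z.av i (s ∘ π)) (Z.bv i (s ∘ π)) := by
  refine ⟨fun j => h.hα (π j), fun j => h.hB (π j), fun j => h.disc (π j), ?_⟩
  rcases h.dist with h1 | h1
  · exact Or.inl fun i j hij => h1 (π i) (π j) fun h2 => hij (π.injective h2)
  · exact Or.inr fun i j => h1 (π i) (π j)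

omit [IsAlgClosed k] [CharZero k] in
private theorem at_ne {v : Place k (Om k)} {x : Om k} {c : k} (h : v.At x c) (hc : c ≠ 0) :
    x ≠ 0 := by
  rintro rfl
  exact hc (h.unique VFP.at_zero)

/-- The value of the family at a place above the start. For every `κ` use `Pts_startB` for `s ∘ π`,
the states `famM` (`IsSt.rot`, `fr_at`, `Clo.V0`, `clo_om`) and the values `Θv i = ± Θ i` of the `Θ' i` (a square root
of an element with a value has a value; `∏ Θv = ∏ Θ` by `hΘp`) and `± w (σ i b) i` of the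
`w' b i` (`W_value`). The class is `GGB Y ζ (s ∘ π) M Θv (± w (σ i (κ i)) i) l`; it is equal to
`GGB Y ζ s M Θ (w (σ i (κ i)) i) l` by `Psi_permB` and `GG_signsB`. The sum over `κ` is
invariant under the permutations `σ i`. -/
theorem GG_startB (Y : BSys Z n W) {ζ : k} (hζ : IsPrimitiveRoot ζ 3) (hn : 0 < n)
    {s : Fin n → Z.P0} (hs : GenB Z s) {M : Fin r → Mq k} {Ξ Θ : Fin r → k}
    {w : Bool → Fin r → k} (hC : ∀ b i, Clo (Z.av i s) (M i) (Ξ i) (Θ i) (w b i))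
    (hw1 : ∀ i, w false i ^ 2 + w true i ^ 2 = Ξ i)
    (hw2 : ∀ i, w false i ^ 2 * w true i ^ 2 = ∏ j, Z.av i s j) (hΘ : ∀ i, Θ i ≠ 0)
    {v : Place k (Om k)} {S : Fin n → Z.P1} {π : Equiv.Perm (Fin n)}
    (hS : ∀ j, Z.To v (S j) (s (π j))) {Mo : Fin r → Mq (Om k)}
    (hSt : ∀ i, IsSt (Z.Av i S) (Z.Bv i S) (Mo i)) (hMo : ∀ i, MAt v (Mo i) (M i))
    {Ξ' Θ' : Fin r → Om k} (hΞ' : ∀ i, v.At (Ξ' i) (Ξ i))
    (hΘ' : ∀ i, Θ' i ^ 2 = Ξ' i ^ 3 - 3 * (∏ j, Z.Av i S j) * Ξ' i - 2 * (Mo i).a.eval 1)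
    (hΘp : v.At (∏ i, Θ' i) (∏ i, Θ i)) {w' : Bool → Fin r → Om k}
    (hw1' : ∀ i, w' false i ^ 2 + w' true i ^ 2 = Ξ' i)
    (hw2' : ∀ i, w' false i ^ 2 * w' true i ^ 2 = ∏ j, Z.Av i S j)
    {β' : Fin r → Fin n → Om k} (hβ : ∀ i j, β' i j ^ 2 = Z.Av i S j ^ 3)
    (hβA : ∀ i, ∀ β : Fin n → k, (∀ j, v.At (β' i j) (β j)) →
      Adm (Z.av i (s ∘ π)) (Z.bv i (s ∘ π)) β) (l : Fin r → ZMod 3) :
    ∃ C : (Fin r → Bool) × (Fin r → Fin n → ZMod 3) → W,
      (∀ x, Y.Val v S (PtsB Z ζ S (famM Mo Θ' w' x.1) (fun i => w' (x.1 i) i) β' x.2) (C x)) ∧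
      ∑ x : (Fin r → Bool) × (Fin r → Fin n → ZMod 3),
        (if ∀ i, ∑ j, x.2 i j = l i then (1 : ℚ) else 0) • C x =
          ∑ κ : Fin r → Bool, GGB Y ζ s M Θ (fun i => w (κ i) i) l := by
  classical
  have hnd : ∀ i, NdU (Z.av i (s ∘ π)) (Z.bv i (s ∘ π)) := fun i => ndu_perm (hs.nd i) π
  have hαv : ∀ i j, v.At (Z.Av i S j) (Z.av i (s ∘ π) j) := fun i j =>
    Z.to_a (s := (s ∘ π) j) (hS j) i
  have hα0 : ∀ i j, Z.Av i S j ≠ 0 := fun i j => at_ne (hαv i j) ((hnd i).hα j)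
  have hprod : ∀ i, v.At (∏ j, Z.Av i S j) (∏ j, Z.av i s j) := by
    intro i
    have h1 := Place.At.prod (s := Finset.univ) fun j _ => hαv i j
    have h2 : ∏ j, Z.av i (s ∘ π) j = ∏ j, Z.av i s j :=
      Equiv.prod_comp π fun j => Z.av i s j
    rwa [h2] at h1
  have ha1 : ∀ i, v.At ((Mo i).a.eval 1) ((M i).a.eval 1) := fun i =>
    (hMo i).a.eval VFP.at_one
  -- the values of the `Θ' i`
  have hT : ∀ i, ∃ t : k, v.At (Θ' i) t ∧ t ^ 2 = Θ i ^ 2 := by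
    intro i
    have h1 : v.At (Ξ' i ^ 3 - 3 * (∏ j, Z.Av i S j) * Ξ' i - 2 * (Mo i).a.eval 1)
        (Ξ i ^ 3 - 3 * (∏ j, Z.av i s j) * Ξ i - 2 * (M i).a.eval 1) :=
      (((hΞ' i).pow 3).sub (((VFP.at_num 3).mul (hprod i)).mul (hΞ' i))).sub
        ((VFP.at_num 2).mul (ha1 i))
    obtain ⟨t, ht, ht2⟩ := exists_at_sqrt v (hΘ' i) h1
    exact ⟨t, ht, by rw [ht2, (hC true i).th]⟩
  choose t ht ht2 using hT
  have htΘ : ∀ i, t i = Θ i ∨ t i = -Θ i := fun i => sq_eq_sq_iff_eq_or_eq_neg.1 (ht2 i)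
  have htp : ∏ i, t i = ∏ i, Θ i :=
    (Place.At.prod (s := Finset.univ) fun i _ => ht i).unique hΘp
  -- the values of the `w' b i`
  have hU : ∀ i, ∃ (u : Bool → k) (σ : Equiv.Perm Bool), (∀ b, v.At (w' b i) (u b)) ∧
      ∀ b, u b = w (σ b) i ∨ u b = -w (σ b) i := fun i =>
    W_value (hΞ' i) (hprod i) (w' := fun b => w' b i) (hw1' i) (hw2' i) (w := fun b => w b i)
      (hw1 i) (hw2 i)
  choose u σ hu huw using hU
  -- the closing sides for the values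
  have hCw : ∀ i b, Clo (Z.av i s) (M i) (Ξ i) (Θ i) (u i b) := by
    intro i b
    rcases huw i b with h | h
    · rw [h]
      exact hC _ i
    · rw [h]
      exact (hC _ i).negW
  have hCt : ∀ i b, Clo (Z.av i s) (M i) (Ξ i) (t i) (u i b) := by
    intro i b
    rcases htΘ i with h | h
    · rw [h]
      exact hCw i b
    · rw [h]
      exact (hCw i b).negΘ
  have hCo : ∀ i b, Clo (Z.Av i S) (Mo i) (Ξ' i) (Θ' i) (w' b i) := fun i b =>
    clo_om (hSt i) (hMo i) (hC true i).ne (w' := fun b => w' b i) (hw1' i) (hw2' i) (hα0 i)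
      (hΘ' i) b
  -- every `κ`
  have hκ : ∀ κ : Fin r → Bool, ∃ C : (Fin r → Fin n → ZMod 3) → W,
      (∀ a, Y.Val v S (PtsB Z ζ S (famM Mo Θ' w' κ) (fun i => w' (κ i) i) β' a) (C a)) ∧
      ∑ a, (if ∀ i, ∑ j, a i j = l i then C a else 0) =
        GGB Y ζ s M Θ (fun i => w (σ i (κ i)) i) l := by
    intro κ
    obtain ⟨C, h1, h2⟩ := Pts_startB Y hζ hn (s := s ∘ π) hS hnd
      (M' := famM Mo Θ' w' κ) (M := fun i => (M i).fr ((M i).cT (t i) (u i (κ i))))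
      (fun i => by
        refine (hSt i).rot ?_
        refine div_ne_zero (neg_ne_zero.2 ?_) (hCo i (κ i)).cT_ne
        exact fun h0 => (hCo i (κ i)).ne (by rw [h0, mul_zero]))
      (fun i => fr_at (hMo i) (ht i) (hu i (κ i))
        (fun h0 => (hC true i).ne (by rw [h0, mul_zero])) (hCt i (κ i)).cT_ne)
      (P' := fun i => w' (κ i) i) (P := fun i => u i (κ i)) (fun i => hu i (κ i))
      (fun i => (hCt i (κ i)).W0) (fun i => ((hCo i (κ i)).V0).symm) hβ hβA l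
    refine ⟨C, h1, h2.trans ?_⟩
    rw [Psi_permB Y hζ hs.nd π]
    exact GG_signsB Y hζ hn hs.nd (Ξ := Ξ) (Θ := Θ) (w := fun i => w (σ i (κ i)) i)
      (Θ' := t) (w' := fun i => u i (κ i)) (fun i => hC _ i) htΘ (fun i => huw i (κ i)) htp
      (Finset.prod_ne_zero_iff.2 fun i _ => hΘ i) l
  choose C hC1 hC2 using hκ
  refine ⟨fun x => C x.1 x.2, fun x => hC1 x.1 x.2, ?_⟩
  rw [Fintype.sum_prod_type]
  have h3 : ∀ κ : Fin r → Bool, (∑ a : Fin r → Fin n → ZMod 3,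
      (if ∀ i, ∑ j, a i j = l i then (1 : ℚ) else 0) • C κ a) =
        GGB Y ζ s M Θ (fun i => w (σ i (κ i)) i) l := by
    intro κ
    rw [← hC2 κ]
    refine Finset.sum_congr rfl fun a _ => ?_
    split_ifs
    · rw [one_smul]
    · rw [zero_smul]
  rw [Finset.sum_congr rfl fun κ _ => h3 κ]
  exact Equiv.sum_comp (Equiv.piCongrRight σ) fun κ : Fin r → Bool =>
    GGB Y ζ s M Θ (fun i => w (κ i) i) l

end Pool.Agent.Kim
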