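import Pool.Agent.Kim.BZero
import Pool.Agent.TInf.MultiZero
import Pool.Agent.TInf.Generic

/-!
# The class of a general tuple is zero
-/

set_option autoImplicit false

noncomputable section

namespace Pool.Agent.Kim

open Pool.Agent.ZCyc Pool.Agent.TInf Polynomial
open Pool.Agent.VFP (Om tt)

universe u

variable {k : Type u} [Field k] [IsAlgClosed k] [CharZero k] {r n : ℕ} {Z : Base k r}
  {W : Type*} [AddCommGroup W] [Module ℚ W]

/-- The class of every tuple of points over a general tuple of points of the base is zero. -/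
theorem zeroB (Y : BSys Z n W) (hF : Z.Fam n) (hn : 0 < n) (hr : 0 < r) {s : Fin n → Z.P0}
    (hs : GenB Z s) (p : Fin r → Fin n → EPt k) : Y.F s p = 0 := by
  by_cases hp : On0 Z s p
  · obtain ⟨ζ, hζ⟩ := HasEnoughRootsOfUnity.exists_primitiveRoot k 3
    have hadm := fun i => exists_adm (hs.nd i) hn
    choose β hβ using hadm
    refine multi_zero (Y.multi s) hn hζ (fun i j => -Z.bv i s j / 2 + β i j)
      (fun i j => -Z.bv i s j / 2 - β i j) (fun i j => by ring) (fun i j => ?_)
      (fun i j => (hs.nd i).hα j) (fun i j => ?_) ?_ p hp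
    · have h4 := (hβ i).1 j
      linear_combination 4 * h4
    · intro h0
      have h4 := (hβ i).1 j
      apply (hs.nd i).disc j
      linear_combination 4 * h0 + 4 * h4
    · intro T w hT hw l
      have hg : ∀ i, (⟨1, β i, T i⟩ : Cfg k n).Good (Z.av i s) (Z.bv i s) := fun i =>
        ⟨(hβ i).1, fun j => hT i j⟩
      exact gen_zeroB Y hF hn hr hζ hs (c := fun i => ⟨1, β i, T i⟩) hg hβ (w := w) hw l
  · exact Y.off s p hp

end Pool.Agent.Kim
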