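import Pool.Agent.Kim.Base

/-!
# The points of the families
-/

set_option autoImplicit false

noncomputable section

namespace Pool.Agent.Kim

open Pool.Agent.ZCyc Pool.Agent.TInf Polynomial
open Pool.Agent.VFP (Om tt)

universe u

variable {k : Type u} [Field k] [IsAlgClosed k] [CharZero k] {r n : ℕ} {Z : Base k r}
  {W : Type*} [AddCommGroup W] [Module ℚ W]

/-- `epoint_on` -/
theorem Pts_onB {ζ : k} (hζ : IsPrimitiveRoot ζ 3) (S : Fin n → Z.P1) (M' : Fin r → Mq (Om k))
    (P' : Fin r → Om k) (β' : Fin r → Fin n → Om k) (a : Fin r → Fin n → ZMod 3) :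
    On1 Z S (PtsB Z ζ S M' P' β' a) := by
  classical
  have hζ' : (algebraMap k (Om k) ζ) ^ 3 = 1 := by rw [← map_pow, hζ.pow_eq_one, map_one]
  unfold PtsB
  split_ifs with h
  · intro i j
    have hr := h.choose_spec i
    refine epoint_on hζ' (hr.good.2 j) ?_ ?_ (hr.w6 j) (a i j)
    · simp only [Cfg.side]
      ring
    · have h1 := hr.good.1 j
      simp only [Cfg.side] at h1 ⊢
      linear_combination 4 * h1
  · intro i j
    trivial

private theorem Fam_roots {K : Type*} [Field K] [IsAlgClosed K] {v : Fin n → K}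
    (hv : ∀ j, v j ≠ 0) {P : K} (hP : P ^ 6 = ∏ j, v j)
    (hn : 0 < n) : ∃ w : Fin n → K, (∀ j, w j ^ 6 = v j) ∧ ∏ j, w j = P := by
  obtain ⟨i⟩ : Nonempty (Fin n) := ⟨⟨0, hn⟩⟩
  have h1 : ∀ j, ∃ w, w ^ 6 = v j := fun j => IsAlgClosed.exists_pow_nat_eq (v j) (by norm_num)
  choose w hw using h1
  have hw0 : ∀ j, w j ≠ 0 := by
    intro j h
    apply hv j
    rw [← hw j, h]
    norm_num
  have hp0 : ∏ j, w j ≠ 0 := Finset.prod_ne_zero_iff.2 fun j _ => hw0 j
  have hp6 : (∏ j, w j) ^ 6 = P ^ 6 := by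
    rw [← Finset.prod_pow, hP]
    exact Finset.prod_congr rfl fun j _ => hw j
  refine ⟨Function.update w i (P / (∏ j, w j) * w i), ?_, ?_⟩
  · intro j
    rcases eq_or_ne j i with rfl | hj
    · rw [Function.update_self, mul_pow, div_pow, hp6, div_self, one_mul, hw]
      rw [← hp6]
      exact pow_ne_zero 6 hp0
    · rw [Function.update_of_ne hj, hw]
  · rw [Finset.prod_update_of_mem (Finset.mem_univ i)]
    have h2 : w i * ∏ j ∈ Finset.univ \ {i}, w j = ∏ j, w j := by
      rw [← Finset.prod_update_of_mem (Finset.mem_univ i), Function.update_eq_self]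
    rw [mul_assoc, h2, div_mul_cancel₀ _ hp0]

/-- sixth roots with a given product exist (over an algebraically closed field): the product of the
`V` is `V0` by `V_st` -/
theorem exists_Rw {K : Type*} [Field K] [IsAlgClosed K] [CharZero K] (hn : 0 < n)
    {α B : Fin n → K} {M : Mq K} {P : K} (hP : P ^ 6 = M.V0) {c : Cfg K n} (hc : c.Good α B)
    (hM : c.M B = M) : ∃ w : Fin n → K, Rw α B M P c w := by
  have hP' : P ^ 6 = ∏ j, (c.side B j).V := by
    rw [hP, prod_VU hc, hM]
    rfl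
  have hV : ∀ j, (c.side B j).V ≠ 0 := by
    intro j
    obtain ⟨h1, h2, h3⟩ := hc.2 j
    exact div_ne_zero (mul_ne_zero h2 h3) (mul_ne_zero two_ne_zero h1)
  obtain ⟨w, h1, h2⟩ := Fam_roots hV hP' hn
  exact ⟨w, hc, hM, h1, h2⟩

end Pool.Agent.Kim
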