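import Pool.Agent.Kim.BGStart
import Pool.Agent.Kim.BGEnd
import Pool.Agent.Kim.BBeta
import Pool.Agent.TInf.FamState

/-!
# The sum over the points with the same closing data
-/

set_option autoImplicit false

noncomputable section

namespace Pool.Agent.Kim

open Pool.Agent.ZCyc Pool.Agent.TInf Polynomial
open Pool.Agent.VFP (Om tt)

universe u

variable {k : Type u} [Field k] [IsAlgClosed k] [CharZero k] {r n : ℕ} {Z : Base k r}
  {W : Type*} [AddCommGroup W] [Module ℚ W]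

omit [IsAlgClosed k] [CharZero k] in
private theorem at_aeval {v : Place k (Om k)} {τ : Om k} (hτ : v.At τ 0) (p : k[X]) :
    v.At (aeval τ p) (p.eval 0) := by
  induction p using Polynomial.induction_on' with
  | add p q hp hq =>
    rw [map_add, eval_add]
    exact hp.add hq
  | monomial m a =>
    rw [aeval_monomial, eval_monomial]
    exact (Place.at_const a).mul (hτ.pow m)

theorem GG_sumB (Y : BSys Z n W) (hF : Z.Fam n) (hn : 0 < n) (hr : 0 < r) {ζ : k}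
    (hζ : IsPrimitiveRoot ζ 3) {s : Fin n → Z.P0} (hs : GenB Z s) {M : Fin r → Mq k}
    (hSt : ∀ i, IsSt (Z.av i s) (Z.bv i s) (M i)) {Ξ Θ : Fin r → k}
    {w : Bool → Fin r → k} (hC : ∀ b i, Clo (Z.av i s) (M i) (Ξ i) (Θ i) (w b i))
    (hw1 : ∀ i, w false i ^ 2 + w true i ^ 2 = Ξ i)
    (hw2 : ∀ i, w false i ^ 2 * w true i ^ 2 = ∏ j, Z.av i s j) (hΘ : ∀ i, Θ i ≠ 0)
    (l : Fin r → ZMod 3) :
    ∑ κ : Fin r → Bool, GGB Y ζ s M Θ (fun i => w (κ i) i) l = 0 := by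
  classical
  obtain ⟨τ, ρ, c₀, c₁, S, A', P', M', G', x', y', hc₀, eA, eP, eM, eG, ex, ey, hSt', hy,
    hstart, hend⟩ := hF hs hSt hC hΘ
  obtain ⟨Mo, hMo⟩ : ∃ Mo : Fin r → Mq (Om k), Mo = fun i => mo τ (A' i) (P' i) (M' i) (G' i) :=
    ⟨_, rfl⟩
  have hmo : ∀ i, Mo i = mo τ (A' i) (P' i) (M' i) (G' i) := fun i => by rw [hMo]
  simp only [← hmo] at hSt' hy
  obtain ⟨Θ', hΘ'2, hΘ'p⟩ := exists_sqrts hr (y := ρ * aeval τ y')
    (m := fun i => (aeval τ (x' i)) ^ 3 - 3 * (∏ j, Z.Av i S j) * aeval τ (x' i) -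
      2 * (Mo i).a.eval 1) hy
  choose w₀ hw₀1 hw₀2 using fun i => exists_W (aeval τ (x' i)) (∏ j, Z.Av i S j)
  obtain ⟨w', hw'⟩ : ∃ w' : Bool → Fin r → Om k, w' = fun b i => w₀ i b := ⟨_, rfl⟩
  choose β' hβ' hβA using fun i => exists_betaB hs S i
  -- the state at a place above `c₀`
  have hmat : ∀ v : Place k (Om k), v.At (tt k) c₀ → ∀ i, MAt v (Mo i) (M i) := by
    intro v hv i
    rw [hMo]
    have h1 := mat_mo (hc₀ v hv).1 (A' i) (P' i) (M' i) (G' i)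
    rw [eA, eP, eM, eG] at h1
    exact h1
  -- the family
  refine Y.bridge (I := (Fin r → Bool) × (Fin r → Fin n → ZMod 3))
    (fun x => if ∀ i, ∑ j, x.2 i j = l i then (1 : ℚ) else 0) (fun _ => S)
    (fun x => PtsB Z ζ S (famM Mo Θ' w' x.1) (fun i => w' (x.1 i) i) β' x.2)
    (fun x => Pts_onB hζ _ _ _ _ _) c₀ c₁ _ 0 ?_ ?_
  · intro v hv
    obtain ⟨hτ0, hρ1⟩ := hc₀ v hv
    obtain ⟨π, hs'⟩ := hstart v hv
    refine GG_startB Y hζ hn hs hC hw1 hw2 hΘ (π := π) hs' hSt' (hmat v hv)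
      (Ξ' := fun i => aeval τ (x' i)) (fun i => ?_) hΘ'2 ?_ (fun i => ?_) (fun i => ?_) hβ'
      (fun i β hβ => hβA i v π hs' β hβ) l
    · rw [← ex i]
      exact at_aeval hτ0 _
    · rw [hΘ'p, ← ey, ← one_mul (y'.eval 0)]
      exact hρ1.mul (at_aeval hτ0 _)
    · rw [hw']
      exact hw₀1 i
    · rw [hw']
      exact hw₀2 i
  · intro v hv
    refine ⟨fun _ => 0, fun x => ?_, by simp⟩
    rcases hend with hE | ⟨hE, hS0, hnc⟩
    · obtain ⟨j, hj⟩ := hE v hv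
      exact Y.sing v S _ (Pts_onB hζ _ _ _ _ _) j hj
    · obtain ⟨v₀, hv₀⟩ := exists_place (VFP.tt_transc (k := k)) c₀
      have hcl : ∀ b i, Clo (Z.Av i S) (mo τ (A' i) (P' i) (M' i) (G' i)) (aeval τ (x' i))
          (Θ' i) (w' b i) := by
        intro b i
        rw [← hmo]
        rw [hw']
        refine clo_om (w' := w₀ i) (hSt' i) (hmat v₀ hv₀ i) (hC false i).ne (hw₀1 i) (hw₀2 i)
          (fun j => ?_) (hΘ'2 i) b
        rw [hS0]
        show Z.a1 i (Z.cst (s j)) ≠ 0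
        rw [Z.a1_cst]
        exact (_root_.map_ne_zero _).2 ((hs.nd i).hα j)
      rw [hMo]
      refine GG_endB Y hζ hn hs (Ξ := Ξ) (Θ := Θ) (fun i => (hC false i).ne) (hE v hv)
        eA eP eM eG ex hnc hS0 (fun i => ?_) hcl hβ' x
      rw [← hmo]
      exact hSt' i

end Pool.Agent.Kim
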