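import Pool.Agent.TInf.FamDefs
import Pool.Agent.TInf.EVal

/-!
# Families of elliptic curves over an abstract base

`Z : Base k r` consists of points over `k` and over `Om k` of a base, and of the values of the
coefficients `α_i`, `B_i` of `r` families of elliptic curves `y ² = x ³ - 3 α_i x + B_i` at these
points. A system of classes `Y : BSys Z n W` is a class function of `n`-tuples of points of the
fibre products of these families.
-/

set_option autoImplicit false

noncomputable section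

namespace Pool.Agent.Kim

open Pool.Agent.ZCyc Pool.Agent.TInf Polynomial
open Pool.Agent.VFP (Om tt)

universe u

/-- points over `k` and over `Om k` of a base, and coefficients of `r` families of cubics -/
structure Base (k : Type u) [Field k] (r : ℕ) where
  /-- points over `k` -/
  P0 : Type u
  /-- points over `Om k` -/
  P1 : Type u
  /-- the coefficients `α_i` -/
  a0 : Fin r → P0 → k
  /-- the coefficients `B_i` -/
  b0 : Fin r → P0 → k
  /-- the coefficients `α_i` over `Om k` -/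
  a1 : Fin r → P1 → Om k
  /-- the coefficients `B_i` over `Om k` -/
  b1 : Fin r → P1 → Om k
  /-- constant points -/
  cst : P0 → P1
  /-- the value of the point at the place `v` -/
  To : Place k (Om k) → P1 → P0 → Prop
  /-- the point tends at the place `v` to a point with a degenerate fibre -/
  End : Place k (Om k) → P1 → Prop
  a1_cst : ∀ i s, a1 i (cst s) = algebraMap k (Om k) (a0 i s)
  b1_cst : ∀ i s, b1 i (cst s) = algebraMap k (Om k) (b0 i s)
  to_cst : ∀ v s, To v (cst s) s
  to_a : ∀ {v S s}, To v S s → ∀ i, v.At (a1 i S) (a0 i s)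
  to_b : ∀ {v S s}, To v S s → ∀ i, v.At (b1 i S) (b0 i s)

variable {k : Type u} [Field k] {r n : ℕ} (Z : Base k r)

/-- the coefficients `α_i` at the points `s j` -/
def Base.av (i : Fin r) (s : Fin n → Z.P0) (j : Fin n) : k := Z.a0 i (s j)

/-- the coefficients `B_i` at the points `s j` -/
def Base.bv (i : Fin r) (s : Fin n → Z.P0) (j : Fin n) : k := Z.b0 i (s j)

/-- the coefficients `α_i` at the points `S j` -/
def Base.Av (i : Fin r) (S : Fin n → Z.P1) (j : Fin n) : Om k := Z.a1 i (S j)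

/-- the coefficients `B_i` at the points `S j` -/
def Base.Bv (i : Fin r) (S : Fin n → Z.P1) (j : Fin n) : Om k := Z.b1 i (S j)

/-- all points are on the curves -/
def On0 (s : Fin n → Z.P0) (p : Fin r → Fin n → EPt k) : Prop :=
  ∀ i j, EOn (Z.av i s j) (Z.bv i s j) (p i j)

/-- all points are on the curves -/
def On1 (S : Fin n → Z.P1) (P : Fin r → Fin n → EPt (Om k)) : Prop :=
  ∀ i j, EOn (Z.Av i S j) (Z.Bv i S j) (P i j)

/-- A system of classes of tuples of points of the fibre product. -/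
structure BSys (n : ℕ) (W : Type*) [AddCommGroup W] [Module ℚ W] where
  /-- the class -/
  F : (Fin n → Z.P0) → (Fin r → Fin n → EPt k) → W
  /-- the tuple over `Om k` has a value with this class -/
  Val : Place k (Om k) → (Fin n → Z.P1) → (Fin r → Fin n → EPt (Om k)) → W → Prop
  perm : ∀ (s : Fin n → Z.P0) (p : Fin r → Fin n → EPt k) (π : Equiv.Perm (Fin n)),
    F (s ∘ π) (fun i => p i ∘ π) = (((Equiv.Perm.sign π : ℤˣ) : ℤ) ^ r) • F s p
  odd : ∀ (s : Fin n → Z.P0) (p : Fin r → Fin n → EPt k) (i : Fin r) (j : Fin n) (x y : k),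
    p i j = some (x, y) →
    F s (Function.update p i (Function.update (p i) j (some (x, -y)))) = -F s p
  inf : ∀ (s : Fin n → Z.P0) (p : Fin r → Fin n → EPt k) (i : Fin r) (j : Fin n), p i j = none →
    F s p = 0
  off : ∀ (s : Fin n → Z.P0) (p : Fin r → Fin n → EPt k), ¬ On0 Z s p → F s p = 0
  fin : ∀ (v : Place k (Om k)) (S : Fin n → Z.P1) (P : Fin r → Fin n → EPt (Om k)),
    On1 Z S P → ∀ (s : Fin n → Z.P0) (p : Fin r → Fin n → EPt k), (∀ j, Z.To v (S j) (s j)) →
    (∀ i j, EVal v (P i j) (p i j)) → Val v S P (F s p)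
  pole : ∀ (v : Place k (Om k)) (S : Fin n → Z.P1) (P : Fin r → Fin n → EPt (Om k)),
    On1 Z S P → ∀ (i : Fin r) (j : Fin n) (c : Z.P0), Z.To v (S j) c → EVal v (P i j) none →
    Val v S P 0
  sing : ∀ (v : Place k (Om k)) (S : Fin n → Z.P1) (P : Fin r → Fin n → EPt (Om k)),
    On1 Z S P → ∀ (j : Fin n), Z.End v (S j) → Val v S P 0
  bridge : ∀ {I : Type} [Fintype I] (w : I → ℚ) (S : I → Fin n → Z.P1)
    (P : I → Fin r → Fin n → EPt (Om k)), (∀ x, On1 Z (S x) (P x)) → ∀ (c₀ c₁ : k) (C₀ C₁ : W),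
    (∀ v : Place k (Om k), v.At (tt k) c₀ → ∃ C : I → W, (∀ x, Val v (S x) (P x) (C x)) ∧
      ∑ x, w x • C x = C₀) →
    (∀ v : Place k (Om k), v.At (tt k) c₁ → ∃ C : I → W, (∀ x, Val v (S x) (P x) (C x)) ∧
      ∑ x, w x • C x = C₁) → C₀ = C₁

variable {Z} {W : Type*} [AddCommGroup W] [Module ℚ W]

open Classical in
/-- The class of the configurations with the states `M i` and the products `P i`; it is zero if there
are none. -/
def PsiB (Y : BSys Z n W) (ζ : k) (s : Fin n → Z.P0) (M : Fin r → Mq k) (P : Fin r → k)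
    (l : Fin r → ZMod 3) : W :=
  if h : ∃ cw : Fin r → Cfg k n × (Fin n → k),
      ∀ i, Rz (Z.av i s) (Z.bv i s) (M i) (P i) (cw i).1 (cw i).2 then
    (∏ i, sgz (h.choose i).1.ord) • MSl (Y.F s) ζ (fun i => Z.av i s)
      (fun i => (h.choose i).1.side (Z.bv i s)) (fun i => (h.choose i).2) l
  else 0

/-- The class for the points `(_, Θ i)` of the curves of the closing sides, and the `W i`. -/
def GGB (Y : BSys Z n W) (ζ : k) (s : Fin n → Z.P0) (M : Fin r → Mq k) (Θ w : Fin r → k)
    (l : Fin r → ZMod 3) : W :=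
  PsiB Y ζ s (fun i => (M i).fr ((M i).cT (Θ i) (w i))) w l

/-- The conditions for `s`: the cubics are nondegenerate, and for every `i` the numbers
`B ² / α ³` are distinct. -/
structure GenB (Z : Base k r) (s : Fin n → Z.P0) : Prop where
  nd : ∀ i, NdU (Z.av i s) (Z.bv i s)
  ds : ∀ i, ∀ j j', j ≠ j' → Z.bv i s j ^ 2 * Z.av i s j' ^ 3 ≠
    Z.bv i s j' ^ 2 * Z.av i s j ^ 3

variable (Z) in
open Classical in
/-- The points of the family with the states `M' i`, the square roots `β' i` and the products `P' i`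
(all points are at infinity if there are no configurations). -/
def PtsB (ζ : k) (S : Fin n → Z.P1) (M' : Fin r → Mq (Om k))
    (P' : Fin r → Om k) (β' : Fin r → Fin n → Om k) (a : Fin r → Fin n → ZMod 3) :
    Fin r → Fin n → EPt (Om k) :=
  if h : ∃ Tw : Fin r → (Fin n → Om k) × (Fin n → Om k), ∀ i,
      Rw (Z.Av i S) (Z.Bv i S) (M' i) (P' i) ⟨1, β' i, (Tw i).1⟩ (Tw i).2 then
    fun i j => epoint (algebraMap k (Om k) ζ) (Z.Av i S j)
      ((⟨1, β' i, (h.choose i).1⟩ : Cfg (Om k) n).side (Z.Bv i S) j) ((h.choose i).2 j) (a i j)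
  else fun _ _ => none

/-- The families of states: for every general tuple `s`, all states `M i` and closing points
`(Ξ i, Θ i)`, `Ξ i = w false i ² + w true i ²`, there is a family `S`, `mo τ ..` over a rational curve
which starts with them (above `c₀`), and which has an end (above `c₁`): either one of the points
`S j` tends to a degenerate fibre, or the points `S j` are constant, `τ` has a pole and the
states are not constant. -/
def Base.Fam (Z : Base k r) (n : ℕ) : Prop :=
  ∀ {s : Fin n → Z.P0}, GenB Z s → ∀ {M : Fin r → Mq k},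
    (∀ i, IsSt (Z.av i s) (Z.bv i s) (M i)) → ∀ {Ξ Θ : Fin r → k} {w : Bool → Fin r → k},
    (∀ b i, Clo (Z.av i s) (M i) (Ξ i) (Θ i) (w b i)) → (∀ i, Θ i ≠ 0) →
    ∃ (τ ρ : Om k) (c₀ c₁ : k) (S : Fin n → Z.P1) (A' P' M' G' : Fin r → k[X][X])
      (x' : Fin r → k[X]) (y' : k[X]),
      (∀ v : Place k (Om k), v.At (tt k) c₀ → v.At τ 0 ∧ v.At ρ 1) ∧
      (∀ i, (A' i).map (evalRingHom 0) = (M i).a) ∧ (∀ i, (P' i).map (evalRingHom 0) = (M i).b) ∧
      (∀ i, (M' i).map (evalRingHom 0) = (M i).c) ∧ (∀ i, (G' i).map (evalRingHom 0) = (M i).t) ∧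
      (∀ i, (x' i).eval 0 = Ξ i) ∧ y'.eval 0 = ∏ i, Θ i ∧
      (∀ i, IsSt (Z.Av i S) (Z.Bv i S) (mo τ (A' i) (P' i) (M' i) (G' i))) ∧
      (ρ * aeval τ y') ^ 2 = ∏ i, ((aeval τ (x' i)) ^ 3 -
        3 * (∏ j, Z.Av i S j) * aeval τ (x' i) -
        2 * (mo τ (A' i) (P' i) (M' i) (G' i)).a.eval 1) ∧
      (∀ v : Place k (Om k), v.At (tt k) c₀ →
        ∃ π : Equiv.Perm (Fin n), ∀ j, Z.To v (S j) (s (π j))) ∧
      ((∀ v : Place k (Om k), v.At (tt k) c₁ → ∃ j, Z.End v (S j)) ∨
        ((∀ v : Place k (Om k), v.At (tt k) c₁ → τ ∉ v.ring) ∧ (S = fun j => Z.cst (s j)) ∧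
          ¬ ∀ i, A' i = ((M i).a).map C ∧ P' i = ((M i).b).map C ∧ M' i = ((M i).c).map C ∧
            G' i = ((M i).t).map C ∧ x' i = C (Ξ i)))

end Pool.Agent.Kim
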