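import Pool.Agent.Kim.Bridge

/-!
# Points and their values
-/

set_option autoImplicit false

noncomputable section

namespace Pool.Agent.Kim

open Pool.Agent.ZCyc Pool.Agent.VFP Polynomial

universe u

variable {k : Type u} [Field k] {F : MvPolynomial (Fin 3) k}

theorem onX_cst {K : Type*} [Field K] [Algebra k K] {w : Pt k} (h : OnX F w) :
    OnX F (w.cst K) := by
  refine ⟨fun h0 => h.1 ?_, ?_⟩
  · funext j
    have h1 := congrFun h0 j
    simp only [Pt.cst, Pi.zero_apply] at h1 ⊢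
    exact (map_eq_zero _).1 h1
  · have h1 : MvPolynomial.aeval (w.cst K).x F =
        algebraMap k K (MvPolynomial.aeval w.x F) :=
      MvPolynomial.aeval_algebraMap_apply _ _ _
    rw [h1, ← h.2, map_pow]
    rfl

theorem isVal_cst (v : Place k (Om k)) (w : Pt k) : IsVal v (w.cst (Om k)) w := by
  refine ⟨1, fun j => ?_, ?_⟩
  · simp only [Pt.scale, Pt.cst, one_mul]
    exact Place.at_const _
  · simp only [Pt.scale, Pt.cst, one_pow, one_mul]
    exact Place.at_const _

theorem onX_scale (hF : F.IsHomogeneous 6) {K : Type*} [Field K] [Algebra k K] {c : K}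
    (hc : c ≠ 0) {w : Pt K} (h : OnX F w) : OnX F (w.scale c) := by
  refine ⟨fun h0 => h.1 ?_, ?_⟩
  · funext j
    have h1 := congrFun h0 j
    simp only [Pt.scale, Pi.zero_apply, mul_eq_zero] at h1 ⊢
    exact h1.resolve_left hc
  · have h1 : MvPolynomial.aeval (w.scale c).x F = c ^ 6 * MvPolynomial.aeval w.x F := by
      rw [MvPolynomial.aeval_def, MvPolynomial.aeval_def, MvPolynomial.eval₂_eq',
        MvPolynomial.eval₂_eq', Finset.mul_sum]
      refine Finset.sum_congr rfl fun d hd => ?_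
      have h2 := hF (MvPolynomial.mem_support_iff.1 hd)
      rw [Finsupp.weight_apply, Finsupp.sum_fintype _ _ (fun _ => by simp)] at h2
      simp only [Pi.one_apply, smul_eq_mul, mul_one] at h2
      simp only [Pt.scale, mul_pow, Finset.prod_mul_distrib, Finset.prod_pow_eq_pow_sum, h2]
      ring
    rw [h1, ← h.2]
    simp only [Pt.scale]
    ring

/-- other coordinates of the value -/
theorem isVal_scale {v : Place k (Om k)} {c : k} (hc : c ≠ 0) {P : Pt (Om k)} {p : Pt k}
    (h : IsVal v P p) : IsVal v P (p.scale c) := by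
  obtain ⟨d, h1, h2⟩ := h
  refine ⟨algebraMap k (Om k) c * d, fun j => ?_, ?_⟩
  · have h3 := (Place.at_const (v := v) c).mul (h1 j)
    simp only [Pt.scale] at h3 ⊢
    rw [mul_assoc]
    exact h3
  · have h3 := ((Place.at_const (v := v) c).pow 3).mul h2
    simp only [Pt.scale] at h3 ⊢
    rw [mul_pow, mul_assoc]
    exact h3

/-- other coordinates of the point -/
theorem isVal_scale_left {v : Place k (Om k)} {c : Om k} (hc : c ≠ 0) {P : Pt (Om k)} {p : Pt k}
    (h : IsVal v P p) : IsVal v (P.scale c) p := by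
  obtain ⟨d, h1, h2⟩ := h
  refine ⟨d * c⁻¹, fun j => ?_, ?_⟩
  · have h3 := h1 j
    simp only [Pt.scale] at h3 ⊢
    rwa [show d * c⁻¹ * (c * P.x j) = d * P.x j by field_simp]
  · simp only [Pt.scale] at h2 ⊢
    rwa [show (d * c⁻¹) ^ 3 * (c ^ 3 * P.y) = d ^ 3 * P.y by field_simp]

theorem isVal_aff {v : Place k (Om k)} {P : Pt (Om k)} {p : Pt k}
    (hx : ∀ j, v.At (P.x j) (p.x j)) (hy : v.At P.y p.y) : IsVal v P p := by
  refine ⟨1, fun j => ?_, ?_⟩
  · simp only [Pt.scale, one_mul]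
    exact hx j
  · simp only [Pt.scale, one_pow, one_mul]
    exact hy

theorem onX_sg {K : Type*} [Field K] [Algebra k K] (ε : ℤˣ) {w : Pt K} (h : OnX F w) :
    OnX F (w.sg ε) := by
  refine ⟨h.1, ?_⟩
  have h1 : ((ε : ℤ) : K) ^ 2 = 1 := by
    rcases Int.units_eq_one_or ε with rfl | rfl <;> simp
  calc (w.sg ε).y ^ 2 = ((ε : ℤ) : K) ^ 2 * w.y ^ 2 := by
        simp only [Pt.sg]
        ring
    _ = MvPolynomial.aeval (w.sg ε).x F := by
        rw [h1, one_mul, h.2]
        rfl

theorem isVal_sg (ε : ℤˣ) {v : Place k (Om k)} {P : Pt (Om k)} {p : Pt k} (h : IsVal v P p) :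
    IsVal v (P.sg ε) (p.sg ε) := by
  obtain ⟨d, h1, h2⟩ := h
  refine ⟨d, h1, ?_⟩
  have h3 := (Place.at_const (v := v) ((ε : ℤ) : k)).mul h2
  rw [map_intCast] at h3
  simp only [Pt.scale, Pt.sg] at h3 ⊢
  rwa [show d ^ 3 * (((ε : ℤ) : Om k) * P.y) = ((ε : ℤ) : Om k) * (d ^ 3 * P.y) by ring]

/-- Values are unique up to a change of coordinates. -/
theorem isVal_unique {v : Place k (Om k)} {P : Pt (Om k)} {p q : Pt k} (hp : p.x ≠ 0)
    (hq : q.x ≠ 0) (h : IsVal v P p) (h' : IsVal v P q) : ∃ c : k, c ≠ 0 ∧ q = p.scale c := by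
  obtain ⟨d, h1, h2⟩ := h
  obtain ⟨d', h1', h2'⟩ := h'
  obtain ⟨j, hj⟩ := Function.ne_iff.1 hp
  simp only [Pi.zero_apply] at hj
  simp only [Pt.scale] at h1 h2 h1' h2'
  have hdP : d * P.x j ≠ 0 := by
    intro h0
    have h3 := h1 j
    rw [h0] at h3
    exact hj (h3.unique at_zero)
  have hd : d ≠ 0 := left_ne_zero_of_mul hdP
  have hP : P.x j ≠ 0 := right_ne_zero_of_mul hdP
  have hr : v.At (d' / d) (q.x j / p.x j) := by
    have h3 := (h1' j).div (h1 j) hj
    rwa [mul_div_mul_right _ _ hP] at h3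
  have hx : ∀ i, q.x i = q.x j / p.x j * p.x i := by
    intro i
    have h3 := hr.mul (h1 i)
    rw [show d' / d * (d * P.x i) = d' * P.x i by field_simp] at h3
    exact (h1' i).unique h3
  have hy : q.y = (q.x j / p.x j) ^ 3 * p.y := by
    have h3 := (hr.pow 3).mul h2
    rw [show (d' / d) ^ 3 * (d ^ 3 * P.y) = d' ^ 3 * P.y by field_simp] at h3
    exact h2'.unique h3
  refine ⟨q.x j / p.x j, ?_, ?_⟩
  · intro h0
    apply hq
    funext i
    rw [hx i, h0, zero_mul]
    rfl
  · ext i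
    · exact hx i
    · exact hy

end Pool.Agent.Kim
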