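import Pool.Agent.Kim.BasicA

/-!
# Basic properties of the classes
-/

set_option autoImplicit false

noncomputable section

namespace Pool.Agent.Kim

open Pool.Agent.ZCyc Pool.Agent.VFP Polynomial

universe u

variable {k : Type u} [Field k] {F : MvPolynomial (Fin 3) k} {n : ℕ}

theorem AX_perm (w : Fin n → Pt k) (π : Equiv.Perm (Fin n)) :
    AX F (w ∘ π) = ((Equiv.Perm.sign π : ℤ) : ℚ) • AX F w := by
  unfold AX
  rw [Finset.smul_sum]
  refine Fintype.sum_equiv (Equiv.mulLeft π) _ _ fun τ => ?_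
  have h1 : w ∘ ((Equiv.mulLeft π) τ) = (w ∘ π) ∘ τ := by
    funext i
    rfl
  have h2 : ((Equiv.Perm.sign π : ℤ) : ℚ) *
      ((Equiv.Perm.sign ((Equiv.mulLeft π) τ) : ℤ) : ℚ) = ((Equiv.Perm.sign τ : ℤ) : ℚ) := by
    rw [Equiv.coe_mulLeft, Equiv.Perm.sign_mul]
    have h3 : ((Equiv.Perm.sign π : ℤ) : ℚ) * ((Equiv.Perm.sign π : ℤ) : ℚ) = 1 := by
      rw [← Int.cast_mul, ← Units.val_mul, Int.units_mul_self]
      simp
    rw [Units.val_mul, Int.cast_mul, ← mul_assoc, h3, one_mul]
  rw [h1, smul_smul, h2]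

private theorem bb_scale_sg (ε : ℤˣ) (c : k) (w : Pt k) : (w.scale c).sg ε = (w.sg ε).scale c := by
  ext
  · rfl
  · show ((ε : ℤ) : k) * (c ^ 3 * w.y) = c ^ 3 * (((ε : ℤ) : k) * w.y)
    ring

private theorem bb_sg_sg (ε δ : ℤˣ) (w : Pt k) : (w.sg δ).sg ε = w.sg (ε * δ) := by
  ext
  · rfl
  · show ((ε : ℤ) : k) * (((δ : ℤ) : k) * w.y) = (((ε * δ : ℤˣ) : ℤ) : k) * w.y
    rw [Units.val_mul, Int.cast_mul, mul_assoc]

/-- the sum over signs changes its sign -/
private theorem bb_TX_neg (w : Fin n → Pt k) (i : Fin n) :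
    TX F (Function.update w i ((w i).sg (-1))) = -TX F w := by
  classical
  set δ : Fin n → ℤˣ := Pi.mulSingle i (-1) with hδ
  unfold TX
  rw [← Finset.sum_neg_distrib]
  refine Fintype.sum_equiv (Equiv.mulRight δ) _ _ fun ε => ?_
  have hm : ∀ j, (Equiv.mulRight δ) ε j = ε j * δ j := fun _ => rfl
  have h1 : (fun j => (Function.update w i ((w i).sg (-1)) j).sg (ε j)) =
      fun j => (w j).sg ((Equiv.mulRight δ) ε j) := by
    funext j
    rw [hm]
    by_cases hj : j = i
    · subst hj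
      rw [Function.update_self, bb_sg_sg, hδ, Pi.mulSingle_eq_same]
    · rw [Function.update_of_ne hj, hδ, Pi.mulSingle_eq_of_ne hj, mul_one]
  have h2 : (∏ j, (((Equiv.mulRight δ) ε j : ℤ) : ℚ)) = -∏ j, ((ε j : ℤ) : ℚ) := by
    have h3 : ∀ j, (((Equiv.mulRight δ) ε j : ℤ) : ℚ) = ((ε j : ℤ) : ℚ) * ((δ j : ℤ) : ℚ) := by
      intro j
      rw [hm, Units.val_mul, Int.cast_mul]
    have h4 : (∏ j, ((δ j : ℤ) : ℚ)) = -1 := by
      rw [Finset.prod_eq_single i]
      · rw [hδ, Pi.mulSingle_eq_same]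
        simp
      · intro j _ hj
        rw [hδ, Pi.mulSingle_eq_of_ne hj]
        simp
      · intro h
        exact absurd (Finset.mem_univ i) h
    rw [Finset.prod_congr rfl fun j _ => h3 j, Finset.prod_mul_distrib, h4, mul_neg, mul_one]
  rw [h1, h2, neg_smul, neg_neg]

variable [IsAlgClosed k] [CharZero k]

/-- the class does not depend on the homogeneous coordinates (constant families) -/
theorem cX_scale (hF : F.IsHomogeneous 6) {c : Fin n → k} (hc : ∀ j, c j ≠ 0) {w : Fin n → Pt k}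
    (hw : ∀ j, OnX F (w j)) : cX F (fun j => (w j).scale (c j)) = cX F w := by
  refine bridgeX (I := Unit) (fun _ => 1) (fun _ j => (w j).cst (Om k))
    (fun _ j => onX_cst (hw j)) 0 1 _ _ (fun v _ => ?_) (fun v _ => ?_)
  · refine ⟨fun _ j => (w j).scale (c j), fun _ j => onX_scale hF (hc j) (hw j),
      fun _ j => isVal_scale (hc j) (isVal_cst v (w j)), ?_⟩
    simp
  · refine ⟨fun _ j => w j, fun _ j => hw j, fun _ j => isVal_cst v (w j), ?_⟩
    simp

theorem AX_scale (hF : F.IsHomogeneous 6) {c : Fin n → k} (hc : ∀ j, c j ≠ 0) {w : Fin n → Pt k}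
    (hw : ∀ j, OnX F (w j)) : AX F (fun j => (w j).scale (c j)) = AX F w := by
  unfold AX TX
  refine Finset.sum_congr rfl fun τ _ => ?_
  congr 1
  refine Finset.sum_congr rfl fun ε _ => ?_
  congr 1
  have h1 : (fun j => ((fun j => (w j).scale (c j)) ∘ τ) j |>.sg (ε j)) =
      fun j => (((w ∘ τ) j).sg (ε j)).scale ((c ∘ τ) j) := by
    funext j
    exact bb_scale_sg (ε j) (c (τ j)) (w (τ j))
  rw [h1]
  exact cX_scale hF (fun j => hc (τ j)) (fun j => onX_sg (ε j) (hw (τ j)))

omit [IsAlgClosed k] [CharZero k] in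
theorem AX_neg (w : Fin n → Pt k) (j : Fin n) :
    AX F (Function.update w j ((w j).sg (-1))) = -AX F w := by
  classical
  unfold AX
  rw [← Finset.sum_neg_distrib]
  refine Finset.sum_congr rfl fun τ _ => ?_
  have h1 : Function.update w j ((w j).sg (-1)) ∘ τ =
      Function.update (w ∘ τ) (τ.symm j) (((w ∘ τ) (τ.symm j)).sg (-1)) := by
    funext i
    by_cases hi : i = τ.symm j
    · subst hi
      rw [Function.update_self, Function.comp_apply, Function.comp_apply, Equiv.apply_symm_apply,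
        Function.update_self]
    · rw [Function.update_of_ne hi, Function.comp_apply, Function.comp_apply,
        Function.update_of_ne]
      intro h
      exact hi (by rw [← h, Equiv.symm_apply_apply])
  rw [h1, bb_TX_neg, smul_neg]

omit [IsAlgClosed k] in
theorem AX_y {w : Fin n → Pt k} {j : Fin n} (h : (w j).y = 0) : AX F w = 0 := by
  have h1 := AX_neg (F := F) w j
  have h2 : (w j).sg (-1) = w j := by
    ext
    · rfl
    · show (((-1 : ℤˣ) : ℤ) : k) * (w j).y = (w j).y
      rw [h, mul_zero]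
  rw [h2, Function.update_eq_self] at h1
  have h3 : (2 : ℚ) • AX F w = 0 := by
    rw [two_smul]
    nth_rewrite 2 [h1]
    exact add_neg_cancel _
  exact (smul_eq_zero.1 h3).resolve_left two_ne_zero

end Pool.Agent.Kim
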