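import Pool.Agent.Kim.BasicB

/-!
# The bridge for the classes `AX`
-/

set_option autoImplicit false

noncomputable section

namespace Pool.Agent.Kim

open Pool.Agent.ZCyc Pool.Agent.VFP Polynomial

universe u

variable {k : Type u} [Field k] {F : MvPolynomial (Fin 3) k} {n : ℕ}

variable [IsAlgClosed k] [CharZero k]

/-- the bridge for the classes `AX`; compare `TInf.bridgeTN`, `TInf.bridgeAN` -/
theorem bridgeAX {I : Type} [Fintype I] (c : I → ℚ) (P : I → Fin n → Pt (Om k))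
    (hP : ∀ i j, OnX F (P i j)) (c₀ c₁ : k) (C₀ C₁ : VX F n)
    (h₀ : ∀ v : Place k (Om k), v.At (tt k) c₀ → ∃ C : I → VX F n,
      (∀ i, VAX F v (P i) (C i)) ∧ ∑ i, c i • C i = C₀)
    (h₁ : ∀ v : Place k (Om k), v.At (tt k) c₁ → ∃ C : I → VX F n,
      (∀ i, VAX F v (P i) (C i)) ∧ ∑ i, c i • C i = C₁) :
    C₀ = C₁ := by
  have key : ∀ (v : Place k (Om k)) (C₀ : VX F n), (∃ C : I → VX F n,
      (∀ i, VAX F v (P i) (C i)) ∧ ∑ i, c i • C i = C₀) →
      ∃ p : I × Equiv.Perm (Fin n) × (Fin n → ℤˣ) → Fin n → Pt k, (∀ i j, OnX F (p i j)) ∧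
        (∀ i j, IsVal v ((P i.1 (i.2.1 j)).sg (i.2.2 j)) (p i j)) ∧
        ∑ i : I × Equiv.Perm (Fin n) × (Fin n → ℤˣ), (c i.1 *
          (((Equiv.Perm.sign i.2.1 : ℤ) : ℚ) * ∏ j, ((i.2.2 j : ℤ) : ℚ))) • cX F (p i) = C₀ := by
    rintro v C₀ ⟨C, hC, hsum⟩
    choose p hp hv hT using hC
    refine ⟨fun i j => (p i.1 (i.2.1 j)).sg (i.2.2 j), fun i j => onX_sg _ (hp i.1 _),
      fun i j => isVal_sg _ (hv i.1 _), ?_⟩
    rw [Fintype.sum_prod_type, ← hsum]
    refine Finset.sum_congr rfl fun i _ => ?_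
    rw [← hT i, Fintype.sum_prod_type]
    unfold AX TX
    rw [Finset.smul_sum]
    refine Finset.sum_congr rfl fun τ _ => ?_
    rw [Finset.smul_sum, Finset.smul_sum]
    refine Finset.sum_congr rfl fun ε _ => ?_
    rw [smul_smul, smul_smul, mul_assoc]
    rfl
  exact bridgeX (fun i : I × Equiv.Perm (Fin n) × (Fin n → ℤˣ) => c i.1 *
      (((Equiv.Perm.sign i.2.1 : ℤ) : ℚ) * ∏ j, ((i.2.2 j : ℤ) : ℚ)))
    (fun i j => (P i.1 (i.2.1 j)).sg (i.2.2 j)) (fun i j => onX_sg _ (hP i.1 _)) c₀ c₁ C₀ C₁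
    (fun v hv => key v C₀ (h₀ v hv)) (fun v hv => key v C₁ (h₁ v hv))

/-- Families where only the point with the index `j` moves: `bridgeAX` with the constant points
`(w i).cst` for the other indices. -/
theorem bridgeOne {I : Type} [Fintype I] (c : I → ℚ) {w : Fin n → Pt k} (hw : ∀ i, OnX F (w i))
    (j : Fin n) (P : I → Pt (Om k)) (hP : ∀ i, OnX F (P i)) (c₀ c₁ : k) (C₀ C₁ : VX F n)
    (h₀ : ∀ v : Place k (Om k), v.At (tt k) c₀ → ∃ p : I → Pt k,
      (∀ i, OnX F (p i) ∧ IsVal v (P i) (p i)) ∧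
      ∑ i, c i • AX F (Function.update w j (p i)) = C₀)
    (h₁ : ∀ v : Place k (Om k), v.At (tt k) c₁ → ∃ p : I → Pt k,
      (∀ i, OnX F (p i) ∧ IsVal v (P i) (p i)) ∧
      ∑ i, c i • AX F (Function.update w j (p i)) = C₁) : C₀ = C₁ := by
  have key : ∀ (v : Place k (Om k)) (C₀ : VX F n), (∃ p : I → Pt k,
      (∀ i, OnX F (p i) ∧ IsVal v (P i) (p i)) ∧
      ∑ i, c i • AX F (Function.update w j (p i)) = C₀) → ∃ C : I → VX F n,
      (∀ i, VAX F v (Function.update (fun j' => (w j').cst (Om k)) j (P i)) (C i)) ∧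
        ∑ i, c i • C i = C₀ := by
    rintro v C₀ ⟨p, hp, hsum⟩
    refine ⟨fun i => AX F (Function.update w j (p i)), fun i => ⟨Function.update w j (p i),
      fun j' => ?_, fun j' => ?_, rfl⟩, hsum⟩
    · by_cases hj : j' = j
      · subst hj
        rw [Function.update_self]
        exact (hp i).1
      · rw [Function.update_of_ne hj]
        exact hw j'
    · by_cases hj : j' = j
      · subst hj
        rw [Function.update_self, Function.update_self]
        exact (hp i).2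
      · rw [Function.update_of_ne hj, Function.update_of_ne hj]
        exact isVal_cst v (w j')
  refine bridgeAX c (fun i => Function.update (fun j' => (w j').cst (Om k)) j (P i))
    (fun i j' => ?_) c₀ c₁ C₀ C₁ (fun v hv => key v C₀ (h₀ v hv)) (fun v hv => key v C₁ (h₁ v hv))
  by_cases hj : j' = j
  · subst hj
    rw [Function.update_self]
    exact hP i
  · rw [Function.update_of_ne hj]
    exact onX_cst (hw j')

end Pool.Agent.Kim
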