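import Pool.Agent.Kim.BasicA

/-!
# The surface is complete
-/

set_option autoImplicit false

noncomputable section

namespace Pool.Agent.Kim

open Pool.Agent.ZCyc Pool.Agent.VFP Polynomial

universe u

variable {k : Type u} [Field k] {F : MvPolynomial (Fin 3) k}

private theorem bv_at {v : Place k (Om k)} {σ : Type} (f : σ → Om k) (c : σ → k)
    (h : ∀ i, v.At (f i) (c i)) (F : MvPolynomial σ k) :
    v.At (MvPolynomial.aeval f F) (MvPolynomial.aeval c F) := by
  induction F using MvPolynomial.induction_on with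
  | C a =>
    rw [MvPolynomial.aeval_C, MvPolynomial.aeval_C]
    exact Place.at_const a
  | add p q hp hq =>
    rw [map_add, map_add]
    exact hp.add hq
  | mul_X p i hp =>
    rw [map_mul, map_mul, MvPolynomial.aeval_X, MvPolynomial.aeval_X]
    exact hp.mul (h i)

/-- `X` is complete: scale with the inverse of the coordinate `x_j` with the largest pole; then
`y` is integral because its square is. Use `DCI57.exists_at`; compare `TInf.exists_isValue`
(in `TInf/GeoPt.lean`). -/
theorem exists_isVal [IsAlgClosed k] [CharZero k] (hF : F.IsHomogeneous 6) (v : Place k (Om k))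
    {P : Pt (Om k)} (hP : OnX F P) : ∃ p : Pt k, OnX F p ∧ IsVal v P p := by
  classical
  obtain ⟨i, -, hi⟩ := Finset.exists_max_image Finset.univ
    (fun j => v.ring.valuation (P.x j)) ⟨(0 : Fin 3), Finset.mem_univ _⟩
  have hi0 : P.x i ≠ 0 := by
    intro h0
    apply hP.1
    funext j
    have h1 := hi j (Finset.mem_univ j)
    rw [h0, map_zero] at h1
    have h2 : v.ring.valuation (P.x j) = 0 := le_antisymm h1 zero_le
    exact (map_eq_zero _).1 h2
  have hmem : ∀ j, (P.x i)⁻¹ * P.x j ∈ v.ring := by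
    intro j
    rw [← v.ring.valuation_le_one_iff, mul_comm, ← div_eq_mul_inv, map_div₀]
    exact div_le_one_of_le₀ (hi j (Finset.mem_univ j)) zero_le
  have hQ := onX_scale hF (inv_ne_zero hi0) hP
  have hx : ∀ j, ∃ a : k, v.At ((P.scale (P.x i)⁻¹).x j) a := fun j => DCI57.exists_at v (hmem j)
  choose x hx using hx
  obtain ⟨y, hy, hy2⟩ := exists_sq_at hQ.2 (bv_at _ _ hx F)
  refine ⟨⟨x, y⟩, ⟨?_, hy2⟩, (P.x i)⁻¹, hx, hy⟩
  intro h0
  have h1 := hx i
  have h2 : (P.scale (P.x i)⁻¹).x i = 1 := inv_mul_cancel₀ hi0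
  rw [h2] at h1
  have h3 := h1.unique at_one
  have h4 : x i = 0 := congrFun h0 i
  rw [h4] at h3
  exact zero_ne_one h3

variable {k : Type u} [Field k] {F : MvPolynomial (Fin 3) k} {n : ℕ}

end Pool.Agent.Kim
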