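import Pool.Agent.Kim.QHom

/-!
# The restriction of `F` to the tangent lines
-/

set_option autoImplicit false

noncomputable section

namespace Pool.Agent.Kim

open Pool.Agent.ZCyc Pool.Agent.VFP

universe u

variable {k : Type u} [Field k] {F : MvPolynomial (Fin 3) k} {e : Fin 3 → k} {K : Type*} [Field K]
  [Algebra k K]

private theorem qline_map (c : Fin 3 → K) (G : MvPolynomial (Fin 3) k) :
    Polynomial.map (MvPolynomial.aeval c : MvPolynomial (Fin 3) k →ₐ[k] K).toRingHom
      (MvPolynomial.aeval (fun i => (Polynomial.C (MvPolynomial.X i) +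
        Polynomial.X * Polynomial.C (dv F e i) : Polynomial (MvPolynomial (Fin 3) k))) G) =
    MvPolynomial.aeval (fun i => (Polynomial.C (c i) +
      Polynomial.X * Polynomial.C (dd F e c i) : Polynomial K)) G := by
  induction G using MvPolynomial.induction_on with
  | C a =>
    simp only [MvPolynomial.aeval_C]
    rw [Polynomial.algebraMap_apply, Polynomial.algebraMap_apply, Polynomial.map_C]
    simp
  | add p q hp hq => rw [map_add, map_add, Polynomial.map_add, hp, hq]
  | mul_X p i hp =>
    rw [map_mul, map_mul, Polynomial.map_mul, hp, MvPolynomial.aeval_X, MvPolynomial.aeval_X,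
      Polynomial.map_add, Polynomial.map_mul, Polynomial.map_C, Polynomial.map_C, Polynomial.map_X]
    have h1 : (MvPolynomial.aeval c : MvPolynomial (Fin 3) k →ₐ[k] K).toRingHom
        (MvPolynomial.X i) = c i := MvPolynomial.aeval_X c i
    rw [h1]
    rfl

private theorem qline_eval (c : Fin 3 → K) (w : K) (G : MvPolynomial (Fin 3) k) :
    Polynomial.eval w (MvPolynomial.aeval (fun i => (Polynomial.C (c i) +
      Polynomial.X * Polynomial.C (dd F e c i) : Polynomial K)) G) =
    MvPolynomial.aeval (fun i => c i + w * dd F e c i) G := by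
  induction G using MvPolynomial.induction_on with
  | C a =>
    simp only [MvPolynomial.aeval_C]
    rw [Polynomial.algebraMap_apply]
    simp
  | add p q hp hq => rw [map_add, map_add, Polynomial.eval_add, hp, hq]
  | mul_X p i hp =>
    rw [map_mul, map_mul, Polynomial.eval_mul, hp, MvPolynomial.aeval_X, MvPolynomial.aeval_X,
      Polynomial.eval_add, Polynomial.eval_mul, Polynomial.eval_C, Polynomial.eval_C,
      Polynomial.eval_X]

private theorem qline_eval' (x y : Fin 3 → K) (u : K) (G : MvPolynomial (Fin 3) k) :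
    Polynomial.eval u (MvPolynomial.aeval (fun i => (Polynomial.X * Polynomial.C (x i) +
      Polynomial.C (y i) : Polynomial K)) G) =
    MvPolynomial.aeval (fun i => u * x i + y i) G := by
  induction G using MvPolynomial.induction_on with
  | C a =>
    simp only [MvPolynomial.aeval_C]
    rw [Polynomial.algebraMap_apply]
    simp
  | add p q hp hq => rw [map_add, map_add, Polynomial.eval_add, hp, hq]
  | mul_X p i hp =>
    rw [map_mul, map_mul, Polynomial.eval_mul, hp, MvPolynomial.aeval_X, MvPolynomial.aeval_X,
      Polynomial.eval_add, Polynomial.eval_mul, Polynomial.eval_C, Polynomial.eval_C,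
      Polynomial.eval_X]

private theorem qline_hom {n : ℕ} (hF : F.IsHomogeneous n) (x : Fin 3 → K) (u : K) :
    MvPolynomial.aeval (fun i => u * x i) F = u ^ n * MvPolynomial.aeval x F := by
  rw [MvPolynomial.aeval_def, MvPolynomial.aeval_def, MvPolynomial.eval₂_eq',
    MvPolynomial.eval₂_eq', Finset.mul_sum]
  refine Finset.sum_congr rfl fun d hd => ?_
  have h1 : ∏ i, (u * x i) ^ d i = u ^ n * ∏ i, x i ^ d i := by
    simp only [mul_pow]
    rw [Finset.prod_mul_distrib, Finset.prod_pow_eq_pow_sum]
    congr 2
    have h2 := hF (MvPolynomial.mem_support_iff.mp hd)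
    rw [← h2, Finsupp.weight_apply, Finsupp.sum_fintype _ _ (by simp)]
    simp
  rw [h1]
  ring

private theorem qline_one (hF : F.IsHomogeneous 6) (c : Fin 3 → K) (w : K) :
    MvPolynomial.aeval (fun i => c i + w * dd F e c i) F =
      ∑ m ∈ Finset.range 7, fc F e c m * w ^ m := by
  rw [← qline_eval, ← qline_map]
  rw [Polynomial.eval_eq_sum_range' (n := 7)]
  · refine Finset.sum_congr rfl fun m _ => ?_
    rw [Polynomial.coeff_map]
    rfl
  · refine lt_of_le_of_lt (Polynomial.natDegree_map_le) ?_
    refine Nat.lt_succ_of_le ?_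
    rw [Polynomial.natDegree_le_iff_coeff_eq_zero]
    intro m hm
    exact Fc_large hF hm

private theorem qline_ne (hF : F.IsHomogeneous 6) (c : Fin 3 → K) (u v : K) (hu : u ≠ 0) :
    MvPolynomial.aeval (fun i => u * c i + v * dd F e c i) F =
      ∑ m ∈ Finset.range 7, fc F e c m * u ^ (6 - m) * v ^ m := by
  have h1 : (fun i => u * c i + v * dd F e c i) =
      fun i => u * (c i + (v / u) * dd F e c i) := by
    funext i
    field_simp
  rw [h1, qline_hom hF, qline_one hF, Finset.mul_sum]
  refine Finset.sum_congr rfl fun m hm => ?_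
  have h2 : m ≤ 6 := by
    have := Finset.mem_range.mp hm
    omega
  have h3 : u ^ 6 = u ^ (6 - m) * u ^ m := by
    rw [← pow_add]
    congr 1
    omega
  rw [h3, div_pow]
  field_simp

/-- (for `u ≠ 0` from the definition of `Fc` and homogeneity; both sides are polynomials in `u`) -/
theorem line_eval (hF : F.IsHomogeneous 6) [Infinite K] (c : Fin 3 → K) (u v : K) :
    MvPolynomial.aeval (fun i => u * c i + v * dd F e c i) F =
      ∑ m ∈ Finset.range 7, fc F e c m * u ^ (6 - m) * v ^ m := by
  have hp : MvPolynomial.aeval (fun i => (Polynomial.X * Polynomial.C (c i) +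
      Polynomial.C (v * dd F e c i) : Polynomial K)) F =
      ∑ m ∈ Finset.range 7, Polynomial.C (fc F e c m * v ^ m) * Polynomial.X ^ (6 - m) := by
    refine Polynomial.eq_of_infinite_eval_eq _ _ ?_
    refine Set.Infinite.mono (s := {x : K | x ≠ 0}) ?_ ?_
    · intro x hx
      rw [Set.mem_ofPred_eq, qline_eval', qline_ne hF c x v hx, Polynomial.eval_finsetSum]
      refine Finset.sum_congr rfl fun m _ => ?_
      simp
      ring
    · exact (Set.finite_singleton (0 : K)).infinite_compl
  rw [← qline_eval', hp, Polynomial.eval_finsetSum]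
  refine Finset.sum_congr rfl fun m _ => ?_
  simp
  ring

/-- the same for a point of the curve -/
theorem line_eval_curve (hF : F.IsHomogeneous 6) [Infinite K] {c : Fin 3 → K}
    (hc : MvPolynomial.aeval c F = 0) (u v : K) :
    MvPolynomial.aeval (fun i => u * c i + v * dd F e c i) F = v ^ 2 * (fc F e c 2 * u ^ 4 +
      fc F e c 3 * u ^ 3 * v + fc F e c 4 * u ^ 2 * v ^ 2 + fc F e c 5 * u * v ^ 3 +
      fc F e c 6 * v ^ 4) := by
  rw [line_eval hF]
  have h0 : fc F e c 0 = 0 := by
    unfold fc
    rw [Fc_zero, hc]
  have h1 : fc F e c 1 = 0 := by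
    unfold fc
    rw [Fc_one, map_zero]
  simp only [Finset.sum_range_succ, Finset.sum_range_zero, h0, h1]
  ring

end Pool.Agent.Kim
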