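import Pool.Agent.Kim.MinModel
import Pool.Agent.Kim.QLine

/-!
# The tangent line with a degenerate residual quartic
-/

set_option autoImplicit false

noncomputable section

namespace Pool.Agent.Kim

open Pool.Agent.ZCyc Pool.Agent.VFP Pool.Agent.TInf

universe u

variable {k : Type u} [Field k]

/-- A bitangent: the line through `a` and `b` touches the curve `F = 0` at `a` and at `b`, and at
`b` the multiplicity of the intersection is exactly two. -/
def Bitangent (F : MvPolynomial (Fin 3) k) : Prop :=
  ∃ (a b : Fin 3 → k) (h : Fin 3 → k), (∀ u v : k, (∀ i, u * a i + v * b i = 0) → u = 0 ∧ v = 0) ∧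
    h 2 ≠ 0 ∧ ∀ u v : k, MvPolynomial.aeval (fun i => u * a i + v * b i) F =
      u ^ 2 * v ^ 2 * (h 0 * u ^ 2 + h 1 * u * v + h 2 * v ^ 2)

private theorem bitan_coeff_zero (a b : Fin 3 → k) (G : MvPolynomial (Fin 3) k) :
    (MvPolynomial.aeval (fun i => (Polynomial.C (a i) +
      Polynomial.X * Polynomial.C (b i) : Polynomial k)) G).coeff 0 = MvPolynomial.aeval a G := by
  induction G using MvPolynomial.induction_on with
  | C r => simp
  | add p q hp hq => rw [map_add, map_add, Polynomial.coeff_add, hp, hq]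
  | mul_X p i hp =>
    rw [map_mul, map_mul, MvPolynomial.aeval_X, MvPolynomial.aeval_X, Polynomial.mul_coeff_zero,
      hp]
    simp

private theorem bitan_coeff_one (a b : Fin 3 → k) (G : MvPolynomial (Fin 3) k) :
    (MvPolynomial.aeval (fun i => (Polynomial.C (a i) +
      Polynomial.X * Polynomial.C (b i) : Polynomial k)) G).coeff 1 =
      ∑ i, grad G a i * b i := by
  induction G using MvPolynomial.induction_on with
  | C r => simp [grad]
  | add p q hp hq =>
    rw [map_add, Polynomial.coeff_add, hp, hq, ← Finset.sum_add_distrib]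
    refine Finset.sum_congr rfl fun i _ => ?_
    simp only [grad, map_add]
    ring
  | mul_X p j hp =>
    rw [map_mul, MvPolynomial.aeval_X, Polynomial.mul_coeff_one, hp, bitan_coeff_zero]
    have h0 : (Polynomial.C (a j) + Polynomial.X * Polynomial.C (b j)).coeff 0 = a j := by simp
    have h1 : (Polynomial.C (a j) + Polynomial.X * Polynomial.C (b j)).coeff 1 = b j := by
      rw [Polynomial.coeff_add, Polynomial.coeff_C_ne_zero one_ne_zero,
        Polynomial.coeff_X_mul, Polynomial.coeff_C_zero, zero_add]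
    rw [h0, h1]
    have h2 : ∀ i, grad (p * MvPolynomial.X j) a i * b i =
        grad p a i * b i * a j + (if i = j then MvPolynomial.aeval a p * b j else 0) := by
      intro i
      unfold grad
      rw [Derivation.leibniz, smul_eq_mul, smul_eq_mul, map_add, map_mul, map_mul,
        MvPolynomial.aeval_X, MvPolynomial.pderiv_X]
      by_cases hij : i = j
      · subst hij
        simp
        ring
      · rw [if_neg hij, Pi.single_apply, if_neg (fun h => hij h.symm)]
        simp
        ring
    simp only [h2]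
    rw [Finset.sum_add_distrib, Finset.sum_ite_eq' , if_pos (Finset.mem_univ _), Finset.sum_mul]
    ring

private theorem bitan_eval (a b : Fin 3 → k) (w : k) (G : MvPolynomial (Fin 3) k) :
    Polynomial.eval w (MvPolynomial.aeval (fun i => (Polynomial.C (a i) +
      Polynomial.X * Polynomial.C (b i) : Polynomial k)) G) =
    MvPolynomial.aeval (fun i => a i + w * b i) G := by
  induction G using MvPolynomial.induction_on with
  | C a => simp
  | add p q hp hq => rw [map_add, map_add, Polynomial.eval_add, hp, hq]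
  | mul_X p i hp =>
    rw [map_mul, map_mul, Polynomial.eval_mul, hp, MvPolynomial.aeval_X, MvPolynomial.aeval_X,
      Polynomial.eval_add, Polynomial.eval_mul, Polynomial.eval_C, Polynomial.eval_C,
      Polynomial.eval_X]

private theorem bitan_poly [Infinite k] {a : ℕ → k}
    (h : ∀ w : k, ∑ m ∈ Finset.range 7, a m * w ^ m = 0) : ∀ m < 7, a m = 0 := by
  have hP : ∑ m ∈ Finset.range 7, Polynomial.C (a m) * Polynomial.X ^ m = 0 := by
    apply Polynomial.funext
    intro w
    rw [Polynomial.eval_finset_sum, Polynomial.eval_zero, ← h w]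
    refine Finset.sum_congr rfl fun m _ => ?_
    rw [Polynomial.eval_mul, Polynomial.eval_C, Polynomial.eval_pow, Polynomial.eval_X]
  intro m hm
  have h1 := congrArg (fun p => Polynomial.coeff p m) hP
  simp only [Polynomial.finset_sum_coeff, Polynomial.coeff_C_mul_X_pow, Polynomial.coeff_zero] at h1
  rw [Finset.sum_ite_eq, if_pos (Finset.mem_range.2 hm)] at h1
  exact h1

/-- `δ = a`. `F(a) = 0` and `grad F(a) · b = 0` (coefficient of `v`), so the line is the tangent
line at `a`. Choose `e` with `e · a ≠ 0`; `d = d(a) = λ a + μ b`, `μ ≠ 0` (`exists_uv`, `indep_dd`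
applied in both directions). `F(u a + v d) = F((u + λ v) a + μ v b)`, so (`line_eval_curve`,
comparison of coefficients) `F_m(a)` are the coefficients of
`μ ² (u + λ v) ² (h 0 (u + λ v) ² + h 1 (u + λ v) (μ v) + h 2 (μ v) ²)`, and `I = μ ⁸ (h 2) ²`,
`J = - 2 μ ¹² (h 2) ³` (`ring`). Evaluate `MinModel.eqα`, `MinModel.eqB` at `a`. -/
theorem exists_delta [IsAlgClosed k] [CharZero k] {F α B : MvPolynomial (Fin 3) k}
    (hF : F.IsHomogeneous 6) (hns : NonSing F) (hm : MinModel F α B) (h : Bitangent F) :
    ∃ δ : Fin 3 → k, δ ≠ 0 ∧ MvPolynomial.aeval δ F = 0 ∧ MvPolynomial.aeval δ α ≠ 0 ∧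
      MvPolynomial.aeval δ B ^ 2 = 4 * MvPolynomial.aeval δ α ^ 3 := by
  have hinf : Infinite k := CharZero.infinite k
  obtain ⟨a, b, h, hab, hh2, hline⟩ := h
  have ha0 : a ≠ 0 := by
    rintro rfl
    exact one_ne_zero (hab 1 0 (fun i => by simp)).1
  have hFa : MvPolynomial.aeval a F = 0 := by
    have h1 := hline 1 0
    simpa using h1
  have hg : grad F a ≠ 0 := grad_ne hns ha0
  have hgb : ∑ i, grad F a i * b i = 0 := by
    rw [← bitan_coeff_one]
    have h1 : MvPolynomial.aeval (fun i => (Polynomial.C (a i) +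
        Polynomial.X * Polynomial.C (b i) : Polynomial k)) F =
        Polynomial.X ^ 2 * (Polynomial.C (h 0) + Polynomial.C (h 1) * Polynomial.X +
          Polynomial.C (h 2) * Polynomial.X ^ 2) := by
      apply Polynomial.funext
      intro w
      rw [bitan_eval]
      have h2 := hline 1 w
      simp only [one_mul] at h2
      rw [h2]
      simp
    rw [h1, Polynomial.coeff_X_pow_mul']
    simp
  obtain ⟨i, hi⟩ := Function.ne_iff.1 ha0
  rw [Pi.zero_apply] at hi
  set e : Fin 3 → k := Pi.single i 1 with he
  have hea : MvPolynomial.aeval a (lf e) ≠ 0 := by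
    have h1 : MvPolynomial.aeval a (lf e) = a i := by
      rw [lf, map_sum, Finset.sum_eq_single i]
      · rw [map_mul, MvPolynomial.aeval_X, he, Pi.single_eq_same]
        simp
      · intro j _ hj
        rw [he, Pi.single_eq_of_ne hj]
        simp
      · intro hn
        exact absurd (Finset.mem_univ i) hn
    rw [h1]
    exact hi
  obtain ⟨u, v, huv⟩ := exists_uv (e := e) hF hFa hea hg hgb
  have hv : v ≠ 0 := by
    rintro rfl
    have h1 := hab (-u) 1 (fun j => by
      rw [huv j]
      ring)
    exact one_ne_zero h1.2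
  set μ : k := v⁻¹ with hμ
  set l : k := -u / v with hl
  have hμ0 : μ ≠ 0 := inv_ne_zero hv
  have hd : ∀ j, dd F e a j = l * a j + μ * b j := by
    intro j
    rw [huv j, hl, hμ]
    field_simp
    ring
  let g : ℕ → k := fun m => if m = 2 then h 0 else if m = 3 then h 1 else if m = 4 then h 2 else 0
  have key : ∀ w : k, ∑ m ∈ Finset.range 7, (if 2 ≤ m then
      fc F e a m - subst g μ l m else 0) * w ^ m = 0 := by
    intro w
    have h1 := line_eval_curve (e := e) hF hFa 1 w
    have h2 := hline (1 + l * w) (μ * w)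
    have h3 : (fun i => (1 : k) * a i + w * dd F e a i) =
        fun i => (1 + l * w) * a i + μ * w * b i := by
      funext i
      rw [hd i]
      ring
    rw [h3, h2] at h1
    simp only [Finset.sum_range_succ, Finset.sum_range_zero, subst, g]
    norm_num
    linear_combination -h1
  have hfc : ∀ m ∈ Finset.Icc 2 6, fc F e a m = subst g μ l m := by
    intro m hm
    obtain ⟨hm2, hm6⟩ := Finset.mem_Icc.1 hm
    have h5 := bitan_poly key m (by omega)
    rw [if_pos hm2] at h5
    exact sub_eq_zero.1 h5
  have hI : MvPolynomial.aeval a (Iq F e) = μ ^ 8 * h 2 ^ 2 := by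
    have h1 : MvPolynomial.aeval a (Iq F e) = invI (fc F e a) := by
      simp only [Iq, invI, fc, map_add, map_sub, map_mul, map_pow, map_ofNat]
    have h2 : invI (fc F e a) = invI (subst g μ l) := by
      simp only [invI]
      rw [hfc 2 (by decide), hfc 3 (by decide), hfc 4 (by decide), hfc 5 (by decide),
        hfc 6 (by decide)]
    rw [h1, h2, invI_subst]
    simp [invI, g]
  have hJ : MvPolynomial.aeval a (Jq F e) = -2 * μ ^ 12 * h 2 ^ 3 := by
    have h1 : MvPolynomial.aeval a (Jq F e) = invJ (fc F e a) := by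
      simp only [Jq, invJ, fc, map_add, map_sub, map_mul, map_pow, map_ofNat]
    have h2 : invJ (fc F e a) = invJ (subst g μ l) := by
      simp only [invJ]
      rw [hfc 2 (by decide), hfc 3 (by decide), hfc 4 (by decide), hfc 5 (by decide),
        hfc 6 (by decide)]
    rw [h1, h2, invJ_subst]
    simp [invJ, g]
    ring
  have hα : 9 * (μ ^ 8 * h 2 ^ 2) = MvPolynomial.aeval a (lf e) ^ 8 * MvPolynomial.aeval a α := by
    obtain ⟨q, hq⟩ := hm.eqα e
    have h1 := congrArg (MvPolynomial.aeval a) hq
    rw [map_sub, map_mul, map_mul, map_mul, map_pow, hI, hFa, zero_mul, map_ofNat] at h1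
    exact sub_eq_zero.1 h1
  have hB : 54 * (μ ^ 12 * h 2 ^ 3) =
      MvPolynomial.aeval a (lf e) ^ 12 * MvPolynomial.aeval a B := by
    obtain ⟨q, hq⟩ := hm.eqB e
    have h1 := congrArg (MvPolynomial.aeval a) hq
    rw [map_sub, map_mul, map_mul, map_mul, map_pow, hJ, hFa, zero_mul, map_neg, map_ofNat] at h1
    linear_combination h1
  have hα0 : MvPolynomial.aeval a α ≠ 0 := by
    intro h0
    rw [h0, mul_zero] at hα
    have h9 : (9 : k) ≠ 0 := by norm_num
    exact mul_ne_zero h9 (mul_ne_zero (pow_ne_zero _ hμ0) (pow_ne_zero _ hh2)) hα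
  refine ⟨a, ha0, hFa, hα0, ?_⟩
  refine mul_left_cancel₀ (pow_ne_zero 24 hea) ?_
  have e1 : MvPolynomial.aeval a (lf e) ^ 24 * MvPolynomial.aeval a B ^ 2 =
      (MvPolynomial.aeval a (lf e) ^ 12 * MvPolynomial.aeval a B) ^ 2 := by ring
  have e2 : MvPolynomial.aeval a (lf e) ^ 24 * (4 * MvPolynomial.aeval a α ^ 3) =
      4 * (MvPolynomial.aeval a (lf e) ^ 8 * MvPolynomial.aeval a α) ^ 3 := by ring
  rw [e1, e2, ← hα, ← hB]
  ring

end Pool.Agent.Kim
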