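import Pool.Agent.Kim.BasicC

/-!
# The sum of a point and its conjugate
-/

set_option autoImplicit false

noncomputable section

namespace Pool.Agent.Kim

open Pool.Agent.ZCyc Pool.Agent.VFP Polynomial

universe u

variable {k : Type u} [Field k] [IsAlgClosed k] [CharZero k] {F : MvPolynomial (Fin 3) k} {n : ℕ}

omit [IsAlgClosed k] [CharZero k] in
private theorem cc_sg_one (w : Pt k) : w.sg 1 = w := by
  ext
  · rfl
  · show (((1 : ℤˣ) : ℤ) : k) * w.y = w.y
    rw [Units.val_one, Int.cast_one, one_mul]

omit [IsAlgClosed k] [CharZero k] in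
private theorem cc_sg_sg (w : Pt k) : (w.sg (-1)).sg (-1) = w := by
  ext
  · rfl
  · show (((-1 : ℤˣ) : ℤ) : k) * ((((-1 : ℤˣ) : ℤ) : k) * w.y) = w.y
    rw [Units.val_neg, Units.val_one, Int.cast_neg, Int.cast_one]
    ring

omit [IsAlgClosed k] [CharZero k] in
private theorem cc_at {v : Place k (Om k)} {S : Fin 3 → Om k} {s : Fin 3 → k}
    (hs : ∀ j, v.At (S j) (s j)) (A : MvPolynomial (Fin 3) k) :
    v.At (MvPolynomial.aeval S A) (MvPolynomial.aeval s A) := by
  induction A using MvPolynomial.induction_on with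
  | C a =>
    rw [MvPolynomial.aeval_C, MvPolynomial.aeval_C]
    exact Place.at_const a
  | add p q hp hq =>
    rw [map_add, map_add]
    exact hp.add hq
  | mul_X p i hp =>
    rw [map_mul, map_mul, MvPolynomial.aeval_X, MvPolynomial.aeval_X]
    exact hp.mul (hs i)

omit [IsAlgClosed k] [CharZero k] in
private theorem cc_sum {M : Type*} [AddCommMonoid M] (f : ℤˣ → M) : ∑ ε, f ε = f 1 + f (-1) := by
  rw [show (Finset.univ : Finset ℤˣ) = {1, -1} from by decide]
  exact Finset.sum_pair (by decide)

omit [CharZero k] in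
/-- the values of the two points over one end -/
private theorem cc_end {w : Fin n → Pt k} (hw : ∀ j, OnX F (w j)) (j : Fin n) {Q : Pt (Om k)}
    (hQ : OnX F Q) {v : Place k (Om k)} {p : Pt k} (hp : OnX F p)
    (hv : ∀ i, v.At (Q.x i) (p.x i)) :
    ∃ r : ℤˣ → Fin n → Pt k, (∀ ε i, OnX F (r ε i)) ∧
      (∀ ε i, IsVal v (Function.update (fun i => (w i).cst (Om k)) j (Q.sg ε) i) (r ε i)) ∧
      ∑ ε, (1 : ℚ) • cX F (r ε) =
        cX F (Function.update w j p) + cX F (Function.update w j (p.sg (-1))) := by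
  classical
  obtain ⟨d, hd, hd2⟩ := exists_sq_at hQ.2 (cc_at hv F)
  have hX : OnX F (⟨p.x, d⟩ : Pt k) := ⟨hp.1, hd2⟩
  refine ⟨fun ε => Function.update w j ((⟨p.x, d⟩ : Pt k).sg ε), fun ε i => ?_, fun ε i => ?_, ?_⟩
  · show OnX F (Function.update w j ((⟨p.x, d⟩ : Pt k).sg ε) i)
    by_cases hi : i = j
    · subst hi
      rw [Function.update_self]
      exact onX_sg ε hX
    · rw [Function.update_of_ne hi]
      exact hw i
  · show IsVal v (Function.update (fun i => (w i).cst (Om k)) j (Q.sg ε) i)
      (Function.update w j ((⟨p.x, d⟩ : Pt k).sg ε) i)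
    by_cases hi : i = j
    · subst hi
      rw [Function.update_self, Function.update_self]
      exact isVal_sg ε (isVal_aff hv hd)
    · rw [Function.update_of_ne hi, Function.update_of_ne hi]
      exact isVal_cst v (w i)
  · rw [cc_sum, one_smul, one_smul]
    beta_reduce
    rw [cc_sg_one]
    rcases sq_eq_sq_iff_eq_or_eq_neg.1 (hd2.trans hp.2.symm) with h | h
    · have h1 : (⟨p.x, d⟩ : Pt k) = p := Pt.ext rfl h
      rw [h1]
    · have h1 : (⟨p.x, d⟩ : Pt k) = p.sg (-1) := by
        refine Pt.ext rfl ?_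
        show d = (((-1 : ℤˣ) : ℤ) : k) * p.y
        rw [h, Units.val_neg, Units.val_one, Int.cast_neg, Int.cast_one]
        ring
      rw [h1, cc_sg_sg, add_comm]

/-- `p + p'` (`p'` the conjugate point) does not depend on `p`: `bridgeX` (constant points for the
other indices) for the two points `(x(t), ± y)` with `x(t) = (1 - t) p.x + t q.x`, `y ² = F(x(t))`,
`t = tt k`: at `t = 0` they are `p`, `p'` (in this order or in the other order), at `t = 1` they are
`q`, `q'`. (The vector `x(t)` is not zero, since `p.x` is not zero.) -/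
theorem cX_const (hF : F.IsHomogeneous 6) {w : Fin n → Pt k} (hw : ∀ j, OnX F (w j)) (j : Fin n)
    {p q : Pt k} (hp : OnX F p) (hq : OnX F q) :
    cX F (Function.update w j p) + cX F (Function.update w j (p.sg (-1))) =
      cX F (Function.update w j q) + cX F (Function.update w j (q.sg (-1))) := by
  classical
  have _ := hF
  set X : Fin 3 → Om k := fun i =>
    (1 - tt k) * algebraMap k (Om k) (p.x i) + tt k * algebraMap k (Om k) (q.x i) with hX
  obtain ⟨y, hy⟩ := IsAlgClosed.exists_pow_nat_eq (MvPolynomial.aeval X F) two_pos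
  have hX0 : X ≠ 0 := by
    intro h0
    apply hp.1
    funext i
    have h1 : (1 - tt k) * algebraMap k (Om k) (p.x i) + tt k * algebraMap k (Om k) (q.x i) = 0 :=
      congrFun h0 i
    by_cases h2 : p.x i - q.x i = 0
    · have h3 : q.x i = p.x i := (sub_eq_zero.1 h2).symm
      rw [h3] at h1
      have h4 : algebraMap k (Om k) (p.x i) = 0 := by linear_combination h1
      exact (map_eq_zero _).1 h4
    · exfalso
      apply tt_ne (p.x i / (p.x i - q.x i))
      have h3 : algebraMap k (Om k) (p.x i) - algebraMap k (Om k) (q.x i) ≠ 0 := by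
        rw [← map_sub]
        exact (_root_.map_ne_zero _).2 h2
      rw [map_div₀, map_sub, eq_div_iff h3]
      linear_combination -h1
  have hQ : OnX F (⟨X, y⟩ : Pt (Om k)) := ⟨hX0, hy⟩
  have hP : ∀ (ε : ℤˣ) (i : Fin n),
      OnX F (Function.update (fun i => (w i).cst (Om k)) j ((⟨X, y⟩ : Pt (Om k)).sg ε) i) := by
    intro ε i
    by_cases hi : i = j
    · subst hi
      rw [Function.update_self]
      exact onX_sg ε hQ
    · rw [Function.update_of_ne hi]
      exact onX_cst (hw i)
  refine bridgeX (I := ℤˣ) (fun _ => 1) _ hP 0 1 _ _ (fun v hv => cc_end hw j hQ hp fun i => ?_)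
    (fun v hv => cc_end hw j hQ hq fun i => ?_)
  · have h1 := ((at_one.sub hv).mul (Place.at_const (v := v) (p.x i))).add
      (hv.mul (Place.at_const (v := v) (q.x i)))
    rwa [sub_zero, one_mul, zero_mul, add_zero] at h1
  · have h1 := ((at_one.sub hv).mul (Place.at_const (v := v) (p.x i))).add
      (hv.mul (Place.at_const (v := v) (q.x i)))
    rwa [sub_self, one_mul, zero_mul, zero_add] at h1

end Pool.Agent.Kim
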