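import Pool.Agent.Kim.LinA

/-!
# Zero-cycles of degree zero
-/

set_option autoImplicit false

noncomputable section

namespace Pool.Agent.Kim

open Pool.Agent.ZCyc Pool.Agent.VFP Polynomial

universe u

variable {k : Type u} [Field k] [IsAlgClosed k] [CharZero k] {F : MvPolynomial (Fin 3) k} {n : ℕ}

/-- the signed sum -/
private def linG (F : MvPolynomial (Fin 3) k) (z : Fin n → Pt k →₀ ℚ) (ε : Fin n → ℤˣ) : VX F n :=
  ∑ w ∈ Fintype.piFinset fun i => (z i).support, (∏ i, z i (w i)) •
    cX F (fun i => (w i).sg (ε i))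

private lemma linG_flip (hF : F.IsHomogeneous 6) {z : Fin n → Pt k →₀ ℚ}
    (hz : ∀ i, ∀ p ∈ (z i).support, OnX F p) (h0 : ∀ i, ((z i).sum fun _ c => c) = 0)
    (ε : Fin n → ℤˣ) (j : Fin n) :
    linG F z (Function.update ε j (-ε j)) = -linG F z ε :=
  sum_flip hF hz h0 ε j

private lemma linG_set (hF : F.IsHomogeneous 6) {z : Fin n → Pt k →₀ ℚ}
    (hz : ∀ i, ∀ p ∈ (z i).support, OnX F p) (h0 : ∀ i, ((z i).sum fun _ c => c) = 0)
    (ε : Fin n → ℤˣ) (s : Finset (Fin n)) :
    linG F z (fun i => if i ∈ s then ε i else 1) =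
      (∏ i ∈ s, ((ε i : ℤ) : ℚ)) • linG F z (fun _ => 1) := by
  classical
  induction s using Finset.induction_on with
  | empty => simp
  | insert j s hj ih =>
    rw [Finset.prod_insert hj, mul_smul, ← ih]
    have h1 : (fun i => if i ∈ insert j s then ε i else 1) =
        Function.update (fun i => if i ∈ s then ε i else 1) j (ε j) := by
      funext i
      by_cases hij : i = j
      · subst hij; simp
      · rw [Function.update_of_ne hij]
        simp [Finset.mem_insert, hij]
    rw [h1]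
    rcases Int.units_eq_one_or (ε j) with h | h
    · rw [h]
      have h2 : Function.update (fun i => if i ∈ s then ε i else 1) j 1 =
          (fun i => if i ∈ s then ε i else 1) := by
        funext i
        by_cases hij : i = j
        · subst hij; simp [hj]
        · rw [Function.update_of_ne hij]
      rw [h2]
      simp
    · rw [h]
      have h2 := linG_flip hF hz h0 (fun i => if i ∈ s then ε i else 1) j
      rw [if_neg hj] at h2
      rw [h2]
      simp

private lemma sg_one (w : Pt k) : w.sg 1 = w := by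
  ext <;> simp [Pt.sg]

/-- `sum_flip` for all indices and the sum over all signs -/
theorem sum_TX (hF : F.IsHomogeneous 6) {z : Fin n → Pt k →₀ ℚ}
    (hz : ∀ i, ∀ p ∈ (z i).support, OnX F p) (h0 : ∀ i, ((z i).sum fun _ c => c) = 0) :
    ∑ w ∈ Fintype.piFinset fun i => (z i).support, (∏ i, z i (w i)) • TX F w =
      (2 ^ n : ℚ) • (Submodule.Quotient.mk (extProd z) : VX F n) := by
  have h1 : ∑ w ∈ Fintype.piFinset fun i => (z i).support, (∏ i, z i (w i)) • TX F w =
      ∑ ε : Fin n → ℤˣ, (∏ j, ((ε j : ℤ) : ℚ)) • linG F z ε := by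
    unfold TX linG
    simp only [Finset.smul_sum]
    rw [Finset.sum_comm]
    refine Finset.sum_congr rfl fun ε _ => Finset.sum_congr rfl fun w _ => ?_
    rw [smul_smul, smul_smul, mul_comm]
  have h2 : linG F z (fun _ => 1) = (Submodule.Quotient.mk (extProd z) : VX F n) := by
    rw [mk_extProd]
    unfold linG
    refine Finset.sum_congr rfl fun w _ => ?_
    simp only [sg_one]
  have h3 : ∀ ε : Fin n → ℤˣ, (∏ j, ((ε j : ℤ) : ℚ)) • linG F z ε =
      linG F z (fun _ => 1) := by
    intro ε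
    have h4 := linG_set hF hz h0 ε Finset.univ
    simp only [Finset.mem_univ, if_true] at h4
    rw [h4, smul_smul, ← Finset.prod_mul_distrib]
    have h5 : ∀ i, ((ε i : ℤ) : ℚ) * ((ε i : ℤ) : ℚ) = 1 := by
      intro i
      rcases Int.units_eq_one_or (ε i) with h | h <;> rw [h] <;> norm_num
    rw [Finset.prod_congr rfl fun i _ => h5 i, Finset.prod_const_one, one_smul]
  rw [h1, Finset.sum_congr rfl fun ε _ => h3 ε, Finset.sum_const, h2, Finset.card_univ]
  have h6 : Fintype.card (Fin n → ℤˣ) = 2 ^ n := by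
    rw [Fintype.card_fun, Fintype.card_fin]
    rfl
  rw [h6, ← Nat.cast_smul_eq_nsmul ℚ]
  push_cast
  rfl

private lemma sum_reindex (z : Fin n → Pt k →₀ ℚ) (τ : Equiv.Perm (Fin n)) :
    ∑ w ∈ Fintype.piFinset fun i => ((z ∘ τ) i).support, (∏ i, (z ∘ τ) i (w i)) • TX F w =
      ∑ w ∈ Fintype.piFinset fun i => (z i).support, (∏ i, z i (w i)) • TX F (w ∘ τ) := by
  symm
  refine Finset.sum_nbij' (fun w => w ∘ τ) (fun w => w ∘ τ.symm) ?_ ?_ ?_ ?_ ?_
  · intro w hw
    rw [Fintype.mem_piFinset] at hw ⊢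
    intro i
    exact hw (τ i)
  · intro w hw
    rw [Fintype.mem_piFinset] at hw ⊢
    intro i
    have h := hw (τ.symm i)
    simpa using h
  · intro w _
    funext i
    simp
  · intro w _
    funext i
    simp
  · intro w _
    congr 1
    exact (Equiv.prod_comp τ fun i => z i (w i)).symm

/-- If all classes `AX` are zero then the alternating product of zero-cycles of degree zero is zero:
`sum_TX` for `z ∘ τ`, and reindexing `w = w' ∘ τ`. -/
theorem alt_mem (hF : F.IsHomogeneous 6) (H : ∀ w : Fin n → Pt k, (∀ j, OnX F (w j)) → AX F w = 0)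
    {z : Fin n → Pt k →₀ ℚ} (hz : ∀ i, ∀ p ∈ (z i).support, OnX F p)
    (h0 : ∀ i, ((z i).sum fun _ c => c) = 0) :
    ∑ τ : Equiv.Perm (Fin n), ((Equiv.Perm.sign τ : ℤ) : ℚ) • extProd (z ∘ τ) ∈ ratEq F n := by
  rw [← Submodule.Quotient.mk_eq_zero]
  have h1 : (2 ^ n : ℚ) • (Submodule.Quotient.mk (∑ τ : Equiv.Perm (Fin n),
      ((Equiv.Perm.sign τ : ℤ) : ℚ) • extProd (z ∘ τ)) : VX F n) = 0 := by
    have h2 : (Submodule.Quotient.mk (∑ τ : Equiv.Perm (Fin n),
        ((Equiv.Perm.sign τ : ℤ) : ℚ) • extProd (z ∘ τ)) : VX F n) =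
        ∑ τ : Equiv.Perm (Fin n), ((Equiv.Perm.sign τ : ℤ) : ℚ) •
          (Submodule.Quotient.mk (extProd (z ∘ τ)) : VX F n) := by
      rw [← Submodule.mkQ_apply, map_sum]
      refine Finset.sum_congr rfl fun τ _ => ?_
      rw [map_smul, Submodule.mkQ_apply]
    rw [h2, Finset.smul_sum]
    have h3 : ∀ τ : Equiv.Perm (Fin n), (2 ^ n : ℚ) • ((Equiv.Perm.sign τ : ℤ) : ℚ) •
        (Submodule.Quotient.mk (extProd (z ∘ τ)) : VX F n) =
        ∑ w ∈ Fintype.piFinset fun i => (z i).support, (∏ i, z i (w i)) •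
          ((Equiv.Perm.sign τ : ℤ) : ℚ) • TX F (w ∘ τ) := by
      intro τ
      rw [smul_comm, ← sum_TX hF (z := z ∘ τ) (fun i => hz (τ i)) (fun i => h0 (τ i)),
        sum_reindex, Finset.smul_sum]
      refine Finset.sum_congr rfl fun w _ => ?_
      rw [smul_comm]
    rw [Finset.sum_congr rfl fun τ _ => h3 τ, Finset.sum_comm]
    refine Finset.sum_eq_zero fun w hw => ?_
    rw [← Finset.smul_sum]
    have h4 : ∑ τ : Equiv.Perm (Fin n), ((Equiv.Perm.sign τ : ℤ) : ℚ) • TX F (w ∘ τ) =
        AX F w := rfl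
    rw [h4, H w fun j => hz j _ (Fintype.mem_piFinset.1 hw j), smul_zero]
  exact (smul_eq_zero.1 h1).resolve_left (by positivity)

end Pool.Agent.Kim
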