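import Pool.Agent.Kim.BasicC
import Pool.Agent.TInf.FamRoots

/-!
# Moving a point on `X`
-/

set_option autoImplicit false

noncomputable section

namespace Pool.Agent.Kim

open Pool.Agent.ZCyc Pool.Agent.VFP Polynomial

universe u

section Aux

variable {k : Type u} [Field k] {F : MvPolynomial (Fin 3) k} {n : ℕ}

private theorem mo_deg (hF : F.IsHomogeneous n) {d : Fin 3 →₀ ℕ} (hd : d ∈ F.support) :
    d 0 + d 1 + d 2 = n := by
  have h := hF.degree_eq_sum_deg_support hd
  rw [Finset.sum_subset (Finset.subset_univ _) (fun i _ hi => by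
    simpa [Finsupp.mem_support_iff] using hi), Fin.sum_univ_three] at h
  exact h.symm

/-- the polynomial `F(v + T q)` -/
private def moP (F : MvPolynomial (Fin 3) k) (v q : Fin 3 → k) : k[X] :=
  MvPolynomial.aeval (fun i => C (v i) + C (q i) * X) F

private theorem mo_lin (a b : k) : (C a + C b * X : k[X]).natDegree ≤ 1 := by
  refine (natDegree_add_le _ _).trans (max_le ?_ ?_)
  · rw [natDegree_C]; exact Nat.zero_le _
  · exact (natDegree_C_mul_le _ _).trans natDegree_X_le

private theorem mo_pow (a b : k) (m : ℕ) : ((C a + C b * X : k[X]) ^ m).natDegree ≤ m ∧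
    ((C a + C b * X : k[X]) ^ m).coeff m = b ^ m := by
  constructor
  · have := natDegree_pow_le_of_le m (mo_lin a b)
    rwa [mul_one] at this
  · have := coeff_pow_of_natDegree_le (m := m) (mo_lin a b)
    rw [mul_one] at this
    rw [this]
    congr 1
    simp

private theorem moP_eq (F : MvPolynomial (Fin 3) k) (v q : Fin 3 → k) :
    moP F v q = ∑ d ∈ F.support, C (MvPolynomial.coeff d F) *
      ((C (v 0) + C (q 0) * X) ^ d 0 * (C (v 1) + C (q 1) * X) ^ d 1 *
        (C (v 2) + C (q 2) * X) ^ d 2) := by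
  unfold moP
  rw [MvPolynomial.aeval_def, MvPolynomial.eval₂_eq']
  refine Finset.sum_congr rfl fun d _ => ?_
  rw [Fin.prod_univ_three]
  rfl

private theorem moP_natDegree (hF : F.IsHomogeneous n) (v q : Fin 3 → k) :
    (moP F v q).natDegree ≤ n := by
  rw [moP_eq]
  refine natDegree_sum_le_of_forall_le _ _ fun d hd => ?_
  refine (natDegree_C_mul_le _ _).trans ?_
  refine (natDegree_mul_le).trans ?_
  rw [← mo_deg hF hd]
  refine add_le_add ((natDegree_mul_le).trans (add_le_add ?_ ?_)) ?_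
  · exact (mo_pow _ _ _).1
  · exact (mo_pow _ _ _).1
  · exact (mo_pow _ _ _).1

private theorem moP_coeff (hF : F.IsHomogeneous n) (v q : Fin 3 → k) :
    (moP F v q).coeff n = MvPolynomial.aeval q F := by
  rw [moP_eq, finsetSum_coeff, MvPolynomial.aeval_def, MvPolynomial.eval₂_eq']
  refine Finset.sum_congr rfl fun d hd => ?_
  rw [coeff_C_mul, Fin.prod_univ_three, ← mo_deg hF hd,
    coeff_mul_add_eq_of_natDegree_le
      ((natDegree_mul_le).trans (add_le_add (mo_pow _ _ _).1 (mo_pow _ _ _).1))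
      (mo_pow _ _ _).1,
    coeff_mul_add_eq_of_natDegree_le (mo_pow _ _ _).1 (mo_pow _ _ _).1,
    (mo_pow _ _ _).2, (mo_pow _ _ _).2, (mo_pow _ _ _).2]
  rfl

private theorem moP_aeval {K : Type*} [Field K] [Algebra k K] (G : MvPolynomial (Fin 3) k)
    (v q : Fin 3 → k) (s : K) : aeval s (moP G v q) =
      MvPolynomial.aeval (fun i => algebraMap k K (v i) + algebraMap k K (q i) * s) G := by
  have e1 : (aeval s (moP G v q) : K) =
      ((Polynomial.aeval s : k[X] →ₐ[k] K).comp
        (MvPolynomial.aeval fun i => C (v i) + C (q i) * X)) G := rfl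
  rw [e1]
  congr 1
  refine MvPolynomial.algHom_ext fun i => ?_
  simp

private theorem moP_eval (G : MvPolynomial (Fin 3) k) (v q : Fin 3 → k) (s : k) :
    (moP G v q).eval s = MvPolynomial.aeval (fun i => v i + q i * s) G := by
  have := moP_aeval (K := k) G v q s
  rw [coe_aeval_eq_eval] at this
  exact this

private theorem mo_split {K : Type*} [Field K] [IsAlgClosed K] {Q : K[X]} (hm : Q.Monic) {m : ℕ}
    (hd : Q.natDegree = m) : ∃ s : Fin m → K, Q = ∏ j, (X - C (s j)) := by
  have hsp := IsAlgClosed.splits Q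
  have hcard : Multiset.card Q.roots = m := by
    rw [← hsp.natDegree_eq_card_roots, hd]
  obtain ⟨l, hl⟩ : ∃ l : List K, (l : Multiset K) = Q.roots := Quot.exists_rep _
  have hlen : l.length = m := by
    rw [← hcard, ← hl, Multiset.coe_card]
  refine ⟨fun j => l.get (j.cast hlen.symm), ?_⟩
  rw [hsp.eq_prod_roots_of_monic hm, ← hl, Multiset.map_coe, Multiset.prod_coe]
  subst hlen
  have h1 := (Fin.prod_univ_fun_getElem l fun a => X - C a)
  rw [← h1]
  rfl

/-- a point which is not on three hypersurfaces -/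
private theorem mo_point [Infinite k] (hF0 : F ≠ 0) {Φ : MvPolynomial (Fin 3) k} (hΦ : Φ ≠ 0)
    (x : Fin 3 → k) {i₀ i₁ : Fin 3} (hi₀ : x i₀ ≠ 0) (hi₁ : i₁ ≠ i₀) :
    ∃ b : Fin 3 → k, MvPolynomial.aeval b F ≠ 0 ∧
      MvPolynomial.aeval (fun i => x i + b i) Φ ≠ 0 ∧ x i₀ * b i₁ - x i₁ * b i₀ ≠ 0 := by
  by_contra hcon
  push Not at hcon
  have h0 : F * (MvPolynomial.aeval (fun i => MvPolynomial.C (x i) + MvPolynomial.X i) Φ) *
      (MvPolynomial.C (x i₀) * MvPolynomial.X i₁ - MvPolynomial.C (x i₁) * MvPolynomial.X i₀) =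
        0 := by
    refine MvPolynomial.funext fun b => ?_
    have e1 : MvPolynomial.eval b
        (MvPolynomial.aeval (fun i => MvPolynomial.C (x i) + MvPolynomial.X i) Φ) =
        MvPolynomial.aeval (fun i => x i + b i) Φ := by
      have e2 : MvPolynomial.aeval b
          (MvPolynomial.aeval (fun i => MvPolynomial.C (x i) + MvPolynomial.X i) Φ) =
          ((MvPolynomial.aeval b : MvPolynomial (Fin 3) k →ₐ[k] k).comp
            (MvPolynomial.aeval fun i => MvPolynomial.C (x i) + MvPolynomial.X i)) Φ := rfl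
      rw [← MvPolynomial.aeval_eq_eval, e2]
      congr 1
      refine MvPolynomial.algHom_ext fun i => ?_
      simp
    rw [map_mul, map_mul, e1, map_zero, map_sub, map_mul, map_mul, MvPolynomial.eval_C,
      MvPolynomial.eval_C, MvPolynomial.eval_X, MvPolynomial.eval_X]
    by_cases h1 : MvPolynomial.aeval b F = 0
    · rw [MvPolynomial.aeval_eq_eval] at h1
      rw [show MvPolynomial.eval b F = 0 from h1]
      ring
    · by_cases h2 : MvPolynomial.aeval (fun i => x i + b i) Φ = 0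
      · rw [h2]
        ring
      · rw [hcon b h1 h2]
        ring
  rcases mul_eq_zero.1 h0 with h1 | h1
  · rcases mul_eq_zero.1 h1 with h2 | h2
    · exact hF0 h2
    · apply hΦ
      refine MvPolynomial.funext fun b => ?_
      have h3 := congrArg (MvPolynomial.aeval (fun i => b i - x i)) h2
      rw [map_zero] at h3
      have e2 : MvPolynomial.aeval (fun i => b i - x i)
          (MvPolynomial.aeval (fun i => MvPolynomial.C (x i) + MvPolynomial.X i) Φ) =
          ((MvPolynomial.aeval (fun i => b i - x i) : MvPolynomial (Fin 3) k →ₐ[k] k).comp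
            (MvPolynomial.aeval fun i => MvPolynomial.C (x i) + MvPolynomial.X i)) Φ := rfl
      have e3 : (MvPolynomial.aeval (fun i => b i - x i) : MvPolynomial (Fin 3) k →ₐ[k] k).comp
            (MvPolynomial.aeval fun i => MvPolynomial.C (x i) + MvPolynomial.X i) =
          MvPolynomial.aeval b := by
        refine MvPolynomial.algHom_ext fun i => ?_
        simp
      rw [e2, e3, MvPolynomial.aeval_eq_eval] at h3
      rw [map_zero]
      exact h3
  · have h3 := congrArg (MvPolynomial.eval (Pi.single i₁ 1)) h1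
    rw [map_zero, map_sub, map_mul, map_mul, MvPolynomial.eval_C,
      MvPolynomial.eval_C, MvPolynomial.eval_X, MvPolynomial.eval_X, Pi.single_eq_same,
      Pi.single_eq_of_ne hi₁.symm] at h3
    apply hi₀
    simpa using h3

/-- the choice of the linear form `g` -/
private theorem mo_choice [Infinite k] {φ : k[X]} (hφ : φ ≠ 0) (f : k[X]) (y : k) :
    ∃ g : k, ∀ s : k, s ≠ 0 → φ.eval s = 0 → (y + g * s) ^ 2 ≠ f.eval s := by
  classical
  have h1 : (∏ s ∈ φ.roots.toFinset.filter (· ≠ 0),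
      ((C y + X * C s) ^ 2 - C (f.eval s)) : k[X]) ≠ 0 := by
    rw [Finset.prod_ne_zero_iff]
    intro s hs h0
    have hs0 : s ≠ 0 := (Finset.mem_filter.1 hs).2
    have h2 := congrArg (Polynomial.eval (-y / s)) h0
    have h3 := congrArg (Polynomial.eval ((1 - y) / s)) h0
    simp only [eval_sub, eval_pow, eval_add, eval_mul, eval_C, eval_X, eval_zero] at h2 h3
    rw [div_mul_cancel₀ _ hs0] at h2 h3
    have h4 : (1 : k) = 0 := by linear_combination h3 - h2
    exact one_ne_zero h4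
  obtain ⟨g, hg⟩ : ∃ g : k, (∏ s ∈ φ.roots.toFinset.filter (· ≠ 0),
      ((C y + X * C s) ^ 2 - C (f.eval s)) : k[X]).eval g ≠ 0 := by
    by_contra hcon
    push Not at hcon
    exact h1 (Polynomial.funext fun g => by rw [hcon g, eval_zero])
  refine ⟨g, fun s hs hφs h => hg ?_⟩
  rw [eval_prod]
  refine Finset.prod_eq_zero (i := s) ?_ ?_
  · rw [Finset.mem_filter, Multiset.mem_toFinset, mem_roots hφ]
    exact ⟨hφs, hs⟩
  · simp only [eval_sub, eval_pow, eval_add, eval_mul, eval_C, eval_X]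
    rw [h, sub_self]

end Aux

variable {k : Type u} [Field k] [IsAlgClosed k] [CharZero k] {F : MvPolynomial (Fin 3) k} {n : ℕ}

/-- Let `x = (w j).x`, `y₀ = (w j).y ≠ 0` (otherwise `AX_y`). Choose `b` with `F(b) ≠ 0`,
`Φ(x + b) ≠ 0`, not proportional to `x` (a product of three nonzero polynomials does not vanish
everywhere). `f(s) = F(x + s b)` is a polynomial of degree `6` with leading coefficient `F(b)`,
`f(0) = y₀ ²`. Choose `g₁` with `(y₀ + g₁ s) ² ≠ f(s)` for the finitely many `s ≠ 0` with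
`Φ(x + s b) = 0`; `g(s) = y₀ + g₁ s`. Let `S_0, …, S_5 ∈ Om k` be the roots of `f(s) - t ² g(s) ²`
(with multiplicity), `t = tt k`, and use `bridgeOne` for the points `(x + S_i b, t g(S_i))`. The roots
specialise to the roots of `f - g ²` at `t = 1`, and of `f` at `t = 0` (`TInf/FamRoots.lean`). At
`t = 0` all points have the last coordinate `0` (`AX_y`). At `t = 1` the roots `s = 0` (at least one)
give `AX F w`, the others give `0` by `H` or `AX_y`. So a positive multiple of `AX F w` is `0`. -/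
theorem AX_move (hF : F.IsHomogeneous 6) (hF0 : F ≠ 0) {w : Fin n → Pt k}
    (hw : ∀ j, OnX F (w j)) (j : Fin n) {Φ : MvPolynomial (Fin 3) k} (hΦ : Φ ≠ 0)
    (H : ∀ q : Pt k, OnX F q → q.y ≠ 0 → MvPolynomial.aeval q.x Φ ≠ 0 →
      AX F (Function.update w j q) = 0) : AX F w = 0 := by
  classical
  by_cases hy : (w j).y = 0
  · exact AX_y hy
  have hinf : Infinite k := IsAlgClosed.instInfinite
  obtain ⟨x, hx⟩ : ∃ x, x = (w j).x := ⟨_, rfl⟩
  obtain ⟨y, hyy⟩ : ∃ y, y = (w j).y := ⟨_, rfl⟩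
  have hwx : x ≠ 0 := by rw [hx]; exact (hw j).1
  have hwy : y ^ 2 = MvPolynomial.aeval x F := by rw [hx, hyy]; exact (hw j).2
  obtain ⟨i₀, hi₀⟩ : ∃ i, x i ≠ 0 := Function.ne_iff.1 hwx
  obtain ⟨i₁, hi₁⟩ : ∃ i, i ≠ i₀ := exists_ne i₀
  obtain ⟨b, hb1, hb2, hb3⟩ := mo_point hF0 hΦ x hi₀ hi₁
  -- the points of the line are not zero
  have hne : ∀ {K : Type u} [Field K] [Algebra k K] (s : K),
      (fun i => algebraMap k K (x i) + algebraMap k K (b i) * s) ≠ 0 := by
    intro K _ _ s h0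
    have e0 := congrFun h0 i₀
    have e1 := congrFun h0 i₁
    simp only [Pi.zero_apply] at e0 e1
    apply hb3
    apply (algebraMap k K).injective
    rw [map_sub, map_mul, map_mul, map_zero]
    linear_combination (algebraMap k K (b i₁)) * e0 - (algebraMap k K (b i₀)) * e1
  obtain ⟨f, hf⟩ : ∃ f, f = moP F x b := ⟨_, rfl⟩
  obtain ⟨φ, hφ⟩ : ∃ φ, φ = moP Φ x b := ⟨_, rfl⟩
  have hφ0 : φ ≠ 0 := by
    intro h0
    apply hb2
    have h1 := moP_eval Φ x b 1
    rw [← hφ, h0, eval_zero] at h1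
    rw [h1]
    simp only [mul_one]
  obtain ⟨g, hg⟩ := mo_choice hφ0 f y
  obtain ⟨c, hc⟩ : ∃ c, c = MvPolynomial.aeval b F := ⟨_, rfl⟩
  have hc0 : c ≠ 0 := by rw [hc]; exact hb1
  have hf6 : f.coeff 6 = c := by rw [hf, hc]; exact moP_coeff hF x b
  have hfd : f.natDegree = 6 := by
    refine le_antisymm (by rw [hf]; exact moP_natDegree hF x b) ?_
    exact le_natDegree_of_ne_zero (by rw [hf6]; exact hc0)
  have hmon : (C c⁻¹ * f).Monic := by
    refine monic_C_mul_of_mul_leadingCoeff_eq_one ?_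
    rw [leadingCoeff, hfd, hf6, inv_mul_cancel₀ hc0]
  have hmd : (C c⁻¹ * f).natDegree = 6 := by
    rw [natDegree_C_mul (inv_ne_zero hc0), hfd]
  obtain ⟨s₀, hs₀⟩ := mo_split hmon hmd
  obtain ⟨h, hh⟩ : ∃ h : k[X], h = -(C c⁻¹ * (C y + C g * X) ^ 2) := ⟨_, rfl⟩
  have hhn : h.natDegree ≤ 2 := by
    rw [hh, natDegree_neg]
    refine (natDegree_C_mul_le _ _).trans ?_
    exact (mo_pow y g 2).1
  have hhd : h.degree < (6 : ℕ) := by
    refine lt_of_le_of_lt degree_le_natDegree ?_
    exact_mod_cast lt_of_le_of_lt hhn (by norm_num)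
  have hGmon : (C c⁻¹ * f + h).Monic := by
    refine hmon.add_of_left ?_
    rw [degree_eq_natDegree hmon.ne_zero, hmd]
    exact hhd
  have hGd : (C c⁻¹ * f + h).natDegree = 6 := by
    rw [natDegree_add_eq_left_of_natDegree_lt, hmd]
    rw [hmd]
    omega
  obtain ⟨s₁, hs₁⟩ := mo_split hGmon hGd
  obtain ⟨S, hS, -⟩ := TInf.exists_S s₀ hhd (tt k ^ 2)
  rw [← hs₀] at hS
  -- the points over `Om k`
  have hfS : ∀ i, (aeval (S i) f : Om k) =
      (tt k * (algebraMap k (Om k) y + algebraMap k (Om k) g * S i)) ^ 2 := by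
    intro i
    have h1 := congrArg (Polynomial.eval (S i)) hS
    rw [eval_prod, Finset.prod_eq_zero (Finset.mem_univ i) (by simp), eval_add, eval_mul, eval_C,
      eval_map_algebraMap, eval_map_algebraMap, hh] at h1
    simp only [map_mul, map_neg, map_pow, map_add, aeval_C, aeval_X] at h1
    have h2 : algebraMap k (Om k) c⁻¹ ≠ 0 := by
      rw [Ne, map_eq_zero]
      exact inv_ne_zero hc0
    apply mul_left_cancel₀ h2
    linear_combination h1
  have hPon : ∀ i, OnX F (⟨fun l => algebraMap k (Om k) (x l) + algebraMap k (Om k) (b l) * S i,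
      tt k * (algebraMap k (Om k) y + algebraMap k (Om k) g * S i)⟩ : Pt (Om k)) := by
    intro i
    refine ⟨hne (S i), ?_⟩
    show (tt k * (algebraMap k (Om k) y + algebraMap k (Om k) g * S i)) ^ 2 = _
    rw [← hfS i, hf, moP_aeval]
  -- the points over `k`
  have hfs : ∀ (c₁ : k) (s' : Fin 6 → k), C c⁻¹ * f + C (c₁ ^ 2) * h = ∏ i, (X - C (s' i)) →
      ∀ i, f.eval (s' i) = (c₁ * (y + g * s' i)) ^ 2 := by
    intro c₁ s' h0 i
    have h1 := congrArg (Polynomial.eval (s' i)) h0
    rw [eval_prod, Finset.prod_eq_zero (Finset.mem_univ i) (by simp), hh] at h1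
    simp only [eval_add, eval_mul, eval_C, eval_neg, eval_pow, eval_X] at h1
    apply mul_left_cancel₀ (inv_ne_zero hc0)
    linear_combination h1
  have hpon : ∀ (c₁ : k) (s' : Fin 6 → k), C c⁻¹ * f + C (c₁ ^ 2) * h = ∏ i, (X - C (s' i)) →
      ∀ i, OnX F (⟨fun l => x l + b l * s' i, c₁ * (y + g * s' i)⟩ : Pt k) := by
    intro c₁ s' h0 i
    refine ⟨hne (K := k) (s' i), ?_⟩
    show (c₁ * (y + g * s' i)) ^ 2 = _
    rw [← hfs c₁ s' h0 i, hf, moP_eval]
  have hval : ∀ (v : Place k (Om k)) (c₁ : k), v.At (tt k) c₁ → ∃ s' : Fin 6 → k,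
      C c⁻¹ * f + C (c₁ ^ 2) * h = ∏ i, (X - C (s' i)) ∧
      ∀ i, IsVal v (⟨fun l => algebraMap k (Om k) (x l) + algebraMap k (Om k) (b l) * S i,
        tt k * (algebraMap k (Om k) y + algebraMap k (Om k) g * S i)⟩ : Pt (Om k))
        (⟨fun l => x l + b l * s' i, c₁ * (y + g * s' i)⟩ : Pt k) := by
    intro v c₁ hv
    rw [hs₀] at hS
    obtain ⟨s', h1, h2⟩ := TInf.S_at hS (hv.pow 2)
    rw [← hs₀] at h2
    refine ⟨s', h2, fun i => ?_⟩
    refine isVal_aff (fun l => ?_) ?_
    · exact (Place.at_const _).add ((Place.at_const _).mul (h1 i))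
    · exact hv.mul ((Place.at_const _).add ((Place.at_const _).mul (h1 i)))
  have hpt0 : (⟨fun l => x l + b l * 0, 1 * (y + g * 0)⟩ : Pt k) = w j := by
    refine Pt.ext ?_ ?_
    · funext l
      rw [hx]
      ring
    · rw [hyy]
      ring
  have key : (0 : VX F n) = ∑ i : Fin 6, (1 : ℚ) • AX F (Function.update w j
      (⟨fun l => x l + b l * s₁ i, 1 * (y + g * s₁ i)⟩ : Pt k)) := by
    refine bridgeOne (fun _ : Fin 6 => 1) hw j _ hPon 0 1 _ _ (fun v hv => ?_) (fun v hv => ?_)
    · obtain ⟨s', h1, h2⟩ := hval v 0 hv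
      refine ⟨_, fun i => ⟨hpon 0 s' h1 i, h2 i⟩, ?_⟩
      refine Finset.sum_eq_zero fun i _ => ?_
      rw [AX_y (j := j), smul_zero]
      rw [Function.update_self]
      show 0 * (y + g * s' i) = 0
      ring
    · obtain ⟨s', h1, h2⟩ := hval v 1 hv
      refine ⟨_, fun i => ⟨hpon 1 s' h1 i, h2 i⟩, ?_⟩
      have h3 : ∏ i, (X - C (s₁ i)) = ∏ i, (X - C (s' i)) := by
        rw [← hs₁, ← h1]
        simp
      obtain ⟨π, hπ⟩ := TInf.perm_of_prod h3
      rw [hπ]
      exact Equiv.sum_comp π fun i => (1 : ℚ) • AX F (Function.update w j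
        (⟨fun l => x l + b l * s₁ i, 1 * (y + g * s₁ i)⟩ : Pt k))
  have hG1 : C c⁻¹ * f + C ((1 : k) ^ 2) * h = ∏ i, (X - C (s₁ i)) := by
    rw [← hs₁]
    simp
  have hterm : ∀ i : Fin 6, (1 : ℚ) • AX F (Function.update w j
      (⟨fun l => x l + b l * s₁ i, 1 * (y + g * s₁ i)⟩ : Pt k)) =
      if s₁ i = 0 then AX F w else 0 := by
    intro i
    rw [one_smul]
    by_cases h0 : s₁ i = 0
    · rw [if_pos h0, h0, hpt0, Function.update_eq_self]
    · rw [if_neg h0]
      by_cases h1 : y + g * s₁ i = 0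
      · refine AX_y (j := j) ?_
        rw [Function.update_self]
        show 1 * (y + g * s₁ i) = 0
        rw [h1, mul_zero]
      · refine H _ (hpon 1 s₁ hG1 i) ?_ ?_
        · show 1 * (y + g * s₁ i) ≠ 0
          rw [one_mul]
          exact h1
        · intro h2
          refine hg (s₁ i) h0 ?_ ?_
          · rw [hφ, moP_eval]
            exact h2
          · rw [hfs 1 s₁ hG1 i, one_mul]
  rw [Finset.sum_congr rfl fun i _ => hterm i, ← Finset.sum_filter, Finset.sum_const] at key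
  have hex : ∃ i, s₁ i = 0 := by
    have h1 := congrArg (Polynomial.eval 0) hG1
    rw [eval_prod, hh] at h1
    simp only [eval_add, eval_mul, eval_C, eval_neg, eval_pow, eval_X, eval_sub, zero_sub,
      mul_zero, add_zero, one_pow, one_mul] at h1
    have h2 : f.eval 0 = y ^ 2 := by
      rw [hf, moP_eval, hwy]
      simp
    rw [h2, add_neg_cancel] at h1
    obtain ⟨i, -, hi⟩ := Finset.prod_eq_zero_iff.1 h1.symm
    exact ⟨i, neg_eq_zero.1 hi⟩
  obtain ⟨i, hi⟩ := hex
  have hpos : 0 < (Finset.univ.filter fun i => s₁ i = 0).card :=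
    Finset.card_pos.2 ⟨i, Finset.mem_filter.2 ⟨Finset.mem_univ _, hi⟩⟩
  have hq : ((Finset.univ.filter fun i => s₁ i = 0).card : ℚ) • AX F w = 0 := by
    rw [Nat.cast_smul_eq_nsmul]
    exact key.symm
  exact (smul_eq_zero.1 hq).resolve_left (by exact_mod_cast hpos.ne')

end Pool.Agent.Kim
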