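import Pool.Agent.Kim.CoreC
import Pool.Agent.Kim.Move
import Pool.Agent.Kim.Bitan
import Pool.Agent.Kim.Lin

/-!
# The alternating classes are zero
-/

set_option autoImplicit false

noncomputable section

namespace Pool.Agent.Kim

open Pool.Agent.ZCyc Pool.Agent.VFP Pool.Agent.TInf

universe u

variable {k : Type u} [Field k] [IsAlgClosed k] [CharZero k] {F α B : MvPolynomial (Fin 3) k}
  {e δ : Fin 3 → k} {n : ℕ}

omit [IsAlgClosed k] [CharZero k] in
private theorem core_smul {A : MvPolynomial (Fin 3) k} {m : ℕ} (hA : A.IsHomogeneous m)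
    (o : Fin 3 → k) (l : k) :
    MvPolynomial.aeval (l • o) A = l ^ m * MvPolynomial.aeval o A := by
  rw [MvPolynomial.aeval_def, MvPolynomial.aeval_def, MvPolynomial.eval₂_eq,
    MvPolynomial.eval₂_eq, Finset.mul_sum]
  refine Finset.sum_congr rfl fun d hd => ?_
  have hdeg : ∑ i ∈ d.support, d i = m := by
    have := hA (MvPolynomial.mem_support_iff.1 hd)
    rw [Finsupp.weight_apply, Finsupp.sum] at this
    simpa using this
  simp only [Pi.smul_apply, smul_eq_mul, mul_pow, Finset.prod_mul_distrib,
    Finset.prod_pow_eq_pow_sum, hdeg]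
  ring

/-- Move the points `w j` for `j = m, m + 1, …` (`AX_move`, `exists_phi`; for `m = n` this is
`AX_tan`). -/
theorem AX_of_tan (hF : F.IsHomogeneous 6) (hns : NonSing F)
    (hm : MinModel F α B) (hδ0 : δ ≠ 0) (hδF : MvPolynomial.aeval δ F = 0)
    (hδα : MvPolynomial.aeval δ α ≠ 0) (hδe : MvPolynomial.aeval δ (lf e) ≠ 0)
    (hδ : MvPolynomial.aeval δ B ^ 2 = 4 * MvPolynomial.aeval δ α ^ 3)
    {T : Crv.Frame k} {E : Finset k} (hE : Excl F α B e δ T E) (hn : 69 ≤ n) {m : ℕ}
    (hmn : m ≤ n) {w : Fin n → Pt k} (hw : ∀ j, OnX F (w j)) {c : Fin n → Fin 3 → k}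
    (h : Tan F α B e T E m w c) : AX F w = 0 := by
  classical
  obtain ⟨d, hd⟩ : ∃ d, n = m + d := ⟨n - m, by omega⟩
  induction d generalizing m w c with
  | zero =>
    have hm' : m = n := by omega
    subst hm'
    exact AX_tan hF hns hm hδ0 hδF hδe hδ hE hn hw h
  | succ d ih =>
    obtain ⟨Φ, hΦ, H⟩ := exists_phi hF hns hm hδF hδα hδe hδ h
    have hF0 : F ≠ 0 := (prime_F hF hns).ne_zero
    have hmlt : m < n := by omega
    refine AX_move hF hF0 hw ⟨m, hmlt⟩ hΦ fun q hq hqy hqΦ => ?_
    obtain ⟨c', h1, h2, h3, h4, h5, h6, h7, h8, h9⟩ := H q.x hqΦ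
    have hlt : ∀ j : Fin n, (j : ℕ) < m → j ≠ ⟨m, hmlt⟩ := fun j hj h0 => by
      rw [h0] at hj
      exact lt_irrefl _ hj
    have hcase : ∀ j : Fin n, (j : ℕ) < m + 1 → (j : ℕ) < m ∨ j = ⟨m, hmlt⟩ := fun j hj => by
      rcases Nat.lt_succ_iff_lt_or_eq.1 hj with h0 | h0
      · exact Or.inl h0
      · exact Or.inr (Fin.ext h0)
    refine ih (m := m + 1) (c := Function.update c ⟨m, hmlt⟩ c') (by omega) (fun j => ?_) ?_
      (by omega)
    · by_cases hj : j = ⟨m, hmlt⟩
      · subst hj
        rw [Function.update_self]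
        exact hq
      · rw [Function.update_of_ne hj]
        exact hw j
    · have hsame : ∀ j : Fin n, (j : ℕ) < m → Function.update c ⟨m, hmlt⟩ c' j = c j :=
        fun j hj => Function.update_of_ne (hlt j hj) _ _
      have hsamew : ∀ j : Fin n, (j : ℕ) < m → Function.update w ⟨m, hmlt⟩ q j = w j :=
        fun j hj => Function.update_of_ne (hlt j hj) _ _
      have hself : Function.update c ⟨m, hmlt⟩ c' ⟨m, hmlt⟩ = c' := Function.update_self _ _ _
      have hselfw : Function.update w ⟨m, hmlt⟩ q ⟨m, hmlt⟩ = q := Function.update_self _ _ _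
      constructor
      · intro j hj
        rcases hcase j hj with h0 | rfl
        · rw [hsamew j h0]
          exact h.y j h0
        · rw [hselfw]
          exact hqy
      · intro j hj
        rcases hcase j hj with h0 | rfl
        · rw [hsame j h0]
          exact h.eq j h0
        · rw [hself]
          exact h1
      · intro j hj
        rcases hcase j hj with h0 | rfl
        · rw [hsame j h0, hsamew j h0]
          exact h.tan j h0
        · rw [hself, hselfw]
          exact h2
      · intro j hj
        rcases hcase j hj with h0 | rfl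
        · rw [hsame j h0]
          exact h.gp j h0
        · rw [hself]
          exact h3
      · intro j hj
        rcases hcase j hj with h0 | rfl
        · rw [hsame j h0]
          exact h.al j h0
        · rw [hself]
          exact h4
      · intro j hj
        rcases hcase j hj with h0 | rfl
        · rw [hsame j h0]
          exact h.be j h0
        · rw [hself]
          exact h5
      · intro j hj
        rcases hcase j hj with h0 | rfl
        · rw [hsame j h0]
          exact h.l j h0
        · rw [hself]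
          exact h6
      · intro j hj
        rcases hcase j hj with h0 | rfl
        · rw [hsame j h0]
          exact h.mE j h0
        · rw [hself]
          exact h7
      · intro i j hij hj
        rcases hcase j hj with h0 | rfl
        · rw [hsame j h0, hsame i (hij.trans h0)]
          exact h.inj i j hij h0
        · rw [hself, hsame i hij]
          exact h8 i hij
      · intro i j hij hj
        rcases hcase j hj with h0 | rfl
        · rw [hsame j h0, hsame i (hij.trans h0)]
          exact h.ds i j hij h0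
        · rw [hself, hsame i hij]
          exact h9 i hij

/-- `exists_minModel`, `exists_delta`, `e` with `e · δ ≠ 0`, `o` with `F(o) ≠ 0` (it is not
proportional to `δ`), `Crv.exists_frame`, `exists_excl`, and `AX_of_tan` for `m = 0` -/
theorem AX_zero (hF : F.IsHomogeneous 6) (hns : NonSing F) (hb : Bitangent F) (hn : 69 ≤ n)
    {w : Fin n → Pt k} (hw : ∀ j, OnX F (w j)) : AX F w = 0 := by
  obtain ⟨α, B, hm⟩ := exists_minModel hF hns
  obtain ⟨δ, hδ0, hδF, hδα, hδ⟩ := exists_delta hF hns hm hb
  obtain ⟨e, he⟩ : ∃ e : Fin 3 → k, MvPolynomial.aeval δ (lf e) ≠ 0 := by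
    obtain ⟨i, hi⟩ := Function.ne_iff.1 hδ0
    refine ⟨Pi.single i 1, ?_⟩
    have h1 : MvPolynomial.aeval δ (lf (Pi.single i (1 : k))) = δ i := by
      rw [lf, map_sum, Finset.sum_eq_single i]
      · rw [map_mul, MvPolynomial.aeval_C, MvPolynomial.aeval_X, Pi.single_eq_same]
        simp
      · intro j _ hj
        rw [Pi.single_eq_of_ne hj]
        simp
      · intro h
        exact absurd (Finset.mem_univ i) h
    rw [h1]
    exact hi
  have hF0 : F ≠ 0 := (prime_F hF hns).ne_zero
  obtain ⟨o, ho⟩ : ∃ o : Fin 3 → k, MvPolynomial.eval o F ≠ 0 := by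
    by_contra hcon
    push Not at hcon
    exact hF0 (MvPolynomial.funext fun x => by rw [hcon x, map_zero])
  have hli : LinearIndependent k ![o, δ] := by
    rw [LinearIndependent.pair_iff]
    intro s t hst
    have hs : s = 0 := by
      by_contra hs
      have h1 : o = (-(s⁻¹ * t)) • δ := by
        have h2 : s • o = -(t • δ) := eq_neg_of_add_eq_zero_left hst
        calc o = s⁻¹ • (s • o) := by rw [smul_smul, inv_mul_cancel₀ hs, one_smul]
          _ = (-(s⁻¹ * t)) • δ := by rw [h2, smul_neg, smul_smul, neg_smul]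
      apply ho
      have h3 : MvPolynomial.aeval o F = 0 := by
        rw [h1, core_smul hF, hδF, mul_zero]
      rw [← MvPolynomial.aeval_eq_eval]
      exact h3
    subst hs
    rw [zero_smul, zero_add] at hst
    exact ⟨rfl, (smul_eq_zero.1 hst).resolve_right hδ0⟩
  obtain ⟨T, hTo, hTδ⟩ := Crv.exists_frame hli
  obtain ⟨E, hE⟩ := exists_excl (e := e) hF hns hm T (by rw [hTo]; exact ho) hδF hTδ
  refine AX_of_tan (c := fun _ => δ) hF hns hm hδ0 hδF hδα he hδ hE hn (Nat.zero_le n) hw ?_
  constructor <;> intros <;> omega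

theorem main (hF : F.IsHomogeneous 6) (hns : NonSing F) (hb : Bitangent F) (hn : 69 ≤ n)
    {z : Fin n → Pt k →₀ ℚ} (hz : ∀ i, ∀ p ∈ (z i).support, OnX F p)
    (h0 : ∀ i, ((z i).sum fun _ c => c) = 0) :
    ∑ τ : Equiv.Perm (Fin n), ((Equiv.Perm.sign τ : ℤ) : ℚ) • extProd (z ∘ τ) ∈ ratEq F n :=
  alt_mem hF (fun _ hw => AX_zero hF hns hb hn hw) hz h0

end Pool.Agent.Kim
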