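import Pool.Agent.Kim.Cur0
import Pool.Agent.Crv.PGen
import Pool.Agent.Crv.PBas
import Pool.Agent.Kim.BaseC
import Pool.Agent.Kim.OfCurve

/-!
# Deformations of tuples of points of a plane curve
-/

set_option autoImplicit false

noncomputable section

namespace Pool.Agent.Crv

open Polynomial
open Pool.Agent.ZCyc Pool.Agent.Kim
open Pool.Agent.VFP (Om tt)

universe u

variable {k : Type u} [Field k] [IsAlgClosed k] [CharZero k]

omit [IsAlgClosed k] [CharZero k] in
/-- The equation of the curve is zero on the curve. -/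
private theorem plane0_fn_self (T : Frame k) {F : MvPolynomial (Fin 3) k}
    (ho : MvPolynomial.eval T.o F ≠ 0) : T.fn F F = 0 := by
  have h : T.res F = C (C (MvPolynomial.eval T.o F)) * T.eq F := by
    unfold Frame.eq
    rw [← mul_assoc, ← C_mul, ← C_mul, mul_inv_cancel₀ ho, C_1, C_1, one_mul]
  unfold Frame.fn
  rw [h, map_mul, AdjoinRoot.mk_self, mul_zero]

omit [IsAlgClosed k] [CharZero k] in
/-- The coordinates of a point in the plane `l = 1`. -/
private theorem plane0_vec (T : Frame k) {w : Fin 3 → k} (hw : T.l w = 1) :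
    T.vec (T.m w) (T.p w) = w := by
  funext i
  have h := congrFun (T.dec w) i
  rw [hw, one_smul] at h
  simp only [Pi.add_apply, Pi.smul_apply, smul_eq_mul] at h
  unfold Frame.vec
  simp only [Algebra.algebraMap_self, RingHom.id_apply]
  linear_combination (-1 : k) * h

omit [IsAlgClosed k] [CharZero k] in
/-- The point of the curve in the chart with the coordinates `w`. -/
private theorem plane0_pt (T : Frame k) {F : MvPolynomial (Fin 3) k}
    (ho : MvPolynomial.eval T.o F ≠ 0) {w : Fin 3 → k} (hw : T.l w = 1)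
    (hF : MvPolynomial.aeval w F = 0) :
    ∃ t : T.Rg F →ₐ[k] k, T.pt t = w ∧ t (AdjoinRoot.of (T.eq F) X) = T.m w := by
  obtain ⟨S, hx, hy⟩ := exists_pt T ho (x := T.m w) (y := T.p w) (by
    rw [plane0_vec T hw]
    exact hF)
  refine ⟨S, ?_, hx⟩
  unfold Frame.pt
  rw [hx, hy, plane0_vec T hw]

omit [IsAlgClosed k] [CharZero k] in
/-- The coordinates are functions. -/
private theorem plane0_coord (T : Frame k) {F : MvPolynomial (Fin 3) k} {K : Type*} [CommRing K]
    [Algebra k K] (S : T.Rg F →ₐ[k] K) (a : Fin 3) :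
    T.pt S a = S (T.fn F (MvPolynomial.X a)) := by
  rw [apply_fn, MvPolynomial.aeval_X]

/-- `exists_curveFam_plane` where `α` or `B` may be zero on the curve.
Let `T` be a frame with `F(o) ≠ 0` and `l δ = 1`. There is a finite set `E` such that every
tuple of points of the curve in the chart (`l = 1`) whose coordinates `m` are different and not in
`E`, and with nondegenerate fibres, has deformations with `n - d (d - 1) / 2` parameters. -/
theorem exists_curveFam_plane₀ {r : ℕ} {F G : MvPolynomial (Fin 3) k}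
    {α B : Fin r → MvPolynomial (Fin 3) k} {δ : Fin 3 → k} {d : ℕ} {e : Fin r → ℕ} (hd : 0 < d)
    (hF : F.IsHomogeneous d) (hirr : Irreducible F) (hα : ∀ i, (α i).IsHomogeneous (2 * e i))
    (hB : ∀ i, (B i).IsHomogeneous (3 * e i)) (T : Frame k)
    (ho : MvPolynomial.eval T.o F ≠ 0) (hδF : MvPolynomial.eval δ F = 0) (hδ : T.l δ = 1)
    (hr : 0 < r) :
    ∃ E : Finset k, ∀ {n ρ : ℕ} (s : Fin n → CPt F G k), 0 < n → d ≤ n + 1 →
      ρ + d * (d - 1) / 2 ≤ n → (∀ j, T.l (s j).1 = 1) → (∀ j, T.m (s j).1 ∉ E) →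
      Function.Injective (fun j => T.m (s j).1) →
      (∀ i, F ∣ α i ∨ ∀ j, MvPolynomial.aeval (s j).1 (α i) ≠ 0) →
      (∀ i, F ∣ B i ∨ ∀ j, MvPolynomial.aeval (s j).1 (B i) ≠ 0) →
      (∀ i j, MvPolynomial.aeval (s j).1 (B i) ^ 2 ≠ 4 * MvPolynomial.aeval (s j).1 (α i) ^ 3) →
      ∃ H : KFam.CurveFam (Kim.baseC F G α B δ).kf (fun i => d * e i) s, H.ρ = ρ := by
  classical
  have hdom := isDomain_Rg T hd hF ho hirr
  obtain ⟨Bs, hBx, hBy⟩ := exists_bas T hd hF ho
  obtain ⟨E₀, hE₀⟩ := exists_fibres T hd hF ho hirr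
  have hZ : ∀ g : T.Rg F, ∃ E : Finset k, g ≠ 0 → ∀ q : T.Rg F →ₐ[k] k, q g = 0 →
      q Bs.x ∈ E := by
    intro g
    by_cases hg : g = 0
    · exact ⟨∅, fun h => absurd hg h⟩
    · obtain ⟨E, hE⟩ := finite_x_zeros Bs hg
      exact ⟨E, fun _ => hE⟩
  choose Zf hZf using hZ
  refine ⟨E₀ ∪ {T.m δ} ∪ (Finset.univ.biUnion fun i => Zf (T.fn F (α i)) ∪ Zf (T.fn F (B i)) ∪
    Zf (T.fn F (B i) ^ 2 - 4 * T.fn F (α i) ^ 3)), ?_⟩
  intro n ρ s hn hdn hρ hl hE hinj h1 h2 h3
  choose t htp htx using fun j => plane0_pt T ho (hl j) (s j).2.1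
  have htx' : ∀ j, t j Bs.x = T.m (s j).1 := by
    intro j
    rw [hBx, htx]
  obtain ⟨tδ, hδp, hδx⟩ := plane0_pt T ho hδ (F := F) (by
    rw [MvPolynomial.aeval_eq_eval]
    exact hδF)
  have hE1 : ∀ j, T.m (s j).1 ∉ E₀ := fun j h => hE j (by
    simp only [Finset.mem_union]
    exact Or.inl (Or.inl h))
  have hE2 : ∀ j, T.m (s j).1 ≠ T.m δ := fun j h => hE j (by
    simp only [Finset.mem_union, Finset.mem_singleton]
    exact Or.inl (Or.inr h))
  have hE3 : ∀ i j, T.m (s j).1 ∉ Zf (T.fn F (α i)) := fun i j h => hE j (by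
    simp only [Finset.mem_union, Finset.mem_biUnion, Finset.mem_univ, true_and]
    exact Or.inr ⟨i, Or.inl (Or.inl h)⟩)
  have hE4 : ∀ i j, T.m (s j).1 ∉ Zf (T.fn F (B i)) := fun i j h => hE j (by
    simp only [Finset.mem_union, Finset.mem_biUnion, Finset.mem_univ, true_and]
    exact Or.inr ⟨i, Or.inl (Or.inr h)⟩)
  have hE5 : ∀ i j, T.m (s j).1 ∉ Zf (T.fn F (B i) ^ 2 - 4 * T.fn F (α i) ^ 3) :=
    fun i j h => hE j (by
      simp only [Finset.mem_union, Finset.mem_biUnion, Finset.mem_univ, true_and]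
      exact Or.inr ⟨i, Or.inr h⟩)
  obtain ⟨c, hc, hc0⟩ := hE₀ t Bs hBx (fun j => by
    rw [htx']
    exact hE1 j) (by
    intro j j' h
    apply hinj
    change t j Bs.x = t j' Bs.x at h
    rwa [htx', htx'] at h)
  have hcx : ∀ j l, c j l Bs.x = T.m (s j).1 := fun j l => (hc.hx j l).trans (htx' j)
  have hval : ∀ (g : MvPolynomial (Fin 3) k) j,
      c j ⟨0, Bs.pos⟩ (T.fn F g) = MvPolynomial.aeval (s j).1 g := by
    intro g j
    rw [hc0, apply_fn, htp]
  have hval3 : ∀ i j, c j ⟨0, Bs.pos⟩ (T.fn F (B i) ^ 2 - 4 * T.fn F (α i) ^ 3) =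
      MvPolynomial.aeval (s j).1 (B i) ^ 2 - 4 * MvPolynomial.aeval (s j).1 (α i) ^ 3 := by
    intro i j
    rw [map_sub, map_mul, map_pow, map_pow, hval, hval, map_ofNat]
  have hcoord : ∀ (S : T.Rg F →ₐ[k] Om k) (v : Place k (Om k)) (j : Fin n),
      (∀ g, v.At (S g) (c j ⟨0, Bs.pos⟩ g)) → ∀ a, v.At (T.pt S a) ((s j).1 a) := by
    intro S v j h a
    have h4 := h (T.fn F (MvPolynomial.X a))
    rw [hval, MvPolynomial.aeval_X, ← plane0_coord] at h4
    exact h4
  have hdvd : ∀ {g : MvPolynomial (Fin 3) k}, F ∣ g → T.fn F g = 0 := by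
    rintro g ⟨q, rfl⟩
    have h4 := plane0_fn_self T ho
    unfold Frame.fn at h4 ⊢
    rw [map_mul, map_mul, h4, zero_mul]
  refine exists_curveFam₀ (Kim.baseC F G α B δ).kf (B := Bs) (α := fun i => T.fn F (α i))
    (β := fun i => T.fn F (B i)) (e := e) (x := fun j => t j Bs.x) (c := c)
    (fun i => fn_mem_Lt T Bs hBx hBy (hα i)) (fun i => fn_mem_Lt T Bs hBx hBy (hB i))
    (s := s) hc hn (fun i j => (hval (α i) j).symm) (fun i j => (hval (B i) j).symm)
    ?_ ?_ ?_ (δ := tδ) ?_ ?_ hρ hdn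
  · intro i
    rcases h1 i with hd | h1
    · exact Or.inl (hdvd hd)
    right
    intro j l h
    have hne : T.fn F (α i) ≠ 0 := fun h0 => h1 j (by
      rw [← hval, h0, map_zero])
    apply hE3 i j
    rw [← hcx j l]
    exact hZf _ hne _ h
  · intro i
    rcases h2 i with hd | h2
    · exact Or.inl (hdvd hd)
    right
    intro j l h
    have hne : T.fn F (B i) ≠ 0 := fun h0 => h2 j (by
      rw [← hval, h0, map_zero])
    apply hE4 i j
    rw [← hcx j l]
    exact hZf _ hne _ h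
  · intro i j l h
    have hne : T.fn F (B i) ^ 2 - 4 * T.fn F (α i) ^ 3 ≠ 0 := fun h0 => h3 i j (by
      have h4 := hval3 i j
      rw [h0, map_zero] at h4
      exact sub_eq_zero.1 h4.symm)
    apply hE5 i j
    rw [← hcx j l]
    exact hZf _ hne _ h
  · intro j h
    apply hE2 j
    rw [← htx', ← h, hBx, hδx]
  · rintro S ⟨v₀, j₀, hv₀⟩
    have hSF : MvPolynomial.aeval (T.pt S) F = 0 := by
      rw [← apply_fn, plane0_fn_self T ho, map_zero]
    have hSG : MvPolynomial.aeval (T.pt S) G ≠ 0 := by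
      intro h0
      have h4 := at_mv (hcoord S v₀ j₀ hv₀) G
      rw [h0] at h4
      have h5 : v₀.At (0 : Om k) (0 : k) := by
        have h6 := Place.at_const (v := v₀) (0 : k)
        rwa [map_zero] at h6
      exact (s j₀).2.2 (h4.unique h5)
    refine ⟨⟨T.pt S, hSF, hSG⟩, fun i => (apply_fn T S (α i)).symm,
      fun i => (apply_fn T S (B i)).symm, fun v j h => hcoord S v j h, fun v h => ?_⟩
    refine ⟨⟨0, hr⟩, 1, fun a => ?_⟩
    rw [one_mul]
    have h4 := h (T.fn F (MvPolynomial.X a))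
    rw [← plane0_coord, ← plane0_coord, hδp] at h4
    exact h4

end Pool.Agent.Crv
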