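import Pool.Agent.Kim.Core
import Pool.Agent.Kim.Plane0
import Pool.Agent.KIso.Final

/-!
# All double planes with nonsingular branch curve

The end `δ` is any zero of the discriminant `4 α ³ - B ²` on the curve; the family of elliptic curves may be
isotrivial.
-/

set_option autoImplicit false

noncomputable section

namespace Pool.Agent.Kim

open Pool.Agent.ZCyc Pool.Agent.VFP Pool.Agent.TInf

universe u

variable {k : Type u} [Field k] {F α B : MvPolynomial (Fin 3) k} {e δ : Fin 3 → k} {n : ℕ}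

/-- the family of elliptic curves is isotrivial -/
def Isot (F α B : MvPolynomial (Fin 3) k) : Prop :=
  F ∣ α ∨ F ∣ B ∨ ∃ c : k, c ≠ 0 ∧ F ∣ B ^ 2 - MvPolynomial.C c * α ^ 3

/-- The points `c j`, `j < m`, are general points of the curve, normalised by the linear form `l`
of the frame `T`, such that the point `w j` of `X` is above the tangent line at `c j`. -/
structure Tan₂ (F α B : MvPolynomial (Fin 3) k) (e : Fin 3 → k) (T : Crv.Frame k) (E : Finset k)
    (m : ℕ) (w : Fin n → Pt k) (c : Fin n → Fin 3 → k) : Prop where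
  y : ∀ j : Fin n, (j : ℕ) < m → (w j).y ≠ 0
  eq : ∀ j : Fin n, (j : ℕ) < m → MvPolynomial.aeval (c j) F = 0
  tan : ∀ j : Fin n, (j : ℕ) < m → ∑ i, grad F (c j) i * (w j).x i = 0
  gp : ∀ j : Fin n, (j : ℕ) < m → MvPolynomial.aeval (c j) (Gp F e) ≠ 0
  al : ¬ F ∣ α → ∀ j : Fin n, (j : ℕ) < m → MvPolynomial.aeval (c j) α ≠ 0
  be : ¬ F ∣ B → ∀ j : Fin n, (j : ℕ) < m → MvPolynomial.aeval (c j) B ≠ 0
  l : ∀ j : Fin n, (j : ℕ) < m → T.l (c j) = 1
  mE : ∀ j : Fin n, (j : ℕ) < m → T.m (c j) ∉ E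
  inj : ∀ i j : Fin n, (i : ℕ) < j → (j : ℕ) < m → T.m (c i) ≠ T.m (c j)
  ds : ¬ Isot F α B → ∀ i j : Fin n, (i : ℕ) < j → (j : ℕ) < m →
    MvPolynomial.aeval (c i) B ^ 2 * MvPolynomial.aeval (c j) α ^ 3 ≠
      MvPolynomial.aeval (c j) B ^ 2 * MvPolynomial.aeval (c i) α ^ 3

/-- The set `E` satisfies the conclusion of `Crv.exists_curveFam_plane₀`. -/
def Excl₂ (F α B : MvPolynomial (Fin 3) k) (e δ : Fin 3 → k) (T : Crv.Frame k) (E : Finset k) :
    Prop :=
  ∀ {n ρ : ℕ} (s : Fin n → CPt F (Gp F e) k), 0 < n → 6 ≤ n + 1 → ρ + 15 ≤ n →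
    (∀ j, T.l (s j).1 = 1) → (∀ j, T.m (s j).1 ∉ E) →
    Function.Injective (fun j => T.m (s j).1) →
    (F ∣ α ∨ ∀ j, MvPolynomial.aeval (s j).1 α ≠ 0) →
    (F ∣ B ∨ ∀ j, MvPolynomial.aeval (s j).1 B ≠ 0) →
    (∀ j, MvPolynomial.aeval (s j).1 B ^ 2 ≠ 4 * MvPolynomial.aeval (s j).1 α ^ 3) →
    ∃ H : KFam.CurveFam (baseX F e α B δ).kf (fun _ : Fin 1 => 108) s, H.ρ = ρ

theorem exists_excl₂ [IsAlgClosed k] [CharZero k] (hF : F.IsHomogeneous 6) (hns : NonSing F)
    (hm : MinModel F α B) (T : Crv.Frame k) (ho : MvPolynomial.eval T.o F ≠ 0)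
    (hδF : MvPolynomial.aeval δ F = 0) (hδ : T.l δ = 1) :
    ∃ E : Finset k, Excl₂ F α B e δ T E := by
  obtain ⟨E, hE⟩ := Crv.exists_curveFam_plane₀ (G := Gp F e) (α := fun _ : Fin 1 => α)
    (B := fun _ => B) (δ := δ) (e := fun _ => 18) (by norm_num : 0 < 6) hF
    (prime_F hF hns).irreducible (fun _ => hm.homα) (fun _ => hm.homB) T ho
    (by rw [← MvPolynomial.aeval_eq_eval]; exact hδF) hδ one_pos
  refine ⟨E, fun s h1 h2 h3 h4 h5 h6 h7 h8 h9 => ?_⟩
  exact hE s h1 h2 (by norm_num; exact h3) h4 h5 h6 (fun _ => h7) (fun _ => h8) fun _ => h9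

/-- a polynomial divisible by `F` is zero on the curve -/
private theorem core2_zero {K : Type*} [Field K] [Algebra k K] {c : Fin 3 → K}
    (hc : MvPolynomial.aeval c F = 0) {g : MvPolynomial (Fin 3) k} (h : F ∣ g) :
    MvPolynomial.aeval c g = 0 := by
  obtain ⟨q, rfl⟩ := h
  rw [map_mul, hc, zero_mul]

/-- `AX_tan` for all families, with `KFam.Iso.zero_iso`. -/
theorem AX_tan₂ [IsAlgClosed k] [CharZero k] (hF : F.IsHomogeneous 6) (hns : NonSing F)
    (hm : MinModel F α B) (hδ0 : δ ≠ 0)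
    (hδF : MvPolynomial.aeval δ F = 0) (hδe : MvPolynomial.aeval δ (lf e) ≠ 0)
    (hδ : MvPolynomial.aeval δ B ^ 2 = 4 * MvPolynomial.aeval δ α ^ 3) {T : Crv.Frame k}
    {E : Finset k} (hE : Excl₂ F α B e δ T E) (hn : 69 ≤ n)
    {w : Fin n → Pt k} (hw : ∀ j, OnX F (w j)) {c : Fin n → Fin 3 → k}
    (h : Tan₂ F α B e T E n w c) : AX F w = 0 := by
  let s : Fin n → CPt F (Gp F e) k := fun j => ⟨c j, h.eq j j.2, h.gp j j.2⟩
  have hdisc : ∀ j, MvPolynomial.aeval (c j) B ^ 2 ≠ 4 * MvPolynomial.aeval (c j) α ^ 3 :=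
    fun j => disc_ne hm (h.eq j j.2) (h.gp j j.2)
  have hal : F ∣ α ∨ ∀ j, MvPolynomial.aeval (c j) α ≠ 0 := by
    by_cases hd : F ∣ α
    · exact Or.inl hd
    · exact Or.inr fun j => h.al hd j j.2
  have hbe : F ∣ B ∨ ∀ j, MvPolynomial.aeval (c j) B ≠ 0 := by
    by_cases hd : F ∣ B
    · exact Or.inl hd
    · exact Or.inr fun j => h.be hd j j.2
  obtain ⟨Fm, hFm⟩ := hE (ρ := 54) s (by omega) (by omega) (by omega) (fun j => h.l j j.2)
    (fun j => h.mE j j.2) (fun i j hij => by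
      by_contra hne
      rcases lt_or_gt_of_ne hne with h1 | h1
      · exact h.inj i j h1 j.2 hij
      · exact h.inj j i h1 i.2 hij.symm) hal hbe hdisc
  have hgen : KFam.Iso.GenI (baseX F e α B δ).kf s := by
    intro i
    by_cases hα : F ∣ α
    · right
      left
      refine ⟨fun x => core2_zero x.2.1 hα, fun x => core2_zero x.2.1 hα, fun j h0 => ?_⟩
      apply hdisc j
      have h1 : MvPolynomial.aeval (c j) B = 0 := h0
      rw [h1, core2_zero (h.eq j j.2) hα]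
      ring
    by_cases hB : F ∣ B
    · right
      right
      refine ⟨fun x => core2_zero x.2.1 hB, fun x => core2_zero x.2.1 hB, fun j => h.al hα j j.2⟩
    left
    have key : ∀ c₀ : k, F ∣ B ^ 2 - MvPolynomial.C c₀ * α ^ 3 → ∀ {K : Type u} [Field K]
        [Algebra k K] (x : CPt F (Gp F e) K), MvPolynomial.aeval x.1 B ^ 2 =
          algebraMap k K c₀ * MvPolynomial.aeval x.1 α ^ 3 := by
      intro c₀ hc K _ _ x
      have h1 := core2_zero x.2.1 hc
      rw [map_sub, map_mul, map_pow, map_pow, MvPolynomial.aeval_C] at h1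
      exact sub_eq_zero.1 h1
    by_cases hI : ∃ c : k, c ≠ 0 ∧ F ∣ B ^ 2 - MvPolynomial.C c * α ^ 3
    · obtain ⟨c₀, hc₀, hc⟩ := hI
      refine ⟨⟨fun j => h.al hα j j.2, fun j => h.be hB j j.2, hdisc, Or.inr ?_⟩,
        Or.inr ⟨c₀, hc₀, fun x => key c₀ hc x, fun x => key c₀ hc x⟩⟩
      intro i j
      have h1 := key c₀ hc (s i)
      have h2 := key c₀ hc (s j)
      change MvPolynomial.aeval (s i).1 B ^ 2 * MvPolynomial.aeval (s j).1 α ^ 3 =
        MvPolynomial.aeval (s j).1 B ^ 2 * MvPolynomial.aeval (s i).1 α ^ 3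
      rw [h1, h2]
      ring
    · have ds : ∀ i j : Fin n, i ≠ j →
          MvPolynomial.aeval (c i) B ^ 2 * MvPolynomial.aeval (c j) α ^ 3 ≠
          MvPolynomial.aeval (c j) B ^ 2 * MvPolynomial.aeval (c i) α ^ 3 := by
        have hn : ¬ Isot F α B := by
          rintro (h1 | h1 | h1)
          · exact hα h1
          · exact hB h1
          · exact hI h1
        intro i j hij
        rcases lt_or_gt_of_ne hij with h1 | h1
        · exact h.ds hn i j h1 j.2
        · exact (h.ds hn j i h1 i.2).symm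
      exact ⟨⟨fun j => h.al hα j j.2, fun j => h.be hB j j.2, hdisc, Or.inl ds⟩, Or.inl ds⟩
  have hpsi : ∀ j, ∃ (a : k) (P : EPt k), a ≠ 0 ∧ EOn (MvPolynomial.aeval (s j).1 α)
      (MvPolynomial.aeval (s j).1 B) P ∧ w j = (psi F e (s j).1 (rt (s j) 0) P).scale a := by
    intro j
    obtain ⟨p1, p2, p3, p4⟩ := cpt_props (s j)
    have hr : Roots (fc F e (s j).1) (rt (s j)) := (exists_rt (s j)).choose_spec
    exact exists_psi hF hm (s j).2.1 p1 (grad_ne hns p4) (hr.zero 0) (hr.der_ne p2 0) (hw j)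
      (h.y j j.2) (h.tan j j.2)
  choose a P ha hP hwP using hpsi
  have hzero := KFam.Iso.zero_iso (n₀ := 54) (sysX (n := n) hF hns hm hδ0 hδF hδe hδ).kf
    (by simp) (by norm_num) (by omega) hgen Fm (le_of_eq hFm.symm) (fun _ => P)
  change FX F e α B δ s (fun _ => P) = 0 at hzero
  rw [FX_eq hF hns hm (fun _ => 0) hP] at hzero
  have h1 : AX F (tup (F := F) (e := e) s (fun _ => 0) P) = 0 :=
    (smul_eq_zero.1 hzero).resolve_left (by positivity)
  have h2 := AX_scale (F := F) hF ha (w := tup (F := F) (e := e) s (fun _ => 0) P)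
    (fun j => onX_tup hF hns hm (fun _ => 0) hP j)
  have h3 : w = fun j => (tup (F := F) (e := e) s (fun _ => 0) P j).scale (a j) := funext hwP
  rw [h3, h2, h1]

end Pool.Agent.Kim
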