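import Pool.Agent.Kim.PsiDef

/-!
# The roots of the quartics
-/

set_option autoImplicit false

noncomputable section

namespace Pool.Agent.Kim

open Pool.Agent.ZCyc Pool.Agent.VFP Pool.Agent.TInf

universe u

variable {K : Type*} [Field K]

/-- the coefficients in terms of the roots -/
private theorem rootsA_coeff [CharZero K] {f : ℕ → K} {a b c d : K}
    (h : ∀ w, qv f w = f 6 * ((w - a) * (w - b) * (w - c) * (w - d))) :
    f 2 = f 6 * (a * b * c * d) ∧ f 3 = -(f 6 * (a * b * c + a * b * d + a * c * d + b * c * d)) ∧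
      f 4 = f 6 * (a * b + a * c + a * d + b * c + b * d + c * d) ∧
      f 5 = -(f 6 * (a + b + c + d)) := by
  have h0 := h 0
  have h1 := h 1
  have h2 := h (-1)
  have h3 := h 2
  unfold qv at h0 h1 h2 h3
  have hf2 : f 2 = f 6 * (a * b * c * d) := by linear_combination h0
  have hf4 : f 4 = f 6 * (a * b + a * c + a * d + b * c + b * d + c * d) := by
    linear_combination (1 / 2 : K) * h1 + (1 / 2 : K) * h2 - hf2
  have h35 : f 3 + f 5 = -(f 6 * (a * b * c + a * b * d + a * c * d + b * c * d)) -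
      f 6 * (a + b + c + d) := by
    linear_combination (1 / 2 : K) * h1 - (1 / 2 : K) * h2
  have hf5 : f 5 = -(f 6 * (a + b + c + d)) := by
    linear_combination (1 / 6 : K) * (h3 - hf2 - 4 * hf4 - 2 * h35)
  exact ⟨hf2, by linear_combination h35 - hf5, hf4, hf5⟩

/-- the discriminant -/
private theorem rootsA_disc [CharZero K] {f : ℕ → K} {a b c d : K}
    (h : ∀ w, qv f w = f 6 * ((w - a) * (w - b) * (w - c) * (w - d))) :
    4 * invI f ^ 3 - invJ f ^ 2 = 27 * f 6 ^ 6 * ((a - b) * (a - c) * (a - d) * (b - c) *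
      (b - d) * (c - d)) ^ 2 := by
  obtain ⟨h2, h3, h4, h5⟩ := rootsA_coeff h
  unfold invI invJ
  rw [h2, h3, h4, h5]
  ring

/-- existence of the roots if `f 6 ≠ 0` and the discriminant `4 I ³ - J ²` is not zero
(`4 I ³ - J ² = 27 f_6 ⁶ ∏ (ρ_i - ρ_j) ²`) -/
theorem exists_roots [IsAlgClosed K] [CharZero K] {f : ℕ → K} (h6 : f 6 ≠ 0)
    (hD : 4 * invI f ^ 3 - invJ f ^ 2 ≠ 0) : ∃ ρ : Fin 4 → K, Roots f ρ := by
  set P : Polynomial K := Polynomial.C (f 6) * Polynomial.X ^ 4 + (Polynomial.C (f 5) *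
    Polynomial.X ^ 3 + Polynomial.C (f 4) * Polynomial.X ^ 2 + Polynomial.C (f 3) *
    Polynomial.X + Polynomial.C (f 2)) with hP
  have hlt : (Polynomial.C (f 5) * Polynomial.X ^ 3 + Polynomial.C (f 4) * Polynomial.X ^ 2 +
      Polynomial.C (f 3) * Polynomial.X + Polynomial.C (f 2) : Polynomial K).degree <
      (Polynomial.C (f 6) * Polynomial.X ^ 4 : Polynomial K).degree := by
    rw [Polynomial.degree_C_mul_X_pow 4 h6]
    refine lt_of_le_of_lt (Polynomial.degree_cubic_le) ?_
    norm_num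
  have hdeg : P.natDegree = 4 := by
    rw [Polynomial.natDegree_eq_of_degree_eq (Polynomial.degree_add_eq_left_of_degree_lt hlt)]
    exact Polynomial.natDegree_C_mul_X_pow 4 _ h6
  have hlc : P.leadingCoeff = f 6 := by
    rw [hP, Polynomial.leadingCoeff_add_of_degree_lt' hlt]
    exact Polynomial.leadingCoeff_C_mul_X_pow _ _
  have hs := (IsAlgClosed.splits P).eq_prod_roots
  have hcard : P.roots.card = 4 := by
    rw [← hdeg]
    exact (IsAlgClosed.splits P).natDegree_eq_card_roots.symm
  obtain ⟨a, b, c, d, hr⟩ := Multiset.card_eq_four.1 hcard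
  rw [hr, hlc] at hs
  have h : ∀ w, qv f w = f 6 * ((w - a) * (w - b) * (w - c) * (w - d)) := by
    intro w
    have h1 := congrArg (Polynomial.eval w) hs
    simp [hP] at h1
    unfold qv
    linear_combination h1
  have hdisc := rootsA_disc h
  rw [hdisc] at hD
  refine ⟨![a, b, c, d], ?_, ?_⟩
  · have hab : a ≠ b := by rintro rfl; simp at hD
    have hac : a ≠ c := by rintro rfl; simp at hD
    have had : a ≠ d := by rintro rfl; simp at hD
    have hbc : b ≠ c := by rintro rfl; simp at hD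
    have hbd : b ≠ d := by rintro rfl; simp at hD
    have hcd : c ≠ d := by rintro rfl; simp at hD
    intro i j hij
    fin_cases i <;> fin_cases j <;> first | rfl | (exfalso; simp_all)
  · intro w
    rw [h w, Fin.prod_univ_four]
    rfl

theorem Roots.zero {f : ℕ → K} {ρ : Fin 4 → K} (h : Roots f ρ) (i : Fin 4) :
    qv f (ρ i) = 0 := by
  rw [h.eq, Finset.prod_eq_zero (Finset.mem_univ i) (sub_self _), mul_zero]

theorem Roots.der_ne [CharZero K] {f : ℕ → K} {ρ : Fin 4 → K} (h : Roots f ρ) (h6 : f 6 ≠ 0)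
    (i : Fin 4) : qd f (ρ i) ≠ 0 := by
  obtain ⟨h2, h3, h4, h5⟩ := rootsA_coeff (f := f) (a := ρ 0) (b := ρ 1) (c := ρ 2) (d := ρ 3)
    fun w => by rw [h.eq, Fin.prod_univ_four]
  have hne : ∀ i j : Fin 4, i ≠ j → ρ i - ρ j ≠ 0 := fun i j hij =>
    sub_ne_zero.2 fun h1 => hij (h.inj h1)
  unfold qd
  rw [h3, h4, h5]
  fin_cases i
  · have h1 := mul_ne_zero (mul_ne_zero (mul_ne_zero h6 (hne 0 1 (by decide)))
      (hne 0 2 (by decide))) (hne 0 3 (by decide))
    intro h7
    apply h1
    simp only [Fin.zero_eta, Fin.isValue] at h7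
    linear_combination h7
  · have h1 := mul_ne_zero (mul_ne_zero (mul_ne_zero h6 (hne 1 0 (by decide)))
      (hne 1 2 (by decide))) (hne 1 3 (by decide))
    intro h7
    apply h1
    simp only [Fin.mk_one, Fin.isValue] at h7
    linear_combination h7
  · have h1 := mul_ne_zero (mul_ne_zero (mul_ne_zero h6 (hne 2 0 (by decide)))
      (hne 2 1 (by decide))) (hne 2 3 (by decide))
    intro h7
    apply h1
    simp only [Fin.reduceFinMk, Fin.isValue] at h7
    linear_combination h7
  · have h1 := mul_ne_zero (mul_ne_zero (mul_ne_zero h6 (hne 3 0 (by decide)))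
      (hne 3 1 (by decide))) (hne 3 2 (by decide))
    intro h7
    apply h1
    simp only [Fin.reduceFinMk, Fin.isValue] at h7
    linear_combination h7

variable {k : Type u} [Field k] {F : MvPolynomial (Fin 3) k}

end Pool.Agent.Kim
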