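import Pool.Agent.Kim.PsiDef

/-!
# Specialisation of the map
-/

set_option autoImplicit false

noncomputable section

namespace Pool.Agent.Kim

open Pool.Agent.ZCyc Pool.Agent.VFP Pool.Agent.TInf

universe u

variable {k : Type u} [Field k] {F : MvPolynomial (Fin 3) k}

private theorem kS_aeval {v : Place k (Om k)} {S : Fin 3 → Om k} {s : Fin 3 → k}
    (hs : ∀ a, v.At (S a) (s a)) (G : MvPolynomial (Fin 3) k) :
    v.At (MvPolynomial.aeval S G) (MvPolynomial.aeval s G) := by
  induction G using MvPolynomial.induction_on with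
  | C a =>
    rw [MvPolynomial.aeval_C, MvPolynomial.aeval_C]
    exact Place.at_const _
  | add p q hp hq =>
    rw [map_add, map_add]
    exact hp.add hq
  | mul_X p i hp =>
    rw [map_mul, map_mul, MvPolynomial.aeval_X, MvPolynomial.aeval_X]
    exact hp.mul (hs i)

private theorem kS_ofNat {v : Place k (Om k)} (n : ℕ) [n.AtLeastTwo] :
    v.At (OfNat.ofNat n : Om k) (OfNat.ofNat n : k) := by
  have h := Place.at_const (v := v) (OfNat.ofNat n : k)
  rwa [map_ofNat] at h

/-- Specialisation. If `P = (x, y)` and `x` has a pole multiply the coordinates with `1 / X`. -/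
theorem psi_val [IsAlgClosed k] [CharZero k] {α B : MvPolynomial (Fin 3) k} {e : Fin 3 → k}
    {v : Place k (Om k)} {S : Fin 3 → Om k} {s : Fin 3 → k} (hs : ∀ a, v.At (S a) (s a))
    (he : MvPolynomial.aeval s (lf e) ≠ 0) {w : Om k} {w₀ : k} (hw : v.At w w₀)
    {P : EPt (Om k)} {p : EPt k}
    (hP : EOn (MvPolynomial.aeval S α) (MvPolynomial.aeval S B) P) (h : EVal v P p) :
    IsVal v (psi F e S w P) (psi F e s w₀ p) := by
  have hG := kS_aeval hs
  have hd : ∀ i, v.At (dd F e S i) (dd F e s i) := fun i => hG _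
  have hf : ∀ m, v.At (fc F e S m) (fc F e s m) := fun m => hG _
  have hε : v.At (MvPolynomial.aeval S (lf e)) (MvPolynomial.aeval s (lf e)) := hG _
  have hqd : v.At (qd (fc F e S) w) (qd (fc F e s) w₀) := by
    unfold qd
    exact (((hf 3).add (((kS_ofNat 2).mul (hf 4)).mul hw)).add
      (((kS_ofNat 3).mul (hf 5)).mul (hw.pow 2))).add (((kS_ofNat 4).mul (hf 6)).mul (hw.pow 3))
  have hqdd : v.At (qdd (fc F e S) w) (qdd (fc F e s) w₀) := by
    unfold qdd
    exact (((kS_ofNat 2).mul (hf 4)).add (((kS_ofNat 6).mul (hf 5)).mul hw)).add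
      (((kS_ofNat 12).mul (hf 6)).mul (hw.pow 2))
  rcases P with _ | ⟨x, y⟩
  · rcases p with _ | ⟨x', y'⟩
    · refine isVal_aff (fun j => ?_) ?_
      · exact (hs j).add (hw.mul (hd j))
      · have := Place.at_const (v := v) (0 : k)
        rwa [map_zero] at this
    · exact h.elim
  · rcases p with _ | ⟨x', y'⟩
    · -- pole
      have hx : x ∉ v.ring := h
      have hy : y ^ 2 = x ^ 3 - 3 * MvPolynomial.aeval S α * x + MvPolynomial.aeval S B := hP
      set ε := MvPolynomial.aeval S (lf e) with hεdef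
      set ε₀ := MvPolynomial.aeval s (lf e) with hε₀def
      set A := qd (fc F e S) w with hA
      set Q := qdd (fc F e S) w with hQ
      have hε0 : ε ≠ 0 := by
        intro h0
        rw [h0] at hε
        exact he (hε.unique (by simpa using Place.at_const (v := v) (0 : k)))
      have hinv : v.At (ε ^ 4)⁻¹ (ε₀ ^ 4)⁻¹ := (hε.pow 4).inv (pow_ne_zero 4 he)
      have h6 : v.At (Q / 6) (qdd (fc F e s) w₀ / 6) :=
        hqdd.div (kS_ofNat 6) (by norm_num)
      obtain ⟨X, hX⟩ : ∃ X, X = ε ^ 4 * x / 9 - Q / 6 := ⟨_, rfl⟩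
      have h9 : (9 : Om k) ≠ 0 := by
        have := (algebraMap k (Om k)).injective.ne (show (9 : k) ≠ 0 by norm_num)
        rwa [map_ofNat, map_zero] at this
      have hxX : x = (X + Q / 6) * 9 * (ε ^ 4)⁻¹ := by
        rw [hX]
        field_simp
        ring
      have hXr : X ∉ v.ring := by
        intro hXm
        apply hx
        rw [hxX]
        exact mul_mem (mul_mem (add_mem hXm h6.mem) (kS_ofNat (v := v) 9).mem) hinv.mem
      have hX0 : X ≠ 0 := by
        rintro rfl
        exact hXr v.ring.zero_mem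
      have hi : v.At X⁻¹ 0 := by
        rw [Place.at_zero_iff, Place.vanishes_iff_or, inv_inv]
        exact Or.inr hXr
      have hu : v.At (x * X⁻¹) (9 * (ε₀ ^ 4)⁻¹) := by
        have h1 : x * X⁻¹ = (1 + Q / 6 * X⁻¹) * 9 * (ε ^ 4)⁻¹ := by
          rw [hxX]
          field_simp
        have h2 : v.At (1 : Om k) (1 : k) := by
          have := Place.at_const (v := v) (1 : k)
          rwa [map_one] at this
        rw [h1]
        have h3 := ((h2.add (h6.mul hi)).mul (kS_ofNat 9)).mul hinv
        rw [mul_zero, add_zero, one_mul] at h3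
        exact h3
      have hyv : v.At (y * X⁻¹ ^ 2) 0 := by
        rw [Place.at_zero_iff]
        refine v.vanishes_of_pow (n := 2) ?_
        rw [← Place.at_zero_iff]
        have h1 : (y * X⁻¹ ^ 2) ^ 2 = (x * X⁻¹) ^ 3 * X⁻¹ -
            3 * MvPolynomial.aeval S α * (x * X⁻¹) * X⁻¹ ^ 3 +
            MvPolynomial.aeval S B * X⁻¹ ^ 4 := by
          have : (y * X⁻¹ ^ 2) ^ 2 = y ^ 2 * X⁻¹ ^ 4 := by ring
          rw [this, hy]
          ring
        rw [h1]
        have h2 := (((hu.pow 3).mul hi).sub ((((kS_ofNat 3).mul (hG α)).mul hu).mul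
          (hi.pow 3))).add ((hG B).mul (hi.pow 4))
        simpa using h2
      refine ⟨X⁻¹, fun j => ?_, ?_⟩
      · show v.At (X⁻¹ * ((ε ^ 4 * x / 9 - Q / 6) * S j +
          (w * (ε ^ 4 * x / 9 - Q / 6) + A) * dd F e S j)) (s j + w₀ * dd F e s j)
        rw [← hX]
        have h1 : X⁻¹ * (X * S j + (w * X + A) * dd F e S j) =
            S j + (w + A * X⁻¹) * dd F e S j := by
          field_simp
        rw [h1]
        have h2 := (hs j).add ((hw.add (hqd.mul hi)).mul (hd j))
        rw [mul_zero, add_zero] at h2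
        exact h2
      · show v.At (X⁻¹ ^ 3 * ((w * (ε ^ 4 * x / 9 - Q / 6) + A) * A * (ε ^ 6 * y) / 27)) 0
        rw [← hX]
        have h1 : X⁻¹ ^ 3 * ((w * X + A) * A * (ε ^ 6 * y) / 27) =
            (w + A * X⁻¹) * A * ε ^ 6 * (y * X⁻¹ ^ 2) / 27 := by
          field_simp
        rw [h1]
        have h2 := (((((hw.add (hqd.mul hi)).mul hqd).mul (hε.pow 6)).mul hyv).div
          (kS_ofNat 27) (by norm_num))
        simpa using h2
    · obtain ⟨hx, hy⟩ := h
      have hX : v.At (MvPolynomial.aeval S (lf e) ^ 4 * x / 9 - qdd (fc F e S) w / 6)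
          (MvPolynomial.aeval s (lf e) ^ 4 * x' / 9 - qdd (fc F e s) w₀ / 6) :=
        (((hε.pow 4).mul hx).div (kS_ofNat 9) (by norm_num)).sub
          (hqdd.div (kS_ofNat 6) (by norm_num))
      refine isVal_aff (fun j => ?_) ?_
      · exact (hX.mul (hs j)).add (((hw.mul hX).add hqd).mul (hd j))
      · exact ((((hw.mul hX).add hqd).mul hqd).mul ((hε.pow 6).mul hy)).div (kS_ofNat 27)
          (by norm_num)

end Pool.Agent.Kim
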