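import Pool.Agent.Kim.PsiOn
import Pool.Agent.Kim.PsiVal
import Pool.Agent.Kim.BasicC

/-!
# Translation by a point of order two does not change the class
-/

set_option autoImplicit false

noncomputable section

namespace Pool.Agent.Kim

open Pool.Agent.ZCyc Pool.Agent.VFP Pool.Agent.TInf

universe u

variable {k : Type u} [Field k] {F : MvPolynomial (Fin 3) k} {n : ℕ}

private theorem transl_aeval {K : Type*} [Field K] [Algebra k K] (c : Fin 3 → k)
    (p : MvPolynomial (Fin 3) k) :
    MvPolynomial.aeval (fun a => algebraMap k K (c a)) p =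
      algebraMap k K (MvPolynomial.aeval c p) :=
  MvPolynomial.aeval_algebraMap_apply K c p

private theorem transl_fc {K : Type*} [Field K] [Algebra k K] (e c : Fin 3 → k) (m : ℕ) :
    fc F e (fun a => algebraMap k K (c a)) m = algebraMap k K (fc F e c m) :=
  transl_aeval c _

private theorem transl_qv {K : Type*} [Field K] [Algebra k K] (e c : Fin 3 → k) (r : k) :
    qv (fc F e fun a => algebraMap k K (c a)) (algebraMap k K r) =
      algebraMap k K (qv (fc F e c) r) := by
  unfold qv
  simp only [transl_fc, map_add, map_mul, map_pow]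

private theorem transl_qd {K : Type*} [Field K] [Algebra k K] (e c : Fin 3 → k) (r : k) :
    qd (fc F e fun a => algebraMap k K (c a)) (algebraMap k K r) =
      algebraMap k K (qd (fc F e c) r) := by
  unfold qd
  simp only [transl_fc, map_add, map_mul, map_pow, map_ofNat]

private theorem transl_on {K : Type*} [Field K] {α B E m X : K}
    (hE : E ^ 3 - 3 * α * E + B = 0)
    (hX : X ^ 2 - (m ^ 2 - E) * X + (E ^ 2 - 3 * α + m ^ 2 * E) = 0) :
    EOn α B (some (X, m * (X - E))) := by
  show (m * (X - E)) ^ 2 = X ^ 3 - 3 * α * X + B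
  linear_combination (-(X - E)) * hX - hE

variable [IsAlgClosed k] [CharZero k]

/-- Translation by the point `(E, 0)` of order two does not change the class: let `E`, `D` be as in
`psi_translate`. For `m ∈ k(t)` the line `Y = m (X - E)` meets the curve in `(E, 0)` and in two points
with `X ² + E X + E ² - 3 α - m ² (X - E) = 0`. Use `bridgeOne` for the images of the two
points for `m = m₀ t`, `m₀ = y / (x - E)`: at `t = 1` they are the images of `(x, y)` and of
`(x', - y')`, `(x', y') = (E + D / (x - E), - y D / (x - E) ²)` (`psi_val`, `psi_neg`, `AX_neg`), at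
`t = 0` they have the last coordinate `0` (`AX_y`). -/
theorem AX_translate (hF : F.IsHomogeneous 6) {α B : MvPolynomial (Fin 3) k}
    (hm : MinModel F α B) {e : Fin 3 → k} {c : Fin 3 → k}
    (hc : MvPolynomial.aeval c F = 0) (he : MvPolynomial.aeval c (lf e) ≠ 0) (hg : grad F c ≠ 0)
    {r : k} (hr : qv (fc F e c) r = 0) (hA : qd (fc F e c) r ≠ 0) {w : Fin n → Pt k}
    (hw : ∀ j, OnX F (w j)) (j : Fin n) {E D x y : k}
    (hE : E ^ 3 - 3 * MvPolynomial.aeval c α * E + MvPolynomial.aeval c B = 0)
    (hD : D = 3 * E ^ 2 - 3 * MvPolynomial.aeval c α) (hD0 : D ≠ 0) (hx : x ≠ E)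
    (hxy : y ^ 2 = x ^ 3 - 3 * MvPolynomial.aeval c α * x + MvPolynomial.aeval c B) :
    AX F (Function.update w j (psi F e c r (some (x, y)))) =
      AX F (Function.update w j
        (psi F e c r (some (E + D / (x - E), -(y * D / (x - E) ^ 2))))) := by
  have hxE : x - E ≠ 0 := sub_ne_zero.2 hx
  set a := MvPolynomial.aeval c α with ha
  set b := MvPolynomial.aeval c B with hb
  set m₀ := y / (x - E) with hm₀
  set x' := E + D / (x - E) with hx'
  set y' := y * D / (x - E) ^ 2 with hy'
  -- the sum and the product of the roots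
  have hs : x + x' = m₀ ^ 2 - E := by
    rw [hx', hm₀, div_pow, hxy, hD]
    field_simp
    linear_combination (-1) * hE
  have hp : x * x' = E ^ 2 - 3 * a + m₀ ^ 2 * E := by
    rw [hx', hm₀, div_pow, hxy, hD]
    field_simp
    linear_combination (-E) * hE
  have hyx : m₀ * (x - E) = y := div_mul_cancel₀ _ hxE
  have hyx' : m₀ * (x' - E) = y' := by
    rw [hx', hm₀, hy']
    field_simp
    ring
  -- the constants over `k(t)`
  let K := Om k
  let φ := algebraMap k K
  have hφ : ∀ z : k, ∀ v : Place k (Om k), v.At (φ z) z := fun z v => Place.at_const z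
  set c' : Fin 3 → K := fun i => φ (c i) with hc'
  have hα' : MvPolynomial.aeval c' α = φ a := transl_aeval c α
  have hB' : MvPolynomial.aeval c' B = φ b := transl_aeval c B
  have hE' : φ E ^ 3 - 3 * φ a * φ E + φ b = 0 := by
    have h := congrArg φ hE
    simpa only [map_add, map_sub, map_mul, map_pow, map_ofNat, map_zero] using h
  -- the moving points
  set m : K := φ m₀ * tt k with hmdef
  obtain ⟨s, hss⟩ := IsAlgClosed.exists_pow_nat_eq
    ((m ^ 2 - φ E) ^ 2 - 4 * (φ E ^ 2 - 3 * φ a + m ^ 2 * φ E)) two_pos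
  let X : Bool → K := fun i => if i then (m ^ 2 - φ E + s) / 2 else (m ^ 2 - φ E - s) / 2
  have h2 : (2 : K) ≠ 0 := two_ne_zero
  have hX1 : X true + X false = m ^ 2 - φ E := by
    show (m ^ 2 - φ E + s) / 2 + (m ^ 2 - φ E - s) / 2 = _
    ring
  have hX2 : X true * X false = φ E ^ 2 - 3 * φ a + m ^ 2 * φ E := by
    show (m ^ 2 - φ E + s) / 2 * ((m ^ 2 - φ E - s) / 2) = _
    linear_combination (-1 / 4) * hss
  have hX : ∀ i, X i ^ 2 - (m ^ 2 - φ E) * X i + (φ E ^ 2 - 3 * φ a + m ^ 2 * φ E) = 0 := by
    intro i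
    rw [← hX1, ← hX2]
    cases i <;> ring
  let P : Bool → Pt (Om k) := fun i => psi F e c' (φ r) (some (X i, m * (X i - φ E)))
  have hEP : ∀ i, EOn (MvPolynomial.aeval c' α) (MvPolynomial.aeval c' B)
      (some (X i, m * (X i - φ E))) := by
    intro i
    rw [hα', hB']
    exact transl_on hE' (hX i)
  have hinj : Function.Injective φ := φ.injective
  have hP : ∀ i, OnX F (P i) := by
    intro i
    refine psi_on hF hm ?_ ?_ ?_ ?_ ?_ (hEP i)
    · rw [transl_aeval, hc, map_zero]
    · rw [transl_aeval]
      exact (map_ne_zero φ).2 he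
    · intro h0
      apply hg
      funext i
      have h1 := congrFun h0 i
      rw [grad, transl_aeval] at h1
      exact hinj (h1.trans (map_zero φ).symm)
    · rw [transl_qv, hr, map_zero]
    · rw [transl_qd]
      exact (map_ne_zero φ).2 hA
  -- values
  have hval : ∀ (v : Place k (Om k)) (μ : k), v.At m μ → ∃ ξ : Bool → k,
      ξ true + ξ false = μ ^ 2 - E ∧ ξ true * ξ false = E ^ 2 - 3 * a + μ ^ 2 * E ∧
      ∀ i, OnX F (psi F e c r (some (ξ i, μ * (ξ i - E)))) ∧
        IsVal v (P i) (psi F e c r (some (ξ i, μ * (ξ i - E)))) := by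
    intro v μ hμ
    have h3 : v.At (3 : K) (3 : k) := at_num 3
    have hG : v.At (m ^ 2 - φ E) (μ ^ 2 - E) := (hμ.pow 2).sub (hφ E v)
    have hH : v.At (φ E ^ 2 - 3 * φ a + m ^ 2 * φ E) (E ^ 2 - 3 * a + μ ^ 2 * E) :=
      (((hφ E v).pow 2).sub (h3.mul (hφ a v))).add ((hμ.pow 2).mul (hφ E v))
    have hmem : ∀ i, X i ∈ v.ring := fun i => mem_of_quad hG.mem hH.mem (hX i)
    choose ξ hξ using fun i => DCI57.exists_at v (hmem i)
    refine ⟨ξ, ?_, ?_, fun i => ?_⟩
    · have h4 := (hξ true).add (hξ false)
      rw [hX1] at h4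
      exact h4.unique hG
    · have h4 := (hξ true).mul (hξ false)
      rw [hX2] at h4
      exact h4.unique hH
    · have hev : EVal v (some (X i, m * (X i - φ E))) (some (ξ i, μ * (ξ i - E))) :=
        ⟨hξ i, hμ.mul ((hξ i).sub (hφ E v))⟩
      have hon : EOn a b (some (ξ i, μ * (ξ i - E))) := by
        have h5 := hEP i
        rw [hα', hB'] at h5
        exact evalue_on (hφ a v) (hφ b v) h5 hev
      exact ⟨psi_on hF hm hc he hg hr hA hon,
        psi_val (fun i => hφ (c i) v) he (hφ r v) (hEP i) hev⟩
  -- the bridge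
  have key := bridgeOne (F := F) (fun _ : Bool => (1 : ℚ)) hw j P hP 0 1 0
    (AX F (Function.update w j (psi F e c r (some (x, y)))) +
      AX F (Function.update w j (psi F e c r (some (x', y')))))
    (by
      intro v hv
      have hμ : v.At m 0 := by
        have h := (hφ m₀ v).mul hv
        rwa [mul_zero] at h
      obtain ⟨ξ, -, -, h⟩ := hval v 0 hμ
      refine ⟨_, h, Finset.sum_eq_zero fun i _ => ?_⟩
      rw [AX_y (j := j), smul_zero]
      rw [Function.update_self]
      show _ * _ * (_ * (0 * (ξ i - E))) / 27 = 0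
      ring)
    (by
      intro v hv
      have hμ : v.At m m₀ := by
        have h := (hφ m₀ v).mul hv
        rwa [mul_one] at h
      obtain ⟨ξ, h1, h2, h⟩ := hval v m₀ hμ
      refine ⟨_, h, ?_⟩
      rw [Fintype.sum_bool, one_smul, one_smul]
      have h6 : (ξ true - x) * (ξ true - x') = 0 := by
        have h7 : (ξ true - x) * (ξ true - x') = ξ true ^ 2 - (x + x') * ξ true + x * x' := by
          ring
        rw [h7, hs, hp, ← h1, ← h2]
        ring
      rcases mul_eq_zero.1 h6 with h7 | h7
      · have h8 : ξ true = x := sub_eq_zero.1 h7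
        have h9 : ξ false = x' := by
          have : ξ true + ξ false = x + x' := h1.trans hs.symm
          rw [h8] at this
          exact add_left_cancel this
        rw [h8, h9, hyx, hyx']
      · have h8 : ξ true = x' := sub_eq_zero.1 h7
        have h9 : ξ false = x := by
          have : ξ true + ξ false = x + x' := h1.trans hs.symm
          rw [h8, add_comm x] at this
          exact add_left_cancel this
        rw [h8, h9, hyx, hyx', add_comm])
  have h10 := AX_neg (F := F) (Function.update w j (psi F e c r (some (x', y')))) j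
  rw [Function.update_self, Function.update_idem, ← psi_neg] at h10
  rw [h10]
  exact eq_neg_of_add_eq_zero_left key.symm

end Pool.Agent.Kim
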