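import Pool.Agent.Kim.PsiTr
import Pool.Agent.Kim.Transl
import Pool.Agent.Kim.RootsA

/-!
# The class does not depend on the root
-/

set_option autoImplicit false

noncomputable section

namespace Pool.Agent.Kim

open Pool.Agent.ZCyc Pool.Agent.VFP Pool.Agent.TInf

universe u

variable {k : Type u} [Field k] [IsAlgClosed k] [CharZero k] {F : MvPolynomial (Fin 3) k} {n : ℕ}

/-- `psi_translate`, `AX_translate`, `AX_scale`; if `P = ∞` or `P = (E, 0)` both points have the last
coordinate zero (`y = 0`), so both classes are zero. -/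
theorem AX_root (hF : F.IsHomogeneous 6) {α B : MvPolynomial (Fin 3) k}
    (hm : MinModel F α B) {e : Fin 3 → k} {c : Fin 3 → k}
    (hc : MvPolynomial.aeval c F = 0) (he : MvPolynomial.aeval c (lf e) ≠ 0) (hg : grad F c ≠ 0)
    (h6 : fc F e c 6 ≠ 0) {ρ : Fin 4 → k} (hρ : Roots (fc F e c) ρ) (i i' : Fin 4)
    {w : Fin n → Pt k} (hw : ∀ j, OnX F (w j)) (j : Fin n) {P : EPt k}
    (hP : EOn (MvPolynomial.aeval c α) (MvPolynomial.aeval c B) P) :
    AX F (Function.update w j (psi F e c (ρ i) P)) =
      AX F (Function.update w j (psi F e c (ρ i') P)) := by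
  classical
  by_cases hi : i = i'
  · rw [hi]
  have hy0 : ∀ (i : Fin 4) {P : EPt k}, (psi F e c (ρ i) P).y = 0 →
      AX F (Function.update w j (psi F e c (ρ i) P)) = 0 := by
    intro i P h
    refine AX_y (j := j) ?_
    rw [Function.update_self]
    exact h
  obtain _ | ⟨x, y⟩ := P
  · rw [hy0 i rfl, hy0 i' rfl]
  obtain ⟨E, D, hE, hD, hD0, htr⟩ := psi_translate hF hm hc he hg h6 hρ hi
  have hxy : y ^ 2 = x ^ 3 - 3 * MvPolynomial.aeval c α * x + MvPolynomial.aeval c B := hP
  by_cases hx : x = E
  · have hy : y = 0 := by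
      rw [hx, hE] at hxy
      exact pow_eq_zero_iff two_ne_zero |>.1 hxy
    have h0 : ∀ i, (psi F e c (ρ i) (some (x, y))).y = 0 := by
      intro i
      simp only [psi, hy, mul_zero, zero_div]
    rw [hy0 i (h0 i), hy0 i' (h0 i')]
  obtain ⟨l, hl, hpsi⟩ := htr x y hx hxy
  have h1 := AX_translate hF hm hc he hg (hρ.zero i) (hρ.der_ne h6 i) hw j hE hD hD0 hx hxy
  rw [h1]
  -- the translate is on the curve
  have hx' : x - E ≠ 0 := sub_ne_zero.2 hx
  have hP' : EOn (MvPolynomial.aeval c α) (MvPolynomial.aeval c B)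
      (some (E + D / (x - E), -(y * D / (x - E) ^ 2))) := by
    show (-(y * D / (x - E) ^ 2)) ^ 2 = (E + D / (x - E)) ^ 3 -
      3 * MvPolynomial.aeval c α * (E + D / (x - E)) + MvPolynomial.aeval c B
    have hB : MvPolynomial.aeval c B = 3 * MvPolynomial.aeval c α * E - E ^ 3 := by
      linear_combination hE
    have e1 : (-(y * D / (x - E) ^ 2)) ^ 2 = y ^ 2 * D ^ 2 / (x - E) ^ 4 := by
      field_simp
    rw [e1, hxy, hB, hD]
    field_simp
    ring
  have hon := psi_on hF hm hc he hg (hρ.zero i) (hρ.der_ne h6 i) hP'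
  set Q := psi F e c (ρ i) (some (E + D / (x - E), -(y * D / (x - E) ^ 2))) with hQ
  have hw' : ∀ j', OnX F (Function.update w j Q j') := by
    intro j'
    by_cases h : j' = j
    · subst h
      rw [Function.update_self]
      exact hon
    · rw [Function.update_of_ne h]
      exact hw j'
  have h2 := AX_scale hF (c := Function.update (fun _ => (1 : k)) j l) (fun j' => by
    by_cases h : j' = j
    · subst h
      rw [Function.update_self]
      exact hl
    · rw [Function.update_of_ne h]
      exact one_ne_zero) hw'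
  rw [← h2, hpsi]
  congr 1
  funext j'
  by_cases h : j' = j
  · subst h
    simp only [Function.update_self]
  · simp only [Function.update_of_ne h]
    ext1
    · funext a
      simp [Pt.scale]
    · simp [Pt.scale]

end Pool.Agent.Kim
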