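import Pool.Agent.Kim.Inst
import Pool.Agent.Kim.RootInd

/-!
# The class of a tuple does not depend on the choice of the roots
-/

set_option autoImplicit false

noncomputable section

namespace Pool.Agent.Kim

open Pool.Agent.ZCyc Pool.Agent.VFP Pool.Agent.TInf

universe u

variable {k : Type u} [Field k] [IsAlgClosed k] [CharZero k] {F α B : MvPolynomial (Fin 3) k}
  {e δ : Fin 3 → k} {n : ℕ}

private theorem rt_roots' {K : Type*} [Field K] [Algebra k K] [IsAlgClosed K] [CharZero K]
    (c : CPt F (Gp F e) K) : Roots (fc F e c.1) (rt c) :=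
  (exists_rt c).choose_spec

/-- `cpt_props`, `grad_ne`, `psi_on` -/
theorem onX_tup (hF : F.IsHomogeneous 6) (hns : NonSing F) (hm : MinModel F α B) {K : Type u}
    [Field K] [Algebra k K] [IsAlgClosed K] [CharZero K] {s : Fin n → CPt F (Gp F e) K}
    (W : Fin n → Fin 4) {p : Fin n → EPt K}
    (hp : ∀ j, EOn (MvPolynomial.aeval (s j).1 α) (MvPolynomial.aeval (s j).1 B) (p j)) (j : Fin n) :
    OnX F (tup (F := F) (e := e) s W p j) := by
  obtain ⟨h1, h2, h3, h4⟩ := cpt_props (s j)
  exact psi_on hF hm (s j).2.1 h1 (grad_ne hns h4) ((rt_roots' (s j)).zero _)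
    ((rt_roots' (s j)).der_ne h2 _) (hp j)

/-- change the roots one after the other with `AX_root` -/
theorem AX_tup (hF : F.IsHomogeneous 6) (hns : NonSing F) (hm : MinModel F α B)
    {s : Fin n → CPt F (Gp F e) k} (W W' : Fin n → Fin 4) {p : Fin n → EPt k}
    (hp : ∀ j, EOn (MvPolynomial.aeval (s j).1 α) (MvPolynomial.aeval (s j).1 B) (p j)) :
    AX F (tup (F := F) (e := e) s W p) = AX F (tup (F := F) (e := e) s W' p) := by
  classical
  -- change one root
  have step : ∀ (V : Fin n → Fin 4) (j : Fin n) (i : Fin 4),
      AX F (tup (F := F) (e := e) s (Function.update V j i) p) =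
        AX F (tup (F := F) (e := e) s V p) := by
    intro V j i
    obtain ⟨h1, h2, h3, h4⟩ := cpt_props (s j)
    have e1 : tup (F := F) (e := e) s (Function.update V j i) p =
        Function.update (tup (F := F) (e := e) s V p) j
          (psi F e (s j).1 (rt (s j) i) (p j)) := by
      funext j'
      by_cases hj : j' = j
      · subst hj
        rw [Function.update_self]
        unfold tup
        rw [Function.update_self]
      · rw [Function.update_of_ne hj]
        unfold tup
        rw [Function.update_of_ne hj]
    have e2 : tup (F := F) (e := e) s V p =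
        Function.update (tup (F := F) (e := e) s V p) j
          (psi F e (s j).1 (rt (s j) (V j)) (p j)) :=
      (Function.update_eq_self j _).symm
    rw [e1]
    conv_rhs => rw [e2]
    exact AX_root hF hm (s j).2.1 h1 (grad_ne hns h4) h2 (rt_roots' (s j)) i (V j)
      (fun j' => onX_tup hF hns hm V hp j') j (hp j)
  -- change all roots of a finite set
  have all : ∀ T : Finset (Fin n),
      AX F (tup (F := F) (e := e) s (fun j => if j ∈ T then W' j else W j) p) =
        AX F (tup (F := F) (e := e) s W p) := by
    intro T
    induction T using Finset.induction_on with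
    | empty => simp
    | insert a T ha ih =>
      rw [← ih, ← step (fun j => if j ∈ T then W' j else W j) a (W' a)]
      congr 2
      funext j
      by_cases hj : j = a
      · subst hj
        rw [Function.update_self, if_pos (Finset.mem_insert_self _ _)]
      · rw [Function.update_of_ne hj]
        simp [Finset.mem_insert, hj]
  have h := all Finset.univ
  simp only [Finset.mem_univ, if_true] at h
  exact h.symm

/-- `FX` is `4 ^ n` times the class of one tuple -/
theorem FX_eq (hF : F.IsHomogeneous 6) (hns : NonSing F) (hm : MinModel F α B)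
    {s : Fin n → CPt F (Gp F e) k} (W : Fin n → Fin 4) {p : Fin n → EPt k}
    (hp : ∀ j, EOn (MvPolynomial.aeval (s j).1 α) (MvPolynomial.aeval (s j).1 B) (p j)) :
    FX F e α B δ s (fun _ => p) = (4 ^ n : ℚ) • AX F (tup (F := F) (e := e) s W p) := by
  have h0 : On0 (baseX F e α B δ) s (fun _ => p) := fun _ j => hp j
  unfold FX
  rw [if_pos h0]
  have h1 : ∀ V : Fin n → Fin 4, AX F (tup (F := F) (e := e) s V p) =
      AX F (tup (F := F) (e := e) s W p) := fun V => AX_tup hF hns hm V W hp
  rw [Finset.sum_congr rfl fun V _ => h1 V, Finset.sum_const, Finset.card_univ,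
    Fintype.card_fun, Fintype.card_fin, Fintype.card_fin, ← Nat.cast_smul_eq_nsmul ℚ]
  push_cast
  rfl

end Pool.Agent.Kim
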