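import Pool.Agent.Kim.CurveA0

/-!
# The curve `F = 0`: polars and the Nullstellensatz
-/

set_option autoImplicit false

noncomputable section

namespace Pool.Agent.Kim

open Pool.Agent.ZCyc Pool.Agent.VFP

universe u

variable {k : Type u} [Field k] [IsAlgClosed k] [CharZero k] {F : MvPolynomial (Fin 3) k}

omit [IsAlgClosed k] [CharZero k] in
private theorem curveA1_comm (i j : Fin 3) (p : MvPolynomial (Fin 3) k) :
    MvPolynomial.pderiv i (MvPolynomial.pderiv j p) =
      MvPolynomial.pderiv j (MvPolynomial.pderiv i p) := by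
  have h : ⁅(MvPolynomial.pderiv i : Derivation k (MvPolynomial (Fin 3) k) _),
      (MvPolynomial.pderiv j : Derivation k (MvPolynomial (Fin 3) k) _)⁆ = 0 := by
    apply MvPolynomial.derivation_ext
    intro l
    rw [Derivation.commutator_apply, MvPolynomial.pderiv_X, MvPolynomial.pderiv_X,
      Derivation.zero_apply]
    rcases eq_or_ne l j with rfl | hj <;> rcases eq_or_ne l i with rfl | hi <;>
      simp [*]
  have h1 := congrArg (fun D => D p) h
  simp only [Derivation.commutator_apply, Derivation.zero_apply] at h1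
  exact sub_eq_zero.1 h1

omit [IsAlgClosed k] in
private theorem curveA1_ne (hns : NonSing F) : F ≠ 0 := by
  rintro rfl
  have h := hns (fun _ => 1) fun i => by
    rw [map_zero, map_zero]
  exact one_ne_zero (congrFun h 0)

omit [IsAlgClosed k] [CharZero k] in
private theorem curveA1_hom (hF : F.IsHomogeneous 6) (z : Fin 3 → k) :
    (∑ i, MvPolynomial.C (z i) * MvPolynomial.pderiv i F).IsHomogeneous 5 := by
  refine MvPolynomial.IsHomogeneous.sum _ _ _ fun i _ => ?_
  have h := (MvPolynomial.isHomogeneous_C (Fin 3) (z i)).mul (hF.pderiv (i := i))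
  simpa using h

omit [IsAlgClosed k] in
/-- The polar of a point is not divisible by `F`: its degree is `5`, and if it were `0` then
(derivative with respect to `x_l`, Euler's formula for `pderiv l F` at `z`) the gradient
of `F` would be zero at `z`. -/
private theorem curveA1_polar (hF : F.IsHomogeneous 6) (hns : NonSing F) {z : Fin 3 → k}
    (hz : z ≠ 0) : ¬ F ∣ ∑ i, MvPolynomial.C (z i) * MvPolynomial.pderiv i F := by
  intro hdvd
  have hF0 := curveA1_ne hns
  have hP : ∑ i, MvPolynomial.C (z i) * MvPolynomial.pderiv i F = 0 := by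
    by_contra hne
    obtain ⟨q, hq⟩ := hdvd
    have hq0 : q ≠ 0 := by
      rintro rfl
      rw [mul_zero] at hq
      exact hne hq
    have h1 := (curveA1_hom hF z).totalDegree hne
    rw [hq, MvPolynomial.totalDegree_mul_of_isDomain hF0 hq0, hF.totalDegree hF0] at h1
    omega
  apply hz
  apply hns
  intro l
  have h1 : MvPolynomial.pderiv l (∑ i, MvPolynomial.C (z i) * MvPolynomial.pderiv i F) = 0 := by
    rw [hP, map_zero]
  rw [map_sum] at h1
  have h2 : MvPolynomial.aeval z (∑ i, MvPolynomial.X i *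
      MvPolynomial.pderiv i (MvPolynomial.pderiv l F)) = 0 := by
    have h3 := congrArg (MvPolynomial.aeval z) h1
    rw [map_zero, map_sum] at h3
    rw [map_sum, ← h3]
    refine Finset.sum_congr rfl fun i _ => ?_
    rw [MvPolynomial.pderiv_C_mul, map_mul, map_mul, MvPolynomial.aeval_X,
      MvPolynomial.aeval_C, curveA1_comm i l]
    rfl
  rw [(hF.pderiv (i := l)).sum_X_mul_pderiv, map_nsmul, nsmul_eq_mul] at h2
  rcases mul_eq_zero.1 h2 with h3 | h3
  · exfalso
    have : ((6 - 1 : ℕ) : k) ≠ 0 := Nat.cast_ne_zero.2 (by norm_num)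
    exact this h3
  · exact h3

/-- The polar of a point is not divisible by `F`. -/
theorem polar_ne (hF : F.IsHomogeneous 6) (hns : NonSing F) {z : Fin 3 → k} (hz : z ≠ 0) :
    ¬ F ∣ ∑ i, MvPolynomial.C (z i) * MvPolynomial.pderiv i F :=
  curveA1_polar hF hns hz

/-- Nullstellensatz for the prime ideal `(F)` -/
theorem dvd_of_vanish (hF : F.IsHomogeneous 6) (hns : NonSing F) {g : MvPolynomial (Fin 3) k}
    (h : ∀ c : Fin 3 → k, c ≠ 0 → MvPolynomial.aeval c F = 0 → MvPolynomial.aeval c g = 0) :
    F ∣ g := by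
  have hp := prime_F hF hns
  have hprime : (Ideal.span {F} : Ideal (MvPolynomial (Fin 3) k)).IsPrime :=
    (Ideal.span_singleton_prime hp.ne_zero).2 hp
  have h1 : MvPolynomial.X 0 * g ∈ (Ideal.span {F} : Ideal (MvPolynomial (Fin 3) k)) := by
    rw [← MvPolynomial.IsPrime.vanishingIdeal_zeroLocus (K := k) (Ideal.span {F})]
    rw [MvPolynomial.mem_vanishingIdeal_iff]
    intro c hc
    have hcF : MvPolynomial.aeval c F = 0 := hc F (Ideal.mem_span_singleton_self F)
    rw [map_mul, MvPolynomial.aeval_X]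
    rcases eq_or_ne c 0 with rfl | hc0
    · rw [Pi.zero_apply, zero_mul]
    · rw [h c hc0 hcF, mul_zero]
  rw [Ideal.mem_span_singleton] at h1
  rcases hp.dvd_or_dvd h1 with h2 | h2
  · exfalso
    obtain ⟨q, hq⟩ := h2
    have hX : (MvPolynomial.X 0 : MvPolynomial (Fin 3) k) ≠ 0 := MvPolynomial.X_ne_zero 0
    have hq0 : q ≠ 0 := by
      rintro rfl
      rw [mul_zero] at hq
      exact hX hq
    have h3 := MvPolynomial.totalDegree_X (R := k) (0 : Fin 3)
    rw [hq, MvPolynomial.totalDegree_mul_of_isDomain hp.ne_zero hq0,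
      hF.totalDegree hp.ne_zero] at h3
    omega
  · exact h2

/-- A point of the curve whose tangent line contains `x`: a common zero of `F` and of
the polar of `x`. -/
theorem exists_tangent (hF : F.IsHomogeneous 6) (hns : NonSing F) {x : Fin 3 → k} :
    ∃ c : Fin 3 → k, c ≠ 0 ∧ MvPolynomial.aeval c F = 0 ∧ ∑ i, grad F c i * x i = 0 := by
  obtain ⟨c, hc0, hcF, hc⟩ := exists_zero₂ hF (curveA1_hom hF x) (by norm_num) (by norm_num)
  refine ⟨c, hc0, hcF, ?_⟩
  rw [map_sum] at hc
  rw [← hc]
  refine Finset.sum_congr rfl fun i _ => ?_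
  rw [map_mul, MvPolynomial.aeval_C, mul_comm]
  rfl

end Pool.Agent.Kim
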