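import Pool.Agent.Kim.CurveA0
import Pool.Agent.Kim.CurveA1

/-!
# The curve `F = 0`

Part 1 (`grad_ne`, `exists_zero₂`, `prime_F`) is `CurveA0`, part 2 (`polar_ne`, `dvd_of_vanish`,
`exists_tangent`) is `CurveA1`.
-/
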