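import Pool.Agent.Kim.QDef

/-!
# The vectors `c`, `d(c)` and the gradient
-/

set_option autoImplicit false

noncomputable section

namespace Pool.Agent.Kim

open Pool.Agent.ZCyc Pool.Agent.VFP

universe u

variable {k : Type u} [Field k] {F : MvPolynomial (Fin 3) k} {e : Fin 3 → k} {K : Type*} [Field K]
  [Algebra k K]

private lemma dd_zero (c : Fin 3 → K) :
    dd F e c 0 = grad F c 1 * algebraMap k K (e 2) - grad F c 2 * algebraMap k K (e 1) := by
  simp [dd, dv, grad]

private lemma dd_one (c : Fin 3 → K) :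
    dd F e c 1 = grad F c 2 * algebraMap k K (e 0) - grad F c 0 * algebraMap k K (e 2) := by
  simp [dd, dv, grad]

private lemma dd_two (c : Fin 3 → K) :
    dd F e c 2 = grad F c 0 * algebraMap k K (e 1) - grad F c 1 * algebraMap k K (e 0) := by
  simp [dd, dv, grad]

private lemma lf_val (c : Fin 3 → K) : MvPolynomial.aeval c (lf e) =
    algebraMap k K (e 0) * c 0 + algebraMap k K (e 1) * c 1 + algebraMap k K (e 2) * c 2 := by
  simp [lf, Fin.sum_univ_three]

/-- Euler's formula -/
theorem grad_self (hF : F.IsHomogeneous 6) (c : Fin 3 → K) :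
    ∑ i, grad F c i * c i = 6 * MvPolynomial.aeval c F := by
  have h := hF.sum_X_mul_pderiv
  have h1 := congrArg (MvPolynomial.aeval c) h
  rw [map_sum] at h1
  simp only [map_mul, MvPolynomial.aeval_X, nsmul_eq_mul] at h1
  unfold grad
  rw [Finset.sum_congr rfl fun i _ => mul_comm _ _, h1]
  norm_num

theorem grad_dd (c : Fin 3 → K) : ∑ i, grad F c i * dd F e c i = 0 := by
  rw [Fin.sum_univ_three, dd_zero, dd_one, dd_two]
  ring

/-- `c × d(c) = (e · c) grad F(c)` for points of the curve -/
theorem cross_dd (hF : F.IsHomogeneous 6) {c : Fin 3 → K} (hc : MvPolynomial.aeval c F = 0) :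
    c 1 * dd F e c 2 - c 2 * dd F e c 1 = MvPolynomial.aeval c (lf e) * grad F c 0 ∧
    c 2 * dd F e c 0 - c 0 * dd F e c 2 = MvPolynomial.aeval c (lf e) * grad F c 1 ∧
    c 0 * dd F e c 1 - c 1 * dd F e c 0 = MvPolynomial.aeval c (lf e) * grad F c 2 := by
  have h := grad_self hF c
  rw [hc, mul_zero, Fin.sum_univ_three] at h
  rw [dd_zero, dd_one, dd_two, lf_val]
  refine ⟨?_, ?_, ?_⟩
  · linear_combination (-algebraMap k K (e 0)) * h
  · linear_combination (-algebraMap k K (e 1)) * h
  · linear_combination (-algebraMap k K (e 2)) * h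

/-- `c` and `d(c)` are linearly independent -/
theorem indep_dd (hF : F.IsHomogeneous 6) {c : Fin 3 → K} (hc : MvPolynomial.aeval c F = 0)
    (he : MvPolynomial.aeval c (lf e) ≠ 0) (hg : grad F c ≠ 0) {u v : K}
    (h : ∀ i, u * c i + v * dd F e c i = 0) : u = 0 ∧ v = 0 := by
  obtain ⟨h0, h1, h2⟩ := cross_dd (e := e) hF hc
  have hv : v = 0 := by
    by_contra hv
    apply hg
    funext i
    have h3 : v * MvPolynomial.aeval c (lf e) * grad F c i = 0 := by
      fin_cases i
      · change v * MvPolynomial.aeval c (lf e) * grad F c 0 = 0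
        linear_combination c 1 * h 2 - c 2 * h 1 - v * h0
      · change v * MvPolynomial.aeval c (lf e) * grad F c 1 = 0
        linear_combination c 2 * h 0 - c 0 * h 2 - v * h1
      · change v * MvPolynomial.aeval c (lf e) * grad F c 2 = 0
        linear_combination c 0 * h 1 - c 1 * h 0 - v * h2
    exact (mul_eq_zero.1 h3).resolve_left (mul_ne_zero hv he)
  subst hv
  refine ⟨?_, rfl⟩
  by_contra hu
  apply he
  have h3 : ∀ i, c i = 0 := by
    intro i
    have := h i
    rw [zero_mul, add_zero] at this
    exact (mul_eq_zero.1 this).resolve_left hu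
  rw [lf_val, h3, h3, h3]
  ring

/-- every point of the tangent line is a combination of `c` and `d(c)` -/
theorem exists_uv (hF : F.IsHomogeneous 6) {c : Fin 3 → K} (hc : MvPolynomial.aeval c F = 0)
    (he : MvPolynomial.aeval c (lf e) ≠ 0) (hg : grad F c ≠ 0) {x : Fin 3 → K}
    (hx : ∑ i, grad F c i * x i = 0) : ∃ u v : K, ∀ i, x i = u * c i + v * dd F e c i := by
  obtain ⟨h0, h1, h2⟩ := cross_dd (e := e) hF hc
  have hgc := grad_self hF c
  rw [hc, mul_zero, Fin.sum_univ_three] at hgc
  rw [Fin.sum_univ_three] at hx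
  set s := MvPolynomial.aeval c (lf e) with hs
  rw [lf_val] at hs
  set a0 := algebraMap k K (e 0)
  set a1 := algebraMap k K (e 1)
  set a2 := algebraMap k K (e 2)
  set u := (a0 * x 0 + a1 * x 1 + a2 * x 2) / s with hu
  have hus : u * s = a0 * x 0 + a1 * x 1 + a2 * x 2 := div_mul_cancel₀ _ he
  -- `d(c)` is not zero
  have hd : ∃ i, dd F e c i ≠ 0 := by
    by_contra hcon
    push Not at hcon
    apply hg
    funext i
    have h3 : s * grad F c i = 0 := by
      fin_cases i
      · change s * grad F c 0 = 0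
        rw [← h0, hcon, hcon]
        ring
      · change s * grad F c 1 = 0
        rw [← h1, hcon, hcon]
        ring
      · change s * grad F c 2 = 0
        rw [← h2, hcon, hcon]
        ring
    exact (mul_eq_zero.1 h3).resolve_left he
  -- `y = x - u c` is orthogonal to `e` and to the gradient
  have hye : a0 * (x 0 - u * c 0) + a1 * (x 1 - u * c 1) + a2 * (x 2 - u * c 2) = 0 := by
    linear_combination (-1 : K) * hus + u * hs
  have hyg : grad F c 0 * (x 0 - u * c 0) + grad F c 1 * (x 1 - u * c 1) +
      grad F c 2 * (x 2 - u * c 2) = 0 := by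
    linear_combination hx - u * hgc
  have e0 := dd_zero (F := F) (e := e) c
  have e1 := dd_one (F := F) (e := e) c
  have e2 := dd_two (F := F) (e := e) c
  have c0 : (x 1 - u * c 1) * dd F e c 2 = (x 2 - u * c 2) * dd F e c 1 := by
    rw [e1, e2]
    linear_combination grad F c 0 * hye - a0 * hyg
  have c1 : (x 2 - u * c 2) * dd F e c 0 = (x 0 - u * c 0) * dd F e c 2 := by
    rw [e0, e2]
    linear_combination grad F c 1 * hye - a1 * hyg
  have c2 : (x 0 - u * c 0) * dd F e c 1 = (x 1 - u * c 1) * dd F e c 0 := by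
    rw [e0, e1]
    linear_combination grad F c 2 * hye - a2 * hyg
  have key : ∀ i j, (x i - u * c i) * dd F e c j = (x j - u * c j) * dd F e c i := by
    intro i j
    fin_cases i <;> fin_cases j
    · rfl
    · exact c2
    · exact c1.symm
    · exact c2.symm
    · rfl
    · exact c0
    · exact c1
    · exact c0.symm
    · rfl
  obtain ⟨j, hj⟩ := hd
  refine ⟨u, (x j - u * c j) / dd F e c j, fun i => ?_⟩
  have h3 := key i j
  have h4 : (x j - u * c j) / dd F e c j * dd F e c i = x i - u * c i := by
    rw [div_mul_eq_mul_div, ← h3, mul_div_assoc, div_self hj, mul_one]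
  rw [h4]
  ring

end Pool.Agent.Kim
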