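import Pool.Agent.Kim.PsiOn
import Pool.Agent.Kim.QGrad

/-!
# The map is surjective
-/

set_option autoImplicit false

noncomputable section

namespace Pool.Agent.Kim

open Pool.Agent.ZCyc Pool.Agent.VFP Pool.Agent.TInf

universe u

variable {k : Type u} [Field k] {F : MvPolynomial (Fin 3) k}

/-- Every point of `X` above the tangent line with `y ≠ 0` is, up to a change of coordinates, in the
image of `psi`, for every root `w`. -/
theorem exists_psi [IsAlgClosed k] [CharZero k] (hF : F.IsHomogeneous 6)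
    {α B : MvPolynomial (Fin 3) k} (hm : MinModel F α B) {e : Fin 3 → k} {c : Fin 3 → k}
    (hc : MvPolynomial.aeval c F = 0) (he : MvPolynomial.aeval c (lf e) ≠ 0) (hg : grad F c ≠ 0)
    {w : k} (hw : qv (fc F e c) w = 0) (hA : qd (fc F e c) w ≠ 0) {p : Pt k} (hp : OnX F p)
    (hy : p.y ≠ 0) (ht : ∑ i, grad F c i * p.x i = 0) :
    ∃ (l : k) (P : EPt k), l ≠ 0 ∧ EOn (MvPolynomial.aeval c α) (MvPolynomial.aeval c B) P ∧
      p = (psi F e c w P).scale l := by
  obtain ⟨u, v, huv⟩ := exists_uv hF hc he hg ht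
  obtain ⟨hx0, hpy⟩ := hp
  have hpx : p.x = fun i => u * c i + v * dd F e c i := funext huv
  have hev : ∀ u v : k, MvPolynomial.aeval (fun i => u * c i + v * dd F e c i) F =
      v ^ 2 * (fc F e c 2 * u ^ 4 + fc F e c 3 * u ^ 3 * v + fc F e c 4 * u ^ 2 * v ^ 2 +
        fc F e c 5 * u * v ^ 3 + fc F e c 6 * v ^ 4) := fun u v => line_eval_curve hF hc u v
  have hy2 : p.y ^ 2 ≠ 0 := pow_ne_zero 2 hy
  rw [hpx, hev] at hpy
  have hv : v ≠ 0 := by
    rintro rfl
    apply hy2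
    rw [hpy]
    ring
  have hl0 : v - w * u ≠ 0 := by
    intro h0
    have h1 : v = w * u := sub_eq_zero.1 h0
    apply hy2
    rw [hpy, h1]
    rw [qv] at hw
    linear_combination (w * u) ^ 2 * u ^ 4 * hw
  set A : k := qd (fc F e c) w with hAdef
  set ε : k := MvPolynomial.aeval c (lf e) with hε
  set l : k := (v - w * u) / A with hl
  have hl1 : l ≠ 0 := div_ne_zero hl0 hA
  have hlA : l * A = v - w * u := by rw [hl]; field_simp
  set X : k := u / l with hX
  have hlX : l * X = u := by rw [hX]; field_simp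
  have hlv : l * (w * X + A) = v := by linear_combination w * hlX + hlA
  have hV : w * X + A ≠ 0 := by
    intro h0
    rw [h0, mul_zero] at hlv
    exact hv hlv.symm
  set x : k := 9 * (X + qdd (fc F e c) w / 6) / ε ^ 4 with hx
  have hε4 : ε ^ 4 ≠ 0 := pow_ne_zero 4 he
  have hε6 : ε ^ 6 ≠ 0 := pow_ne_zero 6 he
  have hxX : ε ^ 4 * x / 9 - qdd (fc F e c) w / 6 = X := by
    rw [hx]
    field_simp
    ring
  set y : k := 27 * p.y / (l ^ 3 * ((w * X + A) * A * ε ^ 6)) with hyd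
  have hden : l ^ 3 * ((w * X + A) * A * ε ^ 6) ≠ 0 :=
    mul_ne_zero (pow_ne_zero 3 hl1) (mul_ne_zero (mul_ne_zero hV hA) hε6)
  have hyy : l ^ 3 * ((w * X + A) * A * (ε ^ 6 * y) / 27) = p.y := by
    have h1 : y * (l ^ 3 * ((w * X + A) * A * ε ^ 6)) = 27 * p.y := by
      rw [hyd]
      exact div_mul_cancel₀ _ hden
    linear_combination h1 / 27
  -- a point of the curve with the same `x`
  obtain ⟨y1, hy1⟩ := IsAlgClosed.exists_pow_nat_eq
    (x ^ 3 - 3 * MvPolynomial.aeval c α * x + MvPolynomial.aeval c B) (n := 2) (by norm_num)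
  have hE1 : EOn (MvPolynomial.aeval c α) (MvPolynomial.aeval c B) (some (x, y1)) := hy1
  have hon := psi_on hF hm hc he hg hw hA hE1
  have hon2 : ((w * X + A) * A * (ε ^ 6 * y1) / 27) ^ 2 =
      (w * X + A) ^ 2 * (fc F e c 2 * X ^ 4 + fc F e c 3 * X ^ 3 * (w * X + A) +
        fc F e c 4 * X ^ 2 * (w * X + A) ^ 2 + fc F e c 5 * X * (w * X + A) ^ 3 +
        fc F e c 6 * (w * X + A) ^ 4) := by
    have h1 := hon.2
    simp only [psi] at h1
    rw [← hAdef, ← hε, hxX, hev] at h1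
    exact h1
  have hsq : y1 ^ 2 = y ^ 2 := by
    have h1 : (l ^ 3 * ((w * X + A) * A * (ε ^ 6 * y1) / 27)) ^ 2 =
        (l ^ 3 * ((w * X + A) * A * (ε ^ 6 * y) / 27)) ^ 2 := by
      rw [hyy, mul_pow, hon2, hpy, ← hlX, ← hlv]
      ring
    have h2 : (l ^ 3 * ((w * X + A) * A * ε ^ 6)) ^ 2 * (y1 ^ 2) =
        (l ^ 3 * ((w * X + A) * A * ε ^ 6)) ^ 2 * (y ^ 2) := by
      linear_combination 27 ^ 2 * h1
    exact mul_left_cancel₀ (pow_ne_zero 2 hden) h2
  refine ⟨l, some (x, y), hl1, ?_, ?_⟩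
  · show y ^ 2 = _
    rw [← hsq]
    exact hy1
  · ext j
    · simp only [Pt.scale, psi]
      rw [← hAdef, ← hε, hxX, huv j]
      linear_combination (-c j) * hlX - dd F e c j * hlv
    · simp only [Pt.scale, psi]
      rw [← hAdef, ← hε, hxX]
      exact hyy.symm

end Pool.Agent.Kim
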