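import Pool.Agent.Kim.CoreA
import Pool.Agent.Kim.CurveA
import Pool.Agent.Kim.PsiSurj
import Pool.Agent.Crv.Plane

/-!
# The class of a tuple with general tangent lines
-/

set_option autoImplicit false

noncomputable section

namespace Pool.Agent.Kim

open Pool.Agent.ZCyc Pool.Agent.VFP Pool.Agent.TInf

universe u

variable {k : Type u} [Field k] {F α B : MvPolynomial (Fin 3) k} {e δ : Fin 3 → k} {n : ℕ}

/-- The points `c j`, `j < m`, are general points of the curve, normalised by the linear form `l`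
of the frame `T`, such that the point `w j` of `X` is above the tangent line at `c j`. -/
structure Tan (F α B : MvPolynomial (Fin 3) k) (e : Fin 3 → k) (T : Crv.Frame k) (E : Finset k)
    (m : ℕ) (w : Fin n → Pt k) (c : Fin n → Fin 3 → k) : Prop where
  y : ∀ j : Fin n, (j : ℕ) < m → (w j).y ≠ 0
  eq : ∀ j : Fin n, (j : ℕ) < m → MvPolynomial.aeval (c j) F = 0
  tan : ∀ j : Fin n, (j : ℕ) < m → ∑ i, grad F (c j) i * (w j).x i = 0
  gp : ∀ j : Fin n, (j : ℕ) < m → MvPolynomial.aeval (c j) (Gp F e) ≠ 0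
  al : ∀ j : Fin n, (j : ℕ) < m → MvPolynomial.aeval (c j) α ≠ 0
  be : ∀ j : Fin n, (j : ℕ) < m → MvPolynomial.aeval (c j) B ≠ 0
  l : ∀ j : Fin n, (j : ℕ) < m → T.l (c j) = 1
  mE : ∀ j : Fin n, (j : ℕ) < m → T.m (c j) ∉ E
  inj : ∀ i j : Fin n, (i : ℕ) < j → (j : ℕ) < m → T.m (c i) ≠ T.m (c j)
  ds : ∀ i j : Fin n, (i : ℕ) < j → (j : ℕ) < m →
    MvPolynomial.aeval (c i) B ^ 2 * MvPolynomial.aeval (c j) α ^ 3 ≠
      MvPolynomial.aeval (c j) B ^ 2 * MvPolynomial.aeval (c i) α ^ 3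

/-- The set `E` satisfies the conclusion of `Crv.exists_curveFam_plane`. -/
def Excl (F α B : MvPolynomial (Fin 3) k) (e δ : Fin 3 → k) (T : Crv.Frame k) (E : Finset k) :
    Prop :=
  ∀ {n ρ : ℕ} (s : Fin n → CPt F (Gp F e) k), 0 < n → 6 ≤ n + 1 → ρ + 15 ≤ n →
    (∀ j, T.l (s j).1 = 1) → (∀ j, T.m (s j).1 ∉ E) →
    Function.Injective (fun j => T.m (s j).1) →
    (∀ j, MvPolynomial.aeval (s j).1 α ≠ 0) → (∀ j, MvPolynomial.aeval (s j).1 B ≠ 0) →
    (∀ j, MvPolynomial.aeval (s j).1 B ^ 2 ≠ 4 * MvPolynomial.aeval (s j).1 α ^ 3) →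
    ∃ H : KFam.CurveFam (baseX F e α B δ).kf (fun _ : Fin 1 => 108) s, H.ρ = ρ

theorem exists_excl [IsAlgClosed k] [CharZero k] (hF : F.IsHomogeneous 6) (hns : NonSing F)
    (hm : MinModel F α B) (T : Crv.Frame k) (ho : MvPolynomial.eval T.o F ≠ 0)
    (hδF : MvPolynomial.aeval δ F = 0) (hδ : T.l δ = 1) :
    ∃ E : Finset k, Excl F α B e δ T E := by
  obtain ⟨E, hE⟩ := Crv.exists_curveFam_plane (G := Gp F e) (α := fun _ : Fin 1 => α)
    (B := fun _ => B) (δ := δ) (e := fun _ => 18) (by norm_num : 0 < 6) hF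
    (prime_F hF hns).irreducible (fun _ => hm.homα) (fun _ => hm.homB) T ho
    (by rw [← MvPolynomial.aeval_eq_eval]; exact hδF) hδ one_pos
  refine ⟨E, fun s h1 h2 h3 h4 h5 h6 h7 h8 h9 => ?_⟩
  exact hE s h1 h2 (by norm_num; exact h3) h4 h5 h6 (fun _ => h7) (fun _ => h8) fun _ => h9

private theorem coreB_hom {K : Type*} [Field K] [Algebra k K] {G : MvPolynomial (Fin 3) k} {m : ℕ}
    (hG : G.IsHomogeneous m) (l : K) (c : Fin 3 → K) :
    MvPolynomial.aeval (l • c) G = l ^ m * MvPolynomial.aeval c G := by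
  rw [MvPolynomial.aeval_def, MvPolynomial.aeval_def, MvPolynomial.eval₂_eq',
    MvPolynomial.eval₂_eq', Finset.mul_sum]
  refine Finset.sum_congr rfl fun d hd => ?_
  have h1 := hG (MvPolynomial.mem_support_iff.1 hd)
  have h2 : ∑ i, d i = m := by
    rw [← h1, Finsupp.weight_apply, Finsupp.sum_fintype _ _ (by simp)]
    simp
  have h3 : ∏ i, ((l • c) i) ^ d i = l ^ m * ∏ i, c i ^ d i := by
    rw [← h2, ← Finset.prod_pow_eq_pow_sum, ← Finset.prod_mul_distrib]
    exact Finset.prod_congr rfl fun i _ => mul_pow _ _ _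
  rw [h3]
  ring

private theorem coreB_G (hF : F.IsHomogeneous 6) : (Gp F e).IsHomogeneous 163 := by
  have h1 : (lf e).IsHomogeneous 1 := by
    refine MvPolynomial.IsHomogeneous.sum _ _ _ fun i _ => ?_
    have h := (MvPolynomial.isHomogeneous_C (Fin 3) (e i)).mul
      (MvPolynomial.isHomogeneous_X k i)
    rwa [zero_add] at h
  have h2 : (Fc F e 6).IsHomogeneous 30 := Fc_hom hF 6
  have h4 : (4 : MvPolynomial (Fin 3) k).IsHomogeneous 0 := by
    have h := MvPolynomial.isHomogeneous_C (R := k) (Fin 3) (4 : k)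
    rwa [map_ofNat] at h
  have h3 : (Dq F e).IsHomogeneous 132 := by
    have h5 := h4.mul ((Iq_hom (e := e) hF).pow 3)
    have h6 := (Jq_hom (e := e) hF).pow 2
    norm_num at h5 h6
    exact h5.sub h6
  exact (h1.mul h2).mul h3

/-- the discriminant of the minimal model is not zero at the point -/
theorem disc_ne [CharZero k] (hm : MinModel F α B) {c : Fin 3 → k}
    (hc : MvPolynomial.aeval c F = 0) (hg : MvPolynomial.aeval c (Gp F e) ≠ 0) :
    MvPolynomial.aeval c B ^ 2 ≠ 4 * MvPolynomial.aeval c α ^ 3 := by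
  intro h
  have hv : ∀ g : MvPolynomial (Fin 3) k, F ∣ g → MvPolynomial.aeval c g = 0 := by
    rintro g ⟨a, rfl⟩
    rw [map_mul, hc, zero_mul]
  have h1 := hv _ (hm.eqα e)
  have h2 := hv _ (hm.eqB e)
  simp only [map_sub, map_mul, map_pow, map_neg, map_ofNat] at h1 h2
  have hD : MvPolynomial.aeval c (Dq F e) ≠ 0 := by
    intro h0
    apply hg
    rw [Gp, map_mul, h0, mul_zero]
  apply hD
  simp only [Dq, map_sub, map_mul, map_pow, map_ofNat]
  set I := MvPolynomial.aeval c (Iq F e)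
  set J := MvPolynomial.aeval c (Jq F e)
  set ε := MvPolynomial.aeval c (lf e)
  set a := MvPolynomial.aeval c α
  set b := MvPolynomial.aeval c B
  have hI : 9 * I = ε ^ 8 * a := sub_eq_zero.1 h1
  have hJ : -27 * J = ε ^ 12 * b := sub_eq_zero.1 h2
  have h3 : 729 * (4 * I ^ 3 - J ^ 2) = 4 * (9 * I) ^ 3 - (-27 * J) ^ 2 := by ring
  rw [hI, hJ] at h3
  have h4 : 4 * (ε ^ 8 * a) ^ 3 - (ε ^ 12 * b) ^ 2 = ε ^ 24 * (4 * a ^ 3 - b ^ 2) := by ring
  rw [h4, h, sub_self, mul_zero] at h3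
  exact (mul_eq_zero.1 h3).resolve_left (by norm_num)

/-- By `exists_psi` (`grad_ne`, `cpt_props`, `Roots.zero`, `Roots.der_ne`)
`w j = (psi F e (c j) (rt (c j) 0) (P j)).scale (l j)`. By `Excl` with `ρ = 54` and `zero_of_curve` for
`sysX` (`n₀ = 54`) `FX = 0` for the points `P`, so `AX F w = 0` by `FX_eq` and `AX_scale`. -/
theorem AX_tan [IsAlgClosed k] [CharZero k] (hF : F.IsHomogeneous 6) (hns : NonSing F)
    (hm : MinModel F α B) (hδ0 : δ ≠ 0)
    (hδF : MvPolynomial.aeval δ F = 0) (hδe : MvPolynomial.aeval δ (lf e) ≠ 0)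
    (hδ : MvPolynomial.aeval δ B ^ 2 = 4 * MvPolynomial.aeval δ α ^ 3) {T : Crv.Frame k}
    {E : Finset k} (hE : Excl F α B e δ T E) (hn : 69 ≤ n)
    {w : Fin n → Pt k} (hw : ∀ j, OnX F (w j)) {c : Fin n → Fin 3 → k}
    (h : Tan F α B e T E n w c) : AX F w = 0 := by
  have ds : ∀ i j : Fin n, i ≠ j → MvPolynomial.aeval (c i) B ^ 2 * MvPolynomial.aeval (c j) α ^ 3 ≠
      MvPolynomial.aeval (c j) B ^ 2 * MvPolynomial.aeval (c i) α ^ 3 := by
    intro i j hij
    rcases lt_or_gt_of_ne hij with h1 | h1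
    · exact h.ds i j h1 j.2
    · exact (h.ds j i h1 i.2).symm
  let s : Fin n → CPt F (Gp F e) k := fun j => ⟨c j, h.eq j j.2, h.gp j j.2⟩
  have hdisc : ∀ j, MvPolynomial.aeval (c j) B ^ 2 ≠ 4 * MvPolynomial.aeval (c j) α ^ 3 :=
    fun j => disc_ne hm (h.eq j j.2) (h.gp j j.2)
  obtain ⟨Fm, hFm⟩ := hE (ρ := 54) s (by omega) (by omega) (by omega) (fun j => h.l j j.2)
    (fun j => h.mE j j.2) (fun i j hij => by
      by_contra hne
      rcases lt_or_gt_of_ne hne with h1 | h1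
      · exact h.inj i j h1 j.2 hij
      · exact h.inj j i h1 i.2 hij.symm) (fun j => h.al j j.2) (fun j => h.be j j.2) hdisc
  have hgen : GenB (baseX F e α B δ) s :=
    ⟨fun _ => ⟨fun j => h.al j j.2, fun j => h.be j j.2, fun j => hdisc j, Or.inl ds⟩, fun _ => ds⟩
  have hpsi : ∀ j, ∃ (a : k) (P : EPt k), a ≠ 0 ∧ EOn (MvPolynomial.aeval (s j).1 α)
      (MvPolynomial.aeval (s j).1 B) P ∧ w j = (psi F e (s j).1 (rt (s j) 0) P).scale a := by
    intro j
    obtain ⟨p1, p2, p3, p4⟩ := cpt_props (s j)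
    have hr : Roots (fc F e (s j).1) (rt (s j)) := (exists_rt (s j)).choose_spec
    exact exists_psi hF hm (s j).2.1 p1 (grad_ne hns p4) (hr.zero 0) (hr.der_ne p2 0) (hw j)
      (h.y j j.2) (h.tan j j.2)
  choose a P ha hP hwP using hpsi
  have hzero := zero_of_curve (n₀ := 54) (sysX (n := n) hF hns hm hδ0 hδF hδe hδ)
    (by simp) (by norm_num) (by omega) hgen Fm (le_of_eq hFm.symm) (fun _ => P)
  change FX F e α B δ s (fun _ => P) = 0 at hzero
  rw [FX_eq hF hns hm (fun _ => 0) hP] at hzero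
  have h1 : AX F (tup (F := F) (e := e) s (fun _ => 0) P) = 0 :=
    (smul_eq_zero.1 hzero).resolve_left (by positivity)
  have h2 := AX_scale (F := F) hF ha (w := tup (F := F) (e := e) s (fun _ => 0) P)
    (fun j => onX_tup hF hns hm (fun _ => 0) hP j)
  have h3 : w = fun j => (tup (F := F) (e := e) s (fun _ => 0) P j).scale (a j) := funext hwP
  rw [h3, h2, h1]

end Pool.Agent.Kim
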