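import Pool.Agent.Kim.DiscB

/-!
# The general tangent line is not a bitangent
-/

set_option autoImplicit false

noncomputable section

namespace Pool.Agent.Kim

open Pool.Agent.ZCyc Pool.Agent.VFP

universe u

section aux

open Polynomial in
/-- The quartic as a polynomial. -/
private def discC_q {K : Type*} [Field K] (f : ℕ → K) : K[X] :=
  C (f 2) + C (f 3) * X + C (f 4) * X ^ 2 + C (f 5) * X ^ 3 + C (f 6) * X ^ 4

open Polynomial in
private theorem discC_q_eval {K : Type*} [Field K] (f : ℕ → K) {R : Type*} [CommRing R]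
    (ψ : K →+* R) (w : R) : (discC_q f).eval₂ ψ w =
      ψ (f 2) + ψ (f 3) * w + ψ (f 4) * w ^ 2 + ψ (f 5) * w ^ 3 + ψ (f 6) * w ^ 4 := by
  simp [discC_q]

open Polynomial in
private theorem discC_q_map {K L : Type*} [Field K] [Field L] (φ : K →+* L) (f : ℕ → K) :
    (discC_q f).map φ = discC_q fun m => φ (f m) := by
  simp [discC_q]

open Polynomial in
private theorem discC_q_coeff {K : Type*} [Field K] (f : ℕ → K) : (discC_q f).coeff 0 = f 2 ∧
    (discC_q f).coeff 1 = f 3 ∧ (discC_q f).coeff 2 = f 4 ∧ (discC_q f).coeff 3 = f 5 ∧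
    (discC_q f).coeff 4 = f 6 := by
  refine ⟨?_, ?_, ?_, ?_, ?_⟩ <;> simp [discC_q, coeff_X, coeff_C, coeff_X_pow]

private theorem discC_q_ne {K : Type*} [Field K] {f : ℕ → K} (h6 : f 6 ≠ 0) :
    discC_q f ≠ 0 := by
  intro h
  apply h6
  rw [← (discC_q_coeff f).2.2.2.2, h, Polynomial.coeff_zero]

open Polynomial in
private theorem discC_q_deg {K : Type*} [Field K] {f : ℕ → K} (h6 : f 6 ≠ 0) :
    (discC_q f).natDegree = 4 := by
  rw [discC_q]
  compute_degree!

private theorem discC_id {L : Type*} [CommRing L] (g : ℕ → L) (a b c d : L)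
    (h2 : g 2 = g 6 * (a * b * c * d))
    (h3 : g 3 = -(g 6 * (a * b * c + a * b * d + a * c * d + b * c * d)))
    (h4 : g 4 = g 6 * (a * b + a * c + a * d + b * c + b * d + c * d))
    (h5 : g 5 = -(g 6 * (a + b + c + d))) : 4 * invI g ^ 3 - invJ g ^ 2 =
      27 * g 6 ^ 6 * ((a - b) * (a - c) * (a - d) * (b - c) * (b - d) * (c - d)) ^ 2 := by
  have hI : invI g = g 6 ^ 2 * ((a * b + c * d) ^ 2 + (a * c + b * d) ^ 2 + (a * d + b * c) ^ 2 -
      (a * b + c * d) * (a * c + b * d) - (a * b + c * d) * (a * d + b * c) -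
      (a * c + b * d) * (a * d + b * c)) := by
    rw [invI, h2, h3, h4, h5]
    ring
  have hJ : invJ g = g 6 ^ 3 * ((a * b + c * d + (a * c + b * d) - 2 * (a * d + b * c)) *
      (a * b + c * d + (a * d + b * c) - 2 * (a * c + b * d)) *
      (a * c + b * d + (a * d + b * c) - 2 * (a * b + c * d))) := by
    rw [invJ, h2, h3, h4, h5]
    ring
  have hD : (a - b) * (a - c) * (a - d) * (b - c) * (b - d) * (c - d) =
      (a * b + c * d - (a * c + b * d)) * (a * b + c * d - (a * d + b * c)) *
        (a * c + b * d - (a * d + b * c)) := by ring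
  rw [hI, hJ, hD]
  generalize a * b + c * d = P
  generalize a * c + b * d = Q
  generalize a * d + b * c = R
  ring

open Polynomial in
/-- The roots of a quartic. -/
private theorem discC_factor {L : Type*} [Field L] [IsAlgClosed L] {g : ℕ → L} (h6 : g 6 ≠ 0) :
    ∃ a b c d : L, discC_q g = C (g 6) * ((X - C a) * ((X - C b) * ((X - C c) * (X - C d)))) := by
  have hdeg := discC_q_deg h6
  have hlead : (discC_q g).leadingCoeff = g 6 := by
    rw [leadingCoeff, hdeg, (discC_q_coeff g).2.2.2.2]
  have hsp : (discC_q g).Splits := IsAlgClosed.splits _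
  have hcard : (discC_q g).roots.card = 4 := by
    rw [← hsp.natDegree_eq_card_roots, hdeg]
  have hprod : discC_q g = C (g 6) * ((discC_q g).roots.map fun a => X - C a).prod := by
    have h := hsp.eq_prod_roots
    rwa [hlead] at h
  obtain ⟨l, hl⟩ := Quot.exists_rep (discC_q g).roots
  rw [← hl] at hcard hprod
  rcases l with _ | ⟨a, _ | ⟨b, _ | ⟨c, _ | ⟨d, _ | ⟨e, l⟩⟩⟩⟩⟩
  · simp at hcard
  · simp at hcard
  · simp at hcard
  · simp at hcard
  · exact ⟨a, b, c, d, by rw [hprod]; simp⟩
  · simp at hcard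

open Polynomial in
private theorem discC_vieta {L : Type*} [Field L] {g : ℕ → L} {a b c d : L}
    (h : discC_q g = C (g 6) * ((X - C a) * ((X - C b) * ((X - C c) * (X - C d))))) :
    g 2 = g 6 * (a * b * c * d) ∧
    g 3 = -(g 6 * (a * b * c + a * b * d + a * c * d + b * c * d)) ∧
    g 4 = g 6 * (a * b + a * c + a * d + b * c + b * d + c * d) ∧
    g 5 = -(g 6 * (a + b + c + d)) := by
  set g' : ℕ → L := fun m => if m = 2 then g 6 * (a * b * c * d) else
    if m = 3 then -(g 6 * (a * b * c + a * b * d + a * c * d + b * c * d)) else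
    if m = 4 then g 6 * (a * b + a * c + a * d + b * c + b * d + c * d) else
    if m = 5 then -(g 6 * (a + b + c + d)) else g 6 with hg'
  have h1 : discC_q g = discC_q g' := by
    rw [h, discC_q]
    simp only [hg', reduceIte, Nat.reduceEqDiff, C_mul, C_neg, C_add]
    ring
  have e0 := discC_q_coeff g
  rw [h1] at e0
  have e1 := discC_q_coeff g'
  exact ⟨e0.1.symm.trans e1.1, e0.2.1.symm.trans e1.2.1, e0.2.2.1.symm.trans e1.2.2.1,
    e0.2.2.2.1.symm.trans e1.2.2.2.1⟩

open Polynomial in
/-- A quartic with zero discriminant has a double root. -/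
private theorem discC_root {K L : Type*} [Field K] [Field L] [Algebra K L] [IsAlgClosed L]
    [CharZero L] {f : ℕ → K} (h6 : f 6 ≠ 0) (hD : 4 * invI f ^ 3 - invJ f ^ 2 = 0) :
    ∃ w : L, aeval w (discC_q f) = 0 ∧ aeval w (derivative (discC_q f)) = 0 := by
  set g : ℕ → L := fun m => algebraMap K L (f m) with hg
  have h6' : g 6 ≠ 0 := (_root_.map_ne_zero _).2 h6
  obtain ⟨a, b, c, d, hf⟩ := discC_factor h6'
  obtain ⟨h2, h3, h4, h5⟩ := discC_vieta hf
  have hD1 := congrArg (algebraMap K L) hD
  have hD' : 4 * invI g ^ 3 - invJ g ^ 2 = 0 := by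
    simpa only [invI, invJ, map_sub, map_mul, map_pow, map_add, map_zero, map_ofNat] using hD1
  rw [discC_id g a b c d h2 h3 h4 h5] at hD'
  have hD3 : (a - b) * (a - c) * (a - d) * (b - c) * (b - d) * (c - d) = 0 := by
    have h27 : (27 : L) * g 6 ^ 6 ≠ 0 := mul_ne_zero (by norm_num) (pow_ne_zero 6 h6')
    exact (pow_eq_zero_iff two_ne_zero).1 ((mul_eq_zero.1 hD').resolve_left h27)
  have hev : ∀ w, aeval w (discC_q f) = (discC_q g).eval w := fun w => by
    rw [hg, ← discC_q_map, eval_map, aeval_def]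
  have hev' : ∀ w, aeval w (derivative (discC_q f)) = (derivative (discC_q g)).eval w :=
    fun w => by rw [hg, ← discC_q_map, derivative_map, eval_map, aeval_def]
  have key : ∀ w, (w = a ∨ w = b ∨ w = c ∨ w = d) →
      ((w - b) * ((w - c) * (w - d)) + (w - a) * ((w - c) * (w - d)) +
        (w - a) * ((w - b) * (w - d)) + (w - a) * ((w - b) * (w - c)) = 0) →
      ∃ w : L, aeval w (discC_q f) = 0 ∧ aeval w (derivative (discC_q f)) = 0 := by
    intro w hw h
    refine ⟨w, ?_, ?_⟩
    · rw [hev, hf]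
      simp only [eval_mul, eval_C, eval_sub, eval_X]
      rcases hw with h | h | h | h <;> subst h <;> ring
    · rw [hev', hf]
      simp only [derivative_mul, derivative_C, derivative_X, derivative_sub, eval_mul, eval_C,
        eval_sub, eval_X, eval_add, eval_zero, eval_one]
      linear_combination g 6 * h
  simp only [mul_eq_zero, sub_eq_zero] at hD3
  rcases hD3 with ((((h | h) | h) | h) | h) | h
  · exact key a (by simp) (by subst h; ring)
  · exact key a (by simp) (by subst h; ring)
  · exact key a (by simp) (by subst h; ring)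
  · exact key b (by simp) (by subst h; ring)
  · exact key b (by simp) (by subst h; ring)
  · exact key c (by simp) (by subst h; ring)

open Polynomial in
/-- A quartic with zero discriminant is not squarefree. -/
private theorem discC_sq {K L : Type*} [Field K] [CharZero K] [Field L] [Algebra K L]
    [IsAlgClosed L] [CharZero L] {f : ℕ → K} (h6 : f 6 ≠ 0)
    (hD : 4 * invI f ^ 3 - invJ f ^ 2 = 0) :
    ∃ (m n : K[X]) (w : L), discC_q f = m * m * n ∧ aeval w m = 0 := by
  obtain ⟨w, h1, h2⟩ := discC_root (L := L) h6 hD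
  have hs : ¬ (discC_q f).Separable := by
    rintro ⟨a, b, hab⟩
    have h3 := congrArg (aeval w) hab
    rw [map_add, map_mul, map_mul, h1, h2, mul_zero, mul_zero, map_one, add_zero] at h3
    exact zero_ne_one h3
  have hs2 : ¬ Squarefree (discC_q f) := fun h => hs (PerfectField.separable_iff_squarefree.2 h)
  rw [Squarefree] at hs2
  push Not at hs2
  obtain ⟨m, ⟨n, hn⟩, hm⟩ := hs2
  have hm0 : m ≠ 0 := by
    rintro rfl
    apply discC_q_ne h6
    rw [hn, zero_mul, zero_mul]
  have hmd : m.degree ≠ 0 := fun h => hm (isUnit_iff_degree_eq_zero.2 h)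
  obtain ⟨w', hw'⟩ := IsAlgClosed.exists_aeval_eq_zero L m hmd
  exact ⟨m, n, w', hn, hw'⟩

variable {k : Type u} [Field k] {F : MvPolynomial (Fin 3) k}
  {e : Fin 3 → k}

open MvPolynomial in
/-- Taylor's formula of order one. -/
private theorem discC_taylor {L : Type*} [Field L] [Algebra k L] (x y : Fin 3 → L)
    (g : MvPolynomial (Fin 3) k) :
    aeval (fun i => (TrivSqZeroExt.inl (x i) + TrivSqZeroExt.inr (y i) : DualNumber L)) g =
      TrivSqZeroExt.inl (aeval x g) + TrivSqZeroExt.inr (∑ i, aeval x (pderiv i g) * y i) := by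
  induction g using MvPolynomial.induction_on with
  | C a =>
    have h : ∑ i, aeval x (pderiv i (C a : MvPolynomial (Fin 3) k)) * y i = 0 :=
      Finset.sum_eq_zero fun i _ => by rw [pderiv_C, map_zero, zero_mul]
    rw [h, aeval_C, aeval_C, TrivSqZeroExt.inr_zero, add_zero]
    rfl
  | add p q hp hq =>
    have h : ∑ i, aeval x (pderiv i (p + q)) * y i =
        ∑ i, aeval x (pderiv i p) * y i + ∑ i, aeval x (pderiv i q) * y i := by
      rw [← Finset.sum_add_distrib]
      exact Finset.sum_congr rfl fun i _ => by rw [map_add, map_add, add_mul]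
    rw [h, map_add, map_add, hp, hq, TrivSqZeroExt.inl_add, TrivSqZeroExt.inr_add]
    abel
  | mul_X p j hp =>
    have h : ∑ i, aeval x (pderiv i (p * X j)) * y i =
        aeval x p * y j + (∑ i, aeval x (pderiv i p) * y i) * x j := by
      have h1 : ∀ i, aeval x (pderiv i (p * X j)) * y i =
          (if i = j then aeval x p * y i else 0) + (aeval x (pderiv i p) * y i) * x j := by
        intro i
        rw [pderiv_mul, pderiv_X, map_add, map_mul, map_mul, aeval_X]
        by_cases hij : i = j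
        · subst hij
          rw [Pi.single_eq_same, map_one, if_pos rfl]
          ring
        · rw [Pi.single_eq_of_ne' hij, map_zero, if_neg hij]
          ring
      rw [Finset.sum_congr rfl fun i _ => h1 i, Finset.sum_add_distrib, Finset.sum_ite_eq',
        if_pos (Finset.mem_univ j), Finset.sum_mul]
    rw [h, map_mul, map_mul, hp, aeval_X, aeval_X]
    apply TrivSqZeroExt.ext
    · simp
    · simp [mul_comm]
      ring

open MvPolynomial in
/-- The generic point of the curve. -/
private theorem discC_generic (hF : Prime F) :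
    ∃ (K : Type u) (_ : Field K) (_ : Algebra k K) (c : Fin 3 → K),
      (∀ g : MvPolynomial (Fin 3) k, aeval c g = 0 ↔ F ∣ g) ∧
      (∀ z : K, ∃ a b : MvPolynomial (Fin 3) k, ¬ F ∣ b ∧ z * aeval c b = aeval c a) ∧
      ∀ (R : Type u) [CommRing R] (Ψ : MvPolynomial (Fin 3) k →+* R),
        (∀ g, ¬ F ∣ g → IsUnit (Ψ g)) → Ψ F = 0 → ∃ ψ : K →+* R, ∀ g, ψ (aeval c g) = Ψ g := by
  have hp : (Ideal.span {F}).IsPrime := (Ideal.span_singleton_prime hF.ne_zero).2 hF
  let A := MvPolynomial (Fin 3) k ⧸ Ideal.span {F}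
  let K := FractionRing A
  let m : MvPolynomial (Fin 3) k →ₐ[k] A := Ideal.Quotient.mkₐ k (Ideal.span {F})
  have hm : ∀ g, m g = 0 ↔ F ∣ g := fun g => by
    change Ideal.Quotient.mk (Ideal.span {F}) g = 0 ↔ F ∣ g
    rw [Ideal.Quotient.eq_zero_iff_mem, Ideal.mem_span_singleton]
  let c : Fin 3 → K := fun i => algebraMap A K (m (X i))
  have hc : ∀ g, aeval c g = algebraMap A K (m g) := by
    intro g
    have h : (aeval c : MvPolynomial (Fin 3) k →ₐ[k] K) =
        (IsScalarTower.toAlgHom k A K).comp m := by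
      apply MvPolynomial.algHom_ext
      intro i
      rw [aeval_X]
      rfl
    rw [h]
    rfl
  have h0 : ∀ g, aeval c g = 0 ↔ F ∣ g := by
    intro g
    rw [hc, ← hm g]
    exact map_eq_zero_iff _ (IsFractionRing.injective A K)
  refine ⟨K, inferInstance, inferInstance, c, h0, fun z => ?_, fun R _ Ψ hΨ hΨF => ?_⟩
  · obtain ⟨⟨a, b⟩, hab⟩ := IsLocalization.surj (nonZeroDivisors A) z
    obtain ⟨a', ha'⟩ := Ideal.Quotient.mk_surjective a
    obtain ⟨b', hb'⟩ := Ideal.Quotient.mk_surjective (b : A)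
    refine ⟨a', b', fun h => ?_, ?_⟩
    · have h1 : (b : A) ≠ 0 := nonZeroDivisors.ne_zero b.2
      apply h1
      rw [← hb']
      exact (hm b').2 h
    · rw [hc, hc]
      change z * algebraMap A K (Ideal.Quotient.mk _ b') = algebraMap A K (Ideal.Quotient.mk _ a')
      rw [hb', ha']
      exact hab
  · have hk : ∀ a ∈ Ideal.span {F}, Ψ a = 0 := by
      intro a ha
      obtain ⟨b, rfl⟩ := Ideal.mem_span_singleton.1 ha
      rw [map_mul, hΨF, zero_mul]
    let Φ : A →+* R := Ideal.Quotient.lift (Ideal.span {F}) Ψ hk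
    have hΦ : ∀ g, Φ (m g) = Ψ g := fun g => Ideal.Quotient.lift_mk _ _ hk
    have hu : ∀ y : nonZeroDivisors A, IsUnit (Φ y) := by
      intro y
      obtain ⟨g, hg⟩ := Ideal.Quotient.mk_surjective (y : A)
      rw [← hg]
      change IsUnit (Φ (m g))
      rw [hΦ]
      apply hΨ
      intro h
      apply nonZeroDivisors.ne_zero y.2
      rw [← hg]
      exact (hm g).2 h
    refine ⟨IsLocalization.lift (M := nonZeroDivisors A) hu, fun g => ?_⟩
    rw [hc, IsLocalization.lift_eq, hΦ]

/-- The restriction of `F` to the line through `x` and `d(x)`. -/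
private def discC_P (e : Fin 3 → k) (F G : MvPolynomial (Fin 3) k) :
    Polynomial (MvPolynomial (Fin 3) k) :=
  MvPolynomial.aeval (fun i => (Polynomial.C (MvPolynomial.X i) +
    Polynomial.X * Polynomial.C (dv F e i) : Polynomial (MvPolynomial (Fin 3) k))) G

private theorem discC_Fc (m : ℕ) : Fc F e m = (discC_P e F F).coeff m := rfl

/-- The values of `G(x + w d(x))` in a commutative algebra. -/
private theorem discC_P_eval {R : Type*} [CommRing R] [Algebra k R]
    (Ψ : MvPolynomial (Fin 3) k →ₐ[k] R) (W : R) (G : MvPolynomial (Fin 3) k) :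
    (discC_P e F G).eval₂ (Ψ : MvPolynomial (Fin 3) k →+* R) W =
      MvPolynomial.aeval (fun i => Ψ (MvPolynomial.X i) + W * Ψ (dv F e i)) G := by
  induction G using MvPolynomial.induction_on with
  | C a =>
    rw [discC_P, MvPolynomial.aeval_C, MvPolynomial.aeval_C]
    change (Polynomial.C (algebraMap k _ a)).eval₂ _ _ = _
    rw [Polynomial.eval₂_C]
    exact Ψ.commutes a
  | add p q hp hq =>
    rw [discC_P] at hp hq ⊢
    rw [map_add, map_add, Polynomial.eval₂_add, hp, hq]
  | mul_X p j hp =>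
    rw [discC_P] at hp ⊢
    rw [map_mul, map_mul, Polynomial.eval₂_mul, hp, MvPolynomial.aeval_X, MvPolynomial.aeval_X,
      Polynomial.eval₂_add, Polynomial.eval₂_mul, Polynomial.eval₂_C, Polynomial.eval₂_X,
      Polynomial.eval₂_C]
    rfl

private theorem discC_line (hF : F.IsHomogeneous 6) {R : Type*} [CommRing R] [Algebra k R]
    (Ψ : MvPolynomial (Fin 3) k →ₐ[k] R) (W : R) (h0 : Ψ F = 0) :
    MvPolynomial.aeval (fun i => Ψ (MvPolynomial.X i) + W * Ψ (dv F e i)) F =
      W ^ 2 * (Ψ (Fc F e 2) + Ψ (Fc F e 3) * W + Ψ (Fc F e 4) * W ^ 2 + Ψ (Fc F e 5) * W ^ 3 +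
        Ψ (Fc F e 6) * W ^ 4) := by
  rw [← discC_P_eval]
  have hd : (discC_P e F F).natDegree < 7 := by
    refine Nat.lt_succ_of_le (Polynomial.natDegree_le_iff_coeff_eq_zero.2 fun m hm => ?_)
    exact Fc_large hF hm
  rw [Polynomial.eval₂_eq_sum_range' _ hd]
  simp only [Finset.sum_range_succ, Finset.sum_range_zero, ← discC_Fc, Fc_zero, Fc_one]
  simp only [RingHom.coe_coe, h0, map_zero]
  ring

private theorem discC_P_zero (G : MvPolynomial (Fin 3) k) : (discC_P e F G).coeff 0 = G := by
  rw [Polynomial.coeff_zero_eq_eval_zero]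
  have h := discC_P_eval (F := F) (e := e) (AlgHom.id k (MvPolynomial (Fin 3) k)) 0 G
  simp only [zero_mul, add_zero] at h
  rw [Polynomial.eval, show RingHom.id (MvPolynomial (Fin 3) k) =
    ((AlgHom.id k (MvPolynomial (Fin 3) k) : MvPolynomial (Fin 3) k →ₐ[k] _) :
      MvPolynomial (Fin 3) k →+* _) from rfl, h]
  change MvPolynomial.aeval (fun i => MvPolynomial.X i) G = G
  exact MvPolynomial.aeval_X_left_apply G

private theorem discC_P_der (G : MvPolynomial (Fin 3) k) :
    Polynomial.derivative (discC_P e F G) =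
      ∑ i, discC_P e F (MvPolynomial.pderiv i G) * Polynomial.C (dv F e i) := by
  induction G using MvPolynomial.induction_on with
  | C a =>
    rw [discC_P, MvPolynomial.aeval_C]
    change Polynomial.derivative (Polynomial.C (algebraMap k _ a)) = _
    rw [Polynomial.derivative_C]
    refine (Finset.sum_eq_zero fun i _ => ?_).symm
    rw [MvPolynomial.pderiv_C, discC_P, map_zero, zero_mul]
  | add p q hp hq =>
    have h : ∀ p q : MvPolynomial (Fin 3) k,
        discC_P e F (p + q) = discC_P e F p + discC_P e F q := fun p q => map_add _ p q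
    rw [h, Polynomial.derivative_add, hp, hq, ← Finset.sum_add_distrib]
    exact Finset.sum_congr rfl fun i _ => by rw [map_add, h, add_mul]
  | mul_X p j hp =>
    have h : ∀ p q : MvPolynomial (Fin 3) k,
        discC_P e F (p + q) = discC_P e F p + discC_P e F q := fun p q => map_add _ p q
    have h' : ∀ p q : MvPolynomial (Fin 3) k,
        discC_P e F (p * q) = discC_P e F p * discC_P e F q := fun p q => map_mul _ p q
    have hX : discC_P e F (MvPolynomial.X j) = Polynomial.C (MvPolynomial.X j) +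
      Polynomial.X * Polynomial.C (dv F e j) := MvPolynomial.aeval_X _ j
    have hXd : Polynomial.derivative (discC_P e F (MvPolynomial.X j)) =
        Polynomial.C (dv F e j) := by
      rw [hX]
      simp
    rw [h', Polynomial.derivative_mul, hp, hXd, Finset.sum_mul]
    have h1 : ∀ i, discC_P e F (MvPolynomial.pderiv i (p * MvPolynomial.X j)) *
        Polynomial.C (dv F e i) = discC_P e F (MvPolynomial.pderiv i p) *
          Polynomial.C (dv F e i) * discC_P e F (MvPolynomial.X j) +
        (if i = j then discC_P e F p * Polynomial.C (dv F e i) else 0) := by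
      intro i
      rw [MvPolynomial.pderiv_mul, MvPolynomial.pderiv_X, h, h', h']
      by_cases hij : i = j
      · subst hij
        rw [Pi.single_eq_same, if_pos rfl]
        have h2 : discC_P e F 1 = 1 := map_one _
        rw [h2]
        ring
      · rw [Pi.single_eq_of_ne' hij, if_neg hij]
        have h2 : discC_P e F 0 = 0 := map_zero _
        rw [h2]
        ring
    rw [Finset.sum_congr rfl fun i _ => h1 i, Finset.sum_add_distrib, Finset.sum_ite_eq',
      if_pos (Finset.mem_univ j)]

/-- The derivative in the direction `d`. -/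
private def discC_D (e : Fin 3 → k) (F G : MvPolynomial (Fin 3) k) : MvPolynomial (Fin 3) k :=
  ∑ i, MvPolynomial.pderiv i G * dv F e i

private theorem discC_P_one (G : MvPolynomial (Fin 3) k) :
    (discC_P e F G).coeff 1 = discC_D e F G := by
  have h := congrArg (fun p => p.coeff 0) (discC_P_der (F := F) (e := e) G)
  simp only [Polynomial.coeff_derivative, Polynomial.finsetSum_coeff, Polynomial.coeff_mul_C,
    discC_P_zero, zero_add, Nat.cast_zero, mul_one] at h
  rw [h, discC_D]

private theorem discC_P_two (G : MvPolynomial (Fin 3) k) :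
    2 * (discC_P e F G).coeff 2 =
      ∑ i, discC_D e F (MvPolynomial.pderiv i G) * dv F e i := by
  have h := congrArg (fun p => p.coeff 1) (discC_P_der (F := F) (e := e) G)
  simp only [Polynomial.coeff_derivative, Polynomial.finsetSum_coeff, Polynomial.coeff_mul_C,
    discC_P_one] at h
  rw [← h]
  push_cast
  ring

/-- `grad F · D d = - 2 F_2` -/
private theorem discC_two : ∑ i, MvPolynomial.pderiv i F * discC_D e F (dv F e i) =
    -(2 * Fc F e 2) := by
  have h0 : ∑ i, MvPolynomial.pderiv i F * dv F e i = 0 := by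
    rw [Fin.sum_univ_three]
    simp only [dv, Matrix.cons_val_zero, Matrix.cons_val_one, Matrix.cons_val]
    ring
  have h1 : ∀ j, ∑ i, (MvPolynomial.pderiv j (MvPolynomial.pderiv i F) * dv F e i +
      MvPolynomial.pderiv i F * MvPolynomial.pderiv j (dv F e i)) = 0 := by
    intro j
    have h2 := congrArg (MvPolynomial.pderiv j) h0
    rw [map_sum, map_zero] at h2
    rw [← h2]
    exact Finset.sum_congr rfl fun i _ => MvPolynomial.pderiv_mul.symm
  rw [discC_Fc, discC_P_two, eq_neg_iff_add_eq_zero, ← Finset.sum_add_distrib]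
  simp only [discC_D, Finset.mul_sum, Finset.sum_mul, ← Finset.sum_add_distrib]
  rw [Finset.sum_comm]
  refine Finset.sum_eq_zero fun j _ => ?_
  have h3 := congrArg (fun p => p * dv F e j) (h1 j)
  simp only [zero_mul, Finset.sum_mul] at h3
  rw [← h3]
  refine Finset.sum_congr rfl fun i _ => ?_
  ring

/-- An element of `L[ε]` whose square is zero. -/
private theorem discC_sqz {L : Type*} [Field L] {z : DualNumber L} (h : z.fst = 0) :
    z * z = 0 := by
  apply TrivSqZeroExt.ext
  · rw [TrivSqZeroExt.fst_mul, h, zero_mul, TrivSqZeroExt.fst_zero]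
  · rw [TrivSqZeroExt.snd_mul, h, zero_smul, MulOpposite.op_zero, zero_smul, add_zero,
      TrivSqZeroExt.snd_zero]

open Polynomial in
private theorem discC_zero {K L : Type*} [Field K] [Field L] [Algebra K L] {q m n : K[X]} {w : L}
    (hq : q = m * m * n) (hw : aeval w m = 0) (ψ : K →+* DualNumber L)
    (hψ : ∀ z, (ψ z).fst = algebraMap K L z) {W : DualNumber L} (hW : W.fst = w) :
    q.eval₂ ψ W = 0 := by
  have h1 : (m.eval₂ ψ W).fst = 0 := by
    have h2 := Polynomial.hom_eval₂ m ψ
      ((TrivSqZeroExt.fstHom L L L : DualNumber L →ₐ[L] L) : DualNumber L →+* L) W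
    have h3 : ((TrivSqZeroExt.fstHom L L L : DualNumber L →ₐ[L] L) : DualNumber L →+* L).comp ψ =
        algebraMap K L := RingHom.ext fun z => hψ z
    rw [h3] at h2
    change (m.eval₂ ψ W).fst = m.eval₂ (algebraMap K L) W.fst at h2
    rw [h2, hW]
    exact hw
  rw [hq, eval₂_mul, eval₂_mul, discC_sqz h1, zero_mul]

/-- Vectors orthogonal to `c` and `d` are multiples of the cross product. -/
private theorem discC_cross {L : Type*} [Field L] {c d g G D : Fin 3 → L} {l : L} (hl : l ≠ 0)
    (h : c 1 * d 2 - c 2 * d 1 = l * G 0 ∧ c 2 * d 0 - c 0 * d 2 = l * G 1 ∧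
      c 0 * d 1 - c 1 * d 0 = l * G 2) (hc : ∑ i, g i * c i = 0) (hd : ∑ i, g i * d i = 0)
    (hg : g ≠ 0) (hD : ∑ i, g i * D i = 0) : ∑ i, G i * D i = 0 := by
  obtain ⟨h0, h1, h2⟩ := h
  rw [Fin.sum_univ_three] at hc hd hD ⊢
  have e01 : l * (g 0 * G 1 - g 1 * G 0) = 0 := by
    linear_combination (-g 0) * h1 + g 1 * h0 + d 2 * (-1) * hc + c 2 * hd
  have e02 : l * (g 0 * G 2 - g 2 * G 0) = 0 := by
    linear_combination (-g 0) * h2 + g 2 * h0 + d 1 * hc - c 1 * hd
  have e12 : l * (g 1 * G 2 - g 2 * G 1) = 0 := by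
    linear_combination (-g 1) * h2 + g 2 * h1 - d 0 * hc + c 0 * hd
  have f01 := (mul_eq_zero.1 e01).resolve_left hl
  have f02 := (mul_eq_zero.1 e02).resolve_left hl
  have f12 := (mul_eq_zero.1 e12).resolve_left hl
  obtain ⟨i, hi⟩ := Function.ne_iff.1 hg
  rw [Pi.zero_apply] at hi
  refine (mul_eq_zero.1 (?_ : g i * (G 0 * D 0 + G 1 * D 1 + G 2 * D 2) = 0)).resolve_left hi
  fin_cases i
  · change g 0 * (G 0 * D 0 + G 1 * D 1 + G 2 * D 2) = 0
    linear_combination G 0 * hD + D 1 * f01 + D 2 * f02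
  · change g 1 * (G 0 * D 0 + G 1 * D 1 + G 2 * D 2) = 0
    linear_combination G 1 * hD - D 0 * f01 + D 2 * f12
  · change g 2 * (G 0 * D 0 + G 1 * D 1 + G 2 * D 2) = 0
    linear_combination G 2 * hD - D 0 * f02 - D 1 * f12

/-- `F` does not divide a linear form. -/
private theorem discC_lf (hF : F.IsHomogeneous 6) (hF0 : F ≠ 0) (he : e ≠ 0) :
    ¬ F ∣ lf e := by
  rintro ⟨h, hh⟩
  have h1 : lf e ≠ 0 := by
    intro h0
    apply he
    funext i
    have h2 := congrArg (MvPolynomial.aeval (Pi.single i (1 : k))) h0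
    simpa [lf, Pi.single_apply] using h2
  have hh0 : h ≠ 0 := by
    rintro rfl
    rw [mul_zero] at hh
    exact h1 hh
  have h3 : (lf e).totalDegree ≤ 1 := by
    have h4 : (lf e).IsHomogeneous 1 := by
      refine MvPolynomial.IsHomogeneous.sum _ _ _ fun i _ => ?_
      have h5 := (MvPolynomial.isHomogeneous_C (Fin 3) (e i)).mul
        (MvPolynomial.isHomogeneous_X k i)
      rwa [zero_add] at h5
    exact h4.totalDegree_le
  rw [hh, MvPolynomial.totalDegree_mul_of_isDomain hF0 hh0, hF.totalDegree hF0] at h3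
  omega

end aux

variable {k : Type u} [Field k] [IsAlgClosed k] [CharZero k] {F : MvPolynomial (Fin 3) k}
  {e : Fin 3 → k}

/-- The general tangent line is not tangent at a second point. Notation as in `F2_ne`. If the discriminant
of `q_c(w) = ∑ F_(m + 2) w ^ m ∈ K[w]` is zero then `q_c = m ² n` with an irreducible `m`. Let `w₀`
be its root in `L = K[w] / (m)`, `x = c + w₀ d ∈ L ³`. Then `F(x) = 0`, `grad F(x) · d = 0` (derivative of
`w ² q_c(w) = F(c + w d)`), and `m` divides `D q_c` (coefficientwise), so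
`0 = w₀ ² (D q_c)(w₀) = grad F(x) · (d + w₀ D d)`. If `w₀ = 0` then `F_2 = 0` in `K`. Otherwise
`grad F(x) · D d = 0`, `grad F(x) · c = 0` (Euler), so `grad F(x)` is a multiple of
`c × d = (e · c) grad F(c)`, and not zero (`grad_ne`). So `0 = grad F(c) · D d = - 2 F_2`. This
contradicts `F2_ne`. -/
theorem Dq_ne (hF : F.IsHomogeneous 6) (hns : NonSing F) (he : e ≠ 0) : ¬ F ∣ Dq F e := by
  intro hD
  have hFp := prime_F hF hns
  obtain ⟨K, _, _, c, h0, hfr, hlift⟩ := discC_generic hFp
  have : CharZero K := charZero_of_injective_algebraMap (algebraMap k K).injective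
  let L := AlgebraicClosure K
  have : CharZero L := charZero_of_injective_algebraMap (algebraMap K L).injective
  set f : ℕ → K := fun m => MvPolynomial.aeval c (Fc F e m) with hf
  have h6 : f 6 ≠ 0 := fun h => F6_ne hF hns he ((h0 _).1 h)
  have hD' : 4 * invI f ^ 3 - invJ f ^ 2 = 0 := by
    have h1 := (h0 _).2 hD
    simpa only [Dq, Iq, Jq, invI, invJ, map_sub, map_mul, map_pow, map_add, map_ofNat] using h1
  obtain ⟨m, n, w, hq, hw⟩ := discC_sq (L := L) h6 hD'
  set cL : Fin 3 → L := fun i => algebraMap K L (c i) with hcLd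
  have hcL : ∀ g : MvPolynomial (Fin 3) k,
      MvPolynomial.aeval cL g = algebraMap K L (MvPolynomial.aeval c g) := fun g =>
    MvPolynomial.aeval_algebraMap_apply _ _ _
  have hc0 : ∀ g : MvPolynomial (Fin 3) k, MvPolynomial.aeval cL g = 0 ↔ F ∣ g := by
    intro g
    rw [hcL, _root_.map_eq_zero, h0]
  have hcF : MvPolynomial.aeval cL F = 0 := (hc0 F).2 dvd_rfl
  set dL : Fin 3 → L := dd F e cL with hdL
  set DL : Fin 3 → L := fun i => MvPolynomial.aeval cL (discC_D e F (dv F e i)) with hDL
  set x : Fin 3 → L := fun i => cL i + w * dL i with hx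
  -- the main equation
  have key : ∀ (Ψ : MvPolynomial (Fin 3) k →ₐ[k] DualNumber L) (W : DualNumber L),
      (∀ g, (Ψ g).fst = MvPolynomial.aeval cL g) → Ψ F = 0 → W.fst = w →
      MvPolynomial.aeval (fun i => Ψ (MvPolynomial.X i) + W * Ψ (dv F e i)) F = 0 := by
    intro Ψ W hΨ hΨF hW
    obtain ⟨ψ, hψ⟩ := hlift (DualNumber L) (Ψ : MvPolynomial (Fin 3) k →+* DualNumber L)
      (fun g hg => by
        rw [TrivSqZeroExt.isUnit_iff_isUnit_fst]
        exact isUnit_iff_ne_zero.2 fun h => hg ((hc0 g).1 ((hΨ g).symm.trans h))) hΨF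
    have hψ1 : ∀ z, (ψ z).fst = algebraMap K L z := by
      intro z
      obtain ⟨a, b, hb, hab⟩ := hfr z
      have h1 := congrArg (fun y => (ψ y).fst) hab
      simp only [map_mul, TrivSqZeroExt.fst_mul] at h1
      rw [hψ, hψ] at h1
      change (ψ z).fst * (Ψ b).fst = (Ψ a).fst at h1
      rw [hΨ, hΨ, hcL, hcL, ← hab, map_mul] at h1
      have h2 : algebraMap K L (MvPolynomial.aeval c b) ≠ 0 :=
        (_root_.map_ne_zero _).2 fun h => hb ((h0 b).1 h)
      exact mul_right_cancel₀ h2 h1
    rw [discC_line hF Ψ W hΨF]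
    have h1 := discC_zero hq hw ψ hψ1 hW
    rw [discC_q_eval] at h1
    simp only [hf, hψ] at h1
    change Ψ (Fc F e 2) + Ψ (Fc F e 3) * W + Ψ (Fc F e 4) * W ^ 2 + Ψ (Fc F e 5) * W ^ 3 +
      Ψ (Fc F e 6) * W ^ 4 = 0 at h1
    rw [h1, mul_zero]
  -- the first case
  have keyA : MvPolynomial.aeval x F = 0 ∧ ∑ i, grad F x i * dL i = 0 := by
    let Ψ : MvPolynomial (Fin 3) k →ₐ[k] DualNumber L :=
      (TrivSqZeroExt.inlAlgHom k L L).comp (MvPolynomial.aeval cL)
    have hΨ : ∀ g, Ψ g = TrivSqZeroExt.inl (MvPolynomial.aeval cL g) := fun g => rfl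
    have h1 := key Ψ (TrivSqZeroExt.inl w + TrivSqZeroExt.inr 1)
      (fun g => by rw [hΨ, TrivSqZeroExt.fst_inl]) (by rw [hΨ, hcF, TrivSqZeroExt.inl_zero])
      (by simp)
    have h2 : (fun i => Ψ (MvPolynomial.X i) + (TrivSqZeroExt.inl w + TrivSqZeroExt.inr 1) *
        Ψ (dv F e i)) = fun i => (TrivSqZeroExt.inl (x i) + TrivSqZeroExt.inr (dL i) :
          DualNumber L) := by
      funext i
      rw [hΨ, hΨ, MvPolynomial.aeval_X]
      apply TrivSqZeroExt.ext
      · simp [hx, hdL, dd]
      · simp [hx, hdL, dd]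
    rw [h2, discC_taylor] at h1
    have h3 := congrArg TrivSqZeroExt.fst h1
    have h4 := congrArg TrivSqZeroExt.snd h1
    simp at h3 h4
    exact ⟨h3, h4⟩
  -- the second case
  have keyB : ∑ i, grad F x i * (dL i + w * DL i) = 0 := by
    let Ψ : MvPolynomial (Fin 3) k →ₐ[k] DualNumber L :=
      MvPolynomial.aeval fun i => (TrivSqZeroExt.inl (cL i) + TrivSqZeroExt.inr (dL i) :
          DualNumber L)
    have hΨ : ∀ g, Ψ g = TrivSqZeroExt.inl (MvPolynomial.aeval cL g) +
      TrivSqZeroExt.inr (∑ i, MvPolynomial.aeval cL (MvPolynomial.pderiv i g) * dL i) :=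
      fun g => discC_taylor cL dL g
    have h1 := key Ψ (TrivSqZeroExt.inl w) (fun g => by rw [hΨ]; simp) (by
      rw [hΨ, hcF]
      have h2 : ∑ i, MvPolynomial.aeval cL (MvPolynomial.pderiv i F) * dL i = 0 :=
        grad_dd (F := F) (e := e) cL
      rw [h2, TrivSqZeroExt.inl_zero, TrivSqZeroExt.inr_zero, add_zero])
      (TrivSqZeroExt.fst_inl _ _)
    have h2 : (fun i => Ψ (MvPolynomial.X i) + TrivSqZeroExt.inl w * Ψ (dv F e i)) =
        fun i => (TrivSqZeroExt.inl (x i) + TrivSqZeroExt.inr (dL i + w * DL i) :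
          DualNumber L) := by
      funext i
      have h3 : Ψ (MvPolynomial.X i) = TrivSqZeroExt.inl (cL i) + TrivSqZeroExt.inr (dL i) :=
        MvPolynomial.aeval_X _ i
      have h4 : Ψ (dv F e i) = TrivSqZeroExt.inl (dL i) + TrivSqZeroExt.inr (DL i) := by
        rw [hΨ, hDL]
        simp only [discC_D, map_sum, map_mul]
        rfl
      rw [h3, h4]
      apply TrivSqZeroExt.ext
      · simp [hx]
      · simp [hx]
    rw [h2, discC_taylor] at h1
    have h4 := congrArg TrivSqZeroExt.snd h1
    simp at h4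
    exact h4
  -- the end
  have hw0 : w ≠ 0 := by
    intro hw0
    apply F2_ne hF hns he
    have h1 : (discC_q f).eval₂ (algebraMap K L) w = 0 := by
      rw [hq, Polynomial.eval₂_mul, Polynomial.eval₂_mul]
      have h2 : m.eval₂ (algebraMap K L) w = 0 := hw
      rw [h2, zero_mul, zero_mul]
    rw [discC_q_eval, hw0] at h1
    have h2 : algebraMap K L (f 2) = 0 := by
      rw [← h1]
      ring
    exact (h0 _).1 ((_root_.map_eq_zero _).1 h2)
  have hle : MvPolynomial.aeval cL (lf e) ≠ 0 := fun h =>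
    discC_lf hF hFp.ne_zero he ((hc0 _).1 h)
  have hcne : cL ≠ 0 := by
    intro h
    apply hle
    rw [h]
    simp [lf]
  have hg : grad F cL ≠ 0 := grad_ne hns hcne
  have hxne : x ≠ 0 := by
    intro h
    have h1 := (indep_dd hF hcF hle hg (u := 1) (v := w) fun i => by
      have h2 := congrFun h i
      rw [one_mul]
      exact h2).1
    exact one_ne_zero h1
  have hgx : grad F x ≠ 0 := grad_ne hns hxne
  have hgd := keyA.2
  have hgc : ∑ i, grad F x i * cL i = 0 := by
    have h1 := grad_self hF x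
    rw [keyA.1, mul_zero] at h1
    have h2 : ∑ i, grad F x i * x i = ∑ i, grad F x i * cL i + w * ∑ i, grad F x i * dL i := by
      rw [Finset.mul_sum, ← Finset.sum_add_distrib]
      refine Finset.sum_congr rfl fun i _ => ?_
      rw [hx]
      ring
    rw [h2, hgd, mul_zero, add_zero] at h1
    exact h1
  have hgD : ∑ i, grad F x i * DL i = 0 := by
    have h2 : ∑ i, grad F x i * (dL i + w * DL i) =
        ∑ i, grad F x i * dL i + w * ∑ i, grad F x i * DL i := by
      rw [Finset.mul_sum, ← Finset.sum_add_distrib]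
      exact Finset.sum_congr rfl fun i _ => by ring
    rw [h2, hgd, zero_add] at keyB
    exact (mul_eq_zero.1 keyB).resolve_left hw0
  have hGD : ∑ i, grad F cL i * DL i = 0 :=
    discC_cross hle (cross_dd hF hcF) hgc hgd hgx hgD
  have h2 : MvPolynomial.aeval cL (∑ i, MvPolynomial.pderiv i F * discC_D e F (dv F e i)) = 0 := by
    rw [map_sum, ← hGD]
    exact Finset.sum_congr rfl fun i _ => by rw [map_mul]; rfl
  rw [discC_two, map_neg, neg_eq_zero, map_mul, map_ofNat] at h2
  have h3 : MvPolynomial.aeval cL (Fc F e 2) = 0 :=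
    (mul_eq_zero.1 h2).resolve_left two_ne_zero
  exact F2_ne hF hns he ((hc0 _).1 h3)

end Pool.Agent.Kim
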