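import Pool.Agent.Kim.CurveA

/-!
# Finiteness of intersections
-/

set_option autoImplicit false

noncomputable section

namespace Pool.Agent.Kim

open Pool.Agent.ZCyc Pool.Agent.VFP

universe u

section Aux

variable {k : Type u} [Field k] {F : MvPolynomial (Fin 3) k} {n : ℕ}

private theorem fz_deg (hF : F.IsHomogeneous n) {d : Fin 3 →₀ ℕ} (hd : d ∈ F.support) :
    d 0 + d 1 + d 2 = n := by
  have h := hF.degree_eq_sum_deg_support hd
  rw [Finset.sum_subset (Finset.subset_univ _) (fun i _ hi => by
    simpa [Finsupp.mem_support_iff] using hi), Fin.sum_univ_three] at h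
  exact h.symm

private theorem fz_smul (hF : F.IsHomogeneous n) (t : k) (c : Fin 3 → k) :
    MvPolynomial.aeval (t • c) F = t ^ n * MvPolynomial.aeval c F := by
  rw [MvPolynomial.aeval_def, MvPolynomial.eval₂_eq', MvPolynomial.aeval_def,
    MvPolynomial.eval₂_eq', Finset.mul_sum]
  refine Finset.sum_congr rfl fun d hd => ?_
  simp only [Pi.smul_apply, smul_eq_mul, Fin.prod_univ_three, mul_pow]
  rw [← fz_deg hF hd]
  ring

variable {R : Type*} [CommRing R] [Algebra k R]

/-- the polynomial `F(v + T q)` -/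
private def fzP (F : MvPolynomial (Fin 3) k) (v q : Fin 3 → R) : Polynomial R :=
  MvPolynomial.aeval (fun i => Polynomial.C (v i) + Polynomial.C (q i) * Polynomial.X) F

private theorem fz_lin (a b : R) :
    (Polynomial.C a + Polynomial.C b * Polynomial.X : Polynomial R).natDegree ≤ 1 := by
  refine (Polynomial.natDegree_add_le _ _).trans (max_le ?_ ?_)
  · rw [Polynomial.natDegree_C]; exact Nat.zero_le _
  · exact (Polynomial.natDegree_C_mul_le _ _).trans Polynomial.natDegree_X_le

private theorem fz_pow (a b : R) (m : ℕ) :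
    ((Polynomial.C a + Polynomial.C b * Polynomial.X : Polynomial R) ^ m).natDegree ≤ m ∧
    ((Polynomial.C a + Polynomial.C b * Polynomial.X : Polynomial R) ^ m).coeff m = b ^ m := by
  constructor
  · have := Polynomial.natDegree_pow_le_of_le m (fz_lin a b)
    rwa [mul_one] at this
  · have := Polynomial.coeff_pow_of_natDegree_le (m := m) (fz_lin a b)
    rw [mul_one] at this
    rw [this]
    congr 1
    simp

private theorem fzP_eq (F : MvPolynomial (Fin 3) k) (v q : Fin 3 → R) :
    fzP F v q = ∑ d ∈ F.support, Polynomial.C (algebraMap k R (MvPolynomial.coeff d F)) *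
      ((Polynomial.C (v 0) + Polynomial.C (q 0) * Polynomial.X) ^ d 0 *
        (Polynomial.C (v 1) + Polynomial.C (q 1) * Polynomial.X) ^ d 1 *
        (Polynomial.C (v 2) + Polynomial.C (q 2) * Polynomial.X) ^ d 2) := by
  unfold fzP
  rw [MvPolynomial.aeval_def, MvPolynomial.eval₂_eq']
  refine Finset.sum_congr rfl fun d _ => ?_
  rw [Fin.prod_univ_three]
  rfl

private theorem fzP_natDegree (hF : F.IsHomogeneous n) (v q : Fin 3 → R) :
    (fzP F v q).natDegree ≤ n := by
  rw [fzP_eq]
  refine Polynomial.natDegree_sum_le_of_forall_le _ _ fun d hd => ?_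
  refine (Polynomial.natDegree_C_mul_le _ _).trans ?_
  refine (Polynomial.natDegree_mul_le).trans ?_
  rw [← fz_deg hF hd]
  refine add_le_add ((Polynomial.natDegree_mul_le).trans (add_le_add ?_ ?_)) ?_
  · exact (fz_pow _ _ _).1
  · exact (fz_pow _ _ _).1
  · exact (fz_pow _ _ _).1

private theorem fzP_coeff (hF : F.IsHomogeneous n) (v q : Fin 3 → R) :
    (fzP F v q).coeff n = MvPolynomial.aeval q F := by
  rw [fzP_eq, Polynomial.finsetSum_coeff, MvPolynomial.aeval_def, MvPolynomial.eval₂_eq']
  refine Finset.sum_congr rfl fun d hd => ?_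
  rw [Polynomial.coeff_C_mul, Fin.prod_univ_three, ← fz_deg hF hd,
    Polynomial.coeff_mul_add_eq_of_natDegree_le
      ((Polynomial.natDegree_mul_le).trans (add_le_add (fz_pow _ _ _).1 (fz_pow _ _ _).1))
      (fz_pow _ _ _).1,
    Polynomial.coeff_mul_add_eq_of_natDegree_le (fz_pow _ _ _).1 (fz_pow _ _ _).1,
    (fz_pow _ _ _).2, (fz_pow _ _ _).2, (fz_pow _ _ _).2]

private theorem fzP_map {S : Type*} [CommRing S] (f : R →+* S) (t : S) (v q : Fin 3 → R) :
    (fzP F v q).eval₂ f t =
      MvPolynomial.eval₂Hom (f.comp (algebraMap k R)) (fun i => f (v i) + f (q i) * t) F := by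
  have h := MvPolynomial.map_aeval
    (fun i => (Polynomial.C (v i) + Polynomial.C (q i) * Polynomial.X : Polynomial R))
    (Polynomial.eval₂RingHom f t) F
  have e1 : (Polynomial.eval₂RingHom f t) (fzP F v q) = (fzP F v q).eval₂ f t := rfl
  rw [← e1]
  unfold fzP
  rw [h]
  congr 1
  congr 1
  · ext a
    simp
  · funext i
    simp

private theorem fz_integral {R S : Type*} [CommRing R] [CommRing S] [IsDomain S] (f : R →+* S)
    {x : S} (hx : x ≠ 0) (hi : f.IsIntegralElem x) : ∃ r, f r ≠ 0 ∧ x ∣ f r := by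
  let _ := f.toAlgebra
  have h := Ideal.comap_lt_comap_of_integral_mem_sdiff (R := R) (I := (⊥ : Ideal S))
    (J := Ideal.span {x}) bot_le (x := x)
    ⟨Ideal.mem_span_singleton_self x, fun h => hx (Ideal.mem_bot.1 h)⟩ hi
  obtain ⟨-, r, hr, hr'⟩ := SetLike.lt_iff_le_and_exists.1 h
  refine ⟨r, fun h0 => hr' ?_, Ideal.mem_span_singleton.1 (Ideal.mem_comap.1 hr)⟩
  rw [Ideal.mem_comap, Ideal.mem_bot]
  exact h0

/-- a point which is not on the curve, with the coordinate `l` equal to one -/
private theorem fz_point [Infinite k] (hF : F.IsHomogeneous 6) (hF0 : F ≠ 0) :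
    ∃ (p : Fin 3 → k) (l : Fin 3), MvPolynomial.aeval p F ≠ 0 ∧ p l = 1 := by
  obtain ⟨p, hp⟩ : ∃ p : Fin 3 → k, MvPolynomial.aeval p F ≠ 0 := by
    by_contra hcon
    push Not at hcon
    refine hF0 (MvPolynomial.funext fun x => ?_)
    rw [map_zero, ← MvPolynomial.aeval_eq_eval]
    exact hcon x
  obtain ⟨l, hl⟩ : ∃ l, p l ≠ 0 := by
    by_contra hcon
    push Not at hcon
    apply hp
    have e1 : p = (0 : k) • p := by
      funext i
      rw [Pi.smul_apply, zero_smul, hcon i]
    rw [e1, fz_smul hF]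
    ring
  refine ⟨(p l)⁻¹ • p, l, ?_, ?_⟩
  · rw [fz_smul hF]
    exact mul_ne_zero (pow_ne_zero _ (inv_ne_zero hl)) hp
  · rw [Pi.smul_apply, smul_eq_mul, inv_mul_cancel₀ hl]

/-- the eliminant -/
private theorem fz_elim (hF : F.IsHomogeneous n) (hprime : Prime F) {p : Fin 3 → k} (l : Fin 3)
    (hp : MvPolynomial.aeval p F ≠ 0) {g : MvPolynomial (Fin 3) k}
    (h : ¬ F ∣ g) :
    ∃ r : MvPolynomial (Fin 3) k,
      MvPolynomial.aeval (fun i => MvPolynomial.X i - MvPolynomial.C (p i) * MvPolynomial.X l :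
        Fin 3 → MvPolynomial (Fin 3) k) r ≠ 0 ∧
      ∀ c : Fin 3 → k, MvPolynomial.aeval c F = 0 → MvPolynomial.aeval c g = 0 →
        MvPolynomial.aeval (fun i => c i - p i * c l) r = 0 := by
  classical
  have : (Ideal.span {F}).IsPrime := (Ideal.span_singleton_prime hprime.ne_zero).2 hprime
  set M : Fin 3 → MvPolynomial (Fin 3) k :=
    fun i => MvPolynomial.X i - MvPolynomial.C (p i) * MvPolynomial.X l with hM
  set ψ : MvPolynomial (Fin 3) k →ₐ[k] MvPolynomial (Fin 3) k := MvPolynomial.aeval M with hψ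
  set mk : MvPolynomial (Fin 3) k →+* MvPolynomial (Fin 3) k ⧸ Ideal.span {F} :=
    Ideal.Quotient.mk _ with hmk
  set f : MvPolynomial (Fin 3) k →+* MvPolynomial (Fin 3) k ⧸ Ideal.span {F} :=
    mk.comp (ψ : MvPolynomial (Fin 3) k →+* MvPolynomial (Fin 3) k) with hf
  have hfC : ∀ a, f (MvPolynomial.C a) = mk (MvPolynomial.C a) := by
    intro a
    have : ψ (MvPolynomial.C a) = MvPolynomial.C a := by
      rw [hψ, MvPolynomial.aeval_C]
      rfl
    rw [hf, RingHom.comp_apply]
    exact congrArg mk this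
  have hfX : ∀ i, f (MvPolynomial.X i) = mk (M i) := by
    intro i
    have : ψ (MvPolynomial.X i) = M i := by
      rw [hψ, MvPolynomial.aeval_X]
    rw [hf, RingHom.comp_apply]
    exact congrArg mk this
  have hint0 : f.IsIntegralElem (mk (MvPolynomial.X l)) := by
    set P := fzP F (fun i => (MvPolynomial.X i : MvPolynomial (Fin 3) k))
      (fun i => MvPolynomial.C (p i)) with hP
    have hcoe : P.coeff n = MvPolynomial.C (MvPolynomial.aeval p F) := by
      rw [hP, fzP_coeff hF]
      exact MvPolynomial.aeval_algebraMap_apply _ _ _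
    have hroot : P.eval₂ f (mk (MvPolynomial.X l)) = 0 := by
      rw [hP, fzP_map]
      have h1 : MvPolynomial.eval₂Hom (f.comp (algebraMap k (MvPolynomial (Fin 3) k)))
          (fun i => f (MvPolynomial.X i) + f (MvPolynomial.C (p i)) * mk (MvPolynomial.X l)) =
          mk := by
        refine MvPolynomial.ringHom_ext (fun a => ?_) (fun i => ?_)
        · rw [MvPolynomial.eval₂Hom_C]
          exact hfC a
        · rw [MvPolynomial.eval₂Hom_X', hfX, hfC, ← map_mul, ← map_add, hM]
          congr 1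
          ring
      rw [h1, hmk]
      exact Ideal.Quotient.eq_zero_iff_mem.2 (Ideal.mem_span_singleton_self F)
    refine ⟨Polynomial.C (MvPolynomial.C (MvPolynomial.aeval p F)⁻¹) * P, ?_, ?_⟩
    · refine Polynomial.monic_of_natDegree_le_of_coeff_eq_one n
        ((Polynomial.natDegree_C_mul_le _ _).trans (fzP_natDegree hF _ _)) ?_
      rw [Polynomial.coeff_C_mul, hcoe, ← MvPolynomial.C_mul, inv_mul_cancel₀ hp,
        MvPolynomial.C_1]
    · rw [Polynomial.eval₂_mul, hroot, mul_zero]
  have hintX : ∀ i, f.IsIntegralElem (mk (MvPolynomial.X i)) := by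
    intro i
    have h1 : mk (MvPolynomial.X i) = f (MvPolynomial.X i) +
        f (MvPolynomial.C (p i)) * mk (MvPolynomial.X l) := by
      rw [hfX, hfC, ← map_mul, ← map_add, hM]
      congr 1
      ring
    rw [h1]
    exact f.isIntegralElem_map.add _ (f.isIntegralElem_map.mul _ hint0)
  have hint : ∀ q, f.IsIntegralElem (mk q) := by
    intro q
    induction q using MvPolynomial.induction_on with
    | C a =>
      rw [← hfC]
      exact f.isIntegralElem_map
    | add a b ha hb =>
      rw [map_add]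
      exact ha.add _ hb
    | mul_X a i ha =>
      rw [map_mul]
      exact ha.mul _ (hintX i)
  have hg0 : mk g ≠ 0 := by
    intro h0
    exact h (Ideal.mem_span_singleton.1 (Ideal.Quotient.eq_zero_iff_mem.1 h0))
  obtain ⟨r, hr0, hr⟩ := fz_integral f hg0 (hint g)
  refine ⟨r, ?_, ?_⟩
  · intro h0
    apply hr0
    rw [hf, RingHom.comp_apply]
    have : ψ r = 0 := h0
    exact (congrArg mk this).trans (map_zero mk)
  · intro c hcF hcg
    obtain ⟨b, hb⟩ := hr
    obtain ⟨b, rfl⟩ := Ideal.Quotient.mk_surjective b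
    have h1 : mk (ψ r - g * b) = 0 := by
      rw [map_sub, map_mul, sub_eq_zero]
      exact hb
    obtain ⟨a, ha⟩ := Ideal.mem_span_singleton.1 (Ideal.Quotient.eq_zero_iff_mem.1 h1)
    have h2 : MvPolynomial.aeval c (ψ r) = 0 := by
      have h3 : ψ r = F * a + g * b := by rw [← ha]; ring
      rw [h3, map_add, map_mul, map_mul, hcF, hcg]
      ring
    rw [hψ, MvPolynomial.comp_aeval_apply] at h2
    rw [← h2]
    congr 2
    funext i
    rw [hM]
    simp

private theorem fz_roots [DecidableEq k] {v q : Fin 3 → k} (hF : F.IsHomogeneous n)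
    (hq : MvPolynomial.aeval q F ≠ 0) {t : k}
    (h : MvPolynomial.aeval (v + t • q) F = 0) : t ∈ (fzP F v q).roots.toFinset := by
  rw [Multiset.mem_toFinset, Polynomial.mem_roots']
  refine ⟨fun h0 => ?_, ?_⟩
  · have h1 := fzP_coeff hF v q
    rw [h0, Polynomial.coeff_zero] at h1
    exact hq h1.symm
  · have h1 := fzP_map (F := F) (RingHom.id k) t v q
    rw [Polynomial.IsRoot, Polynomial.eval, h1, ← h, MvPolynomial.aeval_def,
      MvPolynomial.coe_eval₂Hom]
    congr 1
    funext i
    simp [mul_comm]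

/-- the polynomial `r(s e_i + s Y e_j)` -/
private def fzR (r : MvPolynomial (Fin 3) k) (i j : Fin 3) (s : k) : Polynomial k :=
  MvPolynomial.aeval (fun a => if a = i then Polynomial.C s else if a = j then
    Polynomial.C s * Polynomial.X else 0) r

private theorem fzR_eval (r : MvPolynomial (Fin 3) k) (i j : Fin 3) (s y : k) :
    (fzR r i j s).eval y = MvPolynomial.aeval (fun a => if a = i then s else if a = j then
      s * y else 0) r := by
  have h := MvPolynomial.map_aeval
    (fun a => if a = i then Polynomial.C s else if a = j then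
      Polynomial.C s * Polynomial.X else (0 : Polynomial k))
    (Polynomial.evalRingHom y) r
  have e1 : (Polynomial.evalRingHom y) (fzR r i j s) = (fzR r i j s).eval y := rfl
  rw [← e1]
  unfold fzR
  rw [h, MvPolynomial.aeval_def, MvPolynomial.coe_eval₂Hom]
  congr 1
  · ext a
    simp
  · funext a
    split_ifs <;> simp

private theorem fz_main [Infinite k] (hF : F.IsHomogeneous 6) (hprime : Prime F)
    {g : MvPolynomial (Fin 3) k} {m : ℕ} (hg : g.IsHomogeneous m) (h : ¬ F ∣ g) :
    ∃ Z : Finset (Fin 3 → k), (∀ z ∈ Z, z ≠ 0) ∧ ∀ c : Fin 3 → k, c ≠ 0 →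
      MvPolynomial.aeval c F = 0 → MvPolynomial.aeval c g = 0 → ∃ z ∈ Z, ∃ l : k, c = l • z := by
  classical
  obtain ⟨p, l, hp, hl⟩ := fz_point hF hprime.ne_zero
  obtain ⟨r, hr, hrz⟩ := fz_elim hF hprime l hp h
  obtain ⟨i, j, hil, hjl, hij, hall⟩ : ∃ i j : Fin 3, i ≠ l ∧ j ≠ l ∧ i ≠ j ∧
      ∀ a, a = l ∨ a = i ∨ a = j := by
    clear hl hr hrz
    revert l
    decide
  -- the vectors in the plane `x_l = 0`
  set E : k → k → Fin 3 → k := fun a b s => if s = i then a else if s = j then b else 0 with hE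
  have hEu : ∀ c : Fin 3 → k, (fun a => c a - p a * c l) =
      E (c i - p i * c l) (c j - p j * c l) := by
    intro c
    funext a
    rcases hall a with rfl | rfl | rfl
    · simp only [hE]
      rw [if_neg hil.symm, if_neg hjl.symm, hl]
      ring
    · simp [hE]
    · simp [hE, hij.symm]
  have hcE : ∀ c : Fin 3 → k, c = E (c i - p i * c l) (c j - p j * c l) + c l • p := by
    intro c
    rw [← hEu]
    funext a
    rw [Pi.add_apply, Pi.smul_apply, smul_eq_mul]
    ring
  -- the parameter `s`
  obtain ⟨s, hs0, hs⟩ : ∃ s : k, s ≠ 0 ∧ fzR r i j s ≠ 0 := by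
    have h1 : MvPolynomial.aeval (fun a => MvPolynomial.X a - MvPolynomial.C (p a) *
        MvPolynomial.X l : Fin 3 → MvPolynomial (Fin 3) k) r *
        (MvPolynomial.X i - MvPolynomial.C (p i) * MvPolynomial.X l) ≠ 0 := by
      refine mul_ne_zero hr fun h0 => ?_
      have h2 := congrArg (MvPolynomial.aeval (Pi.single i 1 : Fin 3 → k)) h0
      rw [map_sub, map_mul, MvPolynomial.aeval_X, MvPolynomial.aeval_X, map_zero,
        Pi.single_eq_same, Pi.single_eq_of_ne hil.symm, mul_zero, sub_zero] at h2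
      exact one_ne_zero h2
    obtain ⟨c, hc⟩ : ∃ c : Fin 3 → k, MvPolynomial.aeval c (MvPolynomial.aeval
        (fun a => MvPolynomial.X a - MvPolynomial.C (p a) *
        MvPolynomial.X l : Fin 3 → MvPolynomial (Fin 3) k) r *
        (MvPolynomial.X i - MvPolynomial.C (p i) * MvPolynomial.X l)) ≠ 0 := by
      by_contra hcon
      push Not at hcon
      refine h1 (MvPolynomial.funext fun x => ?_)
      rw [map_zero, ← MvPolynomial.aeval_eq_eval]
      exact hcon x
    rw [map_mul, MvPolynomial.comp_aeval_apply] at hc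
    have e1 : (fun a => MvPolynomial.aeval c (MvPolynomial.X a - MvPolynomial.C (p a) *
        MvPolynomial.X l : MvPolynomial (Fin 3) k)) = fun a => c a - p a * c l := by
      funext a
      simp
    have e2 : MvPolynomial.aeval c (MvPolynomial.X i - MvPolynomial.C (p i) *
        MvPolynomial.X l : MvPolynomial (Fin 3) k) = c i - p i * c l := congrFun e1 i
    rw [e1, e2, hEu c] at hc
    have hc1 := left_ne_zero_of_mul hc
    have hc2 := right_ne_zero_of_mul hc
    refine ⟨c i - p i * c l, hc2, fun h0 => hc1 ?_⟩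
    have h3 := fzR_eval r i j (c i - p i * c l) ((c j - p j * c l) / (c i - p i * c l))
    rw [h0, Polynomial.eval_zero, mul_div_cancel₀ _ hc2] at h3
    exact h3.symm
  set Z : Finset (Fin 3 → k) :=
    ((fzR r i j s).roots.toFinset.biUnion fun y =>
      (fzP F (E s (s * y)) p).roots.toFinset.image fun t => E s (s * y) + t • p) ∪
    (fzP F (E 0 1) p).roots.toFinset.image fun t => E 0 1 + t • p with hZ
  have hmem : ∀ c : Fin 3 → k, MvPolynomial.aeval c F = 0 → MvPolynomial.aeval c g = 0 →
      (c i - p i * c l = s ∨ (c i - p i * c l = 0 ∧ c j - p j * c l = 1)) → c ∈ Z := by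
    intro c hcF hcg hc
    have hc1 := hcE c
    rw [hZ, Finset.mem_union]
    rcases hc with hc | ⟨hc, hc'⟩
    · left
      rw [Finset.mem_biUnion]
      refine ⟨(c j - p j * c l) / s, ?_, ?_⟩
      · rw [Multiset.mem_toFinset, Polynomial.mem_roots hs, Polynomial.IsRoot, fzR_eval,
          mul_div_cancel₀ _ hs0]
        have h1 := hrz c hcF hcg
        rw [hEu c, hc] at h1
        exact h1
      · rw [Finset.mem_image]
        rw [hc] at hc1
        refine ⟨c l, fz_roots hF hp ?_, ?_⟩
        · rw [mul_div_cancel₀ _ hs0, ← hc1]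
          exact hcF
        · rw [mul_div_cancel₀ _ hs0]
          exact hc1.symm
    · right
      rw [Finset.mem_image]
      rw [hc, hc'] at hc1
      refine ⟨c l, fz_roots hF hp ?_, hc1.symm⟩
      rw [← hc1]
      exact hcF
  refine ⟨Z.filter (· ≠ 0), fun z hz => (Finset.mem_filter.1 hz).2, ?_⟩
  intro c hc hcF hcg
  -- it is enough to find a multiple in `Z`
  have key : ∀ t : k, t ≠ 0 → t • c ∈ Z → ∃ z ∈ Z.filter (· ≠ 0), ∃ l : k, c = l • z := by
    intro t ht hmem'
    refine ⟨t • c, Finset.mem_filter.2 ⟨hmem', smul_ne_zero ht hc⟩, t⁻¹, ?_⟩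
    rw [smul_smul, inv_mul_cancel₀ ht, one_smul]
  have hz : ∀ t : k, MvPolynomial.aeval (t • c) F = 0 ∧ MvPolynomial.aeval (t • c) g = 0 := by
    intro t
    rw [fz_smul hF, fz_smul hg, hcF, hcg, mul_zero, mul_zero]
    exact ⟨rfl, rfl⟩
  by_cases h1 : c i - p i * c l = 0
  · have h2 : c j - p j * c l ≠ 0 := by
      intro h2
      have h3 := hcE c
      rw [h1, h2] at h3
      have h4 : E 0 0 = 0 := by
        funext a
        simp only [hE]
        split_ifs <;> rfl
      rw [h4, zero_add] at h3
      rw [h3, fz_smul hF] at hcF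
      have h5 : c l = 0 := by
        by_contra h5
        exact mul_ne_zero (pow_ne_zero _ h5) hp hcF
      rw [h5, zero_smul] at h3
      exact hc h3
    refine key (c j - p j * c l)⁻¹ (inv_ne_zero h2) (hmem _ (hz _).1 (hz _).2 (Or.inr ⟨?_, ?_⟩))
    · simp only [Pi.smul_apply, smul_eq_mul]
      linear_combination (c j - p j * c l)⁻¹ * h1
    · simp only [Pi.smul_apply, smul_eq_mul]
      have h3 : (c j - p j * c l)⁻¹ * (c j - p j * c l) = 1 := inv_mul_cancel₀ h2
      linear_combination h3
  · refine key (s * (c i - p i * c l)⁻¹) (mul_ne_zero hs0 (inv_ne_zero h1))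
      (hmem _ (hz _).1 (hz _).2 (Or.inl ?_))
    simp only [Pi.smul_apply, smul_eq_mul]
    have h3 : (c i - p i * c l)⁻¹ * (c i - p i * c l) = 1 := inv_mul_cancel₀ h1
    linear_combination s * h3

end Aux

variable {k : Type u} [Field k] [IsAlgClosed k] [CharZero k] {F : MvPolynomial (Fin 3) k}

/-- A form `g` which is not divisible by `F` has finitely many zeros on the curve. Proof: `F(p) ≠ 0`;
the coordinate ring of the curve is integral over the forms which do not change along `p`, so a
multiple of `g` is such a form `r` modulo `F` (the eliminant), and it has finitely many zeros among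
the lines through `p`; each of them meets the curve in at most six points. -/
theorem finite_zeros (hF : F.IsHomogeneous 6) (hns : NonSing F) {g : MvPolynomial (Fin 3) k}
    {m : ℕ} (hg : g.IsHomogeneous m) (h : ¬ F ∣ g) :
    ∃ Z : Finset (Fin 3 → k), (∀ z ∈ Z, z ≠ 0) ∧ ∀ c : Fin 3 → k, c ≠ 0 →
      MvPolynomial.aeval c F = 0 → MvPolynomial.aeval c g = 0 → ∃ z ∈ Z, ∃ l : k, c = l • z :=
  fz_main hF (prime_F hF hns) hg h

end Pool.Agent.Kim
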