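import Pool.Agent.Kim.CoreB
import Pool.Agent.Kim.CurveA
import Pool.Agent.Kim.FinZ
import Pool.Agent.Kim.DiscC

/-!
# General tangent points
-/

set_option autoImplicit false

noncomputable section

namespace Pool.Agent.Kim

open Pool.Agent.ZCyc Pool.Agent.VFP Pool.Agent.TInf

universe u

variable {k : Type u} [Field k] {F α B : MvPolynomial (Fin 3) k} {e δ : Fin 3 → k} {n : ℕ}

private theorem coreC_smul {A : MvPolynomial (Fin 3) k} {m : ℕ} (hA : A.IsHomogeneous m)
    (o : Fin 3 → k) (l : k) :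
    MvPolynomial.aeval (l • o) A = l ^ m * MvPolynomial.aeval o A := by
  rw [MvPolynomial.aeval_def, MvPolynomial.aeval_def, MvPolynomial.eval₂_eq,
    MvPolynomial.eval₂_eq, Finset.mul_sum]
  refine Finset.sum_congr rfl fun d hd => ?_
  have hdeg : ∑ i ∈ d.support, d i = m := by
    have := hA (MvPolynomial.mem_support_iff.1 hd)
    rw [Finsupp.weight_apply, Finsupp.sum] at this
    simpa using this
  simp only [Pi.smul_apply, smul_eq_mul, mul_pow, Finset.prod_mul_distrib,
    Finset.prod_pow_eq_pow_sum, hdeg]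
  ring

private theorem coreC_aeval_lf (v q : Fin 3 → k) :
    MvPolynomial.aeval q (lf v) = ∑ i, v i * q i := by
  simp only [lf, map_sum, map_mul, MvPolynomial.aeval_C, MvPolynomial.aeval_X,
    Algebra.algebraMap_self, RingHom.id_apply]

private theorem coreC_lf_ne {v : Fin 3 → k} (hv : v ≠ 0) : lf v ≠ 0 := by
  obtain ⟨j, hj⟩ := Function.ne_iff.1 hv
  intro h0
  have h1 := coreC_aeval_lf v (Pi.single j 1)
  rw [h0, map_zero, Finset.sum_eq_single j (fun i _ hi => by
    rw [Pi.single_eq_of_ne hi, mul_zero]) (fun h => absurd (Finset.mem_univ j) h),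
    Pi.single_eq_same, mul_one] at h1
  exact hj h1.symm

private theorem coreC_lf_hom (v : Fin 3 → k) : (lf v).IsHomogeneous 1 :=
  MvPolynomial.IsHomogeneous.sum _ _ _ fun _ _ => MvPolynomial.isHomogeneous_C_mul_X _ _

private theorem coreC_not_dvd {G : MvPolynomial (Fin 3) k}
    (hδF : MvPolynomial.aeval δ F = 0) (h : MvPolynomial.aeval δ G ≠ 0) : ¬ F ∣ G := by
  rintro ⟨q, rfl⟩
  apply h
  rw [map_mul, hδF, zero_mul]

/-- the coefficients of a linear form -/
private def coreC_v (L : (Fin 3 → k) →ₗ[k] k) (i : Fin 3) : k := L (Pi.single i 1)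

private theorem coreC_aeval_v (L : (Fin 3 → k) →ₗ[k] k) (x : Fin 3 → k) :
    MvPolynomial.aeval x (lf (coreC_v L)) = L x := by
  rw [coreC_aeval_lf]
  have h1 := LinearMap.pi_apply_eq_sum_univ L x
  rw [h1]
  refine Finset.sum_congr rfl fun i _ => ?_
  rw [smul_eq_mul, mul_comm, coreC_v]
  congr 2
  funext j
  by_cases hij : j = i
  · subst hij
    simp
  · simp [hij, Ne.symm hij]

private theorem coreC_v_ne {L : (Fin 3 → k) →ₗ[k] k} {x : Fin 3 → k} (h : L x ≠ 0) :
    coreC_v L ≠ 0 := by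
  intro h0
  apply h
  rw [← coreC_aeval_v, h0, coreC_aeval_lf]
  simp

/-- Suppose that the `c i`, `i < m`, are chosen. There is a nonzero polynomial `Φ` such that every
point `q` with `Φ(q) ≠ 0` is on the tangent line at a point `c'` with the conditions of `Tan`. Let
`g` be the product of `Gp F e`, `α`, `B`, `l`, the linear forms `m - x l` with `x ∈ E` and
`m - m(c i) l` with `i < m` (write `l`, `m` as `lf`), and the forms
`B(c i) ² α ³ - α(c i) ³ B ²`. It is not divisible by `F`: `F` is prime (`prime_F`), it does not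
divide
the linear forms, which are not zero (degree; `T.l T.e = 1`, `T.m T.a = 1`), `Fc F e 6` (`F6_ne`),
`Dq F e` (`Dq_ne`), and the other factors are not zero at `δ` (`α(δ) ≠ 0`, `B(δ) ² = 4 α(δ) ³`, and
`B(c i) ² ≠ 4 α(c i) ³` by `disc_ne`). Let `Z` be the finite set of its zeros (`finite_zeros`),
`Φ = ∏ z ∈ Z, ∑ i, grad F z i * X i` (`grad_ne`). Use `exists_tangent`: if
`g(c') = 0` then `c' = l z`, and `grad F(c') = l ⁵ grad F(z)`, so `Φ(q) = 0`. At the end
replace `c'` by `c' / T.l c'` (all are forms). -/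
theorem exists_phi [IsAlgClosed k] [CharZero k] (hF : F.IsHomogeneous 6) (hns : NonSing F)
    (hm : MinModel F α B) (hδF : MvPolynomial.aeval δ F = 0) (hδα : MvPolynomial.aeval δ α ≠ 0)
    (hδe : MvPolynomial.aeval δ (lf e) ≠ 0)
    (hδ : MvPolynomial.aeval δ B ^ 2 = 4 * MvPolynomial.aeval δ α ^ 3)
    {T : Crv.Frame k} {E : Finset k}
    {w : Fin n → Pt k} {c : Fin n → Fin 3 → k} {m : ℕ} (h : Tan F α B e T E m w c) :
    ∃ Φ : MvPolynomial (Fin 3) k, Φ ≠ 0 ∧ ∀ q : Fin 3 → k, MvPolynomial.aeval q Φ ≠ 0 →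
      ∃ c' : Fin 3 → k, MvPolynomial.aeval c' F = 0 ∧ ∑ i, grad F c' i * q i = 0 ∧
        MvPolynomial.aeval c' (Gp F e) ≠ 0 ∧ MvPolynomial.aeval c' α ≠ 0 ∧
        MvPolynomial.aeval c' B ≠ 0 ∧ T.l c' = 1 ∧ T.m c' ∉ E ∧
        (∀ i : Fin n, (i : ℕ) < m → T.m (c i) ≠ T.m c') ∧ ∀ i : Fin n, (i : ℕ) < m →
          MvPolynomial.aeval (c i) B ^ 2 * MvPolynomial.aeval c' α ^ 3 ≠
            MvPolynomial.aeval c' B ^ 2 * MvPolynomial.aeval (c i) α ^ 3 := by
  classical
  have hP := prime_F hF hns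
  have he : e ≠ 0 := by
    intro h0
    apply hδe
    rw [coreC_aeval_lf, h0]
    simp
  have hδB : MvPolynomial.aeval δ B ≠ 0 := by
    intro h0
    rw [h0] at hδ
    have h1 : (4 : k) * MvPolynomial.aeval δ α ^ 3 ≠ 0 :=
      mul_ne_zero (by norm_num) (pow_ne_zero _ hδα)
    apply h1
    rw [← hδ]
    ring
  -- the factors
  set U : Fin n → MvPolynomial (Fin 3) k := fun i =>
    MvPolynomial.C (MvPolynomial.aeval (c i) B ^ 2) * α ^ 3 -
      MvPolynomial.C (MvPolynomial.aeval (c i) α ^ 3) * B ^ 2 with hU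
  have hUev : ∀ (i : Fin n) (x : Fin 3 → k), MvPolynomial.aeval x (U i) =
      MvPolynomial.aeval (c i) B ^ 2 * MvPolynomial.aeval x α ^ 3 -
        MvPolynomial.aeval (c i) α ^ 3 * MvPolynomial.aeval x B ^ 2 := by
    intro i x
    rw [hU]
    simp only [map_sub, map_mul, map_pow, MvPolynomial.aeval_C, Algebra.algebraMap_self,
      RingHom.id_apply]
  set S : Finset (Fin n) := Finset.univ.filter fun i => (i : ℕ) < m with hS
  set E' : Finset k := E ∪ S.image fun i => T.m (c i) with hE'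
  set M : k → (Fin 3 → k) →ₗ[k] k := fun x => T.m - x • T.l with hM
  have hMev : ∀ x v, M x v = T.m v - x * T.l v := fun x v => rfl
  set g : MvPolynomial (Fin 3) k := Gp F e * α * B * lf (coreC_v T.l) *
    (∏ x ∈ E', lf (coreC_v (M x))) * ∏ i ∈ S, U i with hg
  have hUhom : ∀ i, (U i).IsHomogeneous 108 := by
    intro i
    refine MvPolynomial.IsHomogeneous.sub ?_ ?_
    · have h1 := (MvPolynomial.isHomogeneous_C (Fin 3) (MvPolynomial.aeval (c i) B ^ 2)).mul
        (hm.homα.pow 3)
      simpa using h1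
    · have h1 := (MvPolynomial.isHomogeneous_C (Fin 3) (MvPolynomial.aeval (c i) α ^ 3)).mul
        (hm.homB.pow 2)
      simpa using h1
  have hDhom : (Dq F e).IsHomogeneous 132 := by
    refine MvPolynomial.IsHomogeneous.sub ?_ ?_
    · have h1 := (MvPolynomial.isHomogeneous_C (Fin 3) (4 : k)).mul
        ((Iq_hom (e := e) hF).pow 3)
      have h2 : (MvPolynomial.C (4 : k) : MvPolynomial (Fin 3) k) = 4 := by
        rw [map_ofNat]
      rw [h2] at h1
      simpa using h1
    · exact (Jq_hom (e := e) hF).pow 2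
  have hGhom : (Gp F e).IsHomogeneous (1 + (6 + 4 * 6) + 132) :=
    ((coreC_lf_hom e).mul (Fc_hom (e := e) hF 6)).mul hDhom
  have hghom : g.IsHomogeneous (1 + (6 + 4 * 6) + 132 + 36 + 54 + 1 + ∑ x ∈ E', 1 +
      ∑ i ∈ S, 108) :=
    ((((hGhom.mul hm.homα).mul hm.homB).mul (coreC_lf_hom _)).mul
      (MvPolynomial.IsHomogeneous.prod _ _ _ fun x _ => coreC_lf_hom _)).mul
      (MvPolynomial.IsHomogeneous.prod _ _ _ fun i _ => hUhom i)
  have hUne : ∀ i ∈ S, ¬ F ∣ U i := by
    intro i hi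
    have him : (i : ℕ) < m := (Finset.mem_filter.1 hi).2
    refine coreC_not_dvd hδF ?_
    rw [hUev, hδ]
    have h1 := disc_ne hm (h.eq i him) (h.gp i him)
    have h2 : MvPolynomial.aeval (c i) B ^ 2 * MvPolynomial.aeval δ α ^ 3 -
        MvPolynomial.aeval (c i) α ^ 3 * (4 * MvPolynomial.aeval δ α ^ 3) =
        MvPolynomial.aeval δ α ^ 3 * (MvPolynomial.aeval (c i) B ^ 2 -
          4 * MvPolynomial.aeval (c i) α ^ 3) := by ring
    rw [h2]
    exact mul_ne_zero (pow_ne_zero _ hδα) (sub_ne_zero.2 h1)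
  have hlne : ¬ F ∣ lf (coreC_v T.l) := by
    refine DiscA.not_dvd_lf hF hns (coreC_v_ne (x := T.e) ?_)
    rw [T.le]
    exact one_ne_zero
  have hMne : ∀ x, ¬ F ∣ lf (coreC_v (M x)) := by
    intro x
    refine DiscA.not_dvd_lf hF hns (coreC_v_ne (x := T.a) ?_)
    rw [hMev, T.ma, T.la, mul_zero, sub_zero]
    exact one_ne_zero
  have hgne : ¬ F ∣ g := by
    intro hd
    rw [hg] at hd
    rcases hP.dvd_or_dvd hd with hd | hd
    · rcases hP.dvd_or_dvd hd with hd | hd
      · rcases hP.dvd_or_dvd hd with hd | hd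
        · rcases hP.dvd_or_dvd hd with hd | hd
          · rcases hP.dvd_or_dvd hd with hd | hd
            · unfold Gp at hd
              rcases hP.dvd_or_dvd hd with hd | hd
              · rcases hP.dvd_or_dvd hd with hd | hd
                · exact coreC_not_dvd hδF hδe hd
                · exact F6_ne hF hns he hd
              · exact Dq_ne hF hns he hd
            · exact coreC_not_dvd hδF hδα hd
          · exact coreC_not_dvd hδF hδB hd
        · exact hlne hd
      · obtain ⟨x, -, hd⟩ := (Prime.dvd_finsetProd_iff hP _).1 hd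
        exact hMne x hd
    · obtain ⟨i, hi, hd⟩ := (Prime.dvd_finsetProd_iff hP _).1 hd
      exact hUne i hi hd
  obtain ⟨Z, hZ0, hZ⟩ := finite_zeros hF hns hghom hgne
  refine ⟨∏ z ∈ Z, lf (grad F z), ?_, ?_⟩
  · refine Finset.prod_ne_zero_iff.2 fun z hz => coreC_lf_ne ?_
    exact grad_ne hns (hZ0 z hz)
  · intro q hq
    obtain ⟨c', hc0, hcF, hct⟩ := exists_tangent hF hns (x := q)
    have hgrs : ∀ (l : k) (z : Fin 3 → k) (i : Fin 3), grad F (l • z) i = l ^ 5 * grad F z i := by
      intro l z i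
      unfold grad
      exact coreC_smul (m := 6 - 1) (hF.pderiv (i := i)) z l
    have hgc : MvPolynomial.aeval c' g ≠ 0 := by
      intro h0
      obtain ⟨z, hz, l, hl⟩ := hZ c' hc0 hcF h0
      apply hq
      rw [map_prod]
      refine Finset.prod_eq_zero hz ?_
      rw [coreC_aeval_lf]
      have hl0 : l ≠ 0 := by
        rintro rfl
        apply hc0
        rw [hl, zero_smul]
      have h1 : l ^ 5 * ∑ i, grad F z i * q i = 0 := by
        rw [← hct, Finset.mul_sum]
        refine Finset.sum_congr rfl fun i _ => ?_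
        rw [hl, hgrs]
        ring
      exact (mul_eq_zero.1 h1).resolve_left (pow_ne_zero _ hl0)
    rw [hg, map_mul, map_mul, map_mul, map_mul, map_mul, map_prod, map_prod] at hgc
    have h1 := right_ne_zero_of_mul hgc
    have h1' := right_ne_zero_of_mul (left_ne_zero_of_mul hgc)
    have h1'' := left_ne_zero_of_mul (left_ne_zero_of_mul hgc)
    have hl := right_ne_zero_of_mul h1''
    have h2 := right_ne_zero_of_mul (left_ne_zero_of_mul h1'')
    have h3 := right_ne_zero_of_mul (left_ne_zero_of_mul (left_ne_zero_of_mul h1''))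
    have h4 := left_ne_zero_of_mul (left_ne_zero_of_mul (left_ne_zero_of_mul h1''))
    rw [coreC_aeval_v] at hl
    set t : k := (T.l c')⁻¹ with ht
    have ht0 : t ≠ 0 := inv_ne_zero hl
    have htl : T.l (t • c') = 1 := by
      rw [map_smul, smul_eq_mul, ht, inv_mul_cancel₀ hl]
    have hmE' : T.m (t • c') ∉ E' := by
      intro h0
      refine (Finset.prod_ne_zero_iff.1 h1') _ h0 ?_
      rw [coreC_aeval_v, hMev, map_smul, smul_eq_mul, ht]
      field_simp
      ring
    refine ⟨t • c', ?_, ?_, ?_, ?_, ?_, htl, ?_, ?_, ?_⟩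
    · rw [coreC_smul hF, hcF, mul_zero]
    · have h5 : ∑ i, grad F (t • c') i * q i = t ^ 5 * ∑ i, grad F c' i * q i := by
        rw [Finset.mul_sum]
        refine Finset.sum_congr rfl fun i _ => ?_
        rw [hgrs]
        ring
      rw [h5, hct, mul_zero]
    · rw [coreC_smul hGhom]
      exact mul_ne_zero (pow_ne_zero _ ht0) h4
    · rw [coreC_smul hm.homα]
      exact mul_ne_zero (pow_ne_zero _ ht0) h3
    · rw [coreC_smul hm.homB]
      exact mul_ne_zero (pow_ne_zero _ ht0) h2
    · intro h0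
      exact hmE' (Finset.mem_union_left _ h0)
    · intro i hi h0
      refine hmE' (Finset.mem_union_right _ (Finset.mem_image.2 ⟨i, ?_, h0⟩))
      exact Finset.mem_filter.2 ⟨Finset.mem_univ _, hi⟩
    · intro i hi h0
      refine (Finset.prod_ne_zero_iff.1 h1) i (Finset.mem_filter.2 ⟨Finset.mem_univ _, hi⟩) ?_
      rw [coreC_smul hm.homα, coreC_smul hm.homB] at h0
      rw [hUev]
      have h5 : t ^ 108 * (MvPolynomial.aeval (c i) B ^ 2 * MvPolynomial.aeval c' α ^ 3 -
          MvPolynomial.aeval (c i) α ^ 3 * MvPolynomial.aeval c' B ^ 2) = 0 := by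
        linear_combination h0
      exact (mul_eq_zero.1 h5).resolve_left (pow_ne_zero _ ht0)

end Pool.Agent.Kim
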