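import Pool.Agent.Kim.CurveA
import Pool.Agent.Kim.QLine

/-!
# Change of the vector `e`
-/

set_option autoImplicit false

noncomputable section

namespace Pool.Agent.Kim

open Pool.Agent.ZCyc Pool.Agent.VFP

universe u

section inv

variable {R : Type*} [CommRing R]

/-- the coefficients of `l ² q(1 + μ w, l w)` for a quartic `q` with the coefficients `f 2, …, f 6` -/
def subst (f : ℕ → R) (l μ : R) : ℕ → R
  | 2 => l ^ 2 * f 2
  | 3 => l ^ 3 * f 3 + 4 * l ^ 2 * μ * f 2
  | 4 => l ^ 4 * f 4 + 3 * l ^ 3 * μ * f 3 + 6 * l ^ 2 * μ ^ 2 * f 2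
  | 5 => l ^ 5 * f 5 + 2 * l ^ 4 * μ * f 4 + 3 * l ^ 3 * μ ^ 2 * f 3 + 4 * l ^ 2 * μ ^ 3 * f 2
  | 6 => l ^ 6 * f 6 + l ^ 5 * μ * f 5 + l ^ 4 * μ ^ 2 * f 4 + l ^ 3 * μ ^ 3 * f 3 +
      l ^ 2 * μ ^ 4 * f 2
  | _ => 0

theorem invI_subst (f : ℕ → R) (l μ : R) : invI (subst f l μ) = l ^ 8 * invI f := by
  simp only [invI, subst]
  ring

theorem invJ_subst (f : ℕ → R) (l μ : R) : invJ (subst f l μ) = l ^ 12 * invJ f := by
  simp only [invJ, subst]
  ring

end inv

variable {k : Type u} [Field k] [IsAlgClosed k] [CharZero k] {F : MvPolynomial (Fin 3) k}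

private theorem cov_poly [Infinite k] {a : ℕ → k}
    (h : ∀ w : k, ∑ m ∈ Finset.range 7, a m * w ^ m = 0) : ∀ m < 7, a m = 0 := by
  have hP : ∑ m ∈ Finset.range 7, Polynomial.C (a m) * Polynomial.X ^ m = 0 := by
    apply Polynomial.funext
    intro w
    rw [Polynomial.eval_finset_sum, Polynomial.eval_zero, ← h w]
    refine Finset.sum_congr rfl fun m _ => ?_
    rw [Polynomial.eval_mul, Polynomial.eval_C, Polynomial.eval_pow, Polynomial.eval_X]
  intro m hm
  have h1 := congrArg (fun p => Polynomial.coeff p m) hP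
  simp only [Polynomial.finset_sum_coeff, Polynomial.coeff_C_mul_X_pow, Polynomial.coeff_zero] at h1
  rw [Finset.sum_ite_eq, if_pos (Finset.mem_range.2 hm)] at h1
  exact h1

/-- `d'(c) = grad F(c) × e'` is a combination `l d(c) + μ c`, `l = (e' · c) / (e · c)` (`exists_uv`,
`cross_dd`), and `F(c + w d') = F((1 + μ w) c + l w d)`; compare coefficients (`line_eval_curve`). -/
theorem fc_change (hF : F.IsHomogeneous 6) (hns : NonSing F) {e e' c : Fin 3 → k} (hc0 : c ≠ 0)
    (hc : MvPolynomial.aeval c F = 0) (he : MvPolynomial.aeval c (lf e) ≠ 0) :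
    ∃ μ : k, ∀ m ∈ Finset.Icc 2 6, fc F e' c m =
      subst (fc F e c) (MvPolynomial.aeval c (lf e') / MvPolynomial.aeval c (lf e)) μ m := by
  have hinf : Infinite k := CharZero.infinite k
  have hg : grad F c ≠ 0 := grad_ne hns hc0
  obtain ⟨μ, l, hl⟩ := exists_uv hF hc he hg (grad_dd (F := F) (e := e') c)
  have hlE : MvPolynomial.aeval c (lf e') = l * MvPolynomial.aeval c (lf e) := by
    obtain ⟨a0, a1, a2⟩ := cross_dd (e := e) hF hc
    obtain ⟨b0, b1, b2⟩ := cross_dd (e := e') hF hc
    rw [hl 1, hl 2] at b0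
    rw [hl 0, hl 2] at b1
    rw [hl 0, hl 1] at b2
    obtain ⟨i, hi⟩ := Function.ne_iff.1 hg
    have h0 : ∀ i, (MvPolynomial.aeval c (lf e') - l * MvPolynomial.aeval c (lf e)) *
        grad F c i = 0 := by
      intro i
      fin_cases i
      · change _ * grad F c 0 = 0
        linear_combination l * a0 - b0
      · change _ * grad F c 1 = 0
        linear_combination l * a1 - b1
      · change _ * grad F c 2 = 0
        linear_combination l * a2 - b2
    exact sub_eq_zero.1 ((mul_eq_zero.1 (h0 i)).resolve_right hi)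
  have hl' : MvPolynomial.aeval c (lf e') / MvPolynomial.aeval c (lf e) = l := by
    rw [hlE, mul_div_cancel_right₀ _ he]
  rw [hl']
  refine ⟨μ, ?_⟩
  have key : ∀ w : k, ∑ m ∈ Finset.range 7, (if 2 ≤ m then
      fc F e' c m - subst (fc F e c) l μ m else 0) * w ^ m = 0 := by
    intro w
    have h1 := line_eval_curve (e := e') hF hc 1 w
    have h2 := line_eval_curve (e := e) hF hc (1 + μ * w) (l * w)
    have h3 : (fun i => (1 : k) * c i + w * dd F e' c i) =
        fun i => (1 + μ * w) * c i + l * w * dd F e c i := by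
      funext i
      rw [hl i]
      ring
    rw [h3, h2] at h1
    simp only [Finset.sum_range_succ, Finset.sum_range_zero, subst]
    norm_num
    linear_combination -h1
  have h4 := cov_poly key
  intro m hm
  obtain ⟨hm2, hm6⟩ := Finset.mem_Icc.1 hm
  have h5 := h4 m (by omega)
  rw [if_pos hm2] at h5
  exact sub_eq_zero.1 h5

/-- If `e · c = 0` then `d(c)` is proportional to `c`, so all `F_m(c)` are zero. -/
theorem fc_degenerate (hF : F.IsHomogeneous 6) (hns : NonSing F) {e c : Fin 3 → k} (hc0 : c ≠ 0)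
    (hc : MvPolynomial.aeval c F = 0) (he : MvPolynomial.aeval c (lf e) = 0) (m : ℕ) :
    fc F e c m = 0 := by
  have hinf : Infinite k := CharZero.infinite k
  by_cases hm : 6 < m
  · unfold fc
    rw [Fc_large hF hm, map_zero]
  obtain ⟨a0, a1, a2⟩ := cross_dd (e := e) hF hc
  rw [he] at a0 a1 a2
  obtain ⟨s, hs⟩ : ∃ s : k, ∀ i, dd F e c i = s * c i := by
    obtain ⟨i, hi⟩ := Function.ne_iff.1 hc0
    rw [Pi.zero_apply] at hi
    refine ⟨dd F e c i / c i, fun j => ?_⟩
    rw [div_mul_eq_mul_div, eq_div_iff hi]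
    fin_cases i <;> fin_cases j
    · rfl
    · change dd F e c 1 * c 0 = dd F e c 0 * c 1
      linear_combination a2
    · change dd F e c 2 * c 0 = dd F e c 0 * c 2
      linear_combination -a1
    · change dd F e c 0 * c 1 = dd F e c 1 * c 0
      linear_combination -a2
    · rfl
    · change dd F e c 2 * c 1 = dd F e c 1 * c 2
      linear_combination a0
    · change dd F e c 0 * c 2 = dd F e c 2 * c 0
      linear_combination a1
    · change dd F e c 1 * c 2 = dd F e c 2 * c 1
      linear_combination -a0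
    · rfl
  have h0 : fc F e c 0 = 0 := by
    unfold fc
    rw [Fc_zero, hc]
  apply cov_poly (a := fc F e c) _ m (by omega)
  intro w
  have h1 := line_eval (e := e) hF c 1 w
  have h2 := line_eval (e := e) hF c (1 + w * s) 0
  have h3 : (fun i => (1 : k) * c i + w * dd F e c i) =
      fun i => (1 + w * s) * c i + 0 * dd F e c i := by
    funext i
    rw [hs i]
    ring
  rw [h3, h2] at h1
  have h4 : ∑ m ∈ Finset.range 7, fc F e c m * (1 + w * s) ^ (6 - m) * 0 ^ m = 0 := by
    apply Finset.sum_eq_zero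
    intro m _
    rcases Nat.eq_zero_or_pos m with rfl | hm
    · rw [h0]
      ring
    · rw [zero_pow hm.ne', mul_zero]
  rw [h4] at h1
  rw [h1]
  refine Finset.sum_congr rfl fun m _ => ?_
  rw [one_pow, mul_one]

private theorem cov_invI (e c : Fin 3 → k) :
    MvPolynomial.aeval c (Iq F e) = invI (fc F e c) := by
  simp only [Iq, invI, fc, map_add, map_sub, map_mul, map_pow, map_ofNat]

private theorem cov_invJ (e c : Fin 3 → k) :
    MvPolynomial.aeval c (Jq F e) = invJ (fc F e c) := by
  simp only [Jq, invJ, fc, map_add, map_sub, map_mul, map_pow, map_ofNat]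

/-- `fc_change`, `fc_degenerate`, `dvd_of_vanish` -/
theorem Iq_change (hF : F.IsHomogeneous 6) (hns : NonSing F) (e e' : Fin 3 → k) :
    F ∣ lf e ^ 8 * Iq F e' - lf e' ^ 8 * Iq F e := by
  apply dvd_of_vanish hF hns
  intro c hc0 hc
  rw [map_sub, map_mul, map_mul, map_pow, map_pow, cov_invI, cov_invI]
  by_cases he : MvPolynomial.aeval c (lf e) = 0
  · have h1 : invI (fc F e c) = 0 := by
      simp only [invI, fc_degenerate hF hns hc0 hc he]
      ring
    rw [he, h1]
    ring
  · obtain ⟨μ, hμ⟩ := fc_change (e' := e') hF hns hc0 hc he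
    have h1 : invI (fc F e' c) = invI (subst (fc F e c)
        (MvPolynomial.aeval c (lf e') / MvPolynomial.aeval c (lf e)) μ) := by
      unfold invI
      rw [hμ 2 (by decide), hμ 3 (by decide), hμ 4 (by decide), hμ 5 (by decide),
        hμ 6 (by decide)]
    rw [h1, invI_subst]
    field_simp
    ring

theorem Jq_change (hF : F.IsHomogeneous 6) (hns : NonSing F) (e e' : Fin 3 → k) :
    F ∣ lf e ^ 12 * Jq F e' - lf e' ^ 12 * Jq F e := by
  apply dvd_of_vanish hF hns
  intro c hc0 hc
  rw [map_sub, map_mul, map_mul, map_pow, map_pow, cov_invJ, cov_invJ]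
  by_cases he : MvPolynomial.aeval c (lf e) = 0
  · have h1 : invJ (fc F e c) = 0 := by
      simp only [invJ, fc_degenerate hF hns hc0 hc he]
      ring
    rw [he, h1]
    ring
  · obtain ⟨μ, hμ⟩ := fc_change (e' := e') hF hns hc0 hc he
    have h1 : invJ (fc F e' c) = invJ (subst (fc F e c)
        (MvPolynomial.aeval c (lf e') / MvPolynomial.aeval c (lf e)) μ) := by
      unfold invJ
      rw [hμ 2 (by decide), hμ 3 (by decide), hμ 4 (by decide), hμ 5 (by decide),
        hμ 6 (by decide)]
    rw [h1, invJ_subst]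
    field_simp
    ring

end Pool.Agent.Kim
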