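import Pool.Agent.Kim.QGrad
import Pool.Agent.ZIso.Krull

/-!
# The curve `F = 0`: the gradient, common zeros, `F` is prime
-/

set_option autoImplicit false

noncomputable section

namespace Pool.Agent.Kim

open Pool.Agent.ZCyc Pool.Agent.VFP

universe u

variable {k : Type u} [Field k] [IsAlgClosed k] [CharZero k] {F : MvPolynomial (Fin 3) k}

/-- Nonsingular over every field: by Hilbert's Nullstellensatz (`x_j ^ M` is in the ideal generated by
the partial derivatives, `MvPolynomial.vanishingIdeal_zeroLocus_eq_radical`). -/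
theorem grad_ne (hns : NonSing F) {K : Type*} [Field K] [Algebra k K] {c : Fin 3 → K}
    (hc : c ≠ 0) : grad F c ≠ 0 := by
  intro hg
  apply hc
  set I : Ideal (MvPolynomial (Fin 3) k) :=
    Ideal.span (Set.range fun i => MvPolynomial.pderiv i F) with hI
  have hker : I ≤ RingHom.ker (MvPolynomial.aeval (R := k) c) := by
    rw [hI, Ideal.span_le]
    rintro _ ⟨i, rfl⟩
    have := congrFun hg i
    simpa [grad, RingHom.mem_ker] using this
  funext j
  have hX : (MvPolynomial.X j : MvPolynomial (Fin 3) k) ∈ I.radical := by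
    rw [← MvPolynomial.vanishingIdeal_zeroLocus_eq_radical (K := k) I,
      MvPolynomial.mem_vanishingIdeal_iff]
    intro x hx
    have hx0 : x = 0 := by
      apply hns
      intro i
      exact hx _ (Ideal.subset_span ⟨i, rfl⟩)
    rw [hx0, MvPolynomial.aeval_X]
    rfl
  obtain ⟨M, hM⟩ := hX
  have h := hker hM
  rw [RingHom.mem_ker, map_pow, MvPolynomial.aeval_X] at h
  exact eq_zero_of_pow_eq_zero h

/-- Two forms of positive degree in three variables have a common zero: `ZIso.exists_ne_zero`. -/
theorem exists_zero₂ {f g : MvPolynomial (Fin 3) k} {a b : ℕ} (hf : f.IsHomogeneous a)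
    (hg : g.IsHomogeneous b) (ha : 0 < a) (hb : 0 < b) :
    ∃ c : Fin 3 → k, c ≠ 0 ∧ MvPolynomial.aeval c f = 0 ∧ MvPolynomial.aeval c g = 0 := by
  have h0 : ∀ {p : MvPolynomial (Fin 3) k} {n : ℕ}, p.IsHomogeneous n → 0 < n →
      MvPolynomial.eval (0 : Fin 3 → k) p = 0 := by
    intro p n hp hn
    rw [MvPolynomial.eval_zero, MvPolynomial.constantCoeff_eq]
    exact hp.coeff_eq_zero (by simpa using hn.ne)
  obtain ⟨x, hx, h⟩ := ZIso.exists_ne_zero (K := k) (ι := Fin 3) (κ := Fin 2) (by simp) ![f, g]
    (by
      intro i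
      fin_cases i
      · exact h0 hf ha
      · exact h0 hg hb)
  refine ⟨x, hx, ?_, ?_⟩
  · exact h 0
  · exact h 1

omit [IsAlgClosed k] [CharZero k] in
private theorem ca_split {G H : MvPolynomial (Fin 3) k} {n : ℕ} (hGH : (G * H).IsHomogeneous n)
    (h0 : G * H ≠ 0) : ∃ (a b : ℕ) (G' H' : MvPolynomial (Fin 3) k), a = G.totalDegree ∧
      b = H.totalDegree ∧ a + b = n ∧ G'.IsHomogeneous a ∧ H'.IsHomogeneous b ∧
      G * H = G' * H' := by
  have hG0 : G ≠ 0 := left_ne_zero_of_mul h0
  have hH0 : H ≠ 0 := right_ne_zero_of_mul h0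
  have hn : G.totalDegree + H.totalDegree = n := by
    rw [← MvPolynomial.totalDegree_mul_of_isDomain hG0 hH0]
    exact hGH.totalDegree h0
  refine ⟨G.totalDegree, H.totalDegree, MvPolynomial.homogeneousComponent G.totalDegree G,
    MvPolynomial.homogeneousComponent H.totalDegree H, rfl, rfl, hn,
    MvPolynomial.homogeneousComponent_isHomogeneous _ _,
    MvPolynomial.homogeneousComponent_isHomogeneous _ _, ?_⟩
  have h1 : G * H = MvPolynomial.homogeneousComponent n (G * H) := by
    rw [MvPolynomial.homogeneousComponent_of_mem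
      ((MvPolynomial.mem_homogeneousSubmodule n _).mpr hGH), if_pos rfl]
  rw [h1]
  conv_lhs => rw [← MvPolynomial.sum_homogeneousComponent G,
    ← MvPolynomial.sum_homogeneousComponent H]
  rw [Finset.sum_mul_sum, map_sum]
  have h2 : ∀ i j, MvPolynomial.homogeneousComponent n
      (MvPolynomial.homogeneousComponent i G * MvPolynomial.homogeneousComponent j H) =
      if n = i + j then
        MvPolynomial.homogeneousComponent i G * MvPolynomial.homogeneousComponent j H else 0 :=
    fun i j => MvPolynomial.homogeneousComponent_of_mem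
      ((MvPolynomial.mem_homogeneousSubmodule _ _).mpr
        ((MvPolynomial.homogeneousComponent_isHomogeneous i G).mul
          (MvPolynomial.homogeneousComponent_isHomogeneous j H)))
  rw [Finset.sum_eq_single G.totalDegree]
  · rw [map_sum, Finset.sum_eq_single H.totalDegree]
    · rw [h2, if_pos hn.symm]
    · intro j hj hj'
      rw [h2, if_neg]
      rw [Finset.mem_range] at hj
      omega
    · intro hj
      exact absurd (Finset.mem_range.mpr (Nat.lt_succ_self _)) hj
  · intro i hi hi'
    rw [map_sum]
    refine Finset.sum_eq_zero fun j hj => ?_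
    rw [h2, if_neg]
    rw [Finset.mem_range] at hi hj
    omega
  · intro hi
    exact absurd (Finset.mem_range.mpr (Nat.lt_succ_self _)) hi

omit [IsAlgClosed k] [CharZero k] in
private theorem ca_pos {G : MvPolynomial (Fin 3) k} (h0 : G ≠ 0) (hu : ¬ IsUnit G) :
    0 < G.totalDegree := by
  rw [Nat.pos_iff_ne_zero]
  intro h
  rw [MvPolynomial.totalDegree_eq_zero_iff_eq_C] at h
  apply hu
  rw [h]
  refine IsUnit.map MvPolynomial.C (isUnit_iff_ne_zero.mpr ?_)
  intro h1
  apply h0
  rw [h, h1, map_zero]

/-- If `F = G H` is a proper factorisation then `G`, `H` are forms (factors of a homogeneous polynomial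
are homogeneous) of positive degree, and a common zero `c ≠ 0` of `G` and `H` is a singular point. `F ≠ 0`,
because the partial derivatives of `0` vanish everywhere. -/
theorem prime_F (hF : F.IsHomogeneous 6) (hns : NonSing F) : Prime F := by
  have hF0 : F ≠ 0 := by
    rintro rfl
    have h := hns (fun _ => 1) (fun i => by simp)
    have h1 := congrFun h 0
    exact one_ne_zero h1
  rw [← UniqueFactorizationMonoid.irreducible_iff_prime]
  refine ⟨?_, ?_⟩
  · intro hu
    obtain ⟨v, hv⟩ := hu.exists_right_inv
    have hv0 : v ≠ 0 := by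
      rintro rfl
      rw [mul_zero] at hv
      exact zero_ne_one hv
    have h1 := MvPolynomial.totalDegree_mul_of_isDomain hF0 hv0
    rw [hv, MvPolynomial.totalDegree_one, hF.totalDegree hF0] at h1
    omega
  · intro G H hGH
    by_contra hcon
    push Not at hcon
    obtain ⟨hG, hH⟩ := hcon
    have hGH0 : G * H ≠ 0 := hGH ▸ hF0
    obtain ⟨a, b, G', H', rfl, rfl, hab, hG', hH', he⟩ := ca_split (hGH ▸ hF) hGH0
    have ha := ca_pos (left_ne_zero_of_mul hGH0) hG
    have hb := ca_pos (right_ne_zero_of_mul hGH0) hH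
    obtain ⟨c, hc, h1, h2⟩ := exists_zero₂ hG' hH' ha hb
    apply hc
    apply hns
    intro i
    rw [hGH, he, Derivation.leibniz, smul_eq_mul, smul_eq_mul, map_add, map_mul, map_mul, h1, h2]
    ring

end Pool.Agent.Kim
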