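import Pool.Agent.VFP.Bridge

/-!
# Zero-cycles on the powers of a double plane: definitions

`F` is a form of degree `6` in three variables over `k`. `X` is the double covering `y ² = F(x)`
of the plane, a surface in the weighted projective space with coordinates `x₀, x₁, x₂` of weight
one and `y` of weight three.
-/

set_option autoImplicit false

noncomputable section

namespace Pool.Agent.Kim

open Pool.Agent.ZCyc Pool.Agent.VFP

universe u

/-- weighted homogeneous coordinates `(x₀ : x₁ : x₂ : y)` -/
@[ext]
structure Pt (K : Type*) where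
  /-- the coordinates of weight one -/
  x : Fin 3 → K
  /-- the coordinate of weight three -/
  y : K

/-- `w` and `w.scale c`, `c ≠ 0`, are coordinates of the same point -/
def Pt.scale {K : Type*} [Field K] (c : K) (w : Pt K) : Pt K where
  x j := c * w.x j
  y := c ^ 3 * w.y

/-- the image of a point under a field automorphism -/
def Pt.map {K : Type*} (g : K → K) (w : Pt K) : Pt K := ⟨g ∘ w.x, g w.y⟩

variable {k : Type u} [Field k]

/-- `w` are the coordinates of a point of the surface `X` -/
def OnX (F : MvPolynomial (Fin 3) k) {K : Type*} [Field K] [Algebra k K] (w : Pt K) : Prop :=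
  w.x ≠ 0 ∧ w.y ^ 2 = MvPolynomial.aeval w.x F

/-- The point with coordinates `P` in the algebraic closure `Om k` of `k(t)` specialises at the
place `v` to the point with coordinates `p` in `k`: other homogeneous coordinates of `P` are
congruent to `p` modulo the maximal ideal of `v`. -/
def IsVal (v : Place k (Om k)) (P : Pt (Om k)) (p : Pt k) : Prop :=
  ∃ c : Om k, (∀ j, v.At ((P.scale c).x j) (p.x j)) ∧ v.At ((P.scale c).y) p.y

/-- The zero-cycles on `X ^ n` which are rationally equivalent to zero, with rational coefficients.

Let `P i`, `i < l`, be a finite family of points of `X ^ n` with coordinates in the algebraic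
closure of `k(t)` which is stable under the Galois group of `k(t)`. This is the same as an effective
zero-cycle on `X ^ n` over the field `k(t)`, or a family of effective zero-cycles parametrised by
the line, flat over the line. Its member at the point `t = a` is the sum of the specialisations
`p i` of the points of the family at any place `v` above `a`. The space of zero-cycles rationally
equivalent to zero is spanned by the differences between the members of such families at two
points `a` and `b` of the line (Fulton, Intersection theory, Proposition 1.6). (The constant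
families show that it contains the differences of two systems of coordinates of the same point.) -/
def ratEq (F : MvPolynomial (Fin 3) k) (n : ℕ) : Submodule ℚ ((Fin n → Pt k) →₀ ℚ) :=
  Submodule.span ℚ {z | ∃ (l : ℕ) (P : Fin l → Fin n → Pt (Om k)) (a b : k)
    (v w : Place k (Om k)) (p q : Fin l → Fin n → Pt k),
    (∀ i j, OnX F (P i j)) ∧
    (∀ g : Om k ≃ₐ[RatFunc k] Om k, ∃ e : Equiv.Perm (Fin l), ∀ i j,
      P (e i) j = (P i j).map g) ∧
    v.At (tt k) a ∧ w.At (tt k) b ∧
    (∀ i j, OnX F (p i j) ∧ IsVal v (P i j) (p i j)) ∧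
    (∀ i j, OnX F (q i j) ∧ IsVal w (P i j) (q i j)) ∧
    z = ∑ i, (Finsupp.single (p i) 1 - Finsupp.single (q i) 1)}

/-- the exterior product of zero-cycles -/
def extProd {n : ℕ} (z : Fin n → Pt k →₀ ℚ) : (Fin n → Pt k) →₀ ℚ :=
  ∑ w ∈ Fintype.piFinset fun i => (z i).support, Finsupp.single w (∏ i, z i (w i))

/-- zero-cycles on `X ^ n` modulo rational equivalence -/
abbrev VX (F : MvPolynomial (Fin 3) k) (n : ℕ) : Type u := ((Fin n → Pt k) →₀ ℚ) ⧸ ratEq F n

/-- the class of an `n`-tuple of points -/
def cX (F : MvPolynomial (Fin 3) k) {n : ℕ} (w : Fin n → Pt k) : VX F n :=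
  Submodule.Quotient.mk (Finsupp.single w 1)

/-- change of the sign of `y` -/
def Pt.sg {K : Type*} [Field K] (ε : ℤˣ) (w : Pt K) : Pt K := ⟨w.x, ((ε : ℤ) : K) * w.y⟩

/-- `{w 0} × ⋯ × {w (n - 1)}`, where `{w}` is the difference of `w` and of its conjugate point -/
def TX (F : MvPolynomial (Fin 3) k) {n : ℕ} (w : Fin n → Pt k) : VX F n :=
  ∑ ε : Fin n → ℤˣ, (∏ j, ((ε j : ℤ) : ℚ)) • cX F fun j => (w j).sg (ε j)

/-- the alternating sum over all permutations -/
def AX (F : MvPolynomial (Fin 3) k) {n : ℕ} (w : Fin n → Pt k) : VX F n :=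
  ∑ τ : Equiv.Perm (Fin n), ((Equiv.Perm.sign τ : ℤ) : ℚ) • TX F (w ∘ τ)

/-- the class `AX` of the values of the tuple `P` at `v` is `C` -/
def VAX (F : MvPolynomial (Fin 3) k) {n : ℕ} (v : Place k (Om k)) (P : Fin n → Pt (Om k))
    (C : VX F n) : Prop :=
  ∃ p : Fin n → Pt k, (∀ j, OnX F (p j)) ∧ (∀ j, IsVal v (P j) (p j)) ∧ AX F p = C

/-- the constant point -/
def Pt.cst (K : Type*) [Field K] [Algebra k K] (w : Pt k) : Pt K :=
  ⟨fun j => algebraMap k K (w.x j), algebraMap k K w.y⟩

end Pool.Agent.Kim
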