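import Pool.Agent.Kim.FinZ
import Pool.Agent.Kim.QLine

/-!
# The other points of the tangent lines
-/

set_option autoImplicit false

noncomputable section

namespace Pool.Agent.Kim

open Pool.Agent.ZCyc Pool.Agent.VFP

universe u

section

variable {k : Type u} [Field k] {F : MvPolynomial (Fin 3) k} {e : Fin 3 → k}

theorem DiscA.lf_hom (e : Fin 3 → k) : (lf e).IsHomogeneous 1 := by
  unfold lf
  refine MvPolynomial.IsHomogeneous.sum _ _ _ fun i _ => ?_
  have := (MvPolynomial.isHomogeneous_C (Fin 3) (e i)).mul (MvPolynomial.isHomogeneous_X k i)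
  simpa using this

theorem DiscA.dd_eq (c : Fin 3 → k) :
    dd F e c 0 = grad F c 1 * e 2 - grad F c 2 * e 1 ∧
    dd F e c 1 = grad F c 2 * e 0 - grad F c 0 * e 2 ∧
    dd F e c 2 = grad F c 0 * e 1 - grad F c 1 * e 0 := by
  refine ⟨?_, ?_, ?_⟩ <;> simp [dd, dv, grad]

theorem DiscA.aeval_lf (c : Fin 3 → k) :
    MvPolynomial.aeval c (lf e) = e 0 * c 0 + e 1 * c 1 + e 2 * c 2 := by
  simp [lf, Fin.sum_univ_three]

theorem DiscA.aeval_polar (c z : Fin 3 → k) :
    MvPolynomial.aeval c (∑ i, MvPolynomial.C (z i) * MvPolynomial.pderiv i F) =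
      z 0 * grad F c 0 + z 1 * grad F c 1 + z 2 * grad F c 2 := by
  simp [Fin.sum_univ_three, grad]

end

variable {k : Type u} [Field k] [IsAlgClosed k] [CharZero k] {F : MvPolynomial (Fin 3) k}
  {e : Fin 3 → k}

/-- The line `e · x = 0` is not contained in the curve. -/
theorem DiscA.not_dvd_lf (hF : F.IsHomogeneous 6) (hns : NonSing F) (he : e ≠ 0) :
    ¬ F ∣ lf e := by
  have hF0 : F ≠ 0 := (prime_F hF hns).ne_zero
  obtain ⟨j, hj⟩ := Function.ne_iff.1 he
  have hj' : e j ≠ 0 := hj
  have hlf : lf e ≠ 0 := by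
    intro h0
    have h1 := congrArg (MvPolynomial.aeval (Pi.single j 1 : Fin 3 → k)) h0
    rw [DiscA.aeval_lf, map_zero] at h1
    apply hj'
    fin_cases j <;> simpa using h1
  have hl1 : (lf e).totalDegree ≤ 1 := (DiscA.lf_hom e).totalDegree_le
  rintro ⟨h, hh⟩
  have hh0 : h ≠ 0 := by
    rintro rfl
    rw [mul_zero] at hh
    exact hlf hh
  have h2 := MvPolynomial.totalDegree_mul_of_isDomain hF0 hh0
  rw [← hh, hF.totalDegree hF0] at h2
  omega

/-- The intersection point `d(c)` of the tangent line at `c` with the line `e · x = 0` is not on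
the curve for all `c`. The line `e · x = 0` is not contained in the curve (the curve is irreducible of
degree `6`), so its intersection with the curve consists of finitely many points `z`; if `F_6(c) = F(d(c)) = 0`
for all points `c` of the curve then (`d(c)` is zero or proportional to one of the `z`) the product of
the polars `grad F(c) · z` is zero on the curve, so one of them is divisible by `F` (`dvd_of_vanish`,
`prime_F`), which contradicts `polar_ne`. -/
theorem F6_ne (hF : F.IsHomogeneous 6) (hns : NonSing F) (he : e ≠ 0) : ¬ F ∣ Fc F e 6 := by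
  classical
  intro hdiv
  obtain ⟨Z, hZ0, hZ⟩ := finite_zeros hF hns (DiscA.lf_hom e) (DiscA.not_dvd_lf hF hns he)
  obtain ⟨c₀, hc₀, hc₀F, hc₀e⟩ := exists_zero₂ hF (DiscA.lf_hom e) (by norm_num) (by norm_num)
  obtain ⟨j, hj⟩ := Function.ne_iff.1 he
  have hprod : F ∣ ∏ z ∈ insert c₀ Z, ∑ i, MvPolynomial.C (z i) * MvPolynomial.pderiv i F := by
    apply dvd_of_vanish hF hns
    intro c hc hcF
    rw [map_prod]
    have h6 : fc F e c 6 = 0 := by
      obtain ⟨g, hg⟩ := hdiv
      unfold fc
      rw [hg, map_mul, hcF, zero_mul]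
    have hline := line_eval_curve (e := e) hF hcF 0 1
    have hdF : MvPolynomial.aeval (dd F e c) F = 0 := by
      have h1 : (fun i => (0 : k) * c i + 1 * dd F e c i) = dd F e c := by
        funext i
        ring
      rw [h1] at hline
      rw [hline, h6]
      ring
    obtain ⟨hd0, hd1, hd2⟩ := DiscA.dd_eq (F := F) (e := e) c
    by_cases hd : dd F e c = 0
    · apply Finset.prod_eq_zero (Finset.mem_insert_self c₀ Z)
      have hlf : e 0 * c₀ 0 + e 1 * c₀ 1 + e 2 * c₀ 2 = 0 := by
        rw [← DiscA.aeval_lf, hc₀e]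
      rw [DiscA.aeval_polar]
      have e0 : grad F c 1 * e 2 - grad F c 2 * e 1 = 0 := by
        rw [← hd0, hd]; rfl
      have e1 : grad F c 2 * e 0 - grad F c 0 * e 2 = 0 := by
        rw [← hd1, hd]; rfl
      have e2 : grad F c 0 * e 1 - grad F c 1 * e 0 = 0 := by
        rw [← hd2, hd]; rfl
      have hj' : e j ≠ 0 := hj
      apply (mul_eq_zero.1 (?_ : e j * _ = 0)).resolve_left hj'
      fin_cases j
      · change e 0 * _ = 0
        linear_combination grad F c 0 * hlf + c₀ 2 * e1 - c₀ 1 * e2
      · change e 1 * _ = 0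
        linear_combination grad F c 1 * hlf - c₀ 2 * e0 + c₀ 0 * e2
      · change e 2 * _ = 0
        linear_combination grad F c 2 * hlf + c₀ 1 * e0 - c₀ 0 * e1
    · have hlf : MvPolynomial.aeval (dd F e c) (lf e) = 0 := by
        rw [DiscA.aeval_lf, hd0, hd1, hd2]
        ring
      obtain ⟨z, hz, l, hl⟩ := hZ (dd F e c) hd hdF hlf
      apply Finset.prod_eq_zero (Finset.mem_insert_of_mem hz)
      have hl0 : l ≠ 0 := by
        rintro rfl
        rw [zero_smul] at hl
        exact hd hl
      have hg := grad_dd (F := F) (e := e) c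
      rw [DiscA.aeval_polar]
      rw [hl, Fin.sum_univ_three] at hg
      simp only [Pi.smul_apply, smul_eq_mul] at hg
      apply (mul_eq_zero.1 (?_ : l * _ = 0)).resolve_left hl0
      linear_combination hg
  obtain ⟨z, hz, hdz⟩ := (prime_F hF hns).exists_mem_finset_dvd hprod
  have hz0 : z ≠ 0 := by
    rcases Finset.mem_insert.1 hz with rfl | h
    · exact hc₀
    · exact hZ0 z h
  exact polar_ne hF hns hz0 hdz

end Pool.Agent.Kim
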