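import Pool.Agent.Kim.DiscA

/-!
# The general point is not a flex
-/

set_option autoImplicit false

noncomputable section

namespace Pool.Agent.Kim

open Pool.Agent.ZCyc Pool.Agent.VFP

universe u

namespace DiscB

variable {k : Type u} [Field k] (F : MvPolynomial (Fin 3) k) (e : Fin 3 → k)

/-- the derivation `∑ d_i ∂_i` -/
def der : Derivation k (MvPolynomial (Fin 3) k) (MvPolynomial (Fin 3) k) :=
  MvPolynomial.mkDerivation k (dv F e)

theorem der_X (i : Fin 3) : der F e (MvPolynomial.X i) = dv F e i :=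
  MvPolynomial.mkDerivation_X _ _ _

theorem der_apply (p : MvPolynomial (Fin 3) k) :
    der F e p = ∑ j, MvPolynomial.pderiv j p * dv F e j := by
  induction p using MvPolynomial.induction_on with
  | C a => simp
  | add p q hp hq =>
    rw [map_add, hp, hq, ← Finset.sum_add_distrib]
    exact Finset.sum_congr rfl fun j _ => by rw [map_add, add_mul]
  | mul_X p i hp =>
    rw [Derivation.leibniz, hp, der_X]
    simp only [Derivation.leibniz, smul_eq_mul, MvPolynomial.pderiv_X, Fin.sum_univ_three]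
    fin_cases i <;> simp <;> ring

/-- the substitution `x + w d` -/
def ev : MvPolynomial (Fin 3) k →ₐ[k] Polynomial (MvPolynomial (Fin 3) k) :=
  MvPolynomial.aeval (fun i => (Polynomial.C (MvPolynomial.X i) +
    Polynomial.X * Polynomial.C (dv F e i) : Polynomial (MvPolynomial (Fin 3) k)))

theorem ev_X (i : Fin 3) : ev F e (MvPolynomial.X i) = Polynomial.C (MvPolynomial.X i) +
    Polynomial.X * Polynomial.C (dv F e i) := MvPolynomial.aeval_X _ _

theorem Fc_eq (m : ℕ) : Fc F e m = (ev F e F).coeff m := rfl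

/-- the derivation `der` on the coefficients -/
def cder : Derivation k (Polynomial (MvPolynomial (Fin 3) k))
    (Polynomial (MvPolynomial (Fin 3) k)) :=
  PolynomialModule.equivPolynomialSelf.compDer (der F e).mapCoeffs

theorem coeff_cder (p : Polynomial (MvPolynomial (Fin 3) k)) (i : ℕ) :
    (cder F e p).coeff i = der F e (p.coeff i) := rfl

theorem cder_C (p : MvPolynomial (Fin 3) k) :
    cder F e (Polynomial.C p) = Polynomial.C (der F e p) := by
  ext1 n
  rw [coeff_cder, Polynomial.coeff_C, Polynomial.coeff_C]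
  split_ifs with h
  · rfl
  · rw [map_zero]

theorem cder_X : cder F e Polynomial.X = 0 := by
  ext1 n
  rw [coeff_cder, Polynomial.coeff_X, Polynomial.coeff_zero]
  split_ifs with h
  · exact (der F e).map_one_eq_zero
  · rw [map_zero]

theorem ev_C (a : k) : ev F e (MvPolynomial.C a) = Polynomial.C (MvPolynomial.C a) := by
  rw [ev, MvPolynomial.aeval_C]
  rfl

theorem cder_ev (p : MvPolynomial (Fin 3) k) : cder F e (ev F e p) =
    ∑ j, ev F e (MvPolynomial.pderiv j p) * (Polynomial.C (dv F e j) +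
      Polynomial.X * Polynomial.C (der F e (dv F e j))) := by
  induction p using MvPolynomial.induction_on with
  | C a =>
    rw [ev_C, cder_C]
    simp
  | add p q hp hq =>
    rw [map_add, map_add, hp, hq, ← Finset.sum_add_distrib]
    exact Finset.sum_congr rfl fun j _ => by rw [map_add, map_add, add_mul]
  | mul_X p i hp =>
    have h : cder F e (Polynomial.C (MvPolynomial.X i) + Polynomial.X * Polynomial.C (dv F e i)) =
        Polynomial.C (dv F e i) + Polynomial.X * Polynomial.C (der F e (dv F e i)) := by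
      rw [map_add, cder_C, der_X, Derivation.leibniz, cder_X, cder_C, smul_zero, add_zero,
        smul_eq_mul]
    rw [map_mul, ev_X, Derivation.leibniz, hp, h]
    simp only [Derivation.leibniz, smul_eq_mul, MvPolynomial.pderiv_X, Fin.sum_univ_three,
      map_add, map_mul, ev_X]
    fin_cases i <;> simp <;> ring

theorem derivative_ev (p : MvPolynomial (Fin 3) k) : (ev F e p).derivative =
    ∑ j, ev F e (MvPolynomial.pderiv j p) * Polynomial.C (dv F e j) := by
  induction p using MvPolynomial.induction_on with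
  | C a =>
    rw [ev_C]
    simp
  | add p q hp hq =>
    rw [map_add, Polynomial.derivative_add, hp, hq, ← Finset.sum_add_distrib]
    exact Finset.sum_congr rfl fun j _ => by rw [map_add, map_add, add_mul]
  | mul_X p i hp =>
    rw [map_mul, ev_X, Polynomial.derivative_mul, hp]
    simp only [Derivation.leibniz, smul_eq_mul, MvPolynomial.pderiv_X, Fin.sum_univ_three,
      map_add, map_mul, ev_X, Polynomial.derivative_add, Polynomial.derivative_C,
      Polynomial.derivative_mul, Polynomial.derivative_X]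
    fin_cases i <;> simp <;> ring

theorem coeff_zero_ev (p : MvPolynomial (Fin 3) k) : (ev F e p).coeff 0 = p := by
  induction p using MvPolynomial.induction_on with
  | C a => rw [ev_C, Polynomial.coeff_C_zero]
  | add p q hp hq => rw [map_add, Polynomial.coeff_add, hp, hq]
  | mul_X p i hp =>
    rw [map_mul, ev_X, Polynomial.mul_coeff_zero, hp]
    simp

theorem coeff_one_ev (p : MvPolynomial (Fin 3) k) : (ev F e p).coeff 1 = der F e p := by
  have h := congrArg (fun q => q.coeff 0) (derivative_ev F e p)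
  simp only [Polynomial.coeff_derivative, Polynomial.finsetSum_coeff, Polynomial.mul_coeff_zero,
    Polynomial.coeff_C_zero, coeff_zero_ev] at h
  rw [der_apply, ← h]
  simp

/-- `grad F · d = 0` -/
theorem sum_grad_dv : ∑ j, MvPolynomial.pderiv j F * dv F e j = 0 := by
  simp only [dv, Fin.sum_univ_three]
  simp
  ring

theorem der_self : der F e F = 0 := by
  rw [der_apply, sum_grad_dv]

theorem dvd_der {p : MvPolynomial (Fin 3) k} (h : F ∣ p) : F ∣ der F e p := by
  obtain ⟨q, rfl⟩ := h
  rw [Derivation.leibniz, der_self, smul_zero, add_zero, smul_eq_mul]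
  exact dvd_mul_right _ _

theorem coeff_aux (q : Polynomial (MvPolynomial (Fin 3) k)) (x y : MvPolynomial (Fin 3) k)
    (n : ℕ) : (q * (Polynomial.C x + Polynomial.X * Polynomial.C y)).coeff (n + 1) =
      q.coeff (n + 1) * x + q.coeff n * y := by
  rw [mul_add, Polynomial.coeff_add, Polynomial.coeff_mul_C, ← mul_assoc, Polynomial.coeff_mul_C,
    Polynomial.coeff_mul_X]

/-- twice the coefficient `F_2` -/
theorem two_Fc_two : 2 * Fc F e 2 = - ∑ j, MvPolynomial.pderiv j F * der F e (dv F e j) := by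
  have h := congrArg (fun q => q.coeff 1) (derivative_ev F e F)
  simp only [Polynomial.coeff_derivative, Polynomial.finsetSum_coeff,
    Polynomial.coeff_mul_C, coeff_one_ev] at h
  have h2 := congrArg (der F e) (sum_grad_dv F e)
  rw [map_zero, map_sum] at h2
  simp only [Derivation.leibniz, smul_eq_mul, Finset.sum_add_distrib] at h2
  rw [Fc_eq]
  have h3 : ∑ j, dv F e j * der F e (MvPolynomial.pderiv j F) =
      ∑ j, der F e (MvPolynomial.pderiv j F) * dv F e j :=
    Finset.sum_congr rfl fun j _ => mul_comm _ _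
  rw [h3, ← h] at h2
  norm_num at h2
  linear_combination h2

/-- a form of smaller degree is not divisible by `F` -/
theorem not_dvd_of_lt {F} {n m : ℕ} (hF : F.IsHomogeneous n) (hF0 : F ≠ 0)
    {p : MvPolynomial (Fin 3) k} (hp : p.IsHomogeneous m) (hm : m < n) (hp0 : p ≠ 0) : ¬ F ∣ p := by
  rintro ⟨q, rfl⟩
  have hq : q ≠ 0 := right_ne_zero_of_mul hp0
  have h1 := MvPolynomial.totalDegree_mul_of_isDomain hF0 hq
  rw [hF.totalDegree hF0, hp.totalDegree hp0] at h1
  omega

/-- the relation between `D d`, `c` and `d` modulo `F` -/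
theorem exists_rel {F} {e : Fin 3 → k} {n : ℕ} (hF : ∑ i, MvPolynomial.X i *
    MvPolynomial.pderiv i F = (n : MvPolynomial (Fin 3) k) * F) (h2 : F ∣ Fc F e 2)
    (hl : ∃ l, ¬ F ∣ MvPolynomial.pderiv l F) (he : ¬ F ∣ lf e) (hP : Prime F) :
    ∃ s a b : MvPolynomial (Fin 3) k, ¬ F ∣ s ∧ ∀ j, F ∣ s * der F e (dv F e j) -
      a * MvPolynomial.X j - b * dv F e j := by
  obtain ⟨l, hl⟩ := hl
  obtain ⟨t, ht⟩ := h2
  have h3 := two_Fc_two F e
  rw [ht] at h3
  simp only [Fin.sum_univ_three] at h3 hF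
  obtain ⟨v, hv⟩ : ∃ v : Fin 3 → MvPolynomial (Fin 3) k, ∀ j, der F e (dv F e j) = v j :=
    ⟨_, fun _ => rfl⟩
  obtain ⟨g, hg⟩ : ∃ g : Fin 3 → MvPolynomial (Fin 3) k, ∀ j, MvPolynomial.pderiv j F = g j :=
    ⟨_, fun _ => rfl⟩
  obtain ⟨c, hc⟩ : ∃ c : Fin 3 → MvPolynomial (Fin 3) k, ∀ j, MvPolynomial.X j = c j :=
    ⟨_, fun _ => rfl⟩
  obtain ⟨E, hE⟩ : ∃ E : Fin 3 → MvPolynomial (Fin 3) k, ∀ j, MvPolynomial.C (e j) = E j :=
    ⟨_, fun _ => rfl⟩
  have d0 : dv F e 0 = g 1 * E 2 - g 2 * E 1 := by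
    rw [← hg, ← hg, ← hE, ← hE]
    rfl
  have d1 : dv F e 1 = g 2 * E 0 - g 0 * E 2 := by
    rw [← hg, ← hg, ← hE, ← hE]
    rfl
  have d2 : dv F e 2 = g 0 * E 1 - g 1 * E 0 := by
    rw [← hg, ← hg, ← hE, ← hE]
    rfl
  have hlf : lf e = E 0 * c 0 + E 1 * c 1 + E 2 * c 2 := by
    rw [lf, Fin.sum_univ_three]
    simp only [hE, hc]
  rw [hv, hv, hv, hg, hg, hg] at h3
  rw [hg, hg, hg, hc, hc, hc] at hF
  rw [hg] at hl
  have hs : ¬ F ∣ g l * lf e := fun h => (hP.dvd_or_dvd h).elim hl he
  have key : ∀ (j : Fin 3) (r1 r2 x : MvPolynomial (Fin 3) k),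
      x = r1 * (c 0 * g 0 + c 1 * g 1 + c 2 * g 2) + r2 * -(g 0 * v 0 + g 1 * v 1 + g 2 * v 2) →
        F ∣ x := by
    intro j r1 r2 x hx
    rw [hx, hF, ← h3]
    exact ⟨r1 * n + r2 * (2 * t), by ring⟩
  fin_cases l
  · refine ⟨_, g 0 * (E 0 * v 0 + E 1 * v 1 + E 2 * v 2), -(v 1 * c 2 - v 2 * c 1), hs, ?_⟩
    intro j
    rw [hv, hc, hlf]
    fin_cases j
    · refine key 0 (-(E 1 * v 1) - E 2 * v 2) (-(E 1 * c 1) - E 2 * c 2) _ ?_
      simp only [Fin.zero_eta, Fin.isValue]
      rw [d0]
      ring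
    · refine key 1 (E 0 * v 1) (E 0 * c 1) _ ?_
      simp only [Fin.mk_one, Fin.zero_eta, Fin.isValue]
      rw [d1]
      ring
    · refine key 2 (E 0 * v 2) (E 0 * c 2) _ ?_
      simp only [Fin.reduceFinMk, Fin.zero_eta, Fin.isValue]
      rw [d2]
      ring
  · refine ⟨_, g 1 * (E 0 * v 0 + E 1 * v 1 + E 2 * v 2), -(v 2 * c 0 - v 0 * c 2), hs, ?_⟩
    intro j
    rw [hv, hc, hlf]
    fin_cases j
    · refine key 0 (E 1 * v 0) (E 1 * c 0) _ ?_
      simp only [Fin.mk_one, Fin.zero_eta, Fin.isValue]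
      rw [d0]
      ring
    · refine key 1 (-(E 0 * v 0) - E 2 * v 2) (-(E 0 * c 0) - E 2 * c 2) _ ?_
      simp only [Fin.mk_one, Fin.zero_eta, Fin.isValue]
      rw [d1]
      ring
    · refine key 2 (E 1 * v 2) (E 1 * c 2) _ ?_
      simp only [Fin.mk_one, Fin.reduceFinMk, Fin.zero_eta, Fin.isValue]
      rw [d2]
      ring
  · refine ⟨_, g 2 * (E 0 * v 0 + E 1 * v 1 + E 2 * v 2), -(v 0 * c 1 - v 1 * c 0), hs, ?_⟩
    intro j
    rw [hv, hc, hlf]
    fin_cases j
    · refine key 0 (E 2 * v 0) (E 2 * c 0) _ ?_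
      simp only [Fin.reduceFinMk, Fin.zero_eta, Fin.isValue]
      rw [d0]
      ring
    · refine key 1 (E 2 * v 1) (E 2 * c 1) _ ?_
      simp only [Fin.mk_one, Fin.reduceFinMk, Fin.zero_eta, Fin.isValue]
      rw [d1]
      ring
    · refine key 2 (-(E 0 * v 0) - E 1 * v 1) (-(E 0 * c 0) - E 1 * c 1) _ ?_
      simp only [Fin.reduceFinMk, Fin.zero_eta, Fin.isValue]
      rw [d2]
      ring

end DiscB

variable {k : Type u} [Field k] [IsAlgClosed k] [CharZero k] {F : MvPolynomial (Fin 3) k}
  {e : Fin 3 → k}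

/-- The general point is not a flex. Let `K` be the field of fractions of `k[x] / (F)`, `c ∈ K ³`
the generic point, `D = ∑ d_i ∂_i` the derivation of `k[x]`; `D F = 0`, so it induces a derivation of
`K`, with `D c = d`. Suppose `F_2 = 0` in `K` and let `i ≥ 3` be minimal with `F_i ≠ 0` in `K`
(`F_6 ≠ 0` by `F6_ne`). `D` (coefficientwise) applied to `F(c + w d) = ∑ F_m w ^ m` gives
`grad F(c + w d) · d + w grad F(c + w d) · D d`. Since `D d = (Hess F · d) × e`, one has
`grad F(c) · D d = - d ᵀ Hess F d = - 2 F_2 = 0`, so `D d = a c + b d` with `a, b ∈ K` (vectors orthogonal to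
`grad F(c) = c × d / (e · c)`). Moreover `grad F(c + w d) · d = ∑ m F_m w ^ (m - 1)` and
`grad F(c + w d) · c = 6 F - w grad F(c + w d) · d`. The coefficient of `w ^ (i - 1)` is
`D F_(i - 1) = 0` on the left and `i F_i` on the right. -/
theorem F2_ne (hF : F.IsHomogeneous 6) (hns : NonSing F) (he : e ≠ 0) : ¬ F ∣ Fc F e 2 := by
  intro h2
  have hP := prime_F hF hns
  have heul : ∑ i, MvPolynomial.X i * MvPolynomial.pderiv i F =
      ((6 : ℕ) : MvPolynomial (Fin 3) k) * F := by
    rw [hF.sum_X_mul_pderiv, nsmul_eq_mul]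
  have hlf0 : lf e ≠ 0 := by
    intro h
    apply he
    funext i
    have h1 := congrArg (MvPolynomial.aeval (Pi.single i (1 : k) : Fin 3 → k)) h
    simpa [lf, Pi.single_apply] using h1
  have hlf : ¬ F ∣ lf e := by
    refine DiscB.not_dvd_of_lt hF hP.ne_zero (m := 1) ?_ (by norm_num) hlf0
    refine MvPolynomial.IsHomogeneous.sum _ _ _ fun i _ => ?_
    exact (MvPolynomial.isHomogeneous_X k i).C_mul (e i)
  have hg : ∃ l, ¬ F ∣ MvPolynomial.pderiv l F := by
    by_contra hcon
    push Not at hcon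
    have h0 : ∀ l, MvPolynomial.pderiv l F = 0 := by
      intro l
      by_contra h
      exact DiscB.not_dvd_of_lt hF hP.ne_zero (hF.pderiv (i := l)) (by norm_num) h (hcon l)
    have h1 := hns (fun _ => 1) (fun i => by rw [h0, map_zero])
    exact one_ne_zero (congrFun h1 0)
  obtain ⟨s, a, b, hs, hrel⟩ := DiscB.exists_rel heul h2 hg hlf hP
  have main : ∀ m, F ∣ Fc F e m := by
    intro m
    induction m using Nat.strong_induction_on with
    | _ m ih =>
      match m, ih with
      | 0, _ => rw [Fc_zero]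
      | 1, _ => rw [Fc_one]; exact dvd_zero _
      | 2, _ => exact h2
      | m + 3, ih =>
        have hm1 := ih (m + 1) (by omega)
        have hm2 := ih (m + 2) (by omega)
        have hm2' := hm2
        rw [DiscB.Fc_eq] at hm1 hm2 ⊢
        obtain ⟨A, hA⟩ : ∃ A : Fin 3 → ℕ → MvPolynomial (Fin 3) k, ∀ j n,
            (DiscB.ev F e (MvPolynomial.pderiv j F)).coeff n = A j n := ⟨_, fun _ _ => rfl⟩
        have e1 : DiscB.der F e ((DiscB.ev F e F).coeff (m + 2)) =
            (A 0 (m + 2) * dv F e 0 + A 0 (m + 1) * DiscB.der F e (dv F e 0)) +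
            (A 1 (m + 2) * dv F e 1 + A 1 (m + 1) * DiscB.der F e (dv F e 1)) +
            (A 2 (m + 2) * dv F e 2 + A 2 (m + 1) * DiscB.der F e (dv F e 2)) := by
          rw [← DiscB.coeff_cder, DiscB.cder_ev, Polynomial.finsetSum_coeff, Fin.sum_univ_three,
            DiscB.coeff_aux, DiscB.coeff_aux, DiscB.coeff_aux]
          simp only [hA]
        have e2 : ∀ n, (DiscB.ev F e F).coeff (n + 1) * ((n : MvPolynomial (Fin 3) k) + 1) =
            A 0 n * dv F e 0 + A 1 n * dv F e 1 + A 2 n * dv F e 2 := by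
          intro n
          rw [← Polynomial.coeff_derivative, DiscB.derivative_ev, Polynomial.finsetSum_coeff,
            Fin.sum_univ_three, Polynomial.coeff_mul_C, Polynomial.coeff_mul_C,
            Polynomial.coeff_mul_C]
          simp only [hA]
        have e4 : (A 0 (m + 1) * MvPolynomial.X 0 + A 0 m * dv F e 0) +
            (A 1 (m + 1) * MvPolynomial.X 1 + A 1 m * dv F e 1) +
            (A 2 (m + 1) * MvPolynomial.X 2 + A 2 m * dv F e 2) =
              6 * (DiscB.ev F e F).coeff (m + 1) := by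
          have h := congrArg (fun q => (DiscB.ev F e q).coeff (m + 1)) heul
          have hx : ∀ j n, (DiscB.ev F e (MvPolynomial.X j * MvPolynomial.pderiv j F)).coeff
              (n + 1) = A j (n + 1) * MvPolynomial.X j + A j n * dv F e j := by
            intro j n
            rw [map_mul, DiscB.ev_X, mul_comm, DiscB.coeff_aux, hA, hA]
          simp only [Fin.sum_univ_three, map_add, Polynomial.coeff_add, hx] at h
          rw [h, map_mul, map_natCast, Polynomial.coeff_natCast_mul]
          rfl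
        have e2a := e2 (m + 2)
        have e2b := e2 (m + 1)
        have e2c := e2 m
        obtain ⟨p1, h1⟩ := hm1
        obtain ⟨p2, h2⟩ := hm2
        obtain ⟨q, hq⟩ := DiscB.dvd_der F e hm2'
        rw [DiscB.Fc_eq] at hq
        obtain ⟨t0, ht0⟩ := hrel 0
        obtain ⟨t1, ht1⟩ := hrel 1
        obtain ⟨t2, ht2⟩ := hrel 2
        rw [hq] at e1
        rw [h2] at e2b
        rw [h1] at e2c e4
        have key : F ∣ s * (DiscB.ev F e F).coeff (m + 3) *
            ((m + 3 : ℕ) : MvPolynomial (Fin 3) k) := by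
          refine ⟨s * q - a * (6 * p1 - p1 * (m + 1)) - b * (p2 * (m + 2)) -
            (A 0 (m + 1) * t0 + A 1 (m + 1) * t1 + A 2 (m + 1) * t2), ?_⟩
          push_cast at e2a e2b e2c ⊢
          linear_combination s * e2a - s * e1 - a * e4 - a * e2c + b * e2b -
            A 0 (m + 1) * ht0 - A 1 (m + 1) * ht1 - A 2 (m + 1) * ht2
        have hu : IsUnit ((m + 3 : ℕ) : MvPolynomial (Fin 3) k) := by
          have h : ((m + 3 : ℕ) : MvPolynomial (Fin 3) k) = MvPolynomial.C ((m + 3 : ℕ) : k) :=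
            (map_natCast (MvPolynomial.C : k →+* MvPolynomial (Fin 3) k) _).symm
          rw [h]
          exact (IsUnit.mk0 _ (Nat.cast_ne_zero.2 (by omega))).map MvPolynomial.C
        rcases hP.dvd_or_dvd key with h | h
        · exact (hP.dvd_or_dvd h).resolve_left hs
        · exact absurd (isUnit_of_dvd_unit h hu) hP.not_isUnit
  exact F6_ne hF hns he (main 6)

end Pool.Agent.Kim
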