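import Pool.Agent.Kim.BasicC

/-!
# Rational curves on `X` above lines
-/

set_option autoImplicit false

noncomputable section

namespace Pool.Agent.Kim

open Pool.Agent.ZCyc Pool.Agent.VFP Polynomial

universe u

variable {k : Type u} [Field k] {F : MvPolynomial (Fin 3) k} {n : ℕ}

/-- `a` and `b` are linearly independent, and on the line through `a`, `b` the form `F` is `g ² h`
with binary quadratic forms `g`, `h`. -/
def RatLine (F : MvPolynomial (Fin 3) k) (a b : Fin 3 → k) : Prop :=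
  (∀ u v : k, (∀ i, u * a i + v * b i = 0) → u = 0 ∧ v = 0) ∧
  ∃ g h : Fin 3 → k, ∀ u v : k, MvPolynomial.aeval (fun i => u * a i + v * b i) F =
    (g 0 * u ^ 2 + g 1 * u * v + g 2 * v ^ 2) ^ 2 * (h 0 * u ^ 2 + h 1 * u * v + h 2 * v ^ 2)

/-- a rational curve on `X` through the point `w j` and a point with `y = 0` -/
private theorem ratLine_aux [IsAlgClosed k] [CharZero k] {w : Fin n → Pt k}
    (hw : ∀ j, OnX F (w j)) {j : Fin n} (X : Fin 3 → k[X]) (Y : k[X])
    (hXY : ∀ c : k, (Y.eval c) ^ 2 = MvPolynomial.aeval (fun i => (X i).eval c) F)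
    (h1x : ∀ i, (X i).eval 1 = (w j).x i) (h1y : Y.eval 1 = (w j).y)
    (h0x : ∃ i, (X i).eval 0 ≠ 0) (h0y : Y.eval 0 = 0) : AX F w = 0 := by
  classical
  have hev : ∀ c : k, (MvPolynomial.aeval X F : k[X]).eval c =
      MvPolynomial.aeval (fun i => (X i).eval c) F := by
    intro c
    have e1 : (MvPolynomial.aeval X F : k[X]).eval c =
        ((Polynomial.aeval c : k[X] →ₐ[k] k).comp (MvPolynomial.aeval X)) F := by
      rw [AlgHom.comp_apply, Polynomial.coe_aeval_eq_eval]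
    rw [e1]
    congr 1
    refine MvPolynomial.algHom_ext fun i => ?_
    simp
  have hpol : Y ^ 2 = (MvPolynomial.aeval X F : k[X]) := by
    refine Polynomial.funext fun c => ?_
    rw [hev, Polynomial.eval_pow, hXY]
  have hOm : (aeval (tt k) Y) ^ 2 =
      MvPolynomial.aeval (fun i => (aeval (tt k) (X i) : Om k)) F := by
    rw [← map_pow, hpol]
    have e1 : (aeval (tt k) (MvPolynomial.aeval X F : k[X]) : Om k) =
        ((Polynomial.aeval (tt k) : k[X] →ₐ[k] Om k).comp (MvPolynomial.aeval X)) F := rfl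
    rw [e1]
    congr 1
    refine MvPolynomial.algHom_ext fun i => ?_
    simp
  obtain ⟨i₀, hi₀⟩ := h0x
  have hne : (fun i => (aeval (tt k) (X i) : Om k)) ≠ 0 := by
    intro h
    have h2 : aeval (tt k) (X i₀) = (0 : Om k) := congrFun h i₀
    have h3 : X i₀ = 0 := by
      by_contra h4
      exact tt_transc ⟨X i₀, h4, h2⟩
    exact hi₀ (by rw [h3, eval_zero])
  refine (bridgeOne (I := Unit) (fun _ => 1) hw j
    (fun _ => ⟨fun i => aeval (tt k) (X i), aeval (tt k) Y⟩) (fun _ => ⟨hne, hOm⟩) 0 1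
    0 (AX F w) (fun v hv => ?_) (fun v hv => ?_)).symm
  · refine ⟨fun _ => ⟨fun i => (X i).eval 0, Y.eval 0⟩, fun _ => ⟨⟨?_, hXY 0⟩, ?_⟩, ?_⟩
    · intro h
      exact hi₀ (congrFun h i₀)
    · exact isVal_aff (fun i => hv.aeval (X i)) (hv.aeval Y)
    · rw [Fintype.sum_unique, one_smul]
      refine AX_y (j := j) ?_
      rw [Function.update_self]
      exact h0y
  · have hwj : (⟨fun i => (X i).eval 1, Y.eval 1⟩ : Pt k) = w j := by
      refine Pt.ext ?_ h1y
      funext i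
      exact h1x i
    refine ⟨fun _ => w j, fun _ => ⟨hw j, ?_⟩, ?_⟩
    · rw [← hwj]
      exact isVal_aff (fun i => hv.aeval (X i)) (hv.aeval Y)
    · rw [Fintype.sum_unique, one_smul, Function.update_eq_self]

/-- a binary quadratic form has a zero -/
private theorem ratLine_zero [IsAlgClosed k] (h : Fin 3 → k) :
    ∃ u v : k, (u ≠ 0 ∨ v ≠ 0) ∧ h 0 * u ^ 2 + h 1 * u * v + h 2 * v ^ 2 = 0 := by
  by_cases h0 : h 0 = 0
  · exact ⟨1, 0, Or.inl one_ne_zero, by rw [h0]; ring⟩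
  · obtain ⟨x, hx⟩ := IsAlgClosed.exists_root (C (h 0) * X ^ 2 + C (h 1) * X + C (h 2))
      (by rw [degree_quadratic h0]; norm_num)
    refine ⟨x, 1, Or.inr one_ne_zero, ?_⟩
    have h2 : (C (h 0) * X ^ 2 + C (h 1) * X + C (h 2)).eval x = 0 := hx
    simp only [eval_add, eval_mul, eval_C, eval_pow, eval_X] at h2
    linear_combination h2

/-- Let `(w j).x = P₀ = u a + v b` and `y₀ = (w j).y ≠ 0` (otherwise `AX_y`). On the line
`F = g ² h`, `y₀ = g(P₀) z₀`, `z₀ ² = h(P₀) ≠ 0`. Let `P₁ ≠ 0` be a zero of `h` on the line, and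
`β` with `h(s P₀ + t P₁) = s ² z₀ ² + 2 s t β`. If `β ≠ 0` use `bridgeOne` for the point
`s P₀ + t P₁`, `y = g(s P₀ + t P₁) T z₀` with `s = T ²`, `t = z₀ ² (1 - T ²) / (2 β)`, `T = tt k`
(`h = s (s z₀ ² + 2 t β) = T ² z₀ ²`): at `T = 1` it is `w j`, at `T = 0` it has `y = 0`.
If `β = 0` use `s = T`, `t = 1 - T`, `y = g(s P₀ + t P₁) s z₀`. (The identity for `F` holds over
`Om k` too, because `k` is infinite.) -/
theorem AX_ratLine [IsAlgClosed k] [CharZero k] (hF : F.IsHomogeneous 6) {a b : Fin 3 → k}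
    (h : RatLine F a b) {w : Fin n → Pt k} (hw : ∀ j, OnX F (w j)) {j : Fin n} {u v : k}
    (hx : ∀ i, (w j).x i = u * a i + v * b i) : AX F w = 0 := by
  by_cases hy : (w j).y = 0
  · exact AX_y hy
  obtain ⟨hli, g, q, hF'⟩ := h
  have hy2 : (w j).y ^ 2 = (g 0 * u ^ 2 + g 1 * u * v + g 2 * v ^ 2) ^ 2 *
      (q 0 * u ^ 2 + q 1 * u * v + q 2 * v ^ 2) := by
    rw [(hw j).2, ← hF' u v]
    congr 2
    funext i
    exact hx i
  have hg : g 0 * u ^ 2 + g 1 * u * v + g 2 * v ^ 2 ≠ 0 := by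
    intro h0
    rw [h0] at hy2
    exact hy (by simpa using hy2)
  obtain ⟨z, hz⟩ : ∃ z, z = (w j).y / (g 0 * u ^ 2 + g 1 * u * v + g 2 * v ^ 2) := ⟨_, rfl⟩
  have hzy : (g 0 * u ^ 2 + g 1 * u * v + g 2 * v ^ 2) * z = (w j).y := by
    rw [hz]
    exact mul_div_cancel₀ _ hg
  have hz2 : z ^ 2 = q 0 * u ^ 2 + q 1 * u * v + q 2 * v ^ 2 := by
    have h1 : (g 0 * u ^ 2 + g 1 * u * v + g 2 * v ^ 2) ^ 2 * z ^ 2 =
        (g 0 * u ^ 2 + g 1 * u * v + g 2 * v ^ 2) ^ 2 *
      (q 0 * u ^ 2 + q 1 * u * v + q 2 * v ^ 2) := by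
      rw [← hy2, ← hzy]
      ring
    exact mul_left_cancel₀ (pow_ne_zero 2 hg) h1
  have hz0 : z ≠ 0 := by
    intro h0
    rw [h0, mul_zero] at hzy
    exact hy hzy.symm
  obtain ⟨u₁, v₁, hne, hq⟩ := ratLine_zero q
  have hlin : ∀ r : k, r ≠ 0 → ∃ i, (r * u₁) * a i + (r * v₁) * b i ≠ 0 := by
    intro r hr
    by_contra hcon
    push Not at hcon
    obtain ⟨h1, h2⟩ := hli _ _ hcon
    rcases hne with h3 | h3
    · exact (mul_ne_zero hr h3) h1
    · exact (mul_ne_zero hr h3) h2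
  obtain ⟨β, hβ⟩ : ∃ β, β = q 0 * u * u₁ + q 1 * (u * v₁ + v * u₁) / 2 + q 2 * v * v₁ := ⟨_, rfl⟩
  have h2k : (2 : k) ≠ 0 := two_ne_zero
  have hβ2 : 2 * β = 2 * (q 0 * u * u₁) + q 1 * (u * v₁ + v * u₁) + 2 * (q 2 * v * v₁) := by
    rw [hβ]
    field_simp
  -- the quadratic form on the line through the two points
  have hqf : ∀ s t : k, q 0 * (s * u + t * u₁) ^ 2 + q 1 * (s * u + t * u₁) * (s * v + t * v₁) +
      q 2 * (s * v + t * v₁) ^ 2 = s ^ 2 * z ^ 2 + 2 * β * s * t := by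
    intro s t
    rw [hβ2]
    linear_combination (-s ^ 2) * hz2 + t ^ 2 * hq
  by_cases hβ0 : β = 0
  · refine ratLine_aux hw
      (fun i => (X * C u + (1 - X) * C u₁) * C (a i) + (X * C v + (1 - X) * C v₁) * C (b i))
      ((C (g 0) * (X * C u + (1 - X) * C u₁) ^ 2 +
        C (g 1) * (X * C u + (1 - X) * C u₁) * (X * C v + (1 - X) * C v₁) +
        C (g 2) * (X * C v + (1 - X) * C v₁) ^ 2) * (X * C z)) (j := j) ?_ ?_ ?_ ?_ ?_
    · intro c
      simp only [eval_add, eval_mul, eval_C, eval_pow, eval_X, eval_sub, eval_one]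
      rw [hF', hqf, hβ0]
      ring
    · intro i
      simp only [eval_add, eval_mul, eval_C, eval_X, eval_sub, eval_one]
      rw [hx i]
      ring
    · simp only [eval_add, eval_mul, eval_C, eval_pow, eval_X, eval_sub, eval_one]
      rw [← hzy]
      ring
    · obtain ⟨i, hi⟩ := hlin 1 one_ne_zero
      refine ⟨i, ?_⟩
      simp only [eval_add, eval_mul, eval_C, eval_X, eval_sub, eval_one]
      intro h0
      apply hi
      linear_combination h0
    · simp
  · obtain ⟨r, hr⟩ : ∃ r, r = z ^ 2 / (2 * β) := ⟨_, rfl⟩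
    have hr2 : 2 * β * r = z ^ 2 := by
      rw [hr]
      field_simp
    have hr0 : r ≠ 0 := by
      intro h0
      rw [h0, mul_zero] at hr2
      exact pow_ne_zero 2 hz0 hr2.symm
    refine ratLine_aux hw
      (fun i => (X ^ 2 * C u + C r * (1 - X ^ 2) * C u₁) * C (a i) +
        (X ^ 2 * C v + C r * (1 - X ^ 2) * C v₁) * C (b i))
      ((C (g 0) * (X ^ 2 * C u + C r * (1 - X ^ 2) * C u₁) ^ 2 +
        C (g 1) * (X ^ 2 * C u + C r * (1 - X ^ 2) * C u₁) *
          (X ^ 2 * C v + C r * (1 - X ^ 2) * C v₁) +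
        C (g 2) * (X ^ 2 * C v + C r * (1 - X ^ 2) * C v₁) ^ 2) * (X * C z)) (j := j) ?_ ?_ ?_ ?_ ?_
    · intro c
      simp only [eval_add, eval_mul, eval_C, eval_pow, eval_X, eval_sub, eval_one]
      rw [hF', hqf]
      have e : (c ^ 2) ^ 2 * z ^ 2 + 2 * β * c ^ 2 * (r * (1 - c ^ 2)) = (c * z) ^ 2 := by
        linear_combination (c ^ 2 * (1 - c ^ 2)) * hr2
      rw [e]
      ring
    · intro i
      simp only [eval_add, eval_mul, eval_C, eval_pow, eval_X, eval_sub, eval_one]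
      rw [hx i]
      ring
    · simp only [eval_add, eval_mul, eval_C, eval_pow, eval_X, eval_sub, eval_one]
      rw [← hzy]
      ring
    · obtain ⟨i, hi⟩ := hlin r hr0
      refine ⟨i, ?_⟩
      simp only [eval_add, eval_mul, eval_C, eval_pow, eval_X, eval_sub, eval_one]
      intro h0
      apply hi
      linear_combination h0
    · simp

end Pool.Agent.Kim
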