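import Pool.Agent.Kim.MinModel
import Pool.Agent.Kim.RatLine
import Pool.Agent.Kim.QGrad
import Pool.Agent.Kim.QLine

/-!
# Tangent lines with a degenerate residual quartic
-/

set_option autoImplicit false

noncomputable section

namespace Pool.Agent.Kim

open Pool.Agent.ZCyc Pool.Agent.VFP

universe u

private theorem dsl_root4 {K : Type*} [Field K] [IsAlgClosed K] (a b c d e : K) (h : e ≠ 0) :
    ∃ r : K, a + b * r + c * r ^ 2 + d * r ^ 3 + e * r ^ 4 = 0 := by
  have hd : (Polynomial.C e * Polynomial.X ^ 4 + Polynomial.C d * Polynomial.X ^ 3 +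
      Polynomial.C c * Polynomial.X ^ 2 + Polynomial.C b * Polynomial.X +
      Polynomial.C a : Polynomial K).degree = 4 := by
    compute_degree!
  obtain ⟨r, hr⟩ := IsAlgClosed.exists_root _ (by rw [hd]; norm_num)
  refine ⟨r, ?_⟩
  simp only [Polynomial.IsRoot.def, Polynomial.eval_add, Polynomial.eval_mul, Polynomial.eval_C,
    Polynomial.eval_pow, Polynomial.eval_X] at hr
  linear_combination hr

private theorem dsl_root3 {K : Type*} [Field K] [IsAlgClosed K] (a b c d : K) (h : d ≠ 0) :
    ∃ r : K, a + b * r + c * r ^ 2 + d * r ^ 3 = 0 := by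
  have hd : (Polynomial.C d * Polynomial.X ^ 3 +
      Polynomial.C c * Polynomial.X ^ 2 + Polynomial.C b * Polynomial.X +
      Polynomial.C a : Polynomial K).degree = 3 := by
    compute_degree!
  obtain ⟨r, hr⟩ := IsAlgClosed.exists_root _ (by rw [hd]; norm_num)
  refine ⟨r, ?_⟩
  simp only [Polynomial.IsRoot.def, Polynomial.eval_add, Polynomial.eval_mul, Polynomial.eval_C,
    Polynomial.eval_pow, Polynomial.eval_X] at hr
  linear_combination hr

private theorem dsl_root2 {K : Type*} [Field K] [IsAlgClosed K] (a b c : K) (h : c ≠ 0) :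
    ∃ r : K, a + b * r + c * r ^ 2 = 0 := by
  have hd : (Polynomial.C c * Polynomial.X ^ 2 + Polynomial.C b * Polynomial.X +
      Polynomial.C a : Polynomial K).degree = 2 := by
    compute_degree!
  obtain ⟨r, hr⟩ := IsAlgClosed.exists_root _ (by rw [hd]; norm_num)
  refine ⟨r, ?_⟩
  simp only [Polynomial.IsRoot.def, Polynomial.eval_add, Polynomial.eval_mul, Polynomial.eval_C,
    Polynomial.eval_pow, Polynomial.eval_X] at hr
  linear_combination hr

private theorem dsl_fac3 {K : Type*} [Field K] [IsAlgClosed K] (a b c d : K) (h : d ≠ 0) :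
    ∃ r s t : K, c = -d * (r + s + t) ∧ b = d * (r * s + r * t + s * t) ∧
      a = -d * (r * s * t) := by
  obtain ⟨r, hr⟩ := dsl_root3 a b c d h
  obtain ⟨s, hs⟩ := dsl_root2 (b + (c + d * r) * r) (c + d * r) d h
  refine ⟨r, s, -(c + d * r) / d - s, ?_, ?_, ?_⟩
  · field_simp
    ring
  · field_simp
    linear_combination hs
  · field_simp
    linear_combination hr - r * hs

private theorem dsl_fac4 {K : Type*} [Field K] [IsAlgClosed K] (a b c d e : K) (h : e ≠ 0) :
    ∃ r s t w : K, d = -e * (r + s + t + w) ∧
      c = e * (r * s + r * t + r * w + s * t + s * w + t * w) ∧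
      b = -e * (r * s * t + r * s * w + r * t * w + s * t * w) ∧
      a = e * (r * s * t * w) := by
  obtain ⟨r, hr⟩ := dsl_root4 a b c d e h
  obtain ⟨s, t, w, h1, h2, h3⟩ := dsl_fac3 (b + (c + (d + e * r) * r) * r) (c + (d + e * r) * r)
    (d + e * r) e h
  have e1 : d = -e * (r + s + t + w) := by linear_combination h1
  have e2 : c = e * (r * s + r * t + r * w + s * t + s * w + t * w) := by
    linear_combination h2 - r * h1
  have e3 : b = -e * (r * s * t + r * s * w + r * t * w + s * t * w) := by
    linear_combination h3 - r * h2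
  refine ⟨r, s, t, w, e1, e2, e3, ?_⟩
  linear_combination hr - r * h3

/-- A binary quartic with `J ² = 4 I ³` has a double factor: if `f 6 ≠ 0` then `4 I ³ - J ²` is `27` times
the discriminant; if `f 6 = 0` the quartic has the factor `u`. -/
theorem double_factor {K : Type*} [Field K] [IsAlgClosed K] [CharZero K] {f : ℕ → K}
    (h : 4 * invI f ^ 3 = invJ f ^ 2) : ∃ (m₀ m₁ : K) (h : Fin 3 → K), ∀ u v : K,
    f 2 * u ^ 4 + f 3 * u ^ 3 * v + f 4 * u ^ 2 * v ^ 2 + f 5 * u * v ^ 3 + f 6 * v ^ 4 =
      (m₀ * u + m₁ * v) ^ 2 * (h 0 * u ^ 2 + h 1 * u * v + h 2 * v ^ 2) := by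
  unfold invI invJ at h
  generalize f 2 = a at h ⊢
  generalize f 3 = b at h ⊢
  generalize f 4 = c at h ⊢
  generalize f 5 = d at h ⊢
  generalize f 6 = e at h ⊢
  by_cases he : e = 0
  · subst he
    by_cases hd : d = 0
    · subst hd
      refine ⟨1, 0, ![a, b, c], fun u v => ?_⟩
      simp only [Matrix.cons_val_zero, Matrix.cons_val_one, Matrix.cons_val]
      ring
    · obtain ⟨r, s, t, h1, h2, h3⟩ := dsl_fac3 a b c d hd
      have key : 27 * d ^ 6 * ((r - s) * (r - t) * (s - t)) ^ 2 = 0 := by
        rw [h1, h2, h3] at h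
        linear_combination h
      have h27 : (27 : K) ≠ 0 := by norm_num
      have key2 : (r - s) * (r - t) * (s - t) = 0 := by
        have : 27 * d ^ 6 ≠ 0 := mul_ne_zero h27 (pow_ne_zero _ hd)
        rcases mul_eq_zero.mp key with h4 | h4
        · exact absurd h4 this
        · exact pow_eq_zero_iff (two_ne_zero) |>.mp h4
      have fin : ∀ r t : K, c = -d * (r + r + t) → b = d * (r * r + r * t + r * t) →
          a = -d * (r * r * t) → ∃ (m₀ m₁ : K) (h : Fin 3 → K), ∀ u v : K,
          a * u ^ 4 + b * u ^ 3 * v + c * u ^ 2 * v ^ 2 + d * u * v ^ 3 + 0 * v ^ 4 =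
            (m₀ * u + m₁ * v) ^ 2 * (h 0 * u ^ 2 + h 1 * u * v + h 2 * v ^ 2) := by
        intro r t h1 h2 h3
        refine ⟨-r, 1, ![-d * t, d, 0], fun u v => ?_⟩
        simp only [Matrix.cons_val_zero, Matrix.cons_val_one, Matrix.cons_val]
        rw [h1, h2, h3]
        ring
      rcases mul_eq_zero.mp key2 with h4 | h4
      · rcases mul_eq_zero.mp h4 with h5 | h5
        · have : s = r := by linear_combination -h5
          subst this
          exact fin s t h1 h2 (by linear_combination h3)
        · have : t = r := by linear_combination -h5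
          subst this
          exact fin t s (by linear_combination h1) (by linear_combination h2)
            (by linear_combination h3)
      · have : t = s := by linear_combination -h4
        subst this
        exact fin t r (by linear_combination h1) (by linear_combination h2)
          (by linear_combination h3)
  · obtain ⟨r, s, t, w, h1, h2, h3, h4⟩ := dsl_fac4 a b c d e he
    have key : 27 * e ^ 6 *
        ((r - s) * (r - t) * (r - w) * (s - t) * (s - w) * (t - w)) ^ 2 = 0 := by
      rw [h1, h2, h3, h4] at h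
      linear_combination h
    have h27 : (27 : K) ≠ 0 := by norm_num
    have key2 : (r - s) * (r - t) * (r - w) * (s - t) * (s - w) * (t - w) = 0 := by
      have : 27 * e ^ 6 ≠ 0 := mul_ne_zero h27 (pow_ne_zero _ he)
      rcases mul_eq_zero.mp key with h5 | h5
      · exact absurd h5 this
      · exact pow_eq_zero_iff (two_ne_zero) |>.mp h5
    have fin : ∀ r t w : K, d = -e * (r + r + t + w) →
        c = e * (r * r + r * t + r * w + r * t + r * w + t * w) →
        b = -e * (r * r * t + r * r * w + r * t * w + r * t * w) →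
        a = e * (r * r * t * w) → ∃ (m₀ m₁ : K) (h : Fin 3 → K), ∀ u v : K,
        a * u ^ 4 + b * u ^ 3 * v + c * u ^ 2 * v ^ 2 + d * u * v ^ 3 + e * v ^ 4 =
          (m₀ * u + m₁ * v) ^ 2 * (h 0 * u ^ 2 + h 1 * u * v + h 2 * v ^ 2) := by
      intro r t w h1 h2 h3 h4
      refine ⟨-r, 1, ![e * (t * w), -e * (t + w), e], fun u v => ?_⟩
      simp only [Matrix.cons_val_zero, Matrix.cons_val_one, Matrix.cons_val]
      rw [h1, h2, h3, h4]
      ring
    have perm : ∀ x y z p : K, (x - y = 0) → d = -e * (x + y + z + p) →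
        c = e * (x * y + x * z + x * p + y * z + y * p + z * p) →
        b = -e * (x * y * z + x * y * p + x * z * p + y * z * p) →
        a = e * (x * y * z * p) → ∃ (m₀ m₁ : K) (h : Fin 3 → K), ∀ u v : K,
        a * u ^ 4 + b * u ^ 3 * v + c * u ^ 2 * v ^ 2 + d * u * v ^ 3 + e * v ^ 4 =
          (m₀ * u + m₁ * v) ^ 2 * (h 0 * u ^ 2 + h 1 * u * v + h 2 * v ^ 2) := by
      intro x y z p hxy g1 g2 g3 g4
      have : y = x := by linear_combination -hxy
      subst this
      exact fin y z p g1 g2 g3 g4
    rcases mul_eq_zero.mp key2 with k1 | k1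
    · rcases mul_eq_zero.mp k1 with k2 | k2
      · rcases mul_eq_zero.mp k2 with k3 | k3
        · rcases mul_eq_zero.mp k3 with k4 | k4
          · rcases mul_eq_zero.mp k4 with k5 | k5
            · exact perm r s t w k5 h1 h2 h3 h4
            · exact perm r t s w k5 (by linear_combination h1) (by linear_combination h2)
                (by linear_combination h3) (by linear_combination h4)
          · exact perm r w s t k4 (by linear_combination h1) (by linear_combination h2)
              (by linear_combination h3) (by linear_combination h4)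
        · exact perm s t r w k3 (by linear_combination h1) (by linear_combination h2)
            (by linear_combination h3) (by linear_combination h4)
      · exact perm s w r t k2 (by linear_combination h1) (by linear_combination h2)
          (by linear_combination h3) (by linear_combination h4)
    · exact perm t w r s k1 (by linear_combination h1) (by linear_combination h2)
        (by linear_combination h3) (by linear_combination h4)

/-- `g = v (m₀ u + m₁ v)`; `indep_dd` -/
theorem ratLine_of_disc {k : Type u} [Field k] [IsAlgClosed k] [CharZero k]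
    {F : MvPolynomial (Fin 3) k} (hF : F.IsHomogeneous 6) {α B : MvPolynomial (Fin 3) k}
    (hm : MinModel F α B) {e δ : Fin 3 → k} (hc : MvPolynomial.aeval δ F = 0)
    (he : MvPolynomial.aeval δ (lf e) ≠ 0) (hg : grad F δ ≠ 0)
    (hδ : MvPolynomial.aeval δ B ^ 2 = 4 * MvPolynomial.aeval δ α ^ 3) :
    RatLine F δ (dd F e δ) := by
  refine ⟨fun u v h => indep_dd hF hc he hg h, ?_⟩
  have hI : 9 * invI (fc F e δ) = MvPolynomial.aeval δ (lf e) ^ 8 * MvPolynomial.aeval δ α := by
    obtain ⟨q, hq⟩ := hm.eqα e
    have h1 := congrArg (MvPolynomial.aeval δ) hq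
    rw [map_mul, hc, zero_mul] at h1
    simp only [map_sub, map_mul, map_pow, map_ofNat] at h1
    have h2 : MvPolynomial.aeval δ (Iq F e) = invI (fc F e δ) := by
      simp only [Iq, invI, fc, map_add, map_sub, map_mul, map_pow, map_ofNat]
    rw [h2] at h1
    linear_combination h1
  have hJ : -27 * invJ (fc F e δ) =
      MvPolynomial.aeval δ (lf e) ^ 12 * MvPolynomial.aeval δ B := by
    obtain ⟨q, hq⟩ := hm.eqB e
    have h1 := congrArg (MvPolynomial.aeval δ) hq
    rw [map_mul, hc, zero_mul] at h1
    simp only [map_sub, map_mul, map_pow, map_ofNat, map_neg] at h1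
    have h2 : MvPolynomial.aeval δ (Jq F e) = invJ (fc F e δ) := by
      simp only [Jq, invJ, fc, map_add, map_sub, map_mul, map_pow, map_ofNat]
    rw [h2] at h1
    linear_combination h1
  have hD : 4 * invI (fc F e δ) ^ 3 = invJ (fc F e δ) ^ 2 := by
    have h3 : 4 * (9 * invI (fc F e δ)) ^ 3 = (-27 * invJ (fc F e δ)) ^ 2 := by
      rw [hI, hJ, mul_pow, mul_pow, hδ]
      ring
    have h729 : (729 : k) ≠ 0 := by norm_num
    apply mul_left_cancel₀ h729
    linear_combination h3
  obtain ⟨m₀, m₁, h, hh⟩ := double_factor hD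
  refine ⟨![0, m₀, m₁], h, fun u v => ?_⟩
  have : Infinite k := inferInstance
  rw [line_eval_curve hF hc u v, hh]
  simp only [Matrix.cons_val_zero, Matrix.cons_val_one, Matrix.cons_val]
  ring

end Pool.Agent.Kim
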