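import Pool.Agent.Kim.CurveA

/-!
# Division by powers of a linear form on the curve `F = 0`
-/

set_option autoImplicit false

noncomputable section

namespace Pool.Agent.Kim

open Pool.Agent.ZCyc Pool.Agent.VFP

universe u

variable {k : Type u} [Field k] {F : MvPolynomial (Fin 3) k}

/-- an endomorphism which is the identity modulo an ideal on the variables -/
private theorem divLine_sub_mem {I : Ideal (MvPolynomial (Fin 3) k)}
    (φ : MvPolynomial (Fin 3) k →ₐ[k] MvPolynomial (Fin 3) k)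
    (h : ∀ i, MvPolynomial.X i - φ (MvPolynomial.X i) ∈ I) (g : MvPolynomial (Fin 3) k) :
    g - φ g ∈ I := by
  induction g using MvPolynomial.induction_on with
  | C a =>
    have h1 : φ (MvPolynomial.C a) = MvPolynomial.C a := φ.commutes a
    rw [h1, sub_self]
    exact I.zero_mem
  | add p q hp hq =>
    rw [map_add]
    have h1 : p + q - (φ p + φ q) = (p - φ p) + (q - φ q) := by ring
    rw [h1]
    exact I.add_mem hp hq
  | mul_X p i hp =>
    rw [map_mul]
    have h1 : p * MvPolynomial.X i - φ p * φ (MvPolynomial.X i) =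
        MvPolynomial.X i * (p - φ p) + φ p * (MvPolynomial.X i - φ (MvPolynomial.X i)) := by ring
    rw [h1]
    exact I.add_mem (I.mul_mem_left _ hp) (I.mul_mem_left _ (h i))

private theorem divLine_lf {A : Type*} [CommRing A] [Algebra k A] (e : Fin 3 → k) (x : Fin 3 → A) :
    MvPolynomial.aeval x (lf e) = algebraMap k A (e 0) * x 0 + algebraMap k A (e 1) * x 1 +
      algebraMap k A (e 2) * x 2 := by
  rw [lf, Fin.sum_univ_three]
  simp only [map_add, map_mul, MvPolynomial.aeval_C, MvPolynomial.aeval_X]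

private theorem divLine_lf_eq (e : Fin 3 → k) :
    lf e = MvPolynomial.C (e 0) * MvPolynomial.X 0 + MvPolynomial.C (e 1) * MvPolynomial.X 1 +
      MvPolynomial.C (e 2) * MvPolynomial.X 2 := by
  simp only [lf, Fin.sum_univ_three]

private theorem divLine_lf_hom (e : Fin 3 → k) : (lf e).IsHomogeneous 1 :=
  MvPolynomial.IsHomogeneous.sum _ _ _ fun _ _ => MvPolynomial.isHomogeneous_C_mul_X _ _

/-- linear forms are prime -/
private theorem divLine_prime {e p : Fin 3 → k} (hp : e 0 * p 0 + e 1 * p 1 + e 2 * p 2 = 1)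
    {a b : MvPolynomial (Fin 3) k} (h : lf e ∣ a * b) : lf e ∣ a ∨ lf e ∣ b := by
  set φ : MvPolynomial (Fin 3) k →ₐ[k] MvPolynomial (Fin 3) k :=
    MvPolynomial.aeval fun i => MvPolynomial.X i - lf e * MvPolynomial.C (p i) with hφ
  have h1 : φ (lf e) = 0 := by
    have h2 := congrArg (MvPolynomial.C (σ := Fin 3)) hp
    simp only [map_add, map_mul, map_one] at h2
    rw [hφ, divLine_lf]
    simp only [MvPolynomial.algebraMap_eq]
    rw [divLine_lf_eq e]
    linear_combination (-(MvPolynomial.C (e 0) * MvPolynomial.X 0 +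
      MvPolynomial.C (e 1) * MvPolynomial.X 1 + MvPolynomial.C (e 2) * MvPolynomial.X 2)) * h2
  have h3 : ∀ g, φ g = 0 → lf e ∣ g := by
    intro g hg
    have h4 := divLine_sub_mem (I := Ideal.span {lf e}) φ (fun i => by
      rw [hφ, MvPolynomial.aeval_X]
      rw [sub_sub_cancel]
      exact Ideal.mul_mem_right _ _ (Ideal.mem_span_singleton_self _)) g
    rw [hg, sub_zero, Ideal.mem_span_singleton] at h4
    exact h4
  have h5 : φ a * φ b = 0 := by
    obtain ⟨c, hc⟩ := h
    rw [← map_mul, hc, map_mul, h1, zero_mul]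
  rcases mul_eq_zero.mp h5 with h6 | h6
  · exact Or.inl (h3 a h6)
  · exact Or.inr (h3 b h6)

/-- The main step: `s`, `t`, `F` are independent, `o` is the common zero of `s` and `t`. -/
private theorem divLine_step {e e' r : Fin 3 → k}
    (hr : r 0 * (e 1 * e' 2 - e 2 * e' 1) + r 1 * (e 2 * e' 0 - e 0 * e' 2) +
      r 2 * (e 0 * e' 1 - e 1 * e' 0) = 1)
    (hF : MvPolynomial.aeval (![e 1 * e' 2 - e 2 * e' 1, e 2 * e' 0 - e 0 * e' 2,
      e 0 * e' 1 - e 1 * e' 0] : Fin 3 → k) F ≠ 0)
    {a g h : MvPolynomial (Fin 3) k} (hagh : lf e' * a = F * g + lf e * h) :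
    ∃ g' h', a = F * g' + lf e * h' := by
  set o : Fin 3 → k := ![e 1 * e' 2 - e 2 * e' 1, e 2 * e' 0 - e 0 * e' 2,
      e 0 * e' 1 - e 1 * e' 0] with ho
  have ho0 : o 0 = e 1 * e' 2 - e 2 * e' 1 := rfl
  have ho1 : o 1 = e 2 * e' 0 - e 0 * e' 2 := rfl
  have ho2 : o 2 = e 0 * e' 1 - e 1 * e' 0 := rfl
  set ρ : MvPolynomial (Fin 3) k →ₐ[k] MvPolynomial (Fin 3) k :=
    MvPolynomial.aeval fun i => lf r * MvPolynomial.C (o i) with hρ
  have h2 := congrArg (MvPolynomial.C (σ := Fin 3)) hr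
  simp only [map_add, map_mul, map_one, map_sub] at h2
  have hs : ρ (lf e) = 0 := by
    rw [hρ, divLine_lf]
    simp only [MvPolynomial.algebraMap_eq, ho0, ho1, ho2, map_sub, map_mul]
    ring
  have ht : ρ (lf e') = 0 := by
    rw [hρ, divLine_lf]
    simp only [MvPolynomial.algebraMap_eq, ho0, ho1, ho2, map_sub, map_mul]
    ring
  have hF' : ρ F ≠ 0 := by
    intro h0
    have h1 : MvPolynomial.aeval o (ρ F) = MvPolynomial.aeval o F := by
      rw [hρ, ← AlgHom.comp_apply, MvPolynomial.comp_aeval]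
      congr 2
      funext i
      rw [map_mul, divLine_lf, MvPolynomial.aeval_C]
      simp only [Algebra.algebraMap_self, RingHom.id_apply]
      rw [ho0, ho1, ho2, hr, one_mul]
    rw [h0, map_zero] at h1
    exact hF h1.symm
  have hg : ρ g = 0 := by
    have h1 := congrArg ρ hagh
    rw [map_mul, ht, zero_mul, map_add, map_mul, map_mul, hs, zero_mul, add_zero] at h1
    exact (mul_eq_zero.mp h1.symm).resolve_left hF'
  have h4 := divLine_sub_mem (I := Ideal.span {lf e, lf e'}) ρ (fun i => by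
      rw [hρ, MvPolynomial.aeval_X, Ideal.mem_span_pair]
      fin_cases i
      · refine ⟨-(MvPolynomial.C (r 1 * e' 2 - r 2 * e' 1)),
          MvPolynomial.C (r 1 * e 2 - r 2 * e 1), ?_⟩
        simp only [Fin.zero_eta, Fin.isValue, ho0, divLine_lf_eq, map_sub, map_mul]
        linear_combination (MvPolynomial.X 0) * h2
      · refine ⟨-(MvPolynomial.C (r 2 * e' 0 - r 0 * e' 2)),
          MvPolynomial.C (r 2 * e 0 - r 0 * e 2), ?_⟩
        simp only [Fin.mk_one, Fin.isValue, ho1, divLine_lf_eq, map_sub, map_mul]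
        linear_combination (MvPolynomial.X 1) * h2
      · refine ⟨-(MvPolynomial.C (r 0 * e' 1 - r 1 * e' 0)),
          MvPolynomial.C (r 0 * e 1 - r 1 * e 0), ?_⟩
        simp only [Fin.reduceFinMk, Fin.isValue, ho2, divLine_lf_eq, map_sub, map_mul]
        linear_combination (MvPolynomial.X 2) * h2) g
  rw [hg, sub_zero, Ideal.mem_span_pair] at h4
  obtain ⟨g₁, g₂, hg12⟩ := h4
  have h5 : lf e ∣ lf e' * (a - F * g₂) := by
    refine ⟨F * g₁ + h, ?_⟩
    linear_combination hagh + F * (-hg12)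
  -- a point on the line `s = 0` with `t ≠ 0`
  have hst : ¬ lf e ∣ lf e' := by
    rintro ⟨q, hq⟩
    have h6 := congrArg (MvPolynomial.aeval (![e 1 * r 2 - e 2 * r 1, e 2 * r 0 - e 0 * r 2,
      e 0 * r 1 - e 1 * r 0] : Fin 3 → k)) hq
    rw [map_mul, divLine_lf, divLine_lf] at h6
    simp only [Algebra.algebraMap_self, RingHom.id_apply, Matrix.cons_val_zero,
      Matrix.cons_val_one, Matrix.cons_val] at h6
    have h7 : e 0 * (e 1 * r 2 - e 2 * r 1) + e 1 * (e 2 * r 0 - e 0 * r 2) +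
        e 2 * (e 0 * r 1 - e 1 * r 0) = 0 := by ring
    rw [h7, zero_mul] at h6
    have h8 : (1 : k) = 0 := by
      linear_combination (-1 : k) * hr - h6
    exact one_ne_zero h8
  have hep : ∃ p : Fin 3 → k, e 0 * p 0 + e 1 * p 1 + e 2 * p 2 = 1 := by
    refine ⟨![e' 1 * r 2 - e' 2 * r 1, e' 2 * r 0 - e' 0 * r 2, e' 0 * r 1 - e' 1 * r 0], ?_⟩
    simp only [Matrix.cons_val_zero, Matrix.cons_val_one, Matrix.cons_val]
    linear_combination hr
  obtain ⟨p, hp⟩ := hep
  rcases divLine_prime hp h5 with h6 | h6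
  · exact absurd h6 hst
  · obtain ⟨q, hq⟩ := h6
    exact ⟨g₂, q, by linear_combination hq⟩

/-- the powers of `t` -/
private theorem divLine_steps {e e' r : Fin 3 → k}
    (hr : r 0 * (e 1 * e' 2 - e 2 * e' 1) + r 1 * (e 2 * e' 0 - e 0 * e' 2) +
      r 2 * (e 0 * e' 1 - e 1 * e' 0) = 1)
    (hF : MvPolynomial.aeval (![e 1 * e' 2 - e 2 * e' 1, e 2 * e' 0 - e 0 * e' 2,
      e 0 * e' 1 - e 1 * e' 0] : Fin 3 → k) F ≠ 0) (n : ℕ) :
    ∀ {a g h : MvPolynomial (Fin 3) k}, lf e' ^ n * a = F * g + lf e * h →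
      ∃ g' h', a = F * g' + lf e * h' := by
  induction n with
  | zero =>
    intro a g h hagh
    rw [pow_zero, one_mul] at hagh
    exact ⟨g, h, hagh⟩
  | succ n ih =>
    intro a g h hagh
    rw [pow_succ', mul_assoc] at hagh
    obtain ⟨g', h', h1⟩ := divLine_step hr hF hagh
    exact ih h1

/-- the powers of `s` -/
private theorem divLine_pow {e e' r : Fin 3 → k}
    (hr : r 0 * (e 1 * e' 2 - e 2 * e' 1) + r 1 * (e 2 * e' 0 - e 0 * e' 2) +
      r 2 * (e 0 * e' 1 - e 1 * e' 0) = 1)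
    (hF : MvPolynomial.aeval (![e 1 * e' 2 - e 2 * e' 1, e 2 * e' 0 - e 0 * e' 2,
      e 0 * e' 1 - e 1 * e' 0] : Fin 3 → k) F ≠ 0) (n m : ℕ) :
    ∀ {a b : MvPolynomial (Fin 3) k}, F ∣ lf e ^ m * b - lf e' ^ n * a →
      ∃ α, F ∣ a - lf e ^ m * α := by
  have hp : e 0 * (e' 1 * r 2 - e' 2 * r 1) + e 1 * (e' 2 * r 0 - e' 0 * r 2) +
      e 2 * (e' 0 * r 1 - e' 1 * r 0) = 1 := by
    linear_combination hr
  have hs0 : lf e ≠ 0 := by
    intro h0
    have h1 := divLine_lf (A := k) e
      ![e' 1 * r 2 - e' 2 * r 1, e' 2 * r 0 - e' 0 * r 2, e' 0 * r 1 - e' 1 * r 0]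
    rw [h0, map_zero] at h1
    simp only [Algebra.algebraMap_self, RingHom.id_apply, Matrix.cons_val_zero,
      Matrix.cons_val_one, Matrix.cons_val] at h1
    rw [hp] at h1
    exact one_ne_zero h1.symm
  have hsF : ¬ lf e ∣ F := by
    rintro ⟨q, hq⟩
    apply hF
    rw [hq, map_mul, divLine_lf]
    simp only [Algebra.algebraMap_self, RingHom.id_apply, Matrix.cons_val_zero,
      Matrix.cons_val_one, Matrix.cons_val]
    ring
  induction m with
  | zero =>
    intro a b _
    exact ⟨a, by rw [pow_zero, one_mul, sub_self]; exact dvd_zero _⟩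
  | succ m ih =>
    intro a b h
    obtain ⟨c, hc⟩ := h
    have h1 : lf e' ^ n * a = F * (-c) + lf e * (lf e ^ m * b) := by
      linear_combination (-1 : MvPolynomial (Fin 3) k) * hc
    obtain ⟨g, a₁, ha₁⟩ := divLine_steps hr hF n h1
    have h2 : lf e * (lf e ^ m * b - lf e' ^ n * a₁) = F * (c + lf e' ^ n * g) := by
      linear_combination hc + lf e' ^ n * ha₁
    have h3 : lf e ∣ F * (c + lf e' ^ n * g) := ⟨_, h2.symm⟩
    have h4 : lf e ∣ c + lf e' ^ n * g := by
      have hp' : e 0 * (![e' 1 * r 2 - e' 2 * r 1, e' 2 * r 0 - e' 0 * r 2,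
          e' 0 * r 1 - e' 1 * r 0] : Fin 3 → k) 0 +
          e 1 * (![e' 1 * r 2 - e' 2 * r 1, e' 2 * r 0 - e' 0 * r 2,
          e' 0 * r 1 - e' 1 * r 0] : Fin 3 → k) 1 +
          e 2 * (![e' 1 * r 2 - e' 2 * r 1, e' 2 * r 0 - e' 0 * r 2,
          e' 0 * r 1 - e' 1 * r 0] : Fin 3 → k) 2 = 1 := by
        simp only [Matrix.cons_val_zero, Matrix.cons_val_one, Matrix.cons_val]
        exact hp
      exact (divLine_prime hp' h3).resolve_left hsF
    obtain ⟨c', hc'⟩ := h4
    rw [hc'] at h2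
    have h5 : lf e ^ m * b - lf e' ^ n * a₁ = F * c' := by
      apply mul_left_cancel₀ hs0
      linear_combination h2
    obtain ⟨α, hα⟩ := ih ⟨c', h5⟩
    refine ⟨α, ?_⟩
    have h6 : a - lf e ^ (m + 1) * α = F * g + lf e * (a₁ - lf e ^ m * α) := by
      linear_combination ha₁
    rw [h6]
    exact dvd_add (dvd_mul_right _ _) (Dvd.dvd.mul_left hα _)

/-- components of a product with a homogeneous polynomial -/
private theorem divLine_comp_mul {p h : MvPolynomial (Fin 3) k} {e : ℕ} (hh : h.IsHomogeneous e)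
    (l : ℕ) : MvPolynomial.homogeneousComponent (l + e) (p * h) =
      MvPolynomial.homogeneousComponent l p * h := by
  classical
  conv_lhs => rw [← MvPolynomial.sum_homogeneousComponent p, Finset.sum_mul, map_sum]
  have h1 : ∀ i ∈ Finset.range (p.totalDegree + 1),
      MvPolynomial.homogeneousComponent (l + e) (MvPolynomial.homogeneousComponent i p * h) =
        if l = i then MvPolynomial.homogeneousComponent l p * h else 0 := by
    intro i _
    have h2 : (MvPolynomial.homogeneousComponent i p * h).IsHomogeneous (i + e) :=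
      (MvPolynomial.homogeneousComponent_isHomogeneous i p).mul hh
    rw [MvPolynomial.homogeneousComponent_of_mem h2]
    by_cases hk : l = i
    · subst hk; simp
    · rw [if_neg (by omega), if_neg hk]
  rw [Finset.sum_congr rfl h1, Finset.sum_ite_eq]
  split_ifs with hmem
  · rfl
  · have : p.totalDegree < l := by
      simp only [Finset.mem_range] at hmem
      omega
    rw [MvPolynomial.homogeneousComponent_eq_zero l p this, zero_mul]

attribute [local instance] MvPolynomial.gradedAlgebra in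
private theorem divLine_comp_dvd {f p : MvPolynomial (Fin 3) k} {e : ℕ} (hf : f.IsHomogeneous e)
    (h : f ∣ p) (l : ℕ) : f ∣ MvPolynomial.homogeneousComponent l p := by
  rw [← Ideal.mem_span_singleton] at h ⊢
  refine MvPolynomial.homogeneousComponent_mem_of_mem ?_ h l
  refine Ideal.homogeneous_span _ _ ?_
  intro x hx
  rw [Set.mem_singleton_iff] at hx
  subst hx
  exact ⟨e, hf⟩

variable [IsAlgClosed k] [CharZero k]

/-- Let `s = lf e`, `t = lf e'` be linear forms such that the common zero `o` of `s` and `t` is not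
on the curve. After a linear change of coordinates `k[x] = k[s, t, z]` and `F` is monic in `z` up to
a constant, so `k[x] / (F)` is a free `k[s, t]`-module (division with remainder), on which
`s ^ m ∣ t ^ m a` implies `s ^ m ∣ a`. (Or: `S = k[x] / (F)` is a domain and
`S / (s)` has the nonzerodivisor `t`, because `F` restricted to the line `s = 0` is a binary form
which is not divisible by the variable `t`; use induction over `m`.) -/
theorem exists_div (hF : F.IsHomogeneous 6) (hns : NonSing F) {e e' : Fin 3 → k}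
    (ho : ∀ x : Fin 3 → k, MvPolynomial.aeval x (lf e) = 0 → MvPolynomial.aeval x (lf e') = 0 →
      MvPolynomial.aeval x F = 0 → x = 0)
    {m d : ℕ} {a b : MvPolynomial (Fin 3) k} (ha : a.IsHomogeneous (m + d))
    (h : F ∣ lf e ^ m * b - lf e' ^ m * a) :
    ∃ α : MvPolynomial (Fin 3) k, α.IsHomogeneous d ∧ F ∣ a - lf e ^ m * α := by
  set o : Fin 3 → k := ![e 1 * e' 2 - e 2 * e' 1, e 2 * e' 0 - e 0 * e' 2,
      e 0 * e' 1 - e 1 * e' 0] with hodef
  have hev : ∀ (f x : Fin 3 → k), MvPolynomial.aeval x (lf f) =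
      f 0 * x 0 + f 1 * x 1 + f 2 * x 2 := by
    intro f x
    rw [divLine_lf]
    simp only [Algebra.algebraMap_self, RingHom.id_apply]
  have ho0 : o 0 = e 1 * e' 2 - e 2 * e' 1 := rfl
  have ho1 : o 1 = e 2 * e' 0 - e 0 * e' 2 := rfl
  have ho2 : o 2 = e 0 * e' 1 - e 1 * e' 0 := rfl
  -- the linear forms are independent
  have hone : o ≠ 0 := by
    intro h0
    have h00 : e 1 * e' 2 - e 2 * e' 1 = 0 := by rw [← ho0, h0]; rfl
    have h01 : e 2 * e' 0 - e 0 * e' 2 = 0 := by rw [← ho1, h0]; rfl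
    have h02 : e 0 * e' 1 - e 1 * e' 0 = 0 := by rw [← ho2, h0]; rfl
    by_cases he : e = 0
    · obtain ⟨c, hc, h1, h2⟩ := exists_zero₂ (divLine_lf_hom e') hF Nat.one_pos (by norm_num)
      refine hc (ho c ?_ h1 h2)
      rw [hev, he]
      simp
    · obtain ⟨c, hc, h1, h2⟩ := exists_zero₂ (divLine_lf_hom e) hF Nat.one_pos (by norm_num)
      refine hc (ho c h1 ?_ h2)
      rw [hev] at h1 ⊢
      obtain ⟨i, hi⟩ := Function.ne_iff.mp he
      have hi' : e i ≠ 0 := hi
      apply (mul_eq_zero.mp (?_ : e i * _ = 0)).resolve_left hi'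
      fin_cases i
      · show e 0 * (e' 0 * c 0 + e' 1 * c 1 + e' 2 * c 2) = 0
        linear_combination e' 0 * h1 + c 1 * h02 - c 2 * h01
      · show e 1 * (e' 0 * c 0 + e' 1 * c 1 + e' 2 * c 2) = 0
        linear_combination e' 1 * h1 - c 0 * h02 + c 2 * h00
      · show e 2 * (e' 0 * c 0 + e' 1 * c 1 + e' 2 * c 2) = 0
        linear_combination e' 2 * h1 + c 0 * h01 - c 1 * h00
  have hoF : MvPolynomial.aeval o F ≠ 0 := by
    intro h0
    refine hone (ho o ?_ ?_ h0)
    · rw [hev, ho0, ho1, ho2]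
      ring
    · rw [hev, ho0, ho1, ho2]
      ring
  obtain ⟨i, hi⟩ := Function.ne_iff.mp hone
  have hi' : o i ≠ 0 := hi
  have hex : ∃ r : Fin 3 → k, r 0 * (e 1 * e' 2 - e 2 * e' 1) + r 1 * (e 2 * e' 0 - e 0 * e' 2) +
      r 2 * (e 0 * e' 1 - e 1 * e' 0) = 1 := by
    refine ⟨Pi.single i (o i)⁻¹, ?_⟩
    rw [← ho0, ← ho1, ← ho2]
    have h1 : ∑ j, (Pi.single i (o i)⁻¹ : Fin 3 → k) j * o j = 1 := by
      rw [Finset.sum_eq_single i]
      · rw [Pi.single_eq_same, inv_mul_cancel₀ hi']
      · intro j _ hj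
        rw [Pi.single_eq_of_ne hj, zero_mul]
      · intro h
        exact absurd (Finset.mem_univ i) h
    rw [Fin.sum_univ_three] at h1
    exact h1
  obtain ⟨r, hr⟩ := hex
  obtain ⟨α, hα⟩ := divLine_pow hr hoF m m h
  refine ⟨MvPolynomial.homogeneousComponent d α,
    MvPolynomial.homogeneousComponent_isHomogeneous d α, ?_⟩
  have h1 := divLine_comp_dvd hF hα (d + m)
  rw [map_sub] at h1
  have h2 : MvPolynomial.homogeneousComponent (d + m) a = a := by
    rw [add_comm d m]
    exact MvPolynomial.homogeneousComponent_eq_self ha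
  have h3 : MvPolynomial.homogeneousComponent (d + m) (lf e ^ m * α) =
      lf e ^ m * MvPolynomial.homogeneousComponent d α := by
    have h4 : (lf e ^ m).IsHomogeneous m := by
      have := (divLine_lf_hom e).pow m
      rwa [one_mul] at this
    rw [mul_comm, divLine_comp_mul h4, mul_comm]
  rw [h2, h3] at h1
  exact h1

end Pool.Agent.Kim
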