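import Pool.Agent.Kim.PsiDef
import Pool.Agent.TInf.FamRoots

/-!
# Specialisation of the roots
-/

set_option autoImplicit false

noncomputable section

namespace Pool.Agent.Kim

open Pool.Agent.ZCyc Pool.Agent.VFP Pool.Agent.TInf

universe u

variable {k : Type u} [Field k] {F : MvPolynomial (Fin 3) k}

/-- a root of a quartic with integral coefficients and unit leading coefficient is integral -/
private theorem root_mem {v : Place k (Om k)} {g : ℕ → Om k} {f : ℕ → k}
    (hg : ∀ m, v.At (g m) (f m)) (h6 : f 6 ≠ 0) {r : Om k} (hr : qv g r = 0) : r ∈ v.ring := by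
  have hg6 : g 6 ≠ 0 := by
    intro h
    have h1 := hg 6
    rw [h] at h1
    exact h6 (h1.unique (by simpa using Place.at_const (v := v) (0 : k)))
  have hm : ∀ m, g m / g 6 ∈ v.ring := fun m => ((hg m).div (hg 6) h6).mem
  set q : Polynomial v.ring := Polynomial.X ^ 4 +
    (Polynomial.C ⟨_, hm 5⟩ * Polynomial.X ^ 3 + Polynomial.C ⟨_, hm 4⟩ * Polynomial.X ^ 2 +
      Polynomial.C ⟨_, hm 3⟩ * Polynomial.X + Polynomial.C ⟨_, hm 2⟩) with hq
  have hmon : q.Monic := by
    rw [hq]
    apply Polynomial.monic_X_pow_add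
    refine lt_of_le_of_lt (Polynomial.degree_add_le _ _) (max_lt ?_ ?_)
    · refine lt_of_le_of_lt (Polynomial.degree_add_le _ _) (max_lt ?_ ?_)
      · refine lt_of_le_of_lt (Polynomial.degree_add_le _ _) (max_lt ?_ ?_)
        · exact lt_of_le_of_lt (Polynomial.degree_C_mul_X_pow_le 3 _) (by norm_num)
        · exact lt_of_le_of_lt (Polynomial.degree_C_mul_X_pow_le 2 _) (by norm_num)
      · exact lt_of_le_of_lt (Polynomial.degree_C_mul_X_le _) (by norm_num)
    · exact lt_of_le_of_lt Polynomial.degree_C_le (by norm_num)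
  have hint : IsIntegral v.ring r := by
    refine ⟨q, hmon, ?_⟩
    have h2 : Polynomial.eval₂ v.ring.subtype r q = 0 := by
      rw [hq]
      simp only [Polynomial.eval₂_add, Polynomial.eval₂_mul, Polynomial.eval₂_pow,
        Polynomial.eval₂_X, Polynomial.eval₂_C]
      show r ^ 4 + (g 5 / g 6 * r ^ 3 + g 4 / g 6 * r ^ 2 + g 3 / g 6 * r + g 2 / g 6) = 0
      unfold qv at hr
      have h3 : r ^ 4 + (g 5 / g 6 * r ^ 3 + g 4 / g 6 * r ^ 2 + g 3 / g 6 * r + g 2 / g 6) =
          (g 2 + g 3 * r + g 4 * r ^ 2 + g 5 * r ^ 3 + g 6 * r ^ 4) / g 6 := by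
        field_simp
        ring
      rw [h3, hr, zero_div]
    exact h2
  obtain ⟨y, hy⟩ := IsIntegrallyClosed.isIntegral_iff.1 hint
  rw [← hy]
  exact y.2

/-- The roots of the quartics: the roots of `q_S` specialise to the roots of `q_s`. -/
theorem roots_val [IsAlgClosed k] [CharZero k] {e : Fin 3 → k} {v : Place k (Om k)}
    {S : Fin 3 → Om k} {s : Fin 3 → k} (hs : ∀ a, v.At (S a) (s a))
    (h6 : fc F e s 6 ≠ 0) {ρ' : Fin 4 → Om k} {ρ : Fin 4 → k} (h' : Roots (fc F e S) ρ')
    (h : Roots (fc F e s) ρ) :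
    ∃ σ : Equiv.Perm (Fin 4), ∀ i, v.At (ρ' i) (ρ (σ i)) := by
  have hg : ∀ m, v.At (fc F e S m) (fc F e s m) := fun m => at_mv hs _
  have hmem : ∀ i, ρ' i ∈ v.ring := by
    intro i
    refine root_mem hg h6 ?_
    rw [h'.eq, Finset.prod_eq_zero (Finset.mem_univ i) (sub_self _), mul_zero]
  choose s' hs' using fun i => DCI57.exists_at v (hmem i)
  have hinf : Infinite k := IsAlgClosed.instInfinite
  have hprod : ∏ i, (Polynomial.X - Polynomial.C (ρ i)) =
      ∏ i, (Polynomial.X - Polynomial.C (s' i)) := by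
    refine Polynomial.funext fun c => ?_
    have h1 := h'.eq (algebraMap k (Om k) c)
    have h2 : v.At (fc F e S 6 * ∏ i, (algebraMap k (Om k) c - ρ' i))
        (fc F e s 6 * ∏ i, (c - s' i)) :=
      (hg 6).mul (Place.At.prod fun i _ => (Place.at_const c).sub (hs' i))
    have h3 : v.At (qv (fc F e S) (algebraMap k (Om k) c)) (qv (fc F e s) c) := by
      unfold qv
      exact (((((hg 2).add ((hg 3).mul (Place.at_const c))).add
        ((hg 4).mul ((Place.at_const c).pow 2))).add
        ((hg 5).mul ((Place.at_const c).pow 3))).add ((hg 6).mul ((Place.at_const c).pow 4)))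
    rw [h1] at h3
    have h4 := h3.unique h2
    rw [h.eq] at h4
    have h5 := mul_left_cancel₀ h6 h4
    rw [Polynomial.eval_prod, Polynomial.eval_prod]
    simpa using h5
  obtain ⟨π, hπ⟩ := perm_of_prod hprod
  refine ⟨π, fun i => ?_⟩
  have := hs' i
  rw [hπ] at this
  exact this

end Pool.Agent.Kim
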