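import Pool.Agent.Kim.PsiOn
import Pool.Agent.Kim.PsiVal
import Pool.Agent.Kim.RootsA
import Pool.Agent.Kim.RootsV
import Pool.Agent.Kim.DiscLine
import Pool.Agent.Kim.BasicV

/-!
# The system of classes of the double plane
-/

set_option autoImplicit false

noncomputable section

namespace Pool.Agent.Kim

open Pool.Agent.ZCyc Pool.Agent.VFP Pool.Agent.TInf

universe u

variable {k : Type u} [Field k] {F α B : MvPolynomial (Fin 3) k} {e δ : Fin 3 → k} {n : ℕ}

/-- the excluded points of the curve -/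
def Gp (F : MvPolynomial (Fin 3) k) (e : Fin 3 → k) : MvPolynomial (Fin 3) k :=
  lf e * Fc F e 6 * Dq F e

/-- the base -/
abbrev baseX (F : MvPolynomial (Fin 3) k) (e : Fin 3 → k) (α B : MvPolynomial (Fin 3) k)
    (δ : Fin 3 → k) : Base k 1 :=
  baseC F (Gp F e) (fun _ => α) (fun _ => B) δ

theorem cpt_props {K : Type*} [Field K] [Algebra k K] (c : CPt F (Gp F e) K) :
    MvPolynomial.aeval c.1 (lf e) ≠ 0 ∧ fc F e c.1 6 ≠ 0 ∧
      4 * invI (fc F e c.1) ^ 3 - invJ (fc F e c.1) ^ 2 ≠ 0 ∧ c.1 ≠ 0 := by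
  have h := c.2.2
  unfold Gp at h
  rw [map_mul, map_mul, mul_ne_zero_iff, mul_ne_zero_iff] at h
  obtain ⟨⟨h1, h2⟩, h3⟩ := h
  refine ⟨h1, h2, ?_, ?_⟩
  · have h4 : MvPolynomial.aeval c.1 (Dq F e) =
        4 * invI (fc F e c.1) ^ 3 - invJ (fc F e c.1) ^ 2 := by
      unfold Dq Iq Jq invI invJ fc
      simp only [map_sub, map_mul, map_pow, map_add, map_ofNat]
    rwa [h4] at h3
  · intro h0
    apply h1
    rw [h0]
    unfold lf
    simp

theorem exists_rt {K : Type*} [Field K] [Algebra k K] [IsAlgClosed K] [CharZero K]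
    (c : CPt F (Gp F e) K) : ∃ ρ : Fin 4 → K, Roots (fc F e c.1) ρ :=
  exists_roots (cpt_props c).2.1 (cpt_props c).2.2.1

/-- the roots of the quartic `q_c` -/
def rt {K : Type*} [Field K] [Algebra k K] [IsAlgClosed K] [CharZero K]
    (c : CPt F (Gp F e) K) : Fin 4 → K :=
  (exists_rt c).choose

/-- the tuple of points of `X` for the choice `W` of roots -/
def tup {K : Type*} [Field K] [Algebra k K] [IsAlgClosed K] [CharZero K]
    (s : Fin n → CPt F (Gp F e) K) (W : Fin n → Fin 4) (p : Fin n → EPt K) (j : Fin n) : Pt K :=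
  psi F e (s j).1 (rt (s j) (W j)) (p j)

private theorem rt_roots {K : Type*} [Field K] [Algebra k K] [IsAlgClosed K] [CharZero K]
    (c : CPt F (Gp F e) K) : Roots (fc F e c.1) (rt c) :=
  (exists_rt c).choose_spec

variable [IsAlgClosed k] [CharZero k]

private theorem tup_on (hF : F.IsHomogeneous 6) (hns : NonSing F) (hm : MinModel F α B)
    {K : Type*} [Field K] [Algebra k K] [IsAlgClosed K] [CharZero K]
    (s : Fin n → CPt F (Gp F e) K) (W : Fin n → Fin 4) (p : Fin n → EPt K) (j : Fin n)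
    (hp : EOn (MvPolynomial.aeval (s j).1 α) (MvPolynomial.aeval (s j).1 B) (p j)) :
    OnX F (tup s W p j) := by
  obtain ⟨h1, h2, h3, h4⟩ := cpt_props (s j)
  exact psi_on hF hm (s j).2.1 h1 (grad_ne hns h4) ((rt_roots (s j)).zero _)
    ((rt_roots (s j)).der_ne h2 _) hp

open Classical in
/-- the class of a tuple: the sum over all choices of roots -/
def FX (F : MvPolynomial (Fin 3) k) (e : Fin 3 → k) (α B : MvPolynomial (Fin 3) k)
    (δ : Fin 3 → k) (s : Fin n → (baseX F e α B δ).P0) (p : Fin 1 → Fin n → EPt k) : VX F n :=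
  if On0 (baseX F e α B δ) s p then ∑ W : Fin n → Fin 4, AX F (tup (F := F) (e := e) s W (p 0))
  else 0

/-- the tuple over `Om k` has values with the class `C` -/
def ValX (F : MvPolynomial (Fin 3) k) (e : Fin 3 → k) (α B : MvPolynomial (Fin 3) k)
    (δ : Fin 3 → k) (v : Place k (Om k)) (S : Fin n → (baseX F e α B δ).P1)
    (P : Fin 1 → Fin n → EPt (Om k)) (C : VX F n) : Prop :=
  ∃ D : (Fin n → Fin 4) → VX F n,
    (∀ W, VAX F v (tup (F := F) (e := e) S W (P 0)) (D W)) ∧ ∑ W, D W = C

omit [IsAlgClosed k] [CharZero k] in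
private theorem at_zero_eq {v : Place k (Om k)} {a : k} (h : v.At (0 : Om k) a) : a = 0 := by
  have h1 : v.At (0 : Om k) (0 : k) := by
    have := Place.at_const (v := v) (0 : k)
    rwa [map_zero] at this
  exact h.unique h1

/-- a value of a tuple whose point with the index `j` has `y = 0` at `v` -/
private theorem vax_zero (hF : F.IsHomogeneous 6) {v : Place k (Om k)} {Q : Fin n → Pt (Om k)}
    (hQ : ∀ j, OnX F (Q j)) {j : Fin n} {q : Pt k} (hq : OnX F q) (hv : IsVal v (Q j) q)
    (h : ∀ w : Fin n → Pt k, (∀ i, OnX F (w i)) → w j = q → AX F w = 0) :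
    VAX F v Q (0 : VX F n) := by
  choose p hp1 hp2 using fun i => exists_isVal hF v (hQ i)
  refine ⟨Function.update p j q, ?_, ?_, ?_⟩
  · intro i
    by_cases hi : i = j
    · subst hi
      rw [Function.update_self]
      exact hq
    · rw [Function.update_of_ne hi]
      exact hp1 i
  · intro i
    by_cases hi : i = j
    · subst hi
      rw [Function.update_self]
      exact hv
    · rw [Function.update_of_ne hi]
      exact hp2 i
  · apply h
    · intro i
      by_cases hi : i = j
      · subst hi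
        rw [Function.update_self]
        exact hq
      · rw [Function.update_of_ne hi]
        exact hp1 i
    · rw [Function.update_self]

private theorem fx_perm (s : Fin n → (baseX F e α B δ).P0) (p : Fin 1 → Fin n → EPt k)
    (π : Equiv.Perm (Fin n)) :
    FX F e α B δ (s ∘ π) (fun i => p i ∘ π) =
      (((Equiv.Perm.sign π : ℤˣ) : ℤ) ^ 1) • FX F e α B δ s p := by
  have h1 : On0 (baseX F e α B δ) (s ∘ π) (fun i => p i ∘ π) ↔ On0 (baseX F e α B δ) s p := by
    constructor
    · intro h i j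
      have := h i (π.symm j)
      simpa [Base.av, Base.bv] using this
    · intro h i j
      exact h i (π j)
  unfold FX
  by_cases h : On0 (baseX F e α B δ) s p
  · rw [if_pos h, if_pos (h1.2 h), pow_one, Finset.smul_sum]
    refine Fintype.sum_equiv (Equiv.arrowCongr π (Equiv.refl (Fin 4))) _ _ fun W => ?_
    have h2 : tup (F := F) (e := e) (s ∘ π) W (p 0 ∘ π) =
        tup (F := F) (e := e) s (Equiv.arrowCongr π (Equiv.refl (Fin 4)) W) (p 0) ∘ π := by
      funext j
      simp [tup, Equiv.arrowCongr]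
    show AX F (tup (F := F) (e := e) (s ∘ π) W (p 0 ∘ π)) = _
    refine (congrArg (AX F) h2).trans ?_
    rw [AX_perm, ← Int.cast_smul_eq_zsmul ℚ]
  · rw [if_neg h, if_neg fun h2 => h (h1.1 h2), smul_zero]

private theorem fx_odd (s : Fin n → (baseX F e α B δ).P0) (p : Fin 1 → Fin n → EPt k)
    (i : Fin 1) (j : Fin n) (x y : k) (hp : p i j = some (x, y)) :
    FX F e α B δ s (Function.update p i (Function.update (p i) j (some (x, -y)))) =
      -FX F e α B δ s p := by
  obtain rfl : i = 0 := Subsingleton.elim _ _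
  have h1 : On0 (baseX F e α B δ) s
      (Function.update p 0 (Function.update (p 0) j (some (x, -y)))) ↔
      On0 (baseX F e α B δ) s p := by
    have h2 : ∀ i' j', EOn ((baseX F e α B δ).av i' s j') ((baseX F e α B δ).bv i' s j')
        (Function.update p 0 (Function.update (p 0) j (some (x, -y))) i' j') ↔
        EOn ((baseX F e α B δ).av i' s j') ((baseX F e α B δ).bv i' s j') (p i' j') := by
      intro i' j'
      obtain rfl : i' = 0 := Subsingleton.elim _ _
      rw [Function.update_self]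
      by_cases hj : j' = j
      · subst hj
        rw [Function.update_self, hp]
        show (-y) ^ 2 = _ ↔ y ^ 2 = _
        rw [neg_sq]
      · rw [Function.update_of_ne hj]
    exact forall_congr' fun i' => forall_congr' fun j' => h2 i' j'
  unfold FX
  by_cases h : On0 (baseX F e α B δ) s p
  · rw [if_pos h, if_pos (h1.2 h), ← Finset.sum_neg_distrib]
    refine Finset.sum_congr rfl fun W _ => ?_
    have h2 : tup (F := F) (e := e) s W
        (Function.update p 0 (Function.update (p 0) j (some (x, -y))) 0) =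
        Function.update (tup (F := F) (e := e) s W (p 0)) j
          ((tup (F := F) (e := e) s W (p 0) j).sg (-1)) := by
      rw [Function.update_self]
      funext j'
      by_cases hj : j' = j
      · subst hj
        rw [Function.update_self]
        unfold tup
        rw [Function.update_self, hp, psi_neg]
      · rw [Function.update_of_ne hj]
        unfold tup
        rw [Function.update_of_ne hj]
    rw [h2, AX_neg]
  · rw [if_neg h, if_neg fun h2 => h (h1.1 h2), neg_zero]

private theorem fx_inf (s : Fin n → (baseX F e α B δ).P0) (p : Fin 1 → Fin n → EPt k)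
    (i : Fin 1) (j : Fin n) (hp : p i j = none) : FX F e α B δ s p = 0 := by
  obtain rfl : i = 0 := Subsingleton.elim _ _
  unfold FX
  by_cases h : On0 (baseX F e α B δ) s p
  · rw [if_pos h]
    refine Finset.sum_eq_zero fun W _ => ?_
    apply AX_y (j := j)
    unfold tup
    rw [hp]
    rfl
  · rw [if_neg h]

private theorem valx_fin (hF : F.IsHomogeneous 6) (hns : NonSing F) (hm : MinModel F α B)
    (v : Place k (Om k)) (S : Fin n → (baseX F e α B δ).P1) (P : Fin 1 → Fin n → EPt (Om k))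
    (hP : On1 (baseX F e α B δ) S P) (s : Fin n → (baseX F e α B δ).P0)
    (p : Fin 1 → Fin n → EPt k) (hs : ∀ j, (baseX F e α B δ).To v (S j) (s j))
    (hv : ∀ i j, EVal v (P i j) (p i j)) :
    ValX F e α B δ v S P (FX F e α B δ s p) := by
  have h0 : On0 (baseX F e α B δ) s p := fun i j =>
    evalue_on ((baseX F e α B δ).to_a (hs j) i) ((baseX F e α B δ).to_b (hs j) i) (hP i j)
      (hv i j)
  unfold FX
  rw [if_pos h0]
  choose σ hσ using fun j => roots_val (hs j) (cpt_props (s j)).2.1 (rt_roots (S j))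
    (rt_roots (s j))
  refine ⟨fun W => AX F (tup (F := F) (e := e) s (fun j => σ j (W j)) (p 0)), fun W => ?_, ?_⟩
  · refine ⟨_, fun j => tup_on hF hns hm _ _ _ _ (h0 0 j), fun j => ?_, rfl⟩
    exact psi_val (hs j) (cpt_props (s j)).1 (hσ j (W j)) (hP 0 j) (hv 0 j)
  · exact Fintype.sum_equiv (Equiv.piCongrRight σ) _ _ fun W => rfl

private theorem valx_pole (hF : F.IsHomogeneous 6) (hns : NonSing F) (hm : MinModel F α B)
    (v : Place k (Om k)) (S : Fin n → (baseX F e α B δ).P1) (P : Fin 1 → Fin n → EPt (Om k))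
    (hP : On1 (baseX F e α B δ) S P) (i : Fin 1) (j : Fin n) (c : (baseX F e α B δ).P0)
    (hc : (baseX F e α B δ).To v (S j) c) (hv : EVal v (P i j) none) :
    ValX F e α B δ v S P (0 : VX F n) := by
  obtain rfl : i = 0 := Subsingleton.elim _ _
  obtain ⟨σ, hσ⟩ := roots_val hc (cpt_props c).2.1 (rt_roots (S j)) (rt_roots c)
  refine ⟨fun _ => 0, fun W => ?_, Finset.sum_const_zero⟩
  obtain ⟨h1, h2, h3, h4⟩ := cpt_props c
  refine vax_zero hF (fun j' => tup_on hF hns hm _ _ _ _ (hP 0 j')) (j := j)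
    (q := psi F e c.1 (rt c (σ (W j))) none) ?_ ?_ ?_
  · exact psi_on hF hm c.2.1 h1 (grad_ne hns h4) ((rt_roots c).zero _)
      ((rt_roots c).der_ne h2 _) trivial
  · exact psi_val hc h1 (hσ (W j)) (hP 0 j) hv
  · intro w _ hwj
    apply AX_y (j := j)
    rw [hwj]
    rfl

omit [IsAlgClosed k] [CharZero k] in
private theorem aeval_hom {K : Type*} [Field K] [Algebra k K] {G : MvPolynomial (Fin 3) k} {m : ℕ}
    (hG : G.IsHomogeneous m) (l : K) (c : Fin 3 → K) :
    MvPolynomial.aeval (fun a => l * c a) G = l ^ m * MvPolynomial.aeval c G := by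
  rw [MvPolynomial.aeval_def, MvPolynomial.aeval_def, MvPolynomial.eval₂_eq',
    MvPolynomial.eval₂_eq', Finset.mul_sum]
  refine Finset.sum_congr rfl fun d hd => ?_
  have h1 := hG (MvPolynomial.mem_support_iff.1 hd)
  have h2 : ∑ i, d i = m := by
    rw [← h1, Finsupp.weight_apply, Finsupp.sum_fintype _ _ (by simp)]
    simp
  have h3 : ∏ i, (l * c i) ^ d i = l ^ m * ∏ i, c i ^ d i := by
    rw [← h2, ← Finset.prod_pow_eq_pow_sum, ← Finset.prod_mul_distrib]
    exact Finset.prod_congr rfl fun i _ => mul_pow _ _ _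
  rw [h3]
  ring

omit [IsAlgClosed k] [CharZero k] in
/-- the specialisation of the equation of the tangent line -/
private theorem tangent_val (hF : F.IsHomogeneous 6) {v : Place k (Om k)} {c : Fin 3 → Om k}
    {l : Om k} (hl : ∀ a, v.At (l * c a) (δ a)) {P : Pt (Om k)} {p : Pt k} (h : IsVal v P p)
    (ht : ∑ i, grad F c i * P.x i = 0) : ∑ i, grad F δ i * p.x i = 0 := by
  obtain ⟨c', h1, -⟩ := h
  have h2 : ∀ i, v.At (grad F (fun a => l * c a) i) (grad F δ i) := fun i => at_mv hl _
  have h3 : ∀ i, grad F (fun a => l * c a) i = l ^ 5 * grad F c i := by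
    intro i
    have h4 : (MvPolynomial.pderiv i F).IsHomogeneous 5 := hF.pderiv
    exact aeval_hom h4 l c
  have h5 : v.At (∑ i, grad F (fun a => l * c a) i * (P.scale c').x i)
      (∑ i, grad F δ i * p.x i) := by
    rw [Fin.sum_univ_three, Fin.sum_univ_three]
    exact (((h2 0).mul (h1 0)).add ((h2 1).mul (h1 1))).add ((h2 2).mul (h1 2))
  have h6 : ∑ i, grad F (fun a => l * c a) i * (P.scale c').x i = 0 := by
    have h7 : ∀ i, grad F (fun a => l * c a) i * (P.scale c').x i =
        l ^ 5 * c' * (grad F c i * P.x i) := by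
      intro i
      rw [h3 i]
      show l ^ 5 * grad F c i * (c' * P.x i) = _
      ring
    rw [Finset.sum_congr rfl fun i _ => h7 i, ← Finset.mul_sum, ht, mul_zero]
  rw [h6] at h5
  exact at_zero_eq h5

private theorem valx_sing (hF : F.IsHomogeneous 6) (hns : NonSing F) (hm : MinModel F α B)
    (hδ0 : δ ≠ 0) (hδF : MvPolynomial.aeval δ F = 0) (hδe : MvPolynomial.aeval δ (lf e) ≠ 0)
    (hδ : MvPolynomial.aeval δ B ^ 2 = 4 * MvPolynomial.aeval δ α ^ 3)
    (v : Place k (Om k)) (S : Fin n → (baseX F e α B δ).P1) (P : Fin 1 → Fin n → EPt (Om k))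
    (hP : On1 (baseX F e α B δ) S P) (j : Fin n) (hE : (baseX F e α B δ).End v (S j)) :
    ValX F e α B δ v S P (0 : VX F n) := by
  obtain ⟨l, hl⟩ := hE
  refine ⟨fun _ => 0, fun W => ?_, Finset.sum_const_zero⟩
  have hon : ∀ j', OnX F (tup (F := F) (e := e) S W (P 0) j') := fun j' =>
    tup_on hF hns hm _ _ _ _ (hP 0 j')
  obtain ⟨q, hq1, hq2⟩ := exists_isVal hF v (hon j)
  refine vax_zero hF hon hq1 hq2 fun w hw hwj => ?_
  have ht : ∑ i, grad F (S j).1 i * (tup (F := F) (e := e) S W (P 0) j).x i = 0 :=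
    psi_tangent hF (S j).2.1 _ _
  have h1 := tangent_val hF hl hq2 ht
  have hg : grad F δ ≠ 0 := grad_ne hns hδ0
  obtain ⟨u, v', huv⟩ := exists_uv (e := e) hF hδF hδe hg h1
  refine AX_ratLine hF (ratLine_of_disc hF hm hδF hδe hg hδ) hw (j := j) (u := u) (v := v') ?_
  intro i
  rw [hwj]
  exact huv i

private theorem valx_bridge (hF : F.IsHomogeneous 6) (hns : NonSing F) (hm : MinModel F α B)
    {I : Type} [Fintype I] (w : I → ℚ) (S : I → Fin n → (baseX F e α B δ).P1)
    (P : I → Fin 1 → Fin n → EPt (Om k)) (hP : ∀ x, On1 (baseX F e α B δ) (S x) (P x))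
    (c₀ c₁ : k) (C₀ C₁ : VX F n)
    (h₀ : ∀ v : Place k (Om k), v.At (tt k) c₀ → ∃ C : I → VX F n,
      (∀ x, ValX F e α B δ v (S x) (P x) (C x)) ∧ ∑ x, w x • C x = C₀)
    (h₁ : ∀ v : Place k (Om k), v.At (tt k) c₁ → ∃ C : I → VX F n,
      (∀ x, ValX F e α B δ v (S x) (P x) (C x)) ∧ ∑ x, w x • C x = C₁) : C₀ = C₁ := by
  have key : ∀ (c : k) (C' : VX F n), (∀ v : Place k (Om k), v.At (tt k) c → ∃ C : I → VX F n,
      (∀ x, ValX F e α B δ v (S x) (P x) (C x)) ∧ ∑ x, w x • C x = C') →
      ∀ v : Place k (Om k), v.At (tt k) c → ∃ C : I × (Fin n → Fin 4) → VX F n,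
      (∀ x, VAX F v (tup (F := F) (e := e) (S x.1) x.2 (P x.1 0)) (C x)) ∧
        ∑ x, w x.1 • C x = C' := by
    intro c C' h v hv
    obtain ⟨C, hC1, hC2⟩ := h v hv
    choose D hD1 hD2 using hC1
    refine ⟨fun x => D x.1 x.2, fun x => hD1 x.1 x.2, ?_⟩
    rw [Fintype.sum_prod_type, ← hC2]
    refine Finset.sum_congr rfl fun x _ => ?_
    show ∑ W, w x • D x W = _
    rw [← Finset.smul_sum, hD2]
  exact bridgeAX (fun x : I × (Fin n → Fin 4) => w x.1)
    (fun x => tup (F := F) (e := e) (S x.1) x.2 (P x.1 0))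
    (fun x j => tup_on hF hns hm _ _ _ _ (hP x.1 0 j)) c₀ c₁ C₀ C₁ (key c₀ C₀ h₀) (key c₁ C₁ h₁)

/-- `perm`: `AX_perm` and reindexing of `W`; `odd`: `psi_neg`, `AX_neg`; `inf`: `psi .. none` has `y = 0`,
`AX_y`; `fin`: `psi_val`, `roots_val` (the permutations of the roots permute the choices `W`); `pole`: values
exist by `exists_isVal`, and at `j` the value can be taken to be `psi .. none` (`psi_val` with `p = none`);
`sing`: values exist; `∑ grad F(S_j) x = 0` (`psi_tangent`) specialises to `∑ grad F(δ) x = 0` (multiply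
`S_j` with `l`; `grad F(l S_j) = l ^ 5 grad F(S_j)`), `exists_uv`, `ratLine_of_disc`, `AX_ratLine`;
`bridge`: `bridgeAX` with the index type `I × (Fin n → Fin 4)`. -/
def sysX (hF : F.IsHomogeneous 6) (hns : NonSing F) (hm : MinModel F α B) (hδ0 : δ ≠ 0)
    (hδF : MvPolynomial.aeval δ F = 0) (hδe : MvPolynomial.aeval δ (lf e) ≠ 0)
    (hδ : MvPolynomial.aeval δ B ^ 2 = 4 * MvPolynomial.aeval δ α ^ 3) :
    BSys (baseX F e α B δ) n (VX F n) where
  F := FX F e α B δ
  Val := ValX F e α B δ
  perm := fx_perm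
  odd := fx_odd
  inf := fx_inf
  off := by
    intro s p h
    unfold FX
    rw [if_neg h]
  fin := valx_fin hF hns hm
  pole := valx_pole hF hns hm
  sing := valx_sing hF hns hm hδ0 hδF hδe hδ
  bridge := fun w S P hP => valx_bridge hF hns hm w S P hP

end Pool.Agent.Kim
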