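import Pool.Agent.Kim.Const

/-!
# Zero-cycles of degree zero, part 1
-/

set_option autoImplicit false

noncomputable section

namespace Pool.Agent.Kim

open Pool.Agent.ZCyc Pool.Agent.VFP Polynomial

universe u

variable {k : Type u} [Field k] [IsAlgClosed k] [CharZero k] {F : MvPolynomial (Fin 3) k} {n : ℕ}

/-- the class of the exterior product is a sum over tuples of points -/
theorem mk_extProd (z : Fin n → Pt k →₀ ℚ) :
    (Submodule.Quotient.mk (extProd z) : VX F n) =
      ∑ w ∈ Fintype.piFinset fun i => (z i).support, (∏ i, z i (w i)) • cX F w := by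
  have h : (Submodule.Quotient.mk (extProd z) : VX F n) = (ratEq F n).mkQ (extProd z) := rfl
  rw [h, extProd, map_sum]
  refine Finset.sum_congr rfl fun w _ => ?_
  rw [← mul_one (∏ i, z i (w i)), ← smul_eq_mul, ← Finsupp.smul_single, map_smul, smul_eq_mul,
    mul_one]
  rfl

/-- A sum over tuples, grouped by the components different from the `j`-th. -/
private theorem sum_group {α M : Type*} [DecidableEq α] [AddCommMonoid M] {s : Fin n → Finset α}
    (j : Fin n) (f : (Fin n → α) → M)
    (H : ∀ w ∈ Fintype.piFinset s, ∑ a ∈ s j, f (Function.update w j a) = 0) :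
    ∑ w ∈ Fintype.piFinset s, f w = 0 := by
  classical
  by_cases hS : (Fintype.piFinset s).Nonempty
  · obtain ⟨w₀, hw₀⟩ := hS
    have hm : ∀ w ∈ Fintype.piFinset s, Function.update w j (w₀ j) ∈ Fintype.piFinset s := by
      intro w hw
      rw [Fintype.mem_piFinset] at hw hw₀ ⊢
      intro i
      by_cases hi : i = j
      · subst hi; rw [Function.update_self]; exact hw₀ i
      · rw [Function.update_of_ne hi]; exact hw i
    rw [← Finset.sum_fiberwise_of_maps_to hm]
    refine Finset.sum_eq_zero fun v hv => ?_
    by_cases hj : v j = w₀ j
    · rw [← H v hv]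
      refine Finset.sum_nbij' (fun w => w j) (fun a => Function.update v j a) ?_ ?_ ?_ ?_ ?_
      · intro w hw
        rw [Finset.mem_filter, Fintype.mem_piFinset] at hw
        exact hw.1 j
      · intro a ha
        rw [Finset.mem_filter, Fintype.mem_piFinset]
        rw [Fintype.mem_piFinset] at hv
        refine ⟨fun i => ?_, ?_⟩
        · by_cases hi : i = j
          · subst hi; rw [Function.update_self]; exact ha
          · rw [Function.update_of_ne hi]; exact hv i
        · rw [Function.update_idem, ← hj, Function.update_eq_self]
      · intro w hw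
        rw [Finset.mem_filter] at hw
        rw [← hw.2, Function.update_idem, Function.update_eq_self]
      · intro a _
        rw [Function.update_self]
      · intro w hw
        rw [Finset.mem_filter] at hw
        rw [← hw.2, Function.update_idem, Function.update_eq_self]
    · refine Finset.sum_eq_zero fun w hw => ?_
      rw [Finset.mem_filter] at hw
      exact absurd (by rw [← hw.2, Function.update_self]) hj
  · rw [Finset.not_nonempty_iff_eq_empty] at hS
    rw [hS, Finset.sum_empty]

omit [IsAlgClosed k] in
omit [CharZero k] in
private theorem sg_sg (ε : ℤˣ) (w : Pt k) : (w.sg ε).sg (-1) = w.sg (-ε) := by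
  ext
  · rfl
  · simp [Pt.sg]

/-- Changing the sign of the `j`-th point changes the sign of the class, by `cX_const` and because the
degree of `z j` is zero. (Write the sum over `w` as a sum over the `w i`, `i ≠ j`, and over `w j`.) -/
theorem sum_flip (hF : F.IsHomogeneous 6) {z : Fin n → Pt k →₀ ℚ}
    (hz : ∀ i, ∀ p ∈ (z i).support, OnX F p) (h0 : ∀ i, ((z i).sum fun _ c => c) = 0)
    (ε : Fin n → ℤˣ) (j : Fin n) :
    ∑ w ∈ Fintype.piFinset fun i => (z i).support, (∏ i, z i (w i)) •
        cX F (fun i => (w i).sg ((Function.update ε j (-ε j)) i)) =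
      -∑ w ∈ Fintype.piFinset fun i => (z i).support, (∏ i, z i (w i)) •
        cX F (fun i => (w i).sg (ε i)) := by
  classical
  rw [← add_eq_zero_iff_eq_neg, ← Finset.sum_add_distrib]
  have key : ∀ w : Fin n → Pt k, cX F (fun i => (w i).sg ((Function.update ε j (-ε j)) i)) +
      cX F (fun i => (w i).sg (ε i)) =
      cX F (Function.update (fun i => (w i).sg (ε i)) j ((w j).sg (ε j))) +
      cX F (Function.update (fun i => (w i).sg (ε i)) j (((w j).sg (ε j)).sg (-1))) := by
    intro w
    rw [add_comm]
    congr 2
    · exact (Function.update_eq_self j (fun i => (w i).sg (ε i))).symm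
    · funext i
      by_cases hi : i = j
      · subst hi
        rw [Function.update_self, Function.update_self, sg_sg]
      · rw [Function.update_of_ne hi, Function.update_of_ne hi]
  refine (Finset.sum_congr rfl fun w _ => (smul_add _ _ _).symm).trans ?_
  refine sum_group j _ ?_
  intro w hw
  rw [Fintype.mem_piFinset] at hw
  have hW : ∀ i, OnX F ((w i).sg (ε i)) := fun i => onX_sg (ε i) (hz i _ (hw i))
  have hconst : ∀ a ∈ (z j).support,
      (∏ i, z i (Function.update w j a i)) •
        (cX F (fun i => (Function.update w j a i).sg ((Function.update ε j (-ε j)) i)) +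
          cX F (fun i => (Function.update w j a i).sg (ε i))) =
      z j a • ((∏ i ∈ Finset.univ.erase j, z i (w i)) •
        (cX F (Function.update (fun i => (w i).sg (ε i)) j ((w j).sg (ε j))) +
      cX F (Function.update (fun i => (w i).sg (ε i)) j (((w j).sg (ε j)).sg (-1))))) := by
    intro a ha
    rw [key, smul_smul]
    have e1 : (fun i => (Function.update w j a i).sg (ε i)) =
        Function.update (fun i => (w i).sg (ε i)) j (a.sg (ε j)) := by
      funext i
      by_cases hi : i = j
      · subst hi
        rw [Function.update_self, Function.update_self]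
      · rw [Function.update_of_ne hi, Function.update_of_ne hi]
    rw [e1, Function.update_self, Function.update_idem, Function.update_idem,
      cX_const hF hW j (onX_sg (ε j) (hz j a ha)) (hW j)]
    congr 1
    rw [← Finset.mul_prod_erase Finset.univ _ (Finset.mem_univ j), Function.update_self]
    congr 1
    refine Finset.prod_congr rfl fun i hi => ?_
    rw [Function.update_of_ne (Finset.ne_of_mem_erase hi)]
  rw [Finset.sum_congr rfl hconst, ← Finset.sum_smul]
  have h := h0 j
  rw [Finsupp.sum] at h
  rw [h, zero_smul]

end Pool.Agent.Kim
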