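import Pool.Agent.Kim.Cov
import Pool.Agent.Kim.DivLine

/-!
# The minimal model of the family of Jacobians of the residual quartics
-/

set_option autoImplicit false

noncomputable section

namespace Pool.Agent.Kim

open Pool.Agent.ZCyc Pool.Agent.VFP

universe u

variable {k : Type u} [Field k] {F : MvPolynomial (Fin 3) k}

/-- `α` and `B` are the coefficients of the minimal model `y ² = x ³ - 3 α x + B` of the family of
elliptic curves: `9 I_e = (e · c) ⁸ α` and `- 27 J_e = (e · c) ¹² B` on the curve for all `e`. -/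
structure MinModel (F α B : MvPolynomial (Fin 3) k) : Prop where
  homα : α.IsHomogeneous 36
  homB : B.IsHomogeneous 54
  eqα : ∀ e : Fin 3 → k, F ∣ 9 * Iq F e - lf e ^ 8 * α
  eqB : ∀ e : Fin 3 → k, F ∣ -27 * Jq F e - lf e ^ 12 * B

variable [IsAlgClosed k] [CharZero k]

omit [IsAlgClosed k] [CharZero k] in
private theorem mm_lf_aeval (e x : Fin 3 → k) :
    MvPolynomial.aeval x (lf e) = e 0 * x 0 + e 1 * x 1 + e 2 * x 2 := by
  simp only [lf, Fin.sum_univ_three, map_add, map_mul, MvPolynomial.aeval_X,
    MvPolynomial.aeval_C, Algebra.algebraMap_self, RingHom.id_apply]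

omit [IsAlgClosed k] [CharZero k] in
private theorem mm_lf_hom (e : Fin 3 → k) : (lf e).IsHomogeneous 1 := by
  unfold lf
  refine MvPolynomial.IsHomogeneous.sum _ _ _ fun i _ => ?_
  have := (MvPolynomial.isHomogeneous_C (Fin 3) (e i)).mul (MvPolynomial.isHomogeneous_X k i)
  simpa using this

omit [IsAlgClosed k] [CharZero k] in
/-- two linear forms whose common zeros are the multiples of a vector `o ≠ 0` -/
private theorem mm_forms {o : Fin 3 → k} (ho : o ≠ 0) : ∃ e e' : Fin 3 → k, ∀ x : Fin 3 → k,
    MvPolynomial.aeval x (lf e) = 0 → MvPolynomial.aeval x (lf e') = 0 →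
      ∃ l : k, x = fun i => l * o i := by
  obtain ⟨a, ha⟩ := Function.ne_iff.1 ho
  simp only [mm_lf_aeval]
  have ha' : o a ≠ 0 := ha
  fin_cases a
  · refine ⟨![o 1, -o 0, 0], ![o 2, 0, -o 0], fun x h h' => ⟨x 0 / o 0, ?_⟩⟩
    simp at h h' ha'
    funext i
    fin_cases i
    · simp; field_simp
    · simp; field_simp; linear_combination -h
    · simp; field_simp; linear_combination -h'
  · refine ⟨![-o 1, o 0, 0], ![0, o 2, -o 1], fun x h h' => ⟨x 1 / o 1, ?_⟩⟩
    simp at h h' ha'
    funext i
    fin_cases i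
    · simp; field_simp; linear_combination -h
    · simp; field_simp
    · simp; field_simp; linear_combination -h'
  · refine ⟨![-o 2, 0, o 0], ![0, -o 2, o 1], fun x h h' => ⟨x 2 / o 2, ?_⟩⟩
    simp at h h' ha'
    funext i
    fin_cases i
    · simp; field_simp; linear_combination -h
    · simp; field_simp; linear_combination -h'
    · simp; field_simp

omit [IsAlgClosed k] [CharZero k] in
private theorem mm_scale {A : MvPolynomial (Fin 3) k} {m : ℕ} (hA : A.IsHomogeneous m)
    (o : Fin 3 → k) (l : k) :
    MvPolynomial.aeval (fun i => l * o i) A = l ^ m * MvPolynomial.aeval o A := by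
  rw [MvPolynomial.aeval_def, MvPolynomial.aeval_def, MvPolynomial.eval₂_eq,
    MvPolynomial.eval₂_eq, Finset.mul_sum]
  refine Finset.sum_congr rfl fun d hd => ?_
  have hdeg : ∑ i ∈ d.support, d i = m := by
    have := hA (MvPolynomial.mem_support_iff.1 hd)
    rw [Finsupp.weight_apply, Finsupp.sum] at this
    simpa using this
  simp only [mul_pow, Finset.prod_mul_distrib, Finset.prod_pow_eq_pow_sum, hdeg]
  ring

/-- Choose `e`, `e'` such that the common zero of the linear forms is not on the curve, and use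
`Iq_change`, `Jq_change`, `exists_div`. For the other `e''` cancel `lf e ^ 8` in the domain
`k[x] / (F)` (`lf e ≠ 0` has degree `1 < 6`). -/
theorem exists_minModel (hF : F.IsHomogeneous 6) (hns : NonSing F) :
    ∃ α B : MvPolynomial (Fin 3) k, MinModel F α B := by
  have hP := prime_F hF hns
  have hF0 : F ≠ 0 := hP.ne_zero
  obtain ⟨o, ho⟩ : ∃ o : Fin 3 → k, MvPolynomial.aeval o F ≠ 0 := by
    by_contra hcon
    push Not at hcon
    refine hF0 (MvPolynomial.funext fun x => ?_)
    have := hcon x
    rw [MvPolynomial.aeval_def, Algebra.algebraMap_self] at this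
    rw [map_zero]
    exact this
  have hscale : ∀ l : k, MvPolynomial.aeval (fun i => l * o i) F =
      l ^ 6 * MvPolynomial.aeval o F := mm_scale hF o
  have ho0 : o ≠ 0 := by
    rintro rfl
    have := hscale 0
    simp at this
    apply ho
    simpa using this
  obtain ⟨e, e', hee⟩ := mm_forms ho0
  have hoo : ∀ x : Fin 3 → k, MvPolynomial.aeval x (lf e) = 0 →
      MvPolynomial.aeval x (lf e') = 0 → MvPolynomial.aeval x F = 0 → x = 0 := by
    intro x hx hx' hxF
    obtain ⟨l, rfl⟩ := hee x hx hx'
    rw [hscale] at hxF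
    have hl : l = 0 := by
      rcases mul_eq_zero.1 hxF with h | h
      · exact pow_eq_zero_iff (by norm_num) |>.1 h
      · exact absurd h ho
    funext i
    simp [hl]
  have hlf : lf e ≠ 0 := by
    intro h0
    obtain ⟨c, hc0, hc1, hc2⟩ := exists_zero₂ (mm_lf_hom e') hF one_pos (by norm_num)
    exact hc0 (hoo c (by rw [h0, map_zero]) hc1 hc2)
  have hndvd : ¬ F ∣ lf e := by
    rintro ⟨q, hq⟩
    have hq0 : q ≠ 0 := by
      rintro rfl
      exact hlf (by rw [hq, mul_zero])
    have h1 := MvPolynomial.totalDegree_mul_of_isDomain hF0 hq0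
    rw [← hq, (mm_lf_hom e).totalDegree hlf, hF.totalDegree hF0] at h1
    omega
  have hcancel : ∀ (m : ℕ) (g : MvPolynomial (Fin 3) k), F ∣ lf e ^ m * g → F ∣ g := by
    intro m g h
    rcases hP.dvd_or_dvd h with h | h
    · exact absurd (hP.dvd_of_dvd_pow h) hndvd
    · exact h
  have hI := Iq_hom (F := F) (e := e) hF
  have hJ := Jq_hom (F := F) (e := e) hF
  have hI' : (9 * Iq F e).IsHomogeneous (8 + 36) := by
    have h := (MvPolynomial.isHomogeneous_C (Fin 3) (9 : k)).mul hI
    have h9 : (MvPolynomial.C (9 : k) : MvPolynomial (Fin 3) k) = 9 := map_ofNat _ _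
    rw [h9, zero_add] at h
    exact h
  have hJ' : (-27 * Jq F e).IsHomogeneous (12 + 54) := by
    have h := (MvPolynomial.isHomogeneous_C (Fin 3) (-27 : k)).mul hJ
    have h9 : (MvPolynomial.C (-27 : k) : MvPolynomial (Fin 3) k) = -27 := by
      rw [map_neg]
      exact congrArg Neg.neg (map_ofNat _ _)
    rw [h9, zero_add] at h
    exact h
  obtain ⟨α, hα, hα'⟩ := exists_div hF hns hoo (m := 8) (d := 36) (a := 9 * Iq F e)
    (b := 9 * Iq F e') hI' (by
      have := (Iq_change hF hns e e').mul_left 9
      convert this using 1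
      ring)
  obtain ⟨B, hB, hB'⟩ := exists_div hF hns hoo (m := 12) (d := 54) (a := -27 * Jq F e)
    (b := -27 * Jq F e') hJ' (by
      have := (Jq_change hF hns e e').mul_left (-27)
      convert this using 1
      ring)
  refine ⟨α, B, hα, hB, fun e'' => ?_, fun e'' => ?_⟩
  · apply hcancel 8
    have h1 := ((Iq_change hF hns e e'').mul_left 9).add (hα'.mul_left (lf e'' ^ 8))
    convert h1 using 1
    ring
  · apply hcancel 12
    have h1 := ((Jq_change hF hns e e'').mul_left (-27)).add (hB'.mul_left (lf e'' ^ 12))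
    convert h1 using 1
    ring

end Pool.Agent.Kim
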