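import Pool.Agent.Kim.MinModel
import Pool.Agent.Kim.BasicA

/-!
# The map from the Jacobian of the residual quartic to `X`: definitions

Let `c` be a point of the curve, `w` a root of `q_c`, `ε = e · c`, `A = q_c'(w)`. The point `(x, y)` of
`y ² = x ³ - 3 α(c) x + B(c)` is mapped to the point of `X` above `X c + (w X + A) d(c)`,
`X = ε ⁴ x / 9 - q_c''(w) / 6`, with the last coordinate `(w X + A) A ε ⁶ y / 27`.
-/

set_option autoImplicit false

noncomputable section

namespace Pool.Agent.Kim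

open Pool.Agent.ZCyc Pool.Agent.VFP Pool.Agent.TInf

universe u

variable {K : Type*} [Field K]

/-- the quartic with the coefficients `f 2, …, f 6` -/
def qv (f : ℕ → K) (w : K) : K := f 2 + f 3 * w + f 4 * w ^ 2 + f 5 * w ^ 3 + f 6 * w ^ 4

/-- its derivative -/
def qd (f : ℕ → K) (w : K) : K := f 3 + 2 * f 4 * w + 3 * f 5 * w ^ 2 + 4 * f 6 * w ^ 3

/-- its second derivative -/
def qdd (f : ℕ → K) (w : K) : K := 2 * f 4 + 6 * f 5 * w + 12 * f 6 * w ^ 2

/-- `ρ` are the roots of the quartic, and they are distinct -/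
structure Roots (f : ℕ → K) (ρ : Fin 4 → K) : Prop where
  inj : Function.Injective ρ
  eq : ∀ w, qv f w = f 6 * ∏ i, (w - ρ i)

variable {k : Type u} [Field k]

/-- The map for the root `w`. -/
def psi (F : MvPolynomial (Fin 3) k) (e : Fin 3 → k) {K : Type*} [Field K] [Algebra k K]
    (c : Fin 3 → K) (w : K) : EPt K → Pt K
  | none => ⟨fun i => c i + w * dd F e c i, 0⟩
  | some (x, y) =>
    ⟨fun i => (MvPolynomial.aeval c (lf e) ^ 4 * x / 9 - qdd (fc F e c) w / 6) * c i +
        (w * (MvPolynomial.aeval c (lf e) ^ 4 * x / 9 - qdd (fc F e c) w / 6) +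
          qd (fc F e c) w) * dd F e c i,
      (w * (MvPolynomial.aeval c (lf e) ^ 4 * x / 9 - qdd (fc F e c) w / 6) +
        qd (fc F e c) w) * qd (fc F e c) w * (MvPolynomial.aeval c (lf e) ^ 6 * y) / 27⟩

end Pool.Agent.Kim
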