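import Pool.Agent.Kim.PsiDef
import Pool.Agent.Kim.QLine
import Pool.Agent.Kim.QGrad

/-!
# The map is a map to `X`
-/

set_option autoImplicit false

noncomputable section

namespace Pool.Agent.Kim

open Pool.Agent.ZCyc Pool.Agent.VFP Pool.Agent.TInf

universe u

variable {k : Type u} [Field k] {F : MvPolynomial (Fin 3) k}

theorem psi_neg (e : Fin 3 → k) {K : Type*} [Field K] [Algebra k K] (c : Fin 3 → K) (w x y : K) :
    psi F e c w (some (x, -y)) = (psi F e c w (some (x, y))).sg (-1) := by
  ext
  · rfl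
  · simp only [psi, Pt.sg, Units.val_neg, Units.val_one, Int.cast_neg, Int.cast_one]
    ring

/-- the identity -/
private theorem psiOn_id {K : Type*} [Field K] [CharZero K] {f : ℕ → K} {w : K}
    (hw : qv f w = 0) (x : K) :
    f 2 * (x / 9 - qdd f w / 6) ^ 4 +
      f 3 * (x / 9 - qdd f w / 6) ^ 3 * (w * (x / 9 - qdd f w / 6) + qd f w) +
      f 4 * (x / 9 - qdd f w / 6) ^ 2 * (w * (x / 9 - qdd f w / 6) + qd f w) ^ 2 +
      f 5 * (x / 9 - qdd f w / 6) * (w * (x / 9 - qdd f w / 6) + qd f w) ^ 3 +
      f 6 * (w * (x / 9 - qdd f w / 6) + qd f w) ^ 4 =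
    qd f w ^ 2 * (x ^ 3 - 27 * invI f * x - 27 * invJ f) / 27 ^ 2 := by
  have h2 : f 2 = -(f 3 * w + f 4 * w ^ 2 + f 5 * w ^ 3 + f 6 * w ^ 4) := by
    unfold qv at hw
    linear_combination hw
  unfold qd qdd invI invJ
  rw [h2]
  ring

private theorem psiOn_aux {e : Fin 3 → k} {K : Type*} [Field K] [Algebra k K] {c : Fin 3 → K} :
    MvPolynomial.aeval c (Iq F e) = invI (fc F e c) ∧
      MvPolynomial.aeval c (Jq F e) = invJ (fc F e c) := by
  unfold Iq Jq invI invJ fc
  constructor
  · simp only [map_add, map_sub, map_mul, map_pow, map_ofNat]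
  · simp only [map_add, map_sub, map_mul, map_pow, map_ofNat]

/-- The image is a point of `X`. (With `u = X`, `v = w X + A`: `q(u, v) = (A y' / 27) ²`,
`y' ² = x' ³ - 27 I x' - 27 J`, `x' = ε ⁴ x`, `y' = ε ⁶ y`.) -/
theorem psi_on [CharZero k] (hF : F.IsHomogeneous 6) {α B : MvPolynomial (Fin 3) k}
    (hm : MinModel F α B) {e : Fin 3 → k} {K : Type*} [Field K] [Algebra k K] {c : Fin 3 → K}
    (hc : MvPolynomial.aeval c F = 0) (he : MvPolynomial.aeval c (lf e) ≠ 0) (hg : grad F c ≠ 0)
    {w : K} (hw : qv (fc F e c) w = 0) (hA : qd (fc F e c) w ≠ 0) {P : EPt K}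
    (hP : EOn (MvPolynomial.aeval c α) (MvPolynomial.aeval c B) P) : OnX F (psi F e c w P) := by
  have hchar : CharZero K := charZero_of_injective_algebraMap (algebraMap k K).injective
  have hinf : Infinite K := inferInstance
  rcases P with _ | ⟨x, y⟩
  · constructor
    · intro h
      have h1 := (indep_dd (e := e) (u := 1) (v := w) hF hc he hg fun i => by
        have h2 := congrFun h i
        simp only [psi, Pi.zero_apply] at h2
        rw [one_mul, h2]).1
      exact one_ne_zero h1
    · have h1 := line_eval_curve (e := e) hF hc 1 w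
      simp only [psi]
      have h2 : (fun i => c i + w * dd F e c i) = fun i => 1 * c i + w * dd F e c i := by
        funext i
        rw [one_mul]
      rw [h2, h1]
      unfold qv at hw
      linear_combination (-w ^ 2) * hw
  · have hI : 9 * invI (fc F e c) =
        MvPolynomial.aeval c (lf e) ^ 8 * MvPolynomial.aeval c α := by
      obtain ⟨g, hg'⟩ := hm.eqα e
      have h1 := congrArg (MvPolynomial.aeval c) hg'
      rw [map_mul, hc, zero_mul, map_sub, map_mul, map_mul, map_pow, psiOn_aux.1,
        map_ofNat] at h1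
      exact sub_eq_zero.1 h1
    have hJ : -27 * invJ (fc F e c) =
        MvPolynomial.aeval c (lf e) ^ 12 * MvPolynomial.aeval c B := by
      obtain ⟨g, hg'⟩ := hm.eqB e
      have h1 := congrArg (MvPolynomial.aeval c) hg'
      rw [map_mul, hc, zero_mul, map_sub, map_mul, map_mul, map_pow, psiOn_aux.2, map_neg,
        map_ofNat] at h1
      exact sub_eq_zero.1 h1
    have hP' : y ^ 2 = x ^ 3 - 3 * MvPolynomial.aeval c α * x + MvPolynomial.aeval c B := hP
    set ε := MvPolynomial.aeval c (lf e) with hε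
    constructor
    · intro h
      have h1 := indep_dd (e := e) (u := ε ^ 4 * x / 9 - qdd (fc F e c) w / 6)
        (v := w * (ε ^ 4 * x / 9 - qdd (fc F e c) w / 6) + qd (fc F e c) w) hF hc he hg
        fun i => congrFun h i
      apply hA
      rw [h1.1, mul_zero, zero_add] at h1
      exact h1.2
    · have h1 := line_eval_curve (e := e) hF hc (ε ^ 4 * x / 9 - qdd (fc F e c) w / 6)
        (w * (ε ^ 4 * x / 9 - qdd (fc F e c) w / 6) + qd (fc F e c) w)
      have h2 := psiOn_id hw (ε ^ 4 * x)
      refine Eq.trans ?_ h1.symm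
      rw [h2]
      simp only [psi]
      rw [← hε]
      have h3 : (ε ^ 6 * y) ^ 2 = (ε ^ 4 * x) ^ 3 - 27 * invI (fc F e c) * (ε ^ 4 * x) -
          27 * invJ (fc F e c) := by
        rw [mul_pow, hP']
        linear_combination (3 * ε ^ 4 * x) * hI - hJ
      rw [← h3]
      ring

/-- the image is above the tangent line -/
theorem psi_tangent (hF : F.IsHomogeneous 6) {e : Fin 3 → k} {K : Type*} [Field K] [Algebra k K]
    {c : Fin 3 → K} (hc : MvPolynomial.aeval c F = 0) (w : K) (P : EPt K) :
    ∑ i, grad F c i * (psi F e c w P).x i = 0 := by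
  have h1 := grad_self hF c
  have h2 := grad_dd (F := F) (e := e) c
  rw [hc, mul_zero] at h1
  have h3 : ∀ u v : K, ∑ i, grad F c i * (u * c i + v * dd F e c i) = 0 := by
    intro u v
    have h4 : ∀ i, grad F c i * (u * c i + v * dd F e c i) =
        u * (grad F c i * c i) + v * (grad F c i * dd F e c i) := fun i => by ring
    rw [Finset.sum_congr rfl fun i _ => h4 i, Finset.sum_add_distrib, ← Finset.mul_sum,
      ← Finset.mul_sum, h1, h2, mul_zero, mul_zero, add_zero]
  rcases P with _ | ⟨x, y⟩
  · have h4 := h3 1 w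
    simp only [one_mul] at h4
    exact h4
  · exact h3 _ _

end Pool.Agent.Kim
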