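import Pool.Agent.Kim.PsiOn

/-!
# Translation by points of order two
-/

set_option autoImplicit false

noncomputable section

namespace Pool.Agent.Kim

open Pool.Agent.ZCyc Pool.Agent.VFP Pool.Agent.TInf

universe u

variable {k : Type u} [Field k] {F : MvPolynomial (Fin 3) k}

private theorem ptr_others : ∀ i j : Fin 4, i ≠ j → ∃ a b : Fin 4, i ≠ a ∧ i ≠ b ∧ j ≠ a ∧
    j ≠ b ∧ a ≠ b ∧ (Finset.univ : Finset (Fin 4)) = {i, j, a, b} := by
  decide

private theorem ptr_prod {K : Type*} [Field K] {i j a b : Fin 4} (hij : i ≠ j) (hia : i ≠ a)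
    (hib : i ≠ b) (hja : j ≠ a) (hjb : j ≠ b) (hab : a ≠ b)
    (h : (Finset.univ : Finset (Fin 4)) = {i, j, a, b}) (g : Fin 4 → K) :
    ∏ l, g l = g i * (g j * (g a * g b)) := by
  rw [h, Finset.prod_insert (by simp [hij, hia, hib]), Finset.prod_insert (by simp [hja, hjb]),
    Finset.prod_insert (by simp [hab]), Finset.prod_singleton]

private theorem ptr_coeffs {K : Type*} [Field K] [CharZero K] {f : ℕ → K} {p q s t : K}
    (h : ∀ w, qv f w = f 6 * ((w - p) * ((w - q) * ((w - s) * (w - t))))) :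
    f 5 = -f 6 * (p + q + s + t) ∧ f 4 = f 6 * (p * q + p * s + p * t + q * s + q * t + s * t) ∧
      f 3 = -f 6 * (p * q * s + p * q * t + p * s * t + q * s * t) ∧
      f 2 = f 6 * (p * q * s * t) := by
  have h0 := h 0
  have h1 := h 1
  have h2 := h (-1)
  have h3 := h 2
  simp only [qv] at h0 h1 h2 h3
  have e0 : f 2 = f 6 * (p * q * s * t) := by linear_combination h0
  have e2 : f 4 = f 6 * (p * q + p * s + p * t + q * s + q * t + s * t) := by
    linear_combination (h1 + h2) / 2 - h0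
  have e3 : f 5 = -f 6 * (p + q + s + t) := by
    linear_combination (h3 - h0 - 4 * ((h1 + h2) / 2 - h0) - 2 * ((h1 - h2) / 2)) / 6
  refine ⟨e3, e2, ?_, e0⟩
  linear_combination (h1 - h2) / 2 - e3

/-- the algebra -/
private theorem ptr_core {K : Type*} [Field K] [CharZero K] {f : ℕ → K} {ρ : Fin 4 → K}
    (h6 : f 6 ≠ 0) (hρ : Roots f ρ) {i j : Fin 4} (hij : i ≠ j) :
    ∃ Eu Du : K, Du ≠ 0 ∧ qd f (ρ i) ≠ 0 ∧
      Eu * (ρ j - ρ i) = qd f (ρ i) + qdd f (ρ i) / 6 * (ρ j - ρ i) ∧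
      Eu * (ρ j - ρ i) = -qd f (ρ j) + qdd f (ρ j) / 6 * (ρ j - ρ i) ∧
      Du * (ρ j - ρ i) ^ 2 = -(qd f (ρ i) * qd f (ρ j)) ∧
      3 * Eu ^ 2 - invI f / 3 = Du ∧ Eu ^ 3 - invI f / 3 * Eu - invJ f / 27 = 0 := by
  obtain ⟨a, b, hia, hib, hja, hjb, hab, hu⟩ := ptr_others i j hij
  have hc := ptr_coeffs (f := f) (p := ρ i) (q := ρ j) (s := ρ a) (t := ρ b) (fun w => by
    rw [hρ.eq w, ptr_prod hij hia hib hja hjb hab hu])
  obtain ⟨h5, h4, h3, h2⟩ := hc
  have n1 : ρ i - ρ j ≠ 0 := sub_ne_zero.2 fun h => hij (hρ.inj h)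
  have n2 : ρ i - ρ a ≠ 0 := sub_ne_zero.2 fun h => hia (hρ.inj h)
  have n3 : ρ i - ρ b ≠ 0 := sub_ne_zero.2 fun h => hib (hρ.inj h)
  have n4 : ρ j - ρ a ≠ 0 := sub_ne_zero.2 fun h => hja (hρ.inj h)
  have n5 : ρ j - ρ b ≠ 0 := sub_ne_zero.2 fun h => hjb (hρ.inj h)
  generalize ρ i = p at *
  generalize ρ j = q at *
  generalize ρ a = s at *
  generalize ρ b = t at *
  have hA : qd f p = f 6 * (p - q) * (p - s) * (p - t) := by
    simp only [qd, h3, h4, h5]
    ring
  have hB : qd f q = f 6 * (q - p) * (q - s) * (q - t) := by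
    simp only [qd, h3, h4, h5]
    ring
  refine ⟨f 6 * ((p * s + p * t + q * s + q * t) - 2 * (p * q + s * t)) / 3,
    f 6 ^ 2 * (p - s) * (p - t) * (q - s) * (q - t), ?_, ?_, ?_, ?_, ?_, ?_, ?_⟩
  · exact mul_ne_zero (mul_ne_zero (mul_ne_zero (mul_ne_zero (pow_ne_zero 2 h6) n2) n3) n4) n5
  · rw [hA]
    exact mul_ne_zero (mul_ne_zero (mul_ne_zero h6 n1) n2) n3
  · rw [hA]
    simp only [qdd, h4, h5]
    ring
  · rw [hB]
    simp only [qdd, h4, h5]
    ring
  · rw [hA, hB]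
    ring
  · simp only [invI, h2, h3, h4, h5]
    ring
  · simp only [invI, invJ, h2, h3, h4, h5]
    ring

/-- Translation by a point of order two. Take
`E = 9 (A / (ρ_j - ρ_i) + q''(ρ_i) / 6) / ε ⁴`, `A = q'(ρ_i)`, `ε = e · c`; it is the first coordinate of
the point of order two which corresponds to the root `ρ_j` if the root `ρ_i` is used as the origin, and
`D = (E - E') (E - E'')` for the other two points of order two. The image of `(x, y)` for the
origin `ρ_j` is the image of the translate `(E + D / (x - E), - y D / (x - E) ²)` for the origin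
`ρ_i`. (Write `q = f_6 ∏ (w - ρ_l)`; checked by computer algebra. The scaling factor is the quotient of
the coefficients of `c`, or of `d(c)`.) -/
theorem psi_translate [CharZero k] (hF : F.IsHomogeneous 6) {α B : MvPolynomial (Fin 3) k}
    (hm : MinModel F α B) {e : Fin 3 → k} {c : Fin 3 → k}
    (hc : MvPolynomial.aeval c F = 0) (he : MvPolynomial.aeval c (lf e) ≠ 0) (hg : grad F c ≠ 0)
    (h6 : fc F e c 6 ≠ 0) {ρ : Fin 4 → k} (hρ : Roots (fc F e c) ρ) {i j : Fin 4} (hij : i ≠ j) :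
    ∃ E D : k, E ^ 3 - 3 * MvPolynomial.aeval c α * E + MvPolynomial.aeval c B = 0 ∧
      D = 3 * E ^ 2 - 3 * MvPolynomial.aeval c α ∧ D ≠ 0 ∧
      ∀ x y : k, x ≠ E →
        y ^ 2 = x ^ 3 - 3 * MvPolynomial.aeval c α * x + MvPolynomial.aeval c B →
        ∃ l : k, l ≠ 0 ∧ psi F e c (ρ j) (some (x, y)) =
          (psi F e c (ρ i) (some (E + D / (x - E), -(y * D / (x - E) ^ 2)))).scale l := by
  have hI : 9 * invI (fc F e c) =
      MvPolynomial.aeval c (lf e) ^ 8 * MvPolynomial.aeval c α := by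
    obtain ⟨g, hg'⟩ := hm.eqα e
    have h := congrArg (MvPolynomial.aeval c) hg'
    rw [map_mul, hc, zero_mul] at h
    simp only [map_sub, map_mul, map_pow, Iq, invI, map_add, map_ofNat] at h
    simp only [invI, fc]
    linear_combination h
  have hJ : -27 * invJ (fc F e c) =
      MvPolynomial.aeval c (lf e) ^ 12 * MvPolynomial.aeval c B := by
    obtain ⟨g, hg'⟩ := hm.eqB e
    have h := congrArg (MvPolynomial.aeval c) hg'
    rw [map_mul, hc, zero_mul] at h
    simp only [map_sub, map_mul, map_pow, Jq, invJ, map_add, map_ofNat, map_neg] at h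
    simp only [invJ, fc]
    linear_combination h
  obtain ⟨Eu, Du, hD0, hA0, hE1, hE2, hDu, hD, hE⟩ := ptr_core h6 hρ hij
  have hr : ρ j - ρ i ≠ 0 := sub_ne_zero.2 fun h => hij (hρ.inj h).symm
  generalize hε : MvPolynomial.aeval c (lf e) = ε at *
  generalize MvPolynomial.aeval c α = αc at *
  generalize MvPolynomial.aeval c B = Bc at *
  have hε4 : ε ^ 4 ≠ 0 := pow_ne_zero 4 he
  refine ⟨9 * Eu / ε ^ 4, 81 * Du / ε ^ 8, ?_, ?_, ?_, ?_⟩
  · have h1 : (9 * Eu / ε ^ 4) ^ 3 - 3 * αc * (9 * Eu / ε ^ 4) + Bc =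
        729 * (Eu ^ 3 - ε ^ 8 * αc / 27 * Eu + ε ^ 12 * Bc / 729) / ε ^ 12 := by
      field_simp
      ring
    rw [h1, ← hI, ← hJ]
    have h2 : Eu ^ 3 - 9 * invI (fc F e c) / 27 * Eu + -27 * invJ (fc F e c) / 729 = 0 := by
      linear_combination hE
    rw [h2]
    simp
  · have h1 : 3 * (9 * Eu / ε ^ 4) ^ 2 - 3 * αc =
        81 * (3 * Eu ^ 2 - ε ^ 8 * αc / 27) / ε ^ 8 := by
      field_simp
      ring
    rw [h1, ← hI, ← hD]
    ring
  · exact div_ne_zero (mul_ne_zero (by norm_num) hD0) (pow_ne_zero 8 he)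
  · intro x y hx hy
    have hU : ε ^ 4 * x / 9 - Eu ≠ 0 := by
      intro h
      apply hx
      rw [eq_div_iff hε4]
      linear_combination 9 * h
    generalize hUU : ε ^ 4 * x / 9 - Eu = U at hU
    have hxE : x - 9 * Eu / ε ^ 4 = 9 * U / ε ^ 4 := by
      rw [← hUU]
      field_simp
    refine ⟨(ρ j - ρ i) * U / qd (fc F e c) (ρ i), ?_, ?_⟩
    · exact div_ne_zero (mul_ne_zero hr hU) hA0
    · have hy2 : -(y * (81 * Du / ε ^ 8) / (9 * U / ε ^ 4) ^ 2) =
          y * (qd (fc F e c) (ρ i) * qd (fc F e c) (ρ j)) / ((ρ j - ρ i) ^ 2 * U ^ 2) := by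
        have h1 : -(y * (81 * Du / ε ^ 8) / (9 * U / ε ^ 4) ^ 2) = -(y * Du) / U ^ 2 := by
          field_simp
          ring
        rw [h1, div_eq_div_iff (pow_ne_zero 2 hU)
          (mul_ne_zero (pow_ne_zero 2 hr) (pow_ne_zero 2 hU))]
        linear_combination (-(y * U ^ 2)) * hDu
      have hx2 : ε ^ 4 * (9 * Eu / ε ^ 4 + 81 * Du / ε ^ 8 / (9 * U / ε ^ 4)) / 9 =
          Eu + Du / U := by
        field_simp
        ring
      have hX : ε ^ 4 * x / 9 - qdd (fc F e c) (ρ j) / 6 =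
          U - qd (fc F e c) (ρ j) / (ρ j - ρ i) := by
        rw [← hUU]
        have h1 : Eu = -(qd (fc F e c) (ρ j) / (ρ j - ρ i)) + qdd (fc F e c) (ρ j) / 6 := by
          field_simp
          linear_combination 6 * hE2
        linear_combination h1
      have hX' : Eu + Du / U - qdd (fc F e c) (ρ i) / 6 =
          qd (fc F e c) (ρ i) / ((ρ j - ρ i) * U) *
            (U - qd (fc F e c) (ρ j) / (ρ j - ρ i)) := by
        have h1 : Eu = qd (fc F e c) (ρ i) / (ρ j - ρ i) + qdd (fc F e c) (ρ i) / 6 := by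
          field_simp
          linear_combination 6 * hE1
        have h2 : Du = -(qd (fc F e c) (ρ i) * qd (fc F e c) (ρ j)) / (ρ j - ρ i) ^ 2 := by
          rw [eq_div_iff (pow_ne_zero 2 hr), hDu]
        rw [h1, h2]
        field_simp
        ring
      have hρj : ρ j = ρ i + (ρ j - ρ i) := by ring
      simp only [psi, Pt.scale, hε, hxE]
      rw [hX, hy2, hx2, hX']
      generalize qd (fc F e c) (ρ j) = Aj
      generalize qd (fc F e c) (ρ i) = Ai at hA0 ⊢
      generalize ρ j - ρ i = r at hρj hr ⊢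
      rw [hρj]
      apply Pt.ext
      · funext m
        generalize dd F e c m = dm
        simp only
        field_simp
        ring
      · simp only
        field_simp
        ring

end Pool.Agent.Kim
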