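import Pool.Agent.Kim.BaseC

/-!
# The tangent lines of the curve `F = 0`, and the residual quartics: definitions

`e` is a vector, `d(c) = grad F(c) × e`, and `F(u c + v d(c)) = ∑ F_m(c) u ^ (6 - m) v ^ m`. For a
point `c` of the curve `F_0(c) = F_1(c) = 0`, and the residual quartic is
`q_c(w) = F_2 + F_3 w + F_4 w ² + F_5 w ³ + F_6 w ⁴`.
-/

set_option autoImplicit false

noncomputable section

namespace Pool.Agent.Kim

open Pool.Agent.ZCyc Pool.Agent.VFP

universe u

variable {k : Type u} [Field k]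

/-- the linear form with the coefficients `e` -/
def lf (e : Fin 3 → k) : MvPolynomial (Fin 3) k :=
  ∑ i, MvPolynomial.C (e i) * MvPolynomial.X i

/-- the gradient at the vector `c` -/
def grad (F : MvPolynomial (Fin 3) k) {K : Type*} [Field K] [Algebra k K] (c : Fin 3 → K)
    (i : Fin 3) : K := MvPolynomial.aeval c (MvPolynomial.pderiv i F)

/-- the vector `grad F × e` -/
def dv (F : MvPolynomial (Fin 3) k) (e : Fin 3 → k) : Fin 3 → MvPolynomial (Fin 3) k :=
  ![MvPolynomial.pderiv 1 F * MvPolynomial.C (e 2) - MvPolynomial.pderiv 2 F * MvPolynomial.C (e 1),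
    MvPolynomial.pderiv 2 F * MvPolynomial.C (e 0) - MvPolynomial.pderiv 0 F * MvPolynomial.C (e 2),
    MvPolynomial.pderiv 0 F * MvPolynomial.C (e 1) - MvPolynomial.pderiv 1 F * MvPolynomial.C (e 0)]

/-- the vector `d(c)` -/
def dd (F : MvPolynomial (Fin 3) k) (e : Fin 3 → k) {K : Type*} [Field K] [Algebra k K]
    (c : Fin 3 → K) (i : Fin 3) : K := MvPolynomial.aeval c (dv F e i)

/-- the coefficient `F_m` of `w ^ m` in `F(c + w d(c))` -/
def Fc (F : MvPolynomial (Fin 3) k) (e : Fin 3 → k) (m : ℕ) : MvPolynomial (Fin 3) k :=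
  (MvPolynomial.aeval (fun i => (Polynomial.C (MvPolynomial.X i) +
    Polynomial.X * Polynomial.C (dv F e i) : Polynomial (MvPolynomial (Fin 3) k))) F).coeff m

/-- the value of `F_m` at `c` -/
def fc (F : MvPolynomial (Fin 3) k) (e : Fin 3 → k) {K : Type*} [Field K] [Algebra k K]
    (c : Fin 3 → K) (m : ℕ) : K := MvPolynomial.aeval c (Fc F e m)

/-- the invariant of degree two of the quartic with coefficients `f 2, …, f 6` -/
def invI {R : Type*} [CommRing R] (f : ℕ → R) : R := 12 * f 6 * f 2 - 3 * f 5 * f 3 + f 4 ^ 2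

/-- the invariant of degree three -/
def invJ {R : Type*} [CommRing R] (f : ℕ → R) : R :=
  72 * f 6 * f 4 * f 2 + 9 * f 5 * f 4 * f 3 - 27 * f 6 * f 3 ^ 2 - 27 * f 2 * f 5 ^ 2 -
    2 * f 4 ^ 3

/-- the invariant `I` as a form in `c` -/
def Iq (F : MvPolynomial (Fin 3) k) (e : Fin 3 → k) : MvPolynomial (Fin 3) k := invI (Fc F e)

/-- the invariant `J` as a form in `c` -/
def Jq (F : MvPolynomial (Fin 3) k) (e : Fin 3 → k) : MvPolynomial (Fin 3) k := invJ (Fc F e)

/-- four times the cube of `I` minus the square of `J` (the discriminant up to a constant) -/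
def Dq (F : MvPolynomial (Fin 3) k) (e : Fin 3 → k) : MvPolynomial (Fin 3) k :=
  4 * Iq F e ^ 3 - Jq F e ^ 2

variable {F : MvPolynomial (Fin 3) k} {e : Fin 3 → k} {K : Type*} [Field K] [Algebra k K]

end Pool.Agent.Kim
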