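import Pool.Agent.Kim.QDef

/-!
# The forms `F_m`
-/

set_option autoImplicit false

noncomputable section

namespace Pool.Agent.Kim

open Pool.Agent.ZCyc Pool.Agent.VFP

universe u

variable {k : Type u} [Field k] {F : MvPolynomial (Fin 3) k} {e : Fin 3 → k}

/-- the substitution `x ↦ x + w d` -/
private def qhS (d : Fin 3 → MvPolynomial (Fin 3) k) :
    MvPolynomial (Fin 3) k →ₐ[k] Polynomial (MvPolynomial (Fin 3) k) :=
  MvPolynomial.aeval (fun i => (Polynomial.C (MvPolynomial.X i) +
    Polynomial.X * Polynomial.C (d i) : Polynomial (MvPolynomial (Fin 3) k)))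

private lemma qhS_X (d : Fin 3 → MvPolynomial (Fin 3) k) (i : Fin 3) :
    qhS d (MvPolynomial.X i) = Polynomial.C (MvPolynomial.X i) +
      Polynomial.X * Polynomial.C (d i) := MvPolynomial.aeval_X _ i

private lemma qhS_C (d : Fin 3 → MvPolynomial (Fin 3) k) (a : k) :
    qhS d (MvPolynomial.C a) = Polynomial.C (MvPolynomial.C a) := MvPolynomial.aeval_C _ a

private lemma qh_coeff_zero (d : Fin 3 → MvPolynomial (Fin 3) k) (p : MvPolynomial (Fin 3) k) :
    (qhS d p).coeff 0 = p := by
  induction p using MvPolynomial.induction_on with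
  | C a => rw [qhS_C, Polynomial.coeff_C_zero]
  | add p q hp hq => rw [map_add, Polynomial.coeff_add, hp, hq]
  | mul_X p i hp =>
    rw [map_mul, qhS_X, Polynomial.mul_coeff_zero, hp]
    simp

private lemma qh_coeff_one (d : Fin 3 → MvPolynomial (Fin 3) k) (p : MvPolynomial (Fin 3) k) :
    (qhS d p).coeff 1 = ∑ i, MvPolynomial.pderiv i p * d i := by
  induction p using MvPolynomial.induction_on with
  | C a =>
    rw [qhS_C, Polynomial.coeff_C_of_ne_zero one_ne_zero]
    simp
  | add p q hp hq =>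
    rw [map_add, Polynomial.coeff_add, hp, hq, ← Finset.sum_add_distrib]
    refine Finset.sum_congr rfl fun i _ => ?_
    rw [map_add, add_mul]
  | mul_X p j hp =>
    rw [map_mul, qhS_X, mul_add, Polynomial.coeff_add, Polynomial.coeff_mul_C, hp,
      ← mul_assoc, Polynomial.coeff_mul_C, Polynomial.coeff_mul_X, qh_coeff_zero]
    have key : ∀ i, MvPolynomial.pderiv i (p * MvPolynomial.X j) * d i =
        MvPolynomial.pderiv i p * d i * MvPolynomial.X j + if j = i then p * d i else 0 := by
      intro i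
      rw [Derivation.leibniz, MvPolynomial.pderiv_X, smul_eq_mul, smul_eq_mul, Pi.single_apply]
      by_cases h : j = i
      · rw [if_pos h, if_pos h]
        ring
      · rw [if_neg h, if_neg h]
        ring
    rw [Finset.sum_congr rfl fun i _ => key i, Finset.sum_add_distrib, ← Finset.sum_mul,
      Finset.sum_ite_eq]
    simp

/-- the coefficient of `w ^ m` is a form of degree `a + 4 m` -/
private def QH (a : ℕ) (f : Polynomial (MvPolynomial (Fin 3) k)) : Prop :=
  ∀ m, (f.coeff m).IsHomogeneous (a + 4 * m)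

private lemma QH.mul {a b : ℕ} {f g : Polynomial (MvPolynomial (Fin 3) k)} (hf : QH a f)
    (hg : QH b g) : QH (a + b) (f * g) := by
  intro m
  rw [Polynomial.coeff_mul]
  refine MvPolynomial.IsHomogeneous.sum _ _ _ fun x hx => ?_
  have h := (hf x.1).mul (hg x.2)
  have hx := Finset.HasAntidiagonal.mem_antidiagonal.1 hx
  convert h using 1
  omega

private lemma QH.pow {a : ℕ} {f : Polynomial (MvPolynomial (Fin 3) k)} (hf : QH a f) (n : ℕ) :
    QH (n * a) (f ^ n) := by
  induction n with
  | zero =>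
    intro m
    rw [pow_zero, Polynomial.coeff_one]
    split_ifs with h
    · subst h
      simpa using MvPolynomial.isHomogeneous_one (Fin 3) k
    · exact MvPolynomial.isHomogeneous_zero _ _ _
  | succ n ih =>
    rw [pow_succ, Nat.succ_mul]
    exact ih.mul hf

private lemma QH_C (r : k) : QH 0 (Polynomial.C (MvPolynomial.C r)) := by
  intro m
  rw [Polynomial.coeff_C]
  split_ifs with h
  · subst h
    exact MvPolynomial.isHomogeneous_C _ r
  · exact MvPolynomial.isHomogeneous_zero _ _ _

private lemma QH_lin {d : Fin 3 → MvPolynomial (Fin 3) k} (hd : ∀ i, (d i).IsHomogeneous 5)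
    (i : Fin 3) : QH 1 (Polynomial.C (MvPolynomial.X i) + Polynomial.X * Polynomial.C (d i)) := by
  intro m
  rw [Polynomial.coeff_add, Polynomial.coeff_mul_C, Polynomial.coeff_C, Polynomial.coeff_X]
  rcases m with _ | _ | m
  · simpa using MvPolynomial.isHomogeneous_X k i
  · simpa using hd i
  · simpa using MvPolynomial.isHomogeneous_zero _ _ _

private lemma QH_subst {d : Fin 3 → MvPolynomial (Fin 3) k} (hd : ∀ i, (d i).IsHomogeneous 5)
    {p : MvPolynomial (Fin 3) k} {a : ℕ} (hp : p.IsHomogeneous a) : QH a (qhS d p) := by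
  intro m
  rw [qhS, MvPolynomial.aeval_def, MvPolynomial.eval₂_eq', Polynomial.finsetSum_coeff]
  refine MvPolynomial.IsHomogeneous.sum _ _ _ fun s hs => ?_
  have h1 : s.degree = a := by
    have := hp (MvPolynomial.mem_support_iff.1 hs)
    rw [← this, Finsupp.degree_eq_weight_one]
    rfl
  have h2 : QH (0 + (s 0 * 1 + s 1 * 1 + s 2 * 1)) (Polynomial.C (MvPolynomial.C (p.coeff s)) *
      ∏ i, (Polynomial.C (MvPolynomial.X i) +
        Polynomial.X * Polynomial.C (d i) : Polynomial (MvPolynomial (Fin 3) k)) ^ s i) := by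
    refine (QH_C _).mul ?_
    rw [Fin.prod_univ_three]
    exact (((QH_lin hd 0).pow _).mul ((QH_lin hd 1).pow _)).mul ((QH_lin hd 2).pow _)
  have h3 : a = 0 + (s 0 * 1 + s 1 * 1 + s 2 * 1) := by
    rw [← h1, Finsupp.degree_eq_sum, Fin.sum_univ_three]
    omega
  rw [h3]
  exact h2 m

private lemma qh_natDegree {d : Fin 3 → MvPolynomial (Fin 3) k}
    {p : MvPolynomial (Fin 3) k} {a : ℕ} (hp : p.IsHomogeneous a) : (qhS d p).natDegree ≤ a := by
  rw [qhS, MvPolynomial.aeval_def, MvPolynomial.eval₂_eq']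
  refine Polynomial.natDegree_sum_le_of_forall_le _ _ fun s hs => ?_
  have h1 : s.degree = a := by
    have := hp (MvPolynomial.mem_support_iff.1 hs)
    rw [← this, Finsupp.degree_eq_weight_one]
    rfl
  refine (Polynomial.natDegree_C_mul_le _ _).trans ?_
  refine (Polynomial.natDegree_prod_le _ _).trans ?_
  rw [← h1, Finsupp.degree_eq_sum]
  refine Finset.sum_le_sum fun i _ => ?_
  refine (Polynomial.natDegree_pow_le).trans ?_
  have h2 : (Polynomial.C (MvPolynomial.X i) + Polynomial.X * Polynomial.C (d i) :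
      Polynomial (MvPolynomial (Fin 3) k)).natDegree ≤ 1 := by
    compute_degree
  calc s i * _ ≤ s i * 1 := Nat.mul_le_mul_left _ h2
    _ = s i := mul_one _

private lemma dv_hom (hF : F.IsHomogeneous 6) (i : Fin 3) : (dv F e i).IsHomogeneous 5 := by
  have h : ∀ (j : Fin 3) (r : k), (MvPolynomial.pderiv j F * MvPolynomial.C r).IsHomogeneous 5 :=
    fun j r => by
      have h1 : (MvPolynomial.pderiv j F).IsHomogeneous 5 := hF.pderiv
      simpa using h1.mul (MvPolynomial.isHomogeneous_C (Fin 3) r)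
  fin_cases i
  · exact (h 1 _).sub (h 2 _)
  · exact (h 2 _).sub (h 0 _)
  · exact (h 0 _).sub (h 1 _)

theorem Fc_zero : Fc F e 0 = F := qh_coeff_zero (dv F e) F

/-- `grad F · (grad F × e) = 0` -/
theorem Fc_one : Fc F e 1 = 0 := by
  refine (qh_coeff_one (dv F e) F).trans ?_
  rw [Fin.sum_univ_three]
  simp only [dv, Matrix.cons_val]
  ring

/-- every variable of `F` is replaced by a polynomial whose coefficient of `w ^ m` is homogeneous of
degree `1 + 4 m` -/
theorem Fc_hom (hF : F.IsHomogeneous 6) (m : ℕ) : (Fc F e m).IsHomogeneous (6 + 4 * m) :=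
  QH_subst (dv_hom hF) hF m

theorem Fc_large (hF : F.IsHomogeneous 6) {m : ℕ} (hm : 6 < m) : Fc F e m = 0 :=
  Polynomial.coeff_eq_zero_of_natDegree_lt ((qh_natDegree (d := dv F e) hF).trans_lt hm)

private lemma qh_num {p : MvPolynomial (Fin 3) k} {a : ℕ} (hp : p.IsHomogeneous a) (n : ℕ)
    [n.AtLeastTwo] : ((OfNat.ofNat n : MvPolynomial (Fin 3) k) * p).IsHomogeneous a := by
  have h : (OfNat.ofNat n : MvPolynomial (Fin 3) k) = MvPolynomial.C (OfNat.ofNat n : k) :=
    (map_ofNat _ n).symm
  rw [h]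
  simpa using (MvPolynomial.isHomogeneous_C (Fin 3) (OfNat.ofNat n : k)).mul hp

theorem Iq_hom (hF : F.IsHomogeneous 6) : (Iq F e).IsHomogeneous 44 := by
  have h := fun m => Fc_hom (e := e) hF m
  unfold Iq invI
  refine ((?_ : MvPolynomial.IsHomogeneous _ 44).sub ?_).add ?_
  · exact (qh_num (h 6) 12).mul (h 2)
  · exact (qh_num (h 5) 3).mul (h 3)
  · exact (h 4).pow 2

theorem Jq_hom (hF : F.IsHomogeneous 6) : (Jq F e).IsHomogeneous 66 := by
  have h := fun m => Fc_hom (e := e) hF m
  unfold Jq invJ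
  refine (((((?_ : MvPolynomial.IsHomogeneous _ 66).add ?_).sub ?_).sub ?_).sub ?_)
  · exact ((qh_num (h 6) 72).mul (h 4)).mul (h 2)
  · exact ((qh_num (h 5) 9).mul (h 4)).mul (h 3)
  · exact (qh_num (h 6) 27).mul ((h 3).pow 2)
  · exact (qh_num (h 2) 27).mul ((h 5).pow 2)
  · exact qh_num ((h 4).pow 3) 2

end Pool.Agent.Kim
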